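import Pool.Agent.Work.MP_34d05d_al.DO.Defs

set_option autoImplicit false

/-!
# DO/GFib (size S-M): fibre products

PROOF. An element of FP s t is a pair (x, y) with s x = t y, of sign s x. The elements of sign ε are
{x : s x = ε} × {y : t y = ε} (Nat.card_congr, Nat.card_prod): k1, km. A commuting pair of FP with signs (ε, δ) is a
commuting pair (x, x') of G with signs (ε, δ) together with a commuting pair (y, y') of H with signs (ε, δ): hence
cp (fs s t) ε δ = cp s ε δ * cp t ε δ, and (a n)(a' n') = (a a')(n n'), (f n)(f' n') = (f f')(n n').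
-/

namespace Pool.Agent.Work.MP_34d05d_al.DO

private theorem gfib_card {G H : Type} [Group G] [Group H] (s : G →* ℤˣ) (t : H →* ℤˣ) (ε : ℤˣ) :
    Nat.card {x : FP s t // fs s t x = ε} =
      Nat.card {x : G // s x = ε} * Nat.card {y : H // t y = ε} := by
  rw [← Nat.card_prod]
  refine Nat.card_congr
    { toFun := fun q => (⟨q.1.1.1, q.2⟩, ⟨q.1.1.2, by
        have h1 : s q.1.1.1 = t q.1.1.2 := q.1.2
        rw [← h1]
        exact q.2⟩)
      invFun := fun q => ⟨⟨(q.1.1, q.2.1), by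
        show s q.1.1 = t q.2.1
        rw [q.1.2, q.2.2]⟩, q.1.2⟩
      left_inv := fun q => rfl
      right_inv := fun q => rfl }

private theorem gfib_comm {G H : Type} [Group G] [Group H] (s : G →* ℤˣ) (t : H →* ℤˣ)
    (x y : FP s t) : Commute x y ↔ Commute x.1.1 y.1.1 ∧ Commute x.1.2 y.1.2 := by
  constructor
  · intro h
    have h1 : (x * y : FP s t) = y * x := h
    have h2 : (x.1 * y.1 : G × H) = y.1 * x.1 := congrArg Subtype.val h1
    exact ⟨congrArg Prod.fst h2, congrArg Prod.snd h2⟩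
  · rintro ⟨h1, h2⟩
    show x * y = y * x
    apply Subtype.ext
    exact Prod.ext h1 h2

private theorem gfib_cp {G H : Type} [Group G] [Group H] (s : G →* ℤˣ) (t : H →* ℤˣ)
    (ε δ : ℤˣ) : cp (fs s t) ε δ = cp s ε δ * cp t ε δ := by
  unfold cp
  rw [← Nat.card_prod]
  refine Nat.card_congr
    { toFun := fun q => (⟨(q.1.1.1.1, q.1.2.1.1), ((gfib_comm s t _ _).1 q.2.1).1, q.2.2.1,
          q.2.2.2⟩,
        ⟨(q.1.1.1.2, q.1.2.1.2), ((gfib_comm s t _ _).1 q.2.1).2, by
          have h1 : s q.1.1.1.1 = t q.1.1.1.2 := q.1.1.2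
          show t q.1.1.1.2 = ε
          rw [← h1]
          exact q.2.2.1, by
          have h1 : s q.1.2.1.1 = t q.1.2.1.2 := q.1.2.2
          show t q.1.2.1.2 = δ
          rw [← h1]
          exact q.2.2.2⟩)
      invFun := fun q => ⟨(⟨(q.1.1.1, q.2.1.1), by
          show s q.1.1.1 = t q.2.1.1
          rw [q.1.2.2.1, q.2.2.2.1]⟩, ⟨(q.1.1.2, q.2.1.2), by
          show s q.1.1.2 = t q.2.1.2
          rw [q.1.2.2.2, q.2.2.2.2]⟩), (gfib_comm s t _ _).2 ⟨q.1.2.1, q.2.2.1⟩, q.1.2.2.1,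
          q.1.2.2.2⟩
      left_inv := fun q => rfl
      right_inv := fun q => rfl }

theorem fp_dat {G H : Type} [Group G] [Group H] {s : G →* ℤˣ} {t : H →* ℤˣ}
    {n f a n' f' a' : ℕ} (h : Dat s n f a) (h' : Dat t n' f' a') :
    Dat (fs s t) (n * n') (f * f') (a * a') := by
  refine ⟨?_, ?_, ?_, ?_⟩
  · rw [gfib_card, h.k1, h'.k1]
  · rw [gfib_card, h.km, h'.km]
  · rw [gfib_cp, h.c11, h'.c11]
    ring
  · rw [gfib_cp, h.c1m, h'.c1m]
    ring

end Pool.Agent.Work.MP_34d05d_al.DO
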