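import Pool.Agent.Work.MP_34d05d_al.DO.GFrob

set_option autoImplicit false

/-!
# DO/GFrobEx (size M): the groups C_q : C_2h and C_N : C_2

PROOFS.
`frob_exists`: q = 2hw+1 prime. A := Multiplicative (ZMod q). The unit group (ZMod q)ˣ is cyclic of order q - 1 = 2hw;
let γ be a generator and U := the subgroup generated by γ^w, cyclic of order 2h (or U := Multiplicative (ZMod (2h))
mapped by k ↦ γ^(w k)); φ u = multiplication by u (a unit acts on ZMod q; fixed points of u ≠ 1: (u - 1) x = 0, so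
x = 0 as q is prime). s : U → ℤˣ with s (γ^(w k)) = (-1)^k (well defined as 2h is even), or s u = 1 iff u^h = 1
(u^h is 1 or -1). The kernel and its complement have h elements each. Then `frob_dat`. (w ≥ 1 as q ≥ 2, h ≥ 1.)
`dih_exists`: N = 2w+1. A := Multiplicative (ZMod N), U := ℤˣ, φ ε = (x ↦ x^ε) (inversion for ε = -1; e.g.
`zpowGroupHom`, or by cases), s := identity, h = 1: each fibre has 1 element, |A| = 2*1*w+1. Fixed points of the
inversion: x² = 1, 2x = 0 in ZMod N, N odd, so x = 0. `frob_dat` gives Dat _ ((2*1*w+1)*1) 1 (1+2w).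
-/

namespace Pool.Agent.Work.MP_34d05d_al.DO

/-- units act on the additive group by multiplication -/
private def act (q : ℕ) : (ZMod q)ˣ →* MulAut (Multiplicative (ZMod q)) where
  toFun u :=
    { toFun := fun x => Multiplicative.ofAdd ((u : ZMod q) * x.toAdd)
      invFun := fun x => Multiplicative.ofAdd (((u⁻¹ : (ZMod q)ˣ) : ZMod q) * x.toAdd)
      left_inv := fun x => by
        apply Multiplicative.toAdd.injective
        show ((u⁻¹ : (ZMod q)ˣ) : ZMod q) * ((u : ZMod q) * x.toAdd) = x.toAdd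
        rw [← mul_assoc, Units.inv_mul, one_mul]
      right_inv := fun x => by
        apply Multiplicative.toAdd.injective
        show (u : ZMod q) * (((u⁻¹ : (ZMod q)ˣ) : ZMod q) * x.toAdd) = x.toAdd
        rw [← mul_assoc, Units.mul_inv, one_mul]
      map_mul' := fun x y => by
        apply Multiplicative.toAdd.injective
        show (u : ZMod q) * (x.toAdd + y.toAdd) = (u : ZMod q) * x.toAdd + (u : ZMod q) * y.toAdd
        exact mul_add _ _ _ }
  map_one' := by
    apply MulEquiv.ext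
    intro x
    apply Multiplicative.toAdd.injective
    show ((1 : (ZMod q)ˣ) : ZMod q) * x.toAdd = x.toAdd
    rw [Units.val_one, one_mul]
  map_mul' := fun u v => by
    apply MulEquiv.ext
    intro x
    apply Multiplicative.toAdd.injective
    show ((u * v : (ZMod q)ˣ) : ZMod q) * x.toAdd = (u : ZMod q) * ((v : ZMod q) * x.toAdd)
    rw [Units.val_mul, mul_assoc]

private theorem act_apply (q : ℕ) (u : (ZMod q)ˣ) (x : Multiplicative (ZMod q)) :
    act q u x = Multiplicative.ofAdd ((u : ZMod q) * x.toAdd) := rfl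

private theorem enough (q : ℕ) (hq : q.Prime) (n : ℕ) (hn : n ∣ q - 1) (hn0 : 1 ≤ n) :
    Nat.card (rootsOfUnity n (ZMod q)) = n := by
  haveI : Fact q.Prime := ⟨hq⟩
  have h2 := hq.two_le
  haveI : NeZero (q - 1) := ⟨by omega⟩
  haveI : NeZero n := ⟨by omega⟩
  haveI h1 : HasEnoughRootsOfUnity (ZMod q) (q - 1) := by
    apply HasEnoughRootsOfUnity.of_card_le
    have h3 : rootsOfUnity (q - 1) (ZMod q) = ⊤ := by
      rw [eq_top_iff]
      intro u _
      rw [mem_rootsOfUnity]
      exact ZMod.units_pow_card_sub_one_eq_one q u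
    rw [h3, Subgroup.card_top, Nat.card_eq_fintype_card, ZMod.card_units q]
  haveI h4 : HasEnoughRootsOfUnity (ZMod q) n := HasEnoughRootsOfUnity.of_dvd _ hn
  exact HasEnoughRootsOfUnity.natCard_rootsOfUnity (ZMod q) n

theorem frob_exists (h w : ℕ) (hh : 1 ≤ h) (hq : (2 * h * w + 1).Prime) :
    ∃ (G : Type) (_ : Group G) (_ : Finite G) (s : G →* ℤˣ),
      Dat s ((2 * h * w + 1) * h) h (h + 2 * w) := by
  classical
  obtain ⟨q, hqe⟩ : ∃ q : ℕ, q = 2 * h * w + 1 := ⟨_, rfl⟩
  have hqp : q.Prime := by rw [hqe]; exact hq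
  haveI : Fact q.Prime := ⟨hqp⟩
  have hw : 1 ≤ w := by
    rcases Nat.eq_zero_or_pos w with h0 | h0
    · rw [h0, mul_zero, zero_add] at hq
      exact absurd hq (by norm_num)
    · exact h0
  have hhw : 1 ≤ h * w := Nat.mul_pos hh hw
  have hq3 : 3 ≤ q := by
    rw [hqe]
    nlinarith
  haveI : Fact (2 < q) := ⟨hq3⟩
  have hneg : (-1 : (ZMod q)ˣ) ≠ 1 := by
    intro h1
    have h2 : (-1 : ZMod q) = 1 := by
      have := congrArg (Units.val) h1
      simpa using this
    exact ZMod.neg_one_ne_one h2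
  -- the group of the `2h`-th roots of unity
  have hcard2 : Nat.card (rootsOfUnity (2 * h) (ZMod q)) = 2 * h :=
    enough q hqp _ ⟨w, by omega⟩ (by omega)
  have hcard1 : Nat.card (rootsOfUnity h (ZMod q)) = h :=
    enough q hqp _ ⟨2 * w, by rw [hqe, Nat.add_sub_cancel]; ring⟩ hh
  have hpm : ∀ u : rootsOfUnity (2 * h) (ZMod q), (u : (ZMod q)ˣ) ^ h = 1 ∨
      (u : (ZMod q)ˣ) ^ h = -1 := by
    intro u
    have h1 : (u : (ZMod q)ˣ) ^ (2 * h) = 1 := (mem_rootsOfUnity _ _).mp u.2
    have h2 : ((((u : (ZMod q)ˣ) ^ h : (ZMod q)ˣ) : ZMod q)) ^ 2 = 1 := by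
      rw [← Units.val_pow_eq_pow_val, ← pow_mul, mul_comm h 2, h1, Units.val_one]
    rcases _root_.sq_eq_one_iff.mp h2 with h3 | h3
    · left
      exact Units.ext h3
    · right
      apply Units.ext
      rw [h3, Units.val_neg, Units.val_one]
  obtain ⟨s, hs⟩ : ∃ s : rootsOfUnity (2 * h) (ZMod q) →* ℤˣ,
      ∀ u, s u = if (u : (ZMod q)ˣ) ^ h = 1 then 1 else -1 := by
    refine ⟨{ toFun := fun u => if (u : (ZMod q)ˣ) ^ h = 1 then 1 else -1
              map_one' := ?_, map_mul' := ?_ }, fun u => rfl⟩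
    · rw [if_pos]
      rw [Subgroup.coe_one, one_pow]
    · intro u v
      have h1 : ((u * v : rootsOfUnity (2 * h) (ZMod q)) : (ZMod q)ˣ) ^ h =
          (u : (ZMod q)ˣ) ^ h * (v : (ZMod q)ˣ) ^ h := by
        rw [Subgroup.coe_mul, mul_pow]
      show (if ((u * v : rootsOfUnity (2 * h) (ZMod q)) : (ZMod q)ˣ) ^ h = 1 then (1 : ℤˣ)
        else -1) = (if (u : (ZMod q)ˣ) ^ h = 1 then 1 else -1) *
          (if (v : (ZMod q)ˣ) ^ h = 1 then 1 else -1)
      rw [h1]
      rcases hpm u with hu | hu <;> rcases hpm v with hv | hv <;> rw [hu, hv]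
      · simp
      · rw [one_mul, if_neg hneg, if_pos rfl, one_mul]
      · rw [mul_one, if_neg hneg, if_pos rfl, mul_one]
      · rw [neg_mul_neg, one_mul, if_pos rfl, if_neg hneg, neg_mul_neg, one_mul]
  have hs1 : ∀ u, s u = 1 ↔ (u : (ZMod q)ˣ) ^ h = 1 := by
    intro u
    rw [hs]
    constructor
    · intro h1
      by_contra h2
      rw [if_neg h2] at h1
      exact absurd h1 (by decide)
    · intro h1
      rw [if_pos h1]
  have hU1 : Nat.card {u : rootsOfUnity (2 * h) (ZMod q) // s u = 1} = h := by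
    refine (Nat.card_congr ?_).trans hcard1
    refine
      { toFun := fun u => ⟨u.1.1, ?_⟩
        invFun := fun v => ⟨⟨v.1, ?_⟩, ?_⟩
        left_inv := fun u => ?_
        right_inv := fun v => ?_ }
    · rw [mem_rootsOfUnity]
      exact (hs1 u.1).mp u.2
    · rw [mem_rootsOfUnity, mul_comm, pow_mul, (mem_rootsOfUnity _ _).mp v.2, one_pow]
    · rw [hs1]
      exact (mem_rootsOfUnity _ _).mp v.2
    · rfl
    · rfl
  have hUm : Nat.card {u : rootsOfUnity (2 * h) (ZMod q) // s u = -1} = h := by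
    have h1 : Nat.card {u : rootsOfUnity (2 * h) (ZMod q) // s u = 1} +
        Nat.card {u : rootsOfUnity (2 * h) (ZMod q) // s u = -1} = 2 * h := by
      rw [← Nat.card_sum]
      refine (Nat.card_congr ?_).trans hcard2
      have e2 : {u : rootsOfUnity (2 * h) (ZMod q) // s u = -1} ≃
          {u : rootsOfUnity (2 * h) (ZMod q) // ¬ s u = 1} := by
        refine Equiv.subtypeEquivRight fun u => ?_
        constructor
        · intro h2 h3
          rw [h2] at h3
          exact absurd h3 (by decide)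
        · intro h2
          rcases Int.units_eq_one_or (s u) with h3 | h3
          · exact absurd h3 h2
          · exact h3
      exact (Equiv.sumCongr (Equiv.refl _) e2).trans (Equiv.sumCompl fun u => s u = 1)
    omega
  have hA : Nat.card (Multiplicative (ZMod q)) = 2 * h * w + 1 := by
    rw [Nat.card_congr Multiplicative.toAdd, Nat.card_zmod, hqe]
  obtain ⟨φ, hφ⟩ : ∃ φ : rootsOfUnity (2 * h) (ZMod q) →* MulAut (Multiplicative (ZMod q)),
      φ = (act q).comp (rootsOfUnity (2 * h) (ZMod q)).subtype := ⟨_, rfl⟩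
  have hfix : ∀ u : rootsOfUnity (2 * h) (ZMod q), u ≠ 1 → ∀ x : Multiplicative (ZMod q),
      φ u x = x → x = 1 := by
    intro u hu x hx
    rw [hφ] at hx
    have h1 : ((u : (ZMod q)ˣ) : ZMod q) * x.toAdd = x.toAdd :=
      congrArg Multiplicative.toAdd hx
    have h2 : (((u : (ZMod q)ˣ) : ZMod q) - 1) * x.toAdd = 0 := by
      rw [sub_mul, h1, one_mul, sub_self]
    rcases mul_eq_zero.mp h2 with h3 | h3
    · exfalso
      apply hu
      apply Subtype.ext
      apply Units.ext
      rw [sub_eq_zero] at h3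
      exact h3
    · apply Multiplicative.toAdd.injective
      exact h3
  have hfin : Finite (rootsOfUnity (2 * h) (ZMod q)) := Nat.finite_of_card_ne_zero (by omega)
  have key := frob_dat φ s h w hA hU1 hUm hfix
  exact ⟨_, inferInstance, Finite.of_equiv _ SemidirectProduct.equivProd.symm, _, key⟩

theorem dih_exists (N : ℕ) (hN : Odd N) :
    ∃ (G : Type) (_ : Group G) (_ : Finite G) (s : G →* ℤˣ), Dat s N 1 N := by
  obtain ⟨w, hw⟩ := hN
  haveI : NeZero N := ⟨by omega⟩
  have hA : Nat.card (Multiplicative (ZMod N)) = 2 * 1 * w + 1 := by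
    rw [Nat.card_congr Multiplicative.toAdd, Nat.card_zmod, hw, mul_one]
  obtain ⟨φ, hφ⟩ : ∃ φ : ℤˣ →* MulAut (Multiplicative (ZMod N)),
      φ = (act N).comp (Units.map (Int.castRingHom (ZMod N)).toMonoidHom) := ⟨_, rfl⟩
  have hfix : ∀ u : ℤˣ, u ≠ 1 → ∀ x : Multiplicative (ZMod N), φ u x = x → x = 1 := by
    intro u hu x hx
    rcases Int.units_eq_one_or u with h1 | h1
    · exact absurd h1 hu
    · rw [h1, hφ] at hx
      have h2 : (((-1 : ℤ) : ZMod N)) * x.toAdd = x.toAdd := congrArg Multiplicative.toAdd hx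
      have h3 : (2 : ZMod N) * x.toAdd = 0 := by
        push_cast at h2
        linear_combination -h2
      have h4 : IsUnit (2 : ZMod N) := by
        have h5 : ((2 : ℕ) : ZMod N) = 2 := by norm_num
        rw [← h5, ZMod.isUnit_iff_coprime]
        rw [Nat.coprime_two_left, hw]
        exact ⟨w, rfl⟩
      apply Multiplicative.toAdd.injective
      exact (h4.mul_right_eq_zero).mp h3
  have hU1 : Nat.card {u : ℤˣ // MonoidHom.id ℤˣ u = 1} = 1 := by
    haveI : Unique {u : ℤˣ // MonoidHom.id ℤˣ u = 1} :=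
      ⟨⟨⟨1, rfl⟩⟩, fun u => Subtype.ext u.2⟩
    exact Nat.card_unique
  have hUm : Nat.card {u : ℤˣ // MonoidHom.id ℤˣ u = -1} = 1 := by
    haveI : Unique {u : ℤˣ // MonoidHom.id ℤˣ u = -1} :=
      ⟨⟨⟨-1, rfl⟩⟩, fun u => Subtype.ext u.2⟩
    exact Nat.card_unique
  have key := frob_dat φ (MonoidHom.id ℤˣ) 1 w hA hU1 hUm hfix
  have e1 : (2 * 1 * w + 1) * 1 = N := by omega
  have e2 : 1 + 2 * w = N := by omega
  rw [e1, e2] at key
  exact ⟨_, inferInstance, Finite.of_equiv _ SemidirectProduct.equivProd.symm, _, key⟩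

end Pool.Agent.Work.MP_34d05d_al.DO
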