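import Pool.Agent.Work.MP_34d05d_al.DO.TDefs

set_option autoImplicit false

/-!
# DO/TCard (size M): number of automorphisms of given depth

x := rt K n, R := TP K n, q := |K| (Nat.card K).
(1) For k ≤ n+2 the set x^k R has q^(n+2-k) elements: the map (Fin (n+2-k) → K) → R, c ↦ x^k ∑ c_i x^i is injective
with this range. (Injective: AdjoinRoot.mk_eq_zero and X_pow_dvd_iff as in A4.card_ge; surjective: `dec` iterated,
or `rep`: every r is aeval x P = ∑ P.coeff i x^i and x^(n+2) = 0.)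
(2) For 1 ≤ d ≤ n+1 the map σ ↦ σ x - x is a bijection from {σ : Dp d σ} onto x^(d+1) R: injective by A1.aut_ext;
surjective: x + x^(d+1) r = x (1 + x^d r) = x u with u a unit (`unit_of` with t = 1 after writing x^d r = x s), so
`exists_aut`. So the number is q^(n+2-(d+1)) = q^(n+1-d).
(3) In the same way σ ↦ σ x - ε x is a bijection from {σ : Ld ε σ} onto x² R (ε x + x² r = x (ε + x r), ε ≠ 0 in K):
q^n elements. (Or: Ld ε is a coset of Ld 1.)
-/

namespace Pool.Agent.Work.MP_34d05d_al.DO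

open Pool.Agent.Work.MP_34d05d_al Polynomial

variable {K : Type} [Field K] {n : ℕ}

private theorem card_step [Finite K] (k : ℕ) (hk : k ≤ n + 1) :
    Nat.card {z : TP K n // (rt K n) ^ k ∣ z} =
      Nat.card K * Nat.card {z : TP K n // (rt K n) ^ (k + 1) ∣ z} := by
  rw [← Nat.card_prod]
  symm
  refine Nat.card_congr (Equiv.ofBijective (fun p : K × {z : TP K n // (rt K n) ^ (k + 1) ∣ z} =>
    (⟨(rt K n) ^ k * algebraMap K (TP K n) p.1 + p.2.1,
      dvd_add (dvd_mul_right _ _) (dvd_trans (pow_dvd_pow _ (Nat.le_succ k)) p.2.2)⟩ :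
        {z : TP K n // (rt K n) ^ k ∣ z})) ⟨?_, ?_⟩)
  · rintro ⟨c, z, w, hw⟩ ⟨c', z', w', hw'⟩ h
    simp only [Subtype.mk.injEq] at h
    have hc : c = c' := by
      by_contra hne
      have hne' : c - c' ≠ 0 := sub_ne_zero.mpr hne
      obtain ⟨v, hv⟩ := ((IsUnit.mk0 _ hne').map (algebraMap K (TP K n))).exists_left_inv
      rw [map_sub] at hv
      have h1 : (rt K n) ^ k * (algebraMap K (TP K n) c - algebraMap K (TP K n) c') =
          (rt K n) ^ (k + 1) * (w' - w) := by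
        rw [hw, hw'] at h
        linear_combination h
      apply rt_pow_ne (K := K) (n := n)
      calc (rt K n) ^ (n + 1) = (rt K n) ^ (n + 1 - k) * (rt K n) ^ k *
            (v * (algebraMap K (TP K n) c - algebraMap K (TP K n) c')) := by
            rw [hv, mul_one, ← pow_add]
            congr 1
            omega
        _ = (rt K n) ^ (n + 1 - k) * v * ((rt K n) ^ k *
            (algebraMap K (TP K n) c - algebraMap K (TP K n) c')) := by ring
        _ = (rt K n) ^ (n + 1 - k) * v * ((rt K n) ^ (k + 1) * (w' - w)) := by rw [h1]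
        _ = ((rt K n) ^ (n + 1 - k) * (rt K n) ^ (k + 1)) * (v * (w' - w)) := by ring
        _ = 0 := by
            rw [← pow_add, rt_pow_zero (by omega), zero_mul]
    subst hc
    have hz : z = z' := by
      linear_combination h
    subst hz
    rfl
  · rintro ⟨z, r, rfl⟩
    obtain ⟨c, s, rfl⟩ := dec r
    refine ⟨(c, ⟨(rt K n) ^ (k + 1) * s, dvd_mul_right _ _⟩), ?_⟩
    simp only [Subtype.mk.injEq]
    ring

private theorem card_W [Finite K] (j : ℕ) : ∀ k : ℕ, k + j = n + 2 →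
    Nat.card {z : TP K n // (rt K n) ^ k ∣ z} = Nat.card K ^ j := by
  induction j with
  | zero =>
    intro k hk
    have e : k = n + 2 := by omega
    subst e
    rw [pow_zero, Nat.card_eq_one_iff_unique]
    refine ⟨⟨?_⟩, ⟨⟨0, dvd_zero _⟩⟩⟩
    rintro ⟨z, r, rfl⟩ ⟨z', r', rfl⟩
    apply Subtype.ext
    change (rt K n) ^ (n + 2) * r = (rt K n) ^ (n + 2) * r'
    rw [rt_pow, zero_mul, zero_mul]
  | succ j ih =>
    intro k hk
    rw [card_step k (by omega), ih (k + 1) (by omega), pow_succ, mul_comm]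

theorem card_dp [Finite K] (d : ℕ) (h1 : 1 ≤ d) (h2 : d ≤ n + 1) :
    Nat.card {σ : TP K n ≃ₐ[K] TP K n // Dp d σ} = Nat.card K ^ (n + 1 - d) := by
  rw [← card_W (n := n) (n + 1 - d) (d + 1) (by omega)]
  refine Nat.card_congr (Equiv.ofBijective (fun σ : {σ : TP K n ≃ₐ[K] TP K n // Dp d σ} =>
    (⟨σ.1 (rt K n) - rt K n, σ.2⟩ : {z : TP K n // (rt K n) ^ (d + 1) ∣ z})) ⟨?_, ?_⟩)
  · rintro ⟨σ, hσ⟩ ⟨τ, hτ⟩ h
    simp only [Subtype.mk.injEq] at h
    apply Subtype.ext
    apply aut_ext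
    linear_combination h
  · rintro ⟨z, r, rfl⟩
    obtain ⟨e, rfl⟩ : ∃ e, d = e + 1 := ⟨d - 1, by omega⟩
    obtain ⟨σ, hσ⟩ := exists_aut (algebraMap K (TP K n) 1 + rt K n * ((rt K n) ^ e * r))
      (unit_of 1 one_ne_zero _)
    have hσ' : σ (rt K n) - rt K n = (rt K n) ^ (e + 1 + 1) * r := by
      rw [hσ, map_one]
      ring
    refine ⟨⟨σ, ?_⟩, ?_⟩
    · unfold Dp
      rw [hσ']
      exact dvd_mul_right _ _
    · simp only [Subtype.mk.injEq]
      exact hσ'

theorem card_ld [Finite K] (ε : ℤˣ) :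
    Nat.card {σ : TP K n ≃ₐ[K] TP K n // Ld ε σ} = Nat.card K ^ n := by
  rw [← card_W (n := n) n 2 (by omega)]
  refine Nat.card_congr (Equiv.ofBijective (fun σ : {σ : TP K n ≃ₐ[K] TP K n // Ld ε σ} =>
    (⟨σ.1 (rt K n) - ((ε : ℤ) : TP K n) * rt K n, σ.2⟩ :
      {z : TP K n // (rt K n) ^ 2 ∣ z})) ⟨?_, ?_⟩)
  · rintro ⟨σ, hσ⟩ ⟨τ, hτ⟩ h
    simp only [Subtype.mk.injEq] at h
    apply Subtype.ext
    apply aut_ext
    linear_combination h
  · rintro ⟨z, r, rfl⟩
    have hε : ((ε : ℤ) : K) ≠ 0 := by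
      rcases Int.units_eq_one_or ε with rfl | rfl
      · simp
      · simp
    obtain ⟨σ, hσ⟩ := exists_aut (algebraMap K (TP K n) ((ε : ℤ) : K) + rt K n * r)
      (unit_of _ hε _)
    have hσ' : σ (rt K n) - ((ε : ℤ) : TP K n) * rt K n = (rt K n) ^ 2 * r := by
      rw [hσ, map_intCast]
      ring
    refine ⟨⟨σ, ?_⟩, ?_⟩
    · unfold Ld
      rw [hσ']
      exact dvd_mul_right _ _
    · simp only [Subtype.mk.injEq]
      exact hσ'

end Pool.Agent.Work.MP_34d05d_al.DO
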