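import Pool.Agent.Work.MP_34d05d_al.DO.TLie
import Pool.Agent.Work.MP_34d05d_al.DO.TCard

set_option autoImplicit false

/-!
# DO/TCent (size M): centralizers in the group of the automorphisms of depth ≥ 1

x := rt, K = ZMod p, n < p. σ of exact depth d, C := {τ : Dp 1 τ, τ commutes with σ}.
Facts: every τ ≠ 1 with Dp 1 τ has an exact depth i, 1 ≤ i ≤ n (the largest i with Dp i; Dp (n+1) τ means τ x = x,
τ = 1). hchar holds (0 < m ≤ n < p).
(i) If τ ∈ C has exact depth i then i = d or i ≥ n+1-d (`comm_depth`). Conversely Dp (n+1-d) τ implies τ ∈ C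
(`comm_of`; n+1-d ≥ 1).
(ii) If n < 2d: d ≥ n+1-d, so C = {τ : Dp (n+1-d) τ} (1 is in both), p^d elements (`card_dp`: n+1-(n+1-d) = d).
(iii) If 2d ≤ n: d < n+1-d, so C ⊆ {Dp d}. Define λ(τ) for τ ∈ C as the coefficient of x^(d+1): τ x = x + λ x^(d+1) +
x^(d+2)(...); well defined (`alg_inj` type argument, d+1 ≤ n+1). λ(τ τ') = λ(τ) + λ(τ') (d ≥ 1). The fibre of λ over 0
is {τ ∈ C : Dp (d+1) τ} = {Dp (n+1-d)} (by (i)), with p^d elements. C is a group (closed under products and inverses)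
and λ : C → (K,+) a homomorphism, λ(σ) ≠ 0, so it is surjective (powers of σ: λ(σ^k) = k λ(σ), K = ZMod p); all fibres
have p^d elements, |C| = p p^d. (Convenient: make C a Subgroup, λ a MonoidHom to Multiplicative (ZMod p), and use
`Subgroup.card_eq_card_quotient_mul_card_subgroup` / `card_ker_mul_card_range`; or count by explicit translations
τ ↦ σ^k τ.)
-/

namespace Pool.Agent.Work.MP_34d05d_al.DO

open Pool.Agent.Work.MP_34d05d_al Polynomial

section aux

variable {K : Type} [Field K] {n : ℕ}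

private theorem dp_mono45 {d d' : ℕ} (h : d' ≤ d) {τ : TP K n ≃ₐ[K] TP K n} (hτ : Dp d τ) :
    Dp d' τ := dvd_trans (pow_dvd_pow _ (by omega)) hτ

private theorem dp_one45 (d : ℕ) : Dp d (1 : TP K n ≃ₐ[K] TP K n) := by
  unfold Dp
  simp

private theorem inv_apply45 (τ : TP K n ≃ₐ[K] TP K n) (r : TP K n) : τ⁻¹ (τ r) = r := by
  have : τ⁻¹ (τ r) = (τ⁻¹ * τ) r := rfl
  rw [this, inv_mul_cancel, AlgEquiv.one_apply]

private theorem dp_inv45 {d : ℕ} {τ : TP K n ≃ₐ[K] TP K n} (hτ : Dp d τ) : Dp d τ⁻¹ := by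
  obtain ⟨t, u, ht, hu⟩ := aut_form τ⁻¹
  obtain ⟨v, hv⟩ := hτ
  have h1 : τ⁻¹ (τ (rt K n) - rt K n) = τ⁻¹ ((rt K n) ^ (d + 1) * v) := by rw [hv]
  rw [map_sub, inv_apply45, map_mul, map_pow] at h1
  refine ⟨-((algebraMap K (TP K n) t + rt K n * u) ^ (d + 1) * τ⁻¹ v), ?_⟩
  have h2 : (τ⁻¹ (rt K n)) ^ (d + 1) = (rt K n) ^ (d + 1) *
      (algebraMap K (TP K n) t + rt K n * u) ^ (d + 1) := by
    rw [hu, mul_pow]
  rw [h2] at h1
  linear_combination -h1

private theorem dp_mul45 {d : ℕ} {σ τ : TP K n ≃ₐ[K] TP K n} (hσ : Dp d σ) (hτ : Dp d τ) :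
    Dp d (σ * τ) := by
  obtain ⟨t, u, ht, hu⟩ := aut_form τ
  have h1 := shift σ d hσ 1 (algebraMap K (TP K n) t + rt K n * u)
  rw [pow_one, ← hu, add_comm 1 d] at h1
  have h2 : (σ * τ) (rt K n) - rt K n = (σ (τ (rt K n)) - τ (rt K n)) + (τ (rt K n) - rt K n) := by
    rw [AlgEquiv.mul_apply]
    ring
  unfold Dp
  rw [h2]
  exact dvd_add h1 hτ

/-- the coefficient of `x^(d+1)` is `c` -/
private def Pc45 (d : ℕ) (c : K) (τ : TP K n ≃ₐ[K] TP K n) : Prop :=
  ∃ s : TP K n, τ (rt K n) = rt K n + algebraMap K (TP K n) c * (rt K n) ^ (d + 1) +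
    (rt K n) ^ (d + 2) * s

private theorem pc_of45 {d : ℕ} {τ : TP K n ≃ₐ[K] TP K n} (h : Dp d τ) : ∃ c, Pc45 d c τ := by
  obtain ⟨t, ht⟩ := h
  obtain ⟨c, u, hu⟩ := dec t
  refine ⟨c, u, ?_⟩
  rw [hu] at ht
  linear_combination ht

private theorem pc_zero45 {d : ℕ} {τ : TP K n ≃ₐ[K] TP K n} : Pc45 d 0 τ ↔ Dp (d + 1) τ := by
  constructor
  · rintro ⟨s, hs⟩
    refine ⟨s, ?_⟩
    rw [map_zero, zero_mul, add_zero] at hs
    rw [hs]
    ring
  · rintro ⟨s, hs⟩
    refine ⟨s, ?_⟩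
    rw [map_zero, zero_mul, add_zero]
    linear_combination hs

private theorem pc_mul45 {d : ℕ} (hd : 1 ≤ d) {c c' : K} {σ τ : TP K n ≃ₐ[K] TP K n}
    (h1 : Pc45 d c σ) (h2 : Pc45 d c' τ) : Pc45 d (c + c') (σ * τ) := by
  obtain ⟨s, hs⟩ := h1
  obtain ⟨s', hs'⟩ := h2
  have hD : Dp d σ := by
    refine ⟨algebraMap K (TP K n) c + rt K n * s, ?_⟩
    rw [hs]
    ring
  obtain ⟨e, rfl⟩ : ∃ e, d = e + 1 := ⟨d - 1, by omega⟩
  obtain ⟨u1, hu1⟩ := shift σ (e + 1) hD (e + 1 + 1) 1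
  obtain ⟨u2, hu2⟩ := shift σ (e + 1) hD (e + 1 + 2) s'
  rw [mul_one] at hu1
  refine ⟨s + s' + algebraMap K (TP K n) c' * (rt K n) ^ e * u1 + (rt K n) ^ (e + 1) * u2, ?_⟩
  rw [AlgEquiv.mul_apply, hs', map_add, map_add, map_mul, AlgEquiv.commutes, map_add]
  have e1 : σ ((rt K n) ^ (e + 1 + 1)) = (rt K n) ^ (e + 1 + 1) +
      (rt K n) ^ (e + 1 + 1 + (e + 1)) * u1 := by
    linear_combination hu1
  have e2 : σ ((rt K n) ^ (e + 1 + 2) * s') = (rt K n) ^ (e + 1 + 2) * s' +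
      (rt K n) ^ (e + 1 + 2 + (e + 1)) * u2 := by
    linear_combination hu2
  rw [e1, e2, hs]
  ring

private theorem pc_uniq45 {d : ℕ} (hd : d ≤ n) {c c' : K} {τ : TP K n ≃ₐ[K] TP K n}
    (h1 : Pc45 d c τ) (h2 : Pc45 d c' τ) : c = c' := by
  obtain ⟨s, hs⟩ := h1
  obtain ⟨s', hs'⟩ := h2
  by_contra hne
  have hne' : c - c' ≠ 0 := sub_ne_zero.2 hne
  have h3 : algebraMap K (TP K n) (c - c') * (rt K n) ^ (d + 1) =
      (rt K n) ^ (d + 2) * (s' - s) := by
    rw [map_sub]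
    have := hs.symm.trans hs'
    linear_combination this
  have h4 : algebraMap K (TP K n) (c - c') * (rt K n) ^ (n + 1) = 0 := by
    have e1 : (rt K n) ^ (n - d) * (rt K n) ^ (d + 1) = (rt K n) ^ (n + 1) := by
      rw [← pow_add]
      congr 1
      omega
    have e3 : (rt K n) ^ (n - d) * (rt K n) ^ (d + 2) = (rt K n) ^ (n + 2) := by
      rw [← pow_add]
      congr 1
      omega
    calc algebraMap K (TP K n) (c - c') * (rt K n) ^ (n + 1)
        = (rt K n) ^ (n - d) * (algebraMap K (TP K n) (c - c') * (rt K n) ^ (d + 1)) := by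
          rw [← e1]
          ring
      _ = ((rt K n) ^ (n - d) * (rt K n) ^ (d + 2)) * (s' - s) := by
          rw [h3]
          ring
      _ = 0 := by rw [e3, rt_pow, zero_mul]
  have h5 : IsUnit (algebraMap K (TP K n) (c - c')) := (IsUnit.mk0 _ hne').map _
  have h6 := (h5.mul_right_eq_zero).1 h4
  exact rt_pow_ne h6

private theorem exact45 {τ : TP K n ≃ₐ[K] TP K n} (h : Dp 1 τ) (hne : τ ≠ 1) :
    ∃ i, 1 ≤ i ∧ i ≤ n ∧ Ex i τ := by
  by_contra hc
  push Not at hc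
  have h1 : ∀ i, i ≤ n → Dp (i + 1) τ := by
    intro i
    induction i with
    | zero => exact fun _ => h
    | succ i ih =>
      intro hi
      have h2 := ih (by omega)
      by_contra h3
      exact hc (i + 1) (by omega) hi ⟨h2, h3⟩
  apply hne
  apply aut_ext
  have h2 := h1 n le_rfl
  unfold Dp at h2
  rw [rt_pow, zero_dvd_iff, sub_eq_zero] at h2
  rw [h2, AlgEquiv.one_apply]

end aux

theorem card_cent (p : ℕ) [Fact p.Prime] (n : ℕ) (hn : n < p) (d : ℕ) (h1 : 1 ≤ d) (h2 : d ≤ n)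
    (σ : TP (ZMod p) n ≃ₐ[ZMod p] TP (ZMod p) n) (hσ : Ex d σ) :
    Nat.card {τ : TP (ZMod p) n ≃ₐ[ZMod p] TP (ZMod p) n // Dp 1 τ ∧ Commute σ τ} =
      if 2 * d ≤ n then p ^ (d + 1) else p ^ d := by
  have hchar : ∀ m : ℕ, 0 < m → m ≤ n → (m : ZMod p) ≠ 0 := by
    intro m hm hmn h0
    have := Nat.le_of_dvd hm ((ZMod.natCast_eq_zero_iff m p).1 h0)
    omega
  have hσ1 : Dp 1 σ := dp_mono45 h1 hσ.1
  -- depths of the elements of the centralizer
  have hdep : ∀ τ : TP (ZMod p) n ≃ₐ[ZMod p] TP (ZMod p) n, Dp 1 τ → Commute σ τ →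
      ∀ j, j ≤ n + 1 - d → (j ≤ d ∨ Dp (d + 1) τ) → Dp j τ := by
    intro τ hτ hc j hj hjd
    by_cases e : τ = 1
    · rw [e]
      exact dp_one45 j
    · obtain ⟨i, hi1, hi2, hi⟩ := exact45 hτ e
      rcases comm_depth hchar σ τ i d hi1 h1 hσ hi hc with h3 | h3
      · subst h3
        rcases hjd with h4 | h4
        · exact dp_mono45 h4 hi.1
        · exact absurd h4 hi.2
      · exact dp_mono45 (by omega) hi.1
  have hmem : ∀ τ : TP (ZMod p) n ≃ₐ[ZMod p] TP (ZMod p) n, Dp (n + 1 - d) τ →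
      Dp 1 τ ∧ Commute σ τ := by
    intro τ hτ
    exact ⟨dp_mono45 (by omega) hτ, comm_of σ τ (n + 1 - d) d (by omega) h1 (by omega) hσ.1 hτ⟩
  have hD : Nat.card {τ : TP (ZMod p) n ≃ₐ[ZMod p] TP (ZMod p) n // Dp (n + 1 - d) τ} = p ^ d := by
    rw [card_dp (n + 1 - d) (by omega) (by omega), Nat.card_zmod]
    congr 1
    omega
  split_ifs with h2d
  · -- the centralizer as a group
    let C : Subgroup (TP (ZMod p) n ≃ₐ[ZMod p] TP (ZMod p) n) :=
      { carrier := {τ | Dp 1 τ ∧ Commute σ τ}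
        mul_mem' := fun {a b} ha hb => ⟨dp_mul45 ha.1 hb.1, ha.2.mul_right hb.2⟩
        one_mem' := ⟨dp_one45 1, Commute.one_right σ⟩
        inv_mem' := fun {a} ha => ⟨dp_inv45 ha.1, ha.2.inv_right⟩ }
    have hCd : ∀ τ : C, Dp d τ.1 := fun τ =>
      hdep τ.1 τ.2.1 τ.2.2 d (by omega) (Or.inl le_rfl)
    have hP : ∀ τ : C, ∃ c, Pc45 d c τ.1 := fun τ => pc_of45 (hCd τ)
    choose lam hlam using hP
    let φ : C →* Multiplicative (ZMod p) :=
      { toFun := fun τ => Multiplicative.ofAdd (lam τ)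
        map_one' := by
          have h3 : Pc45 d (0 : ZMod p) ((1 : C) : TP (ZMod p) n ≃ₐ[ZMod p] TP (ZMod p) n) :=
            pc_zero45.2 (dp_one45 _)
          have h4 := pc_uniq45 h2 (hlam 1) h3
          rw [h4]
          rfl
        map_mul' := by
          intro a b
          have h3 := pc_mul45 h1 (hlam a) (hlam b)
          have h4 := pc_uniq45 h2 (hlam (a * b)) h3
          rw [h4]
          rfl }
    have hφ : ∀ τ : C, φ τ = Multiplicative.ofAdd (lam τ) := fun τ => rfl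
    have hker : ∀ τ : C, φ τ = 1 ↔ Dp (n + 1 - d) τ.1 := by
      intro τ
      rw [hφ, ofAdd_eq_one]
      constructor
      · intro h3
        have h4 := hlam τ
        rw [h3] at h4
        exact hdep τ.1 τ.2.1 τ.2.2 _ le_rfl (Or.inr (pc_zero45.1 h4))
      · intro h3
        have h4 : Dp (d + 1) τ.1 := dp_mono45 (by omega) h3
        exact pc_uniq45 h2 (hlam τ) (pc_zero45.2 h4)
    have hsurj : Function.Surjective φ := by
      let σ' : C := ⟨σ, hσ1, Commute.refl σ⟩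
      have ha : lam σ' ≠ 0 := by
        intro h3
        have h4 := hlam σ'
        rw [h3] at h4
        exact hσ.2 (pc_zero45.1 h4)
      intro c
      refine ⟨σ' ^ (Multiplicative.toAdd c / lam σ').val, ?_⟩
      rw [map_pow, hφ, ← ofAdd_nsmul, nsmul_eq_mul, ZMod.natCast_zmod_val,
        div_mul_cancel₀ _ ha]
      rfl
    have hcardC : Nat.card C = Nat.card (C ⧸ φ.ker) * Nat.card φ.ker :=
      Subgroup.card_eq_card_quotient_mul_card_subgroup φ.ker
    have hq : Nat.card (C ⧸ φ.ker) = p := by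
      rw [Nat.card_congr (QuotientGroup.quotientKerEquivOfSurjective φ hsurj).toEquiv]
      have : Nat.card (Multiplicative (ZMod p)) = Nat.card (ZMod p) :=
        Nat.card_congr Multiplicative.toAdd
      rw [this, Nat.card_zmod]
    have hk : Nat.card φ.ker = p ^ d := by
      rw [← hD]
      refine Nat.card_congr
        { toFun := fun x => ⟨x.1.1, (hker x.1).1 x.2⟩
          invFun := fun y => ⟨⟨y.1, hmem y.1 y.2⟩, (hker ⟨y.1, hmem y.1 y.2⟩).2 y.2⟩
          left_inv := fun x => rfl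
          right_inv := fun y => rfl }
    have hC : Nat.card {τ : TP (ZMod p) n ≃ₐ[ZMod p] TP (ZMod p) n // Dp 1 τ ∧ Commute σ τ} =
        Nat.card C := rfl
    rw [hC, hcardC, hq, hk, pow_succ']
  · rw [← hD]
    refine Nat.card_congr (Equiv.subtypeEquivRight fun τ => ?_)
    constructor
    · rintro ⟨h3, h4⟩
      exact hdep τ h3 h4 _ le_rfl (Or.inl (by omega))
    · exact hmem τ

end Pool.Agent.Work.MP_34d05d_al.DO
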