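import Pool.Agent.Work.MP_34d05d_al.DO.TNf

set_option autoImplicit false

/-!
# DO/TOut (size S-M): outer elements commuting with an element of even depth

x := rt. PROOF. `normal_form`: ε with Dp 1 ε, ψ := ε σ ε⁻¹, ψ x = x + a x^(d+1) + b x^(2d+1). Let τ0 be the
automorphism with τ0 x = -x (A2.exists_sc with s = -1). For d even both d+1 and 2d+1 are odd, so
τ0 (ψ x) = -x - a x^(d+1) - b x^(2d+1) = ψ (-x) = ψ (τ0 x): τ0 and ψ commute (`aut_ext`). τ1 := ε⁻¹ τ0 ε commutes with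
σ, and Ld (-1) τ1 (`ld_mul`, `ld_inv`, `ld_one_iff`). The map τ ↦ τ1 τ is a bijection from {τ : Dp 1 τ, commutes
with σ} onto {τ : Ld (-1) τ, commutes with σ} (inverse τ ↦ τ1⁻¹ τ).
-/

namespace Pool.Agent.Work.MP_34d05d_al.DO

open Pool.Agent.Work.MP_34d05d_al Polynomial

variable {K : Type} [Field K] {n : ℕ}

theorem out_even (hchar : ∀ m : ℕ, 0 < m → m ≤ n → (m : K) ≠ 0) (d : ℕ) (h1 : 1 ≤ d)
    (h2 : d ≤ n) (he : Even d) (σ : TP K n ≃ₐ[K] TP K n) (hσ : Ex d σ) :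
    Nat.card {τ : TP K n ≃ₐ[K] TP K n // Ld (-1) τ ∧ Commute σ τ} =
      Nat.card {τ : TP K n ≃ₐ[K] TP K n // Dp 1 τ ∧ Commute σ τ} := by
  obtain ⟨ε, a, b, hε, hψ⟩ := normal_form hchar d h1 h2 σ hσ
  obtain ⟨τ0, hτ0⟩ := exists_sc (K := K) (n := n) (-1) (neg_ne_zero.2 one_ne_zero)
  rw [map_neg, map_one, neg_one_mul] at hτ0
  obtain ⟨k, hk⟩ := he
  have ho1 : Odd (d + 1) := ⟨k, by omega⟩
  have ho2 : Odd (2 * d + 1) := ⟨d, rfl⟩
  have hcomm : Commute (ε * σ * ε⁻¹) τ0 := by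
    obtain ⟨ψ, hψe⟩ : ∃ ψ : TP K n ≃ₐ[K] TP K n, ψ = ε * σ * ε⁻¹ := ⟨_, rfl⟩
    rw [← hψe] at hψ ⊢
    show ψ * τ0 = τ0 * ψ
    apply aut_ext
    rw [AlgEquiv.mul_apply, AlgEquiv.mul_apply, hτ0, map_neg, hψ, map_add, map_add, map_mul,
      map_mul, map_pow, map_pow, AlgEquiv.commutes, AlgEquiv.commutes, hτ0, ho1.neg_pow,
      ho2.neg_pow]
    ring
  obtain ⟨τ1, hτ1⟩ : ∃ τ1 : TP K n ≃ₐ[K] TP K n, τ1 = ε⁻¹ * τ0 * ε := ⟨_, rfl⟩
  have hc1 : Commute σ τ1 := by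
    rw [← Commute.conj_iff ε]
    have e : ε * τ1 * ε⁻¹ = τ0 := by
      rw [hτ1]
      group
    rw [e]
    exact hcomm
  have hL0 : Ld (-1) τ0 := by
    refine ⟨0, ?_⟩
    rw [hτ0]
    simp
  have hLε : Ld 1 ε := (ld_one_iff ε).2 hε
  have hL1 : Ld (-1) τ1 := by
    have h3 := ld_mul (ld_mul (ld_inv hLε) hL0) hLε
    rw [inv_one, one_mul, mul_one, ← hτ1] at h3
    exact h3
  have hL1' : Ld (-1) τ1⁻¹ := by
    have h3 := ld_inv hL1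
    have e : ((-1 : ℤˣ))⁻¹ = -1 := by decide
    rw [e] at h3
    exact h3
  have em : (-1 : ℤˣ) * (-1) = 1 := by decide
  refine Nat.card_congr ⟨fun τ => ⟨τ1⁻¹ * τ.1, ?_, ?_⟩, fun τ => ⟨τ1 * τ.1, ?_, ?_⟩, ?_, ?_⟩
  · have h3 := ld_mul hL1' τ.2.1
    rw [em] at h3
    exact (ld_one_iff _).1 h3
  · exact (hc1.inv_right).mul_right τ.2.2
  · have h3 := ld_mul hL1 ((ld_one_iff _).2 τ.2.1)
    rw [mul_one] at h3
    exact h3
  · exact hc1.mul_right τ.2.2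
  · intro τ
    apply Subtype.ext
    exact mul_inv_cancel_left _ _
  · intro τ
    apply Subtype.ext
    exact inv_mul_cancel_left _ _

end Pool.Agent.Work.MP_34d05d_al.DO
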