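import Pool.Agent.Work.MP_34d05d_al.DO.TSum
import Pool.Agent.Work.MP_34d05d_al.DO.TCent
import Pool.Agent.Work.MP_34d05d_al.DO.TOut

set_option autoImplicit false

/-!
# DO/TX (size M): the data of the group X

PROOF. Γ := TP ≃ₐ TP over ZMod p, n = 4ν < p (so p odd, 2 ≠ 0 in ZMod p, hchar holds). Elements of XX of sign ε are the
σ ∈ Γ with Ld ε σ: k1, km = p^n (`card_ld`). cp sX 1 1 = #{(σ,τ) : Dp 1 σ, Dp 1 τ, commute} (Nat.card_congr, `ld_one_iff`) =
(`sum_depth`, Q σ τ := Dp 1 τ ∧ Commute σ τ; `card_cent`; for σ = 1 all τ: p^n by `card_dp` with d = 1) `close1`.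
cp sX 1 (-1) = #{(σ,τ) : Dp 1 σ, Ld (-1) τ, commute}: Q σ τ := Ld (-1) τ ∧ Commute σ τ; d odd: none (`odd_no`,
Nat.card of an empty type = 0), d even: `out_even`, `card_cent`; σ = 1: p^n (`card_ld`). `close2`.
-/

namespace Pool.Agent.Work.MP_34d05d_al.DO

open Pool.Agent.Work.MP_34d05d_al Polynomial

section aux

variable {K : Type} [Field K] {n : ℕ}

private theorem sX_eq45 (x : XX K n) : sX K n x = x.1.2 := rfl

private theorem card_s45 (ε : ℤˣ) : Nat.card {x : XX K n // sX K n x = ε} =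
    Nat.card {σ : TP K n ≃ₐ[K] TP K n // Ld ε σ} := by
  refine Nat.card_congr
    { toFun := fun x => ⟨x.1.1.1, ?_⟩
      invFun := fun y => ⟨⟨(y.1, ε), y.2⟩, rfl⟩
      left_inv := ?_
      right_inv := fun y => rfl }
  · have h1 : Ld x.1.1.2 x.1.1.1 := x.1.2
    have h2 : x.1.1.2 = ε := x.2
    rwa [h2] at h1
  · intro x
    apply Subtype.ext
    apply Subtype.ext
    exact Prod.ext rfl (x.2).symm

private theorem commute_iff45 (x y : XX K n) : Commute x y ↔ Commute x.1.1 y.1.1 := by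
  constructor
  · intro h
    have h1 : x * y = y * x := h
    have h2 : (x * y).1.1 = (y * x).1.1 := by rw [h1]
    exact h2
  · intro h
    have h1 : x.1.1 * y.1.1 = y.1.1 * x.1.1 := h
    show x * y = y * x
    apply Subtype.ext
    exact Prod.ext h1 (mul_comm _ _)

private theorem cp_s45 (ε δ : ℤˣ) : cp (sX K n) ε δ =
    Nat.card {q : (TP K n ≃ₐ[K] TP K n) × (TP K n ≃ₐ[K] TP K n) //
      Ld ε q.1 ∧ (Ld δ q.2 ∧ Commute q.1 q.2)} := by
  refine Nat.card_congr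
    { toFun := fun x => ⟨(x.1.1.1.1, x.1.2.1.1), ?_⟩
      invFun := fun y => ⟨(⟨(y.1.1, ε), y.2.1⟩, ⟨(y.1.2, δ), y.2.2.1⟩), ?_⟩
      left_inv := ?_
      right_inv := fun y => rfl }
  · obtain ⟨⟨⟨⟨a, e⟩, ha⟩, ⟨⟨b, e'⟩, hb⟩⟩, hc, h1, h2⟩ := x
    have h1' : e = ε := h1
    have h2' : e' = δ := h2
    subst h1'
    subst h2'
    exact ⟨ha, hb, (commute_iff45 _ _).1 hc⟩
  · exact ⟨(commute_iff45 _ _).2 y.2.2.2, rfl, rfl⟩
  · rintro ⟨⟨⟨⟨a, e⟩, ha⟩, ⟨⟨b, e'⟩, hb⟩⟩, hc, h1, h2⟩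
    have h1' : e = ε := h1
    have h2' : e' = δ := h2
    subst h1'
    subst h2'
    rfl

end aux

theorem trunc_dat (p ν : ℕ) [Fact p.Prime] (hν : 1 ≤ ν) (h : 4 * ν < p) :
    Dat (sX (ZMod p) (4 * ν)) (p ^ (4 * ν)) (1 + ν * (p ^ 2 - 1)) (1 + 2 * ν * (p ^ 2 - 1)) := by
  have hchar : ∀ m : ℕ, 0 < m → m ≤ 4 * ν → (m : ZMod p) ≠ 0 := by
    intro m hm hmn h0
    have := Nat.le_of_dvd hm ((ZMod.natCast_eq_zero_iff m p).1 h0)
    omega
  have h2 : (2 : ZMod p) ≠ 0 := by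
    have := hchar 2 (by norm_num) (by omega)
    exact_mod_cast this
  have hp2 : 2 ≤ p := (Fact.out : p.Prime).two_le
  have e1 : ∀ τ : TP (ZMod p) (4 * ν) ≃ₐ[ZMod p] TP (ZMod p) (4 * ν),
      Commute 1 τ := fun τ => Commute.one_left τ
  refine ⟨?_, ?_, ?_, ?_⟩
  · rw [card_s45, card_ld, Nat.card_zmod]
  · rw [card_s45, card_ld, Nat.card_zmod]
  · rw [cp_s45, ← close1 p ν hp2]
    have h3 := sum_depth p (4 * ν) (fun σ τ => Dp 1 τ ∧ Commute σ τ)
      (fun d => if 2 * d ≤ 4 * ν then p ^ (d + 1) else p ^ d) (p ^ (4 * ν))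
      (fun d hd1 hd2 σ hσ => card_cent p (4 * ν) h d hd1 hd2 σ hσ) (by
        have h4 := card_dp (K := ZMod p) (n := 4 * ν) 1 le_rfl (by omega)
        rw [Nat.card_zmod] at h4
        have h5 : 4 * ν + 1 - 1 = 4 * ν := by omega
        rw [h5] at h4
        rw [← h4]
        refine Nat.card_congr (Equiv.subtypeEquivRight fun τ => ?_)
        exact ⟨fun hh => hh.1, fun hh => ⟨hh, e1 τ⟩⟩)
    rw [← h3]
    refine Nat.card_congr (Equiv.subtypeEquivRight fun q => ?_)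
    rw [ld_one_iff, ld_one_iff]
  · rw [cp_s45, ← close2 p ν hp2]
    have h3 := sum_depth p (4 * ν) (fun σ τ => Ld (-1) τ ∧ Commute σ τ)
      (fun d => if Even d then (if 2 * d ≤ 4 * ν then p ^ (d + 1) else p ^ d) else 0) (p ^ (4 * ν))
      (by
        intro d hd1 hd2 σ hσ
        split_ifs with h4 h5
        · have h6 := card_cent p (4 * ν) h d hd1 hd2 σ hσ
          rw [if_pos h5] at h6
          rw [← h6]
          exact out_even hchar d hd1 hd2 h4 σ hσ
        · have h6 := card_cent p (4 * ν) h d hd1 hd2 σ hσ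
          rw [if_neg h5] at h6
          rw [← h6]
          exact out_even hchar d hd1 hd2 h4 σ hσ
        · have : IsEmpty {τ : TP (ZMod p) (4 * ν) ≃ₐ[ZMod p] TP (ZMod p) (4 * ν) //
              Ld (-1) τ ∧ Commute σ τ} := by
            constructor
            rintro ⟨τ, h5, h6⟩
            exact odd_no h2 σ τ d hd1 hd2 (Nat.not_even_iff_odd.1 h4) hσ h5 h6
          exact Nat.card_of_isEmpty) (by
        have h4 := card_ld (K := ZMod p) (n := 4 * ν) (-1)
        rw [Nat.card_zmod] at h4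
        rw [← h4]
        refine Nat.card_congr (Equiv.subtypeEquivRight fun τ => ?_)
        exact ⟨fun hh => hh.1, fun hh => ⟨hh, e1 τ⟩⟩)
    rw [← h3]
    refine Nat.card_congr (Equiv.subtypeEquivRight fun q => ?_)
    rw [ld_one_iff]

theorem finite_XX (p n : ℕ) [Fact p.Prime] : Finite (XX (ZMod p) n) := by
  have := finiteAut (K := ZMod p) (n := n)
  infer_instance

end Pool.Agent.Work.MP_34d05d_al.DO
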