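import Pool.Agent.Work.MP_34d05d_al.DO.GCp
import Pool.Agent.Work.MP_34d05d_al.DO.GFib
import Pool.Agent.Work.MP_34d05d_al.DO.GFrobEx
import Pool.Agent.Work.MP_34d05d_al.DO.TX

set_option autoImplicit false

/-!
# DO/GFinal (proved from the imports): the groups
-/

namespace Pool.Agent.Work.MP_34d05d_al.DO

theorem group_exists (p ν h w N : ℕ) (hp : p.Prime) (hν : 1 ≤ ν) (h4 : 4 * ν < p) (hh : Odd h)
    (hq : (2 * h * w + 1).Prime) (hN : Odd N) :
    ∃ (G : Type) (_ : Group G) (_ : Finite G),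
      2 * Nat.card (ConjClasses G) =
        3 * (1 + ν * (p ^ 2 - 1)) * h + (1 + 2 * ν * (p ^ 2 - 1)) * (h + 2 * w) * N ∧
      p ^ (4 * ν) ≤ Nat.card G := by
  haveI : Fact p.Prime := ⟨hp⟩
  have hX := trunc_dat p ν hν h4
  haveI := finite_XX p (4 * ν)
  obtain ⟨A, iA, fA, s, hA⟩ := frob_exists h w hh.pos hq
  obtain ⟨B, iB, fB, t, hB⟩ := dih_exists N hN
  have h1 := fp_dat (fp_dat hX hA) hB
  have hpos : 0 < p ^ (4 * ν) * ((2 * h * w + 1) * h) * N := by
    have := hp.pos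
    have := hh.pos
    have := hN.pos
    positivity
  refine ⟨FP (fs (sX (ZMod p) (4 * ν)) s) t, inferInstance, inferInstance, ?_, ?_⟩
  · rw [h1.classes hpos]
    ring
  · rw [h1.card]
    have e : p ^ (4 * ν) ≤ p ^ (4 * ν) * ((2 * h * w + 1) * h) * N := by
      rw [mul_assoc]
      refine Nat.le_mul_of_pos_right _ ?_
      have := hh.pos
      have := hN.pos
      positivity
    omega

end Pool.Agent.Work.MP_34d05d_al.DO
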