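import Pool.Agent.Work.MP_34d05d_al.DO.NPb
import Pool.Agent.Work.MP_34d05d_al.DO.GFinal

set_option autoImplicit false

/-!
# DO/NDens (size S-M): density one

PROOF. Good r: there is a finite group G with k(G) = r and |G| ≥ exp(r^(1/9-ε)). We may assume ε ≤ 1/100 (a smaller ε
gives a stronger condition for r ≥ 1). If R < r ≤ 2R and r is represented as in `cover`, `group_exists` gives G with
2 k(G) = 2 r, |G| ≥ p^(4ν) ≥ exp((2R)^(1/9-ε)) ≥ exp(r^(1/9-ε)): r is good. So for every η > 0 there is R₀ with at most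
η R bad numbers in (R, 2R] for R ≥ R₀. B(x) := number of bad r ≤ x. By strong induction B(x) ≤ 2R₀ + 1 + 4 η x: clear
for x ≤ 2R₀ + 1; otherwise put R = (x+1)/2 ≥ R₀, R < x ≤ 2R, B(x) ≤ B(R) + η R. Hence B(x)/x → 0 and the density of
the good numbers is 1.
-/

namespace Pool.Agent.Work.MP_34d05d_al.DO

open Finset Filter Topology

private def DG (ε : ℝ) (r : ℕ) : Prop :=
  ∃ (G : Type) (_ : Group G) (_ : Finite G),
    Nat.card (ConjClasses G) = r ∧ Real.exp ((r : ℝ) ^ (1 / 9 - ε)) ≤ Nat.card G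

open Classical in
private theorem dens_step (ε : ℝ) (hε : 0 < ε) (η : ℝ) (hη : 0 < η) : ∃ R₀ : ℕ, ∀ R : ℕ, R₀ ≤ R →
    (#((Ioc R (2 * R)).filter (fun r : ℕ => ¬ DG ε r)) : ℝ) ≤ η * R := by
  have hε' : 0 < min ε (1 / 100) := lt_min hε (by norm_num)
  have hε1 : min ε (1 / 100) ≤ 1 / 100 := min_le_right _ _
  obtain ⟨R₀, h⟩ := cover (min ε (1 / 100)) η hε' hε1 hη
  refine ⟨R₀, fun R hR => le_trans ?_ (h R hR)⟩
  have hsub : (Ioc R (2 * R)).filter (fun r : ℕ => ¬ DG ε r) ⊆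
      (Ioc R (2 * R)).filter (fun r : ℕ => ¬ ∃ p ν h w N : ℕ, p.Prime ∧ 1 ≤ ν ∧
      4 * ν < p ∧ Odd h ∧ (2 * h * w + 1).Prime ∧ Odd N ∧
      2 * r = 3 * (1 + ν * (p ^ 2 - 1)) * h + (1 + 2 * ν * (p ^ 2 - 1)) * (h + 2 * w) * N ∧
      Real.exp ((2 * R : ℝ) ^ (1 / 9 - min ε (1 / 100))) ≤ (p : ℝ) ^ (4 * ν)) := by
    intro r hr
    rw [mem_filter] at hr ⊢
    refine ⟨hr.1, fun hex => hr.2 ?_⟩
    obtain ⟨p, ν, h, w, N, hp, hν, h4, hh, hq, hN, he, hexp⟩ := hex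
    obtain ⟨G, iG, fG, hc, hG⟩ := group_exists p ν h w N hp hν h4 hh hq hN
    have hr1 := mem_Ioc.1 hr.1
    refine ⟨G, iG, fG, by omega, ?_⟩
    have hr0 : (1 : ℝ) ≤ r := by exact_mod_cast (by omega : 1 ≤ r)
    have e1 : (r : ℝ) ^ (1 / 9 - ε) ≤ (r : ℝ) ^ (1 / 9 - min ε (1 / 100)) :=
      Real.rpow_le_rpow_of_exponent_le hr0 (by linarith [min_le_left ε (1 / 100)])
    have e2 : (r : ℝ) ^ (1 / 9 - min ε (1 / 100)) ≤ (2 * R : ℝ) ^ (1 / 9 - min ε (1 / 100)) :=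
      Real.rpow_le_rpow (by linarith) (by exact_mod_cast hr1.2) (by linarith)
    refine le_trans (Real.exp_le_exp.2 (le_trans e1 e2)) (le_trans hexp ?_)
    exact_mod_cast hG
  exact_mod_cast card_le_card hsub

open Classical in
private theorem dens_ind (ε : ℝ) (η : ℝ) (hη : 0 < η) (R₀ : ℕ)
    (h : ∀ R : ℕ, R₀ ≤ R → (#((Ioc R (2 * R)).filter (fun r : ℕ => ¬ DG ε r)) : ℝ) ≤ η * R)
    (x : ℕ) : (#((Icc 1 x).filter (fun r : ℕ => ¬ DG ε r)) : ℝ) ≤ 2 * R₀ + 1 + 4 * η * x := by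
  induction x using Nat.strong_induction_on with
  | _ x ih =>
    by_cases hx : x ≤ 2 * R₀ + 1
    · have h1 : (#((Icc 1 x).filter (fun r : ℕ => ¬ DG ε r)) : ℝ) ≤ x := by
        have h2 := card_filter_le (Icc 1 x) (fun r : ℕ => ¬ DG ε r)
        rw [Nat.card_Icc, Nat.add_sub_cancel] at h2
        exact_mod_cast h2
      have h3 : (x : ℝ) ≤ 2 * R₀ + 1 := by exact_mod_cast hx
      have h4 : 0 ≤ 4 * η * x := by positivity
      linarith
    · set R := (x + 1) / 2 with hR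
      have h1 : R₀ ≤ R := by omega
      have h2 : R < x := by omega
      have h3 : x ≤ 2 * R := by omega
      have h4 : 2 * R ≤ x + 1 := by omega
      have hx2 : 2 ≤ x := by omega
      have hsub : (Icc 1 x).filter (fun r : ℕ => ¬ DG ε r) ⊆
          (Icc 1 R).filter (fun r : ℕ => ¬ DG ε r) ∪
            (Ioc R (2 * R)).filter (fun r : ℕ => ¬ DG ε r) := by
        intro r hr
        rw [mem_filter, mem_Icc] at hr
        rw [mem_union, mem_filter, mem_filter, mem_Icc, mem_Ioc]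
        by_cases hrR : r ≤ R
        · exact Or.inl ⟨⟨hr.1.1, hrR⟩, hr.2⟩
        · exact Or.inr ⟨⟨by omega, by omega⟩, hr.2⟩
      have h5 : (#((Icc 1 x).filter (fun r : ℕ => ¬ DG ε r)) : ℝ) ≤
          #((Icc 1 R).filter (fun r : ℕ => ¬ DG ε r)) +
            #((Ioc R (2 * R)).filter (fun r : ℕ => ¬ DG ε r)) := by
        exact_mod_cast le_trans (card_le_card hsub) (card_union_le _ _)
      have h6 := ih R h2
      have h7 := h R h1
      have h8 : (2 : ℝ) * R ≤ x + 1 := by exact_mod_cast h4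
      have h9 : (2 : ℝ) ≤ x := by exact_mod_cast hx2
      nlinarith

open Classical in
theorem density_one (ε : ℝ) (hε : 0 < ε) : Tendsto (fun x : ℕ =>
    (#((Icc 1 x).filter (fun r : ℕ => ∃ (G : Type) (_ : Group G) (_ : Finite G),
      Nat.card (ConjClasses G) = r ∧ Real.exp ((r : ℝ) ^ (1 / 9 - ε)) ≤ Nat.card G)) : ℝ) / x)
    atTop (𝓝 1) := by
  rw [Metric.tendsto_atTop]
  intro e he
  obtain ⟨R₀, h⟩ := dens_step ε hε (e / 8) (by positivity)
  obtain ⟨X₀, hX₀⟩ := exists_nat_gt ((2 * R₀ + 1) / (e / 4) : ℝ)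
  refine ⟨max X₀ 1, fun x hx => ?_⟩
  have hx1 : 1 ≤ x := le_trans (le_max_right _ _) hx
  have hx0 : (0 : ℝ) < x := by exact_mod_cast hx1
  have hxX : (X₀ : ℝ) ≤ x := by exact_mod_cast le_trans (le_max_left _ _) hx
  have hB := dens_ind ε (e / 8) (by positivity) R₀ h x
  have hsum : #((Icc 1 x).filter (fun r : ℕ => DG ε r)) +
      #((Icc 1 x).filter (fun r : ℕ => ¬ DG ε r)) = x := by
    have h2 := card_filter_add_card_filter_not (s := Icc 1 x) (fun r : ℕ => DG ε r)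
    rw [Nat.card_Icc, Nat.add_sub_cancel] at h2
    exact h2
  have hsum' : (#((Icc 1 x).filter (fun r : ℕ => DG ε r)) : ℝ) =
      x - #((Icc 1 x).filter (fun r : ℕ => ¬ DG ε r)) := by
    have h3 : ((#((Icc 1 x).filter (fun r : ℕ => DG ε r)) +
      #((Icc 1 x).filter (fun r : ℕ => ¬ DG ε r)) : ℕ) : ℝ) = x := by exact_mod_cast hsum
    push_cast at h3
    linarith
  have h4 : (2 * R₀ + 1 : ℝ) < e / 4 * x := by
    have h5 := lt_of_lt_of_le hX₀ hxX
    rw [div_lt_iff₀ (by positivity)] at h5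
    linarith
  have hB0 : (0 : ℝ) ≤ #((Icc 1 x).filter (fun r : ℕ => ¬ DG ε r)) := Nat.cast_nonneg _
  show dist ((#((Icc 1 x).filter (fun r : ℕ => DG ε r)) : ℝ) / x) 1 < e
  rw [Real.dist_eq, hsum', sub_div, div_self hx0.ne', sub_sub_cancel_left, abs_neg,
    abs_of_nonneg (by positivity), div_lt_iff₀ hx0]
  nlinarith

end Pool.Agent.Work.MP_34d05d_al.DO
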