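import Mathlib

set_option autoImplicit false

/-!
# Definitions for `MP_34d05d_al.DensityOne` (FIXED, no statement to prove)

THEOREM (board modfr). For every ε > 0 the set of r for which there is a finite group G with k(G) = r and
|G| ≥ exp(r^(1/9 - ε)) has natural density 1.

GROUPS. For a finite group G with s : G → {1,-1}, kernel G0 of order n, put a = k(G0) and f n = number of commuting
pairs (x, y) with s x = 1, s y = -1.  Then 2 k(G) = 3 f + a, and (n, f, a) is multiplicative in fibre products over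
{1,-1}.  Data: C_N : C_2 (N odd): (N, 1, N); C_q : C_2h (h odd, q = 2hw+1 prime): (qh, h, h+2w); the group X of the
automorphisms of F_p[x]/x^(n+2) with leading coefficient 1 or -1, n = 4 nu < p: (p^n, 1+nu(p^2-1), 1+2nu(p^2-1)).
So r = k(G) for a group of order at least p^(4 nu) whenever 2r = 3 f h + a (h+2w) N, N odd, 2hw+1 prime.

NUMBERS. a ~ R^(1/3-3δ), h ∈ (H,2H], H = R^(1/3-2δ), h = 1 mod M (M = product of the primes ≤ z, z a constant),
w ∈ (Y,2Y], Y = R^(1/3-δ).  For r in a fixed class mod a the number of representations has mean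
S = ∑ 1/(h+2w) over the pairs (h,w) with h in a fixed class mod a (Bombieri-Vinogradov), which tends to infinity,
and a second moment S²(1+o(1)): pairs with gcd(h+2w,h'+2w') = g > 1 contribute only if g divides f (h-h')/(aM), and
then g has no prime factor below z.
-/

namespace Pool.Agent.Work.MP_34d05d_al.DO

open Finset

/-! ### groups -/

/-- number of pairs of commuting elements with prescribed signs -/
noncomputable def cp {G : Type} [Group G] (s : G →* ℤˣ) (ε δ : ℤˣ) : ℕ :=
  Nat.card {q : G × G // Commute q.1 q.2 ∧ s q.1 = ε ∧ s q.2 = δ}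

/-- the data `(n, f, a)` of a group with a sign homomorphism -/
structure Dat {G : Type} [Group G] (s : G →* ℤˣ) (n f a : ℕ) : Prop where
  k1 : Nat.card {x : G // s x = 1} = n
  km : Nat.card {x : G // s x = -1} = n
  c11 : cp s 1 1 = a * n
  c1m : cp s 1 (-1) = f * n

/-- the fibre product over the signs -/
def FP {G H : Type} [Group G] [Group H] (s : G →* ℤˣ) (t : H →* ℤˣ) : Subgroup (G × H) :=
  (s.comp (MonoidHom.fst G H)).eqLocus (t.comp (MonoidHom.snd G H))

/-- the sign homomorphism of the fibre product -/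
def fs {G H : Type} [Group G] [Group H] (s : G →* ℤˣ) (t : H →* ℤˣ) : FP s t →* ℤˣ :=
  (s.comp (MonoidHom.fst G H)).comp (FP s t).subtype

/-! ### numbers -/

/-- the admissible `w` for `h` -/
def WW (h Y : ℕ) : Finset ℕ := (Ioc Y (2 * Y)).filter (fun w => (2 * h * w + 1).Prime)

/-- the admissible `h` in the class of `c` modulo `a` -/
def HC (a M H c : ℕ) : Finset ℕ := (Ioc H (2 * H)).filter (fun h => h % M = 1 ∧ h % a = c % a)

/-- the index set of the pairs `(h, w)` -/
def IX (a M H Y c : ℕ) : Finset (ℕ × ℕ) :=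
  (HC a M H c ×ˢ Ioc Y (2 * Y)).filter (fun x => (2 * x.1 * x.2 + 1).Prime)

/-- the divisor `h + 2 w` -/
def DD (x : ℕ × ℕ) : ℕ := x.1 + 2 * x.2

/-- the expected number of representations in a class -/
noncomputable def SS (a M H Y c : ℕ) : ℝ := ∑ x ∈ IX a M H Y c, 1 / (DD x : ℝ)

/-- the density of the numbers covered twice -/
noncomputable def rho2 (a f : ℕ) (x y : ℕ × ℕ) : ℝ :=
  open Classical in
  if ((a * Nat.gcd (DD x) (DD y) : ℕ) : ℤ) ∣ 3 * (f : ℤ) * x.1 - 3 * (f : ℤ) * y.1 then
    (Nat.gcd (DD x) (DD y) : ℝ) / ((DD x : ℝ) * (DD y : ℝ)) else 0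

/-- all prime factors are at least `z` -/
def Rough (z n : ℕ) : Prop := ∀ l : ℕ, l.Prime → l ∣ n → z ≤ l

/-- the local sum of the common divisors -/
noncomputable def KK (z f k : ℕ) : ℝ :=
  open Classical in
  ∑ g ∈ (f * k).divisors.filter (fun g => 1 < g ∧ Rough z g), ((g : ℝ) / Nat.totient g) ^ 2 / g

/-- `r` is represented (for the class `c`) -/
def Cov (a f M H Y c r : ℕ) : Prop :=
  ∃ x ∈ IX a M H Y c, ((a * DD x : ℕ) : ℤ) ∣ 2 * (r : ℤ) - 3 * (f : ℤ) * x.1

end Pool.Agent.Work.MP_34d05d_al.DO
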