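import Pool.Agent.Work.MP_34d05d_al.DO.Defs

set_option autoImplicit false

/-!
# DO/GCp (size S-M): commuting pairs with signs, class number

PROOFS.
`cp_swap`: Nat.card_congr with the bijection (x, y) ↦ (y, x) (Commute.symm).
`cp_shear`: bijection (x, y) ↦ (x, x y) from the pairs with signs (-1,-1) to the pairs with signs (-1,1)
(s (x y) = (-1)(-1) = 1; x commutes with x y iff x commutes with y; inverse (x, z) ↦ (x, x⁻¹ z)).
`Dat.card`: G is the disjoint union of the fibres s = 1 and s = -1 (`Int.units_eq_one_or`), so |G| = n + n.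
`Dat.classes`: `card_comm_eq_card_conjClasses_mul_card` (Mathlib): Nat.card {p : G × G // Commute p.1 p.2} =
k(G) |G|. The left side is the sum over the four pairs of signs of cp = (a + 3 f) n (c11, c1m, cp_swap for (-1,1),
cp_shear and cp_swap for (-1,-1)); |G| = 2 n; cancel n > 0.
-/

namespace Pool.Agent.Work.MP_34d05d_al.DO

theorem cp_swap {G : Type} [Group G] (s : G →* ℤˣ) (ε δ : ℤˣ) : cp s ε δ = cp s δ ε := by
  refine Nat.card_congr
    { toFun := fun q => ⟨(q.1.2, q.1.1), q.2.1.symm, q.2.2.2, q.2.2.1⟩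
      invFun := fun q => ⟨(q.1.2, q.1.1), q.2.1.symm, q.2.2.2, q.2.2.1⟩
      left_inv := fun q => rfl
      right_inv := fun q => rfl }

theorem cp_shear {G : Type} [Group G] (s : G →* ℤˣ) : cp s (-1) (-1) = cp s (-1) 1 := by
  refine Nat.card_congr
    { toFun := fun q => ⟨(q.1.1, q.1.1 * q.1.2), (Commute.refl _).mul_right q.2.1, q.2.2.1, by
        show s (q.1.1 * q.1.2) = 1
        rw [map_mul, q.2.2.1, q.2.2.2]
        decide⟩
      invFun := fun q => ⟨(q.1.1, q.1.1⁻¹ * q.1.2), (Commute.refl _).inv_right.mul_right q.2.1,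
        q.2.2.1, by
          show s (q.1.1⁻¹ * q.1.2) = -1
          rw [map_mul, map_inv, q.2.2.1, q.2.2.2]
          decide⟩
      left_inv := fun q => by
        apply Subtype.ext
        simp
      right_inv := fun q => by
        apply Subtype.ext
        simp }

theorem Dat.card {G : Type} [Group G] [Finite G] {s : G →* ℤˣ} {n f a : ℕ} (h : Dat s n f a) :
    Nat.card G = 2 * n := by
  classical
  have h1 : Nat.card G = Nat.card {x : G // s x = 1} + Nat.card {x : G // ¬ s x = 1} := by
    rw [← Nat.card_sum]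
    exact Nat.card_congr (Equiv.sumCompl (fun x => s x = 1)).symm
  have h2 : Nat.card {x : G // ¬ s x = 1} = Nat.card {x : G // s x = -1} := by
    refine Nat.card_congr (Equiv.subtypeEquivRight fun x => ?_)
    rcases Int.units_eq_one_or (s x) with hx | hx
    · rw [hx]
      decide
    · rw [hx]
      decide
  rw [h1, h2, h.k1, h.km]
  ring

theorem Dat.classes {G : Type} [Group G] [Finite G] {s : G →* ℤˣ} {n f a : ℕ} (h : Dat s n f a)
    (hn : 0 < n) : 2 * Nat.card (ConjClasses G) = 3 * f + a := by
  classical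
  have e1 : (1 : ℤˣ) ≠ -1 := by decide
  have e2 : (-1 : ℤˣ) ≠ 1 := by decide
  have h4 : Nat.card {p : G × G // Commute p.1 p.2} =
      cp s 1 1 + cp s 1 (-1) + cp s (-1) 1 + cp s (-1) (-1) := by
    haveI := Fintype.ofFinite G
    simp only [cp, Nat.card_eq_fintype_card, Fintype.card_subtype, Finset.card_filter,
      ← Finset.sum_add_distrib]
    refine Finset.sum_congr rfl fun q _ => ?_
    rcases Int.units_eq_one_or (s q.1) with h1 | h1 <;>
      rcases Int.units_eq_one_or (s q.2) with h2 | h2 <;>
      by_cases hc : Commute q.1 q.2 <;> simp [h1, h2, hc, e1, e2]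
  rw [card_comm_eq_card_conjClasses_mul_card, h.card, cp_shear, cp_swap s (-1) 1, h.c11, h.c1m] at h4
  have h5 : n * (2 * Nat.card (ConjClasses G)) = n * (3 * f + a) := by
    linarith [h4]
  exact Nat.eq_of_mul_eq_mul_left hn h5

end Pool.Agent.Work.MP_34d05d_al.DO
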