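import Pool.Agent.Work.MP_34d05d_al.DO.Defs

set_option autoImplicit false

/-!
# DO/GFrob (size M): semidirect products with a fixed-point-free action

PROOF. m := |A| = 2hw+1, elements (x, u) (x = left, u = right), product (x φ_u(y), u v). (x,u) and (y,v) commute iff
x φ_u(y) = y φ_v(x) (U is commutative), i.e. D_u(y) = D_v(x), where D_u(y) := y⁻¹ φ_u(y); D_u is a homomorphism of
the commutative group A, injective for u ≠ 1 (hfix: φ_u(y) = y implies y = 1), hence bijective (A finite).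
N(u,v) := number of (x,y) with D_u(y) = D_v(x): if u ≠ 1, y is determined by x: N = m; if u = 1 and v ≠ 1: D_v(x) = 1,
x = 1, y arbitrary: N = m; u = v = 1: N = m².
cp(ε,δ) = ∑ over u with s u = ε, v with s v = δ of N(u,v): (1,1): h² m + (m² - m) = m (h² + 2hw) = (h+2w)(m h);
(1,-1): h h m = h (m h) (here v ≠ 1 as s v = -1). Fibres of the sign: A × {u : s u = ε}: m h.
(For the counting: Nat.card of a sigma / equivalence of the subtype with Σ u v, {(x,y) // ...}, or a Fintype sum.)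
-/

namespace Pool.Agent.Work.MP_34d05d_al.DO

private def Sol {A U : Type} [CommGroup A] [CommGroup U] (φ : U →* MulAut A) (u v : U) : Type :=
  {q : A × A // q.1 * φ u q.2 = q.2 * φ v q.1}

private theorem sol_swap {A U : Type} [CommGroup A] [CommGroup U] (φ : U →* MulAut A) (u v : U) :
    Nat.card (Sol φ u v) = Nat.card (Sol φ v u) :=
  Nat.card_congr ⟨fun q => ⟨(q.1.2, q.1.1), q.2.symm⟩, fun q => ⟨(q.1.2, q.1.1), q.2.symm⟩,
    fun _ => rfl, fun _ => rfl⟩

private theorem sol_left {A U : Type} [CommGroup A] [CommGroup U] [Finite A] (φ : U →* MulAut A)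
    (u v : U) (hfix : ∀ x : A, φ u x = x → x = 1) : Nat.card (Sol φ u v) = Nat.card A := by
  have hinj : Function.Injective (fun y : A => y⁻¹ * φ u y) := by
    intro y y' h
    have h' : y⁻¹ * φ u y = y'⁻¹ * φ u y' := h
    have h1 : φ u (y * y'⁻¹) = y * y'⁻¹ := by
      rw [map_mul, map_inv]
      have h2 : φ u y = y * (y'⁻¹ * φ u y') := by rw [← h', mul_inv_cancel_left]
      rw [h2]
      rw [mul_assoc, mul_assoc, mul_inv_cancel, mul_one]
    exact mul_inv_eq_one.1 (hfix _ h1)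
  have hsurj := Finite.surjective_of_injective hinj
  refine Nat.card_congr (Equiv.ofBijective (fun q : Sol φ u v => q.1.1) ⟨?_, ?_⟩)
  · rintro ⟨⟨x, y⟩, hq⟩ ⟨⟨x', y'⟩, hq'⟩ h
    have h' : x = x' := h
    subst h'
    have hq1 : x * φ u y = y * φ v x := hq
    have hq1' : x * φ u y' = y' * φ v x := hq'
    have e1 : y⁻¹ * φ u y = x⁻¹ * φ v x := by
      rw [inv_mul_eq_iff_eq_mul, ← mul_assoc, mul_comm y, mul_assoc, eq_inv_mul_iff_mul_eq]
      exact hq1
    have e2 : y'⁻¹ * φ u y' = x⁻¹ * φ v x := by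
      rw [inv_mul_eq_iff_eq_mul, ← mul_assoc, mul_comm y', mul_assoc, eq_inv_mul_iff_mul_eq]
      exact hq1'
    have e3 : y = y' := hinj (e1.trans e2.symm)
    subst e3
    rfl
  · intro x
    obtain ⟨y, hy⟩ := hsurj (x⁻¹ * φ v x)
    have hy' : y⁻¹ * φ u y = x⁻¹ * φ v x := hy
    refine ⟨⟨(x, y), ?_⟩, rfl⟩
    show x * φ u y = y * φ v x
    rw [inv_mul_eq_iff_eq_mul, ← mul_assoc, mul_comm y, mul_assoc, eq_inv_mul_iff_mul_eq] at hy'
    exact hy'

private theorem sol_one {A U : Type} [CommGroup A] [CommGroup U] (φ : U →* MulAut A) :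
    Nat.card (Sol φ 1 1) = Nat.card A * Nat.card A := by
  rw [← Nat.card_prod]
  refine Nat.card_congr ⟨fun q => q.1, fun q => ⟨q, ?_⟩, fun _ => rfl, fun _ => rfl⟩
  rw [map_one, MulAut.one_apply, MulAut.one_apply, mul_comm]

private theorem cp_eq {A U : Type} [CommGroup A] [CommGroup U] [Finite A] [Finite U]
    (φ : U →* MulAut A) (s : U →* ℤˣ) (ε δ : ℤˣ) [Fintype ({u : U // s u = ε} × {v : U // s v = δ})] :
    cp (s.comp (SemidirectProduct.rightHom : A ⋊[φ] U →* U)) ε δ =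
      ∑ p : {u : U // s u = ε} × {v : U // s v = δ}, Nat.card (Sol φ p.1.1 p.2.1) := by
  unfold cp
  have hf : ∀ p : {u : U // s u = ε} × {v : U // s v = δ}, Finite (Sol φ p.1.1 p.2.1) := by
    intro p
    unfold Sol
    infer_instance
  rw [← Nat.card_sigma (β := fun p : {u : U // s u = ε} × {v : U // s v = δ} =>
    Sol φ p.1.1 p.2.1)]
  refine Nat.card_congr ⟨fun q => ⟨(⟨q.1.1.right, q.2.2.1⟩, ⟨q.1.2.right, q.2.2.2⟩),
      ⟨(q.1.1.left, q.1.2.left), ?_⟩⟩,
    fun p => ⟨(⟨p.2.1.1, p.1.1.1⟩, ⟨p.2.1.2, p.1.2.1⟩), ?_, p.1.1.2, p.1.2.2⟩,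
    fun _ => rfl, fun _ => rfl⟩
  · exact congrArg SemidirectProduct.left q.2.1.eq
  · refine SemidirectProduct.ext p.2.2 ?_
    exact mul_comm _ _

theorem frob_dat {A U : Type} [CommGroup A] [CommGroup U] [Finite A] [Finite U]
    (φ : U →* MulAut A) (s : U →* ℤˣ) (h w : ℕ) (hA : Nat.card A = 2 * h * w + 1)
    (hU1 : Nat.card {u : U // s u = 1} = h) (hUm : Nat.card {u : U // s u = -1} = h)
    (hfix : ∀ u : U, u ≠ 1 → ∀ x : A, φ u x = x → x = 1) :
    Dat (s.comp (SemidirectProduct.rightHom : A ⋊[φ] U →* U)) ((2 * h * w + 1) * h) h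
      (h + 2 * w) := by
  classical
  have hcard : ∀ ε : ℤˣ, Nat.card {x : A ⋊[φ] U // (s.comp
      (SemidirectProduct.rightHom : A ⋊[φ] U →* U)) x = ε} =
      Nat.card A * Nat.card {u : U // s u = ε} := by
    intro ε
    rw [← Nat.card_prod]
    exact Nat.card_congr ⟨fun x => (x.1.left, ⟨x.1.right, x.2⟩), fun q => ⟨⟨q.1, q.2.1⟩, q.2.2⟩,
      fun _ => rfl, fun _ => rfl⟩
  have hN : ∀ u v : U, ¬ (u = 1 ∧ v = 1) → Nat.card (Sol φ u v) = Nat.card A := by
    intro u v huv
    by_cases hu : u = 1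
    · have hv : v ≠ 1 := fun hv => huv ⟨hu, hv⟩
      rw [sol_swap]
      exact sol_left φ v u (hfix v hv)
    · exact sol_left φ u v (hfix u hu)
  refine ⟨?_, ?_, ?_, ?_⟩
  · rw [hcard, hA, hU1]
  · rw [hcard, hA, hUm]
  · haveI : Fintype {u : U // s u = 1} := Fintype.ofFinite _
    rw [cp_eq φ s 1 1]
    have e1 : ∀ p : {u : U // s u = 1} × {v : U // s v = 1}, Nat.card (Sol φ p.1.1 p.2.1) =
        (2 * h * w + 1) + if p = (⟨1, map_one s⟩, ⟨1, map_one s⟩) then
          (2 * h * w + 1) * (2 * h * w) else 0 := by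
      intro p
      by_cases hp : p = (⟨1, map_one s⟩, ⟨1, map_one s⟩)
      · rw [if_pos hp, hp]
        show Nat.card (Sol φ 1 1) = _
        rw [sol_one, hA]
        ring
      · rw [if_neg hp, add_zero, ← hA]
        refine hN _ _ fun hc => hp ?_
        exact Prod.ext (Subtype.ext hc.1) (Subtype.ext hc.2)
    rw [Finset.sum_congr rfl fun p _ => e1 p, Finset.sum_add_distrib, Finset.sum_const,
      Finset.sum_ite_eq', if_pos (Finset.mem_univ _), Finset.card_univ, Fintype.card_prod,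
      ← Nat.card_eq_fintype_card, hU1, smul_eq_mul]
    ring
  · haveI : Fintype {u : U // s u = 1} := Fintype.ofFinite _
    haveI : Fintype {u : U // s u = -1} := Fintype.ofFinite _
    rw [cp_eq φ s 1 (-1)]
    have e1 : ∀ p : {u : U // s u = 1} × {v : U // s v = -1}, Nat.card (Sol φ p.1.1 p.2.1) =
        2 * h * w + 1 := by
      intro p
      rw [← hA]
      refine hN _ _ fun hc => ?_
      have h1 := p.2.2
      rw [hc.2, map_one] at h1
      exact absurd h1 (by decide)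
    rw [Finset.sum_congr rfl fun p _ => e1 p, Finset.sum_const, Finset.card_univ,
      Fintype.card_prod, ← Nat.card_eq_fintype_card, ← Nat.card_eq_fintype_card, hU1, hUm,
      smul_eq_mul]
    ring

end Pool.Agent.Work.MP_34d05d_al.DO
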