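import Pool.Agent.Work.MP_34d05d_al.DO.NBv

set_option autoImplicit false

/-!
# DO/NBad (size S-M): few bad classes

Call c bad if ∑_{h ∈ HC a M H c} #WW h Y < (c₂/2) #HC · Y/log Y. PROOFS.
`card_HC`: HC a M H c is one class modulo aM in (H, 2H] (CRT): #HC ≥ H/(aM) - 1 ≥ H/(2aM) and #HC ≤ H/(aM) + 1
≤ 2H/(aM) (H ≥ 2aM).
`bad_le`: for c bad, ∑_{h ∈ HC} Er h ≥ ∑_{h ∈ HC} (c₂ Y/log Y - #WW h Y) > (c₂/2) #HC Y/log Y ≥
(c₂/2)(H/(2aM)) Y/log Y. The sets HC a M H c, c ∈ range a, are disjoint subsets of (H,2H] (h % a = c % a = c), so the sum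
over the bad c of ∑_{HC} Er is ≤ C H Y/log³ Y; so #bad · (c₂/4)(H/(aM))(Y/log Y) ≤ C H Y/log³ Y, i.e.
#bad ≤ (4C/c₂) a M/log² Y.
-/

namespace Pool.Agent.Work.MP_34d05d_al.DO

open Finset

private theorem hc_eq {a M H c : ℕ} (hM : 2 ≤ M) (hcop : Nat.Coprime a M) :
    ∃ v : ℕ, HC a M H c = (Ioc H (2 * H)).filter (fun h => h ≡ v [MOD a * M]) := by
  obtain ⟨v, hv1, hv2⟩ := Nat.chineseRemainder hcop c 1
  refine ⟨v, ?_⟩
  ext h
  unfold HC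
  rw [mem_filter, mem_filter]
  refine and_congr_right fun _ => ?_
  have h1 : (1 : ℕ) % M = 1 := Nat.mod_eq_of_lt hM
  constructor
  · rintro ⟨h2, h3⟩
    have h4 : h ≡ v [MOD a] := by
      have h5 : h ≡ c [MOD a] := h3
      exact h5.trans hv1.symm
    have h6 : h ≡ v [MOD M] := by
      have h7 : h ≡ 1 [MOD M] := by unfold Nat.ModEq; rw [h2, h1]
      exact h7.trans hv2.symm
    exact (Nat.modEq_and_modEq_iff_modEq_mul hcop).1 ⟨h4, h6⟩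
  · intro h2
    obtain ⟨h3, h4⟩ := (Nat.modEq_and_modEq_iff_modEq_mul hcop).2 h2
    have h5 : h % M = 1 % M := h4.trans hv2
    exact ⟨by rw [h5, h1], h3.trans hv1⟩

theorem card_HC (a M H c : ℕ) (ha : 1 ≤ a) (hM : 2 ≤ M) (hcop : Nat.Coprime a M)
    (hH : 2 * (a * M) ≤ H) : (H : ℝ) / (2 * (a * M)) ≤ #(HC a M H c) ∧
      (#(HC a M H c) : ℝ) ≤ 2 * ((H : ℝ) / (a * M)) := by
  obtain ⟨v, hv⟩ := hc_eq (a := a) (M := M) (H := H) (c := c) hM hcop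
  have hr : 0 < a * M := by positivity
  have h1 := Nat.Ioc_filter_modEq_card H (2 * H) hr v
  rw [← hv] at h1
  set x : ℚ := ((2 * H : ℕ) - (v : ℚ)) / ((a * M : ℕ) : ℚ) with hx
  set y : ℚ := ((H : ℕ) - (v : ℚ)) / ((a * M : ℕ) : ℚ) with hy
  have hrQ : (0 : ℚ) < ((a * M : ℕ) : ℚ) := by exact_mod_cast hr
  have hxy : x - y = (H : ℚ) / ((a * M : ℕ) : ℚ) := by
    rw [hx, hy, ← sub_div]
    congr 1
    push_cast
    ring
  have h2 : (2 : ℚ) ≤ (H : ℚ) / ((a * M : ℕ) : ℚ) := by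
    rw [le_div_iff₀ hrQ]
    exact_mod_cast hH
  have h3 : ((⌊x⌋ : ℤ) : ℚ) - ⌊y⌋ ≤ (H : ℚ) / ((a * M : ℕ) : ℚ) + 1 := by
    have := Int.floor_le x
    have := Int.lt_floor_add_one y
    linarith
  have h4 : (H : ℚ) / ((a * M : ℕ) : ℚ) - 1 ≤ ((⌊x⌋ : ℤ) : ℚ) - ⌊y⌋ := by
    have := Int.floor_le y
    have := Int.lt_floor_add_one x
    linarith
  have h5 : ((#(HC a M H c) : ℕ) : ℚ) = ((⌊x⌋ : ℤ) : ℚ) - ⌊y⌋ := by
    have h6 : (0 : ℤ) ≤ ⌊x⌋ - ⌊y⌋ := by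
      have h7 : (0 : ℚ) ≤ ((⌊x⌋ - ⌊y⌋ : ℤ) : ℚ) := by push_cast; linarith
      exact_mod_cast h7
    rw [max_eq_left h6] at h1
    have h8 : (((#(HC a M H c) : ℕ) : ℤ) : ℚ) = ((⌊x⌋ - ⌊y⌋ : ℤ) : ℚ) := by exact_mod_cast h1
    push_cast at h8
    exact h8
  have e1 : (H : ℚ) / (2 * (a * M)) ≤ #(HC a M H c) := by
    rw [h5]
    have h6 : (H : ℚ) / (2 * (a * M)) = ((H : ℚ) / ((a * M : ℕ) : ℚ)) / 2 := by
      push_cast
      field_simp
    rw [h6]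
    linarith
  have e2 : (#(HC a M H c) : ℚ) ≤ 2 * ((H : ℚ) / (a * M)) := by
    rw [h5]
    have h6 : (H : ℚ) / (a * M) = (H : ℚ) / ((a * M : ℕ) : ℚ) := by push_cast; rfl
    rw [h6]
    linarith
  constructor
  · have h7 := (Rat.cast_le (K := ℝ)).2 e1
    push_cast at h7
    exact h7
  · have h7 := (Rat.cast_le (K := ℝ)).2 e2
    push_cast at h7
    exact h7

open Classical in
theorem bad_le : ∃ c₂ : ℝ, 0 < c₂ ∧ ∀ θ : ℝ, 0 < θ → θ < 1 → ∃ C : ℝ, 0 < C ∧ ∃ Y₀ : ℕ,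
    ∀ a M H Y : ℕ, Y₀ ≤ Y → 1 ≤ H → (H : ℝ) ≤ (Y : ℝ) ^ (1 - θ) → 1 ≤ a → 2 ≤ M →
      Nat.Coprime a M → 2 * (a * M) ≤ H →
      (#((range a).filter (fun c => (∑ h ∈ HC a M H c, (#(WW h Y) : ℝ)) <
        c₂ * (#(HC a M H c) * (Y / Real.log Y)))) : ℝ) ≤ C * (a * M) / Real.log Y ^ 2 := by
  obtain ⟨c₂, hc₂, hbv⟩ := bv_lower
  refine ⟨c₂ / 2, by positivity, fun θ hθ hθ1 => ?_⟩
  obtain ⟨C, hC, Y₀, hY₀⟩ := hbv θ hθ hθ1
  refine ⟨4 * C / c₂, by positivity, max Y₀ 3, fun a M H Y hY hH hHY ha hM hcop hH2 => ?_⟩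
  obtain ⟨Er, hEr0, hEr1, hEr2⟩ := hY₀ H Y (le_trans (le_max_left _ _) hY) hH hHY
  have hY3 : (3 : ℝ) ≤ Y := by exact_mod_cast le_trans (le_max_right _ _) hY
  have hlog : 0 < Real.log Y := Real.log_pos (by linarith)
  have haR : (0 : ℝ) < a := by exact_mod_cast ha
  have hMR : (0 : ℝ) < M := by exact_mod_cast (by omega : 0 < M)
  have hHR : (0 : ℝ) < H := by exact_mod_cast hH
  have hYR : (0 : ℝ) < Y := by linarith
  set 𝓑 := (range a).filter (fun c => (∑ h ∈ HC a M H c, (#(WW h Y) : ℝ)) <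
        c₂ / 2 * (#(HC a M H c) * (Y / Real.log Y))) with h𝓑
  set L : ℝ := c₂ / 2 * ((H : ℝ) / (2 * (a * M)) * (Y / Real.log Y)) with hL
  have hL0 : 0 < L := by positivity
  have h1 : ∀ c ∈ 𝓑, L ≤ ∑ h ∈ HC a M H c, Er h := by
    intro c hc
    rw [h𝓑, mem_filter] at hc
    have h2 : ∑ h ∈ HC a M H c, (c₂ * (Y / Real.log Y) - Er h) ≤
        ∑ h ∈ HC a M H c, (#(WW h Y) : ℝ) := by
      refine sum_le_sum fun h hh => hEr1 h ?_
      unfold HC at hh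
      exact (mem_filter.1 hh).1
    rw [sum_sub_distrib, sum_const, nsmul_eq_mul] at h2
    have h3 := (card_HC a M H c ha hM hcop hH2).1
    have h4 : (H : ℝ) / (2 * (a * M)) * (Y / Real.log Y) ≤ #(HC a M H c) * (Y / Real.log Y) :=
      mul_le_mul_of_nonneg_right h3 (by positivity)
    have h5 := hc.2
    rw [hL]
    nlinarith
  have h2 : ∑ c ∈ 𝓑, ∑ h ∈ HC a M H c, Er h ≤ ∑ h ∈ Ioc H (2 * H), Er h := by
    have hdis : (𝓑 : Set ℕ).PairwiseDisjoint (fun c => HC a M H c) := by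
      intro c hc c' hc' hne
      rw [Function.onFun, disjoint_left]
      intro h hh hh'
      apply hne
      have h3 : c < a := mem_range.1 (mem_filter.1 (by exact_mod_cast hc)).1
      have h4 : c' < a := mem_range.1 (mem_filter.1 (by exact_mod_cast hc')).1
      unfold HC at hh hh'
      have h5 := (mem_filter.1 hh).2.2
      have h6 := (mem_filter.1 hh').2.2
      rw [Nat.mod_eq_of_lt h3] at h5
      rw [Nat.mod_eq_of_lt h4] at h6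
      omega
    rw [← sum_biUnion hdis]
    refine sum_le_sum_of_subset_of_nonneg ?_ fun h _ _ => hEr0 h
    intro h hh
    rw [mem_biUnion] at hh
    obtain ⟨c, -, hh⟩ := hh
    unfold HC at hh
    exact (mem_filter.1 hh).1
  have h3 : (#𝓑 : ℝ) * L ≤ C * (H * Y / Real.log Y ^ 3) := by
    have h4 := card_nsmul_le_sum 𝓑 _ L h1
    rw [nsmul_eq_mul] at h4
    exact le_trans h4 (le_trans h2 hEr2)
  have h4 : C * (H * Y / Real.log Y ^ 3) = (4 * C / c₂ * (a * M) / Real.log Y ^ 2) * L := by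
    rw [hL]
    field_simp
    ring
  rw [h4] at h3
  exact le_of_mul_le_mul_right h3 hL0

end Pool.Agent.Work.MP_34d05d_al.DO
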