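import Pool.Agent.Work.MP_34d05d_al.DO.NTot

set_option autoImplicit false

/-!
# DO/NBeta (size M): the mean square of h/φ(h) over a progression

PROOF. X := H/(aM) (real). Let h ∈ HC a M H c. `cop_part`: h' ∣ h coprime to a with h/φ(h) ≤ 2 h'/φ(h')
(a ≤ 2 φ(a)), and `le_sum_inv` for h': h/φ(h) ≤ 4 ∑_{d | h, gcd(d,a)=1} 1/d; moreover h = 1 mod M, so the d are also
coprime to M (M = 1: trivial). So (h/φ(h))² ≤ 16 ∑_{d,e | h, coprime to aM} 1/(d e) and
∑_h (h/φ(h))² ≤ 16 ∑_{d,e ≤ 2H, coprime to aM} (1/(de)) #{h ∈ HC : lcm(d,e) ∣ h}.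
These h are in one class modulo a M lcm(d,e) (CRT: h = 1 mod M, h = c mod a, h = 0 mod lcm, pairwise coprime), so their
number is ≤ H/(a M lcm) + 1 (two elements differ by a multiple of a M lcm: an interval of length H contains at most
H/m + 1 elements of a class mod m). lcm(d,e) ≥ √(d e) (lcm ≥ max). So the sum is
≤ 16 [X (∑_d d^(-3/2))² + (∑_{d ≤ 2H} 1/d)²] ≤ 16 [9 X + (1 + log(2H))²] ≤ 160 X.
(∑_{d ≤ N} d^(-3/2) ≤ 3; ∑_{d ≤ N} 1/d ≤ 1 + log N: `harmonic_le_one_add_log`.)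
-/

namespace Pool.Agent.Work.MP_34d05d_al.DO

open Finset

private theorem nbeta_cnt (S : Finset ℕ) (H m : ℕ) (hm : 1 ≤ m) (hS : S ⊆ Ioc H (2 * H))
    (hd : ∀ x ∈ S, ∀ y ∈ S, x ≤ y → m ∣ y - x) : (#S : ℝ) ≤ (H : ℝ) / m + 1 := by
  rcases S.eq_empty_or_nonempty with he | hne
  · rw [he, card_empty, Nat.cast_zero]
    positivity
  have h0 := S.min'_mem hne
  set x0 := S.min' hne with hx0
  have hmin : ∀ y ∈ S, x0 ≤ y := fun y hy => S.min'_le y hy
  have hcard : #S ≤ #(range (H / m + 1)) := by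
    refine card_le_card_of_injOn (fun h => (h - x0) / m) ?_ ?_
    · intro y hy
      have h1 := mem_Ioc.1 (hS h0)
      have h2 := mem_Ioc.1 (hS hy)
      simp only [coe_range, Set.mem_Iio]
      have h3 : (y - x0) / m ≤ H / m := Nat.div_le_div_right (by omega)
      omega
    · intro y hy z hz hyz
      simp only at hyz
      have h1 := hd x0 h0 y hy (hmin y hy)
      have h2 := hd x0 h0 z hz (hmin z hz)
      have h3 := hmin y hy
      have h4 := hmin z hz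
      have h5 : y - x0 = z - x0 := by
        rw [← Nat.div_mul_cancel h1, ← Nat.div_mul_cancel h2, hyz]
      omega
  rw [card_range] at hcard
  calc (#S : ℝ) ≤ ((H / m + 1 : ℕ) : ℝ) := by exact_mod_cast hcard
    _ = ((H / m : ℕ) : ℝ) + 1 := by push_cast; ring
    _ ≤ _ := by
      gcongr
      exact Nat.cast_div_le

private theorem nbeta_sum (N : ℕ) : ∑ d ∈ Icc 1 N, 1 / ((d : ℝ) * Real.sqrt d) ≤ 3 := by
  have h : ∀ N : ℕ, 1 ≤ N →
      ∑ d ∈ Icc 1 N, 1 / ((d : ℝ) * Real.sqrt d) ≤ 3 - 2 / Real.sqrt N := by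
    intro N hN
    induction N, hN using Nat.le_induction with
    | base => norm_num
    | succ n hn ih =>
      rw [sum_Icc_succ_top (by omega)]
      have hn0 : (0 : ℝ) < n := by exact_mod_cast hn
      have hs : 0 < Real.sqrt n := Real.sqrt_pos.2 hn0
      have ht : 0 < Real.sqrt ((n + 1 : ℕ) : ℝ) := Real.sqrt_pos.2 (by positivity)
      have hss : Real.sqrt n * Real.sqrt n = n := Real.mul_self_sqrt hn0.le
      have htt : Real.sqrt ((n + 1 : ℕ) : ℝ) * Real.sqrt ((n + 1 : ℕ) : ℝ) = n + 1 := by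
        rw [Real.mul_self_sqrt (by positivity)]
        push_cast
        ring
      have hst : Real.sqrt n ≤ Real.sqrt ((n + 1 : ℕ) : ℝ) := by
        apply Real.sqrt_le_sqrt
        push_cast
        linarith
      have hkey : 1 / (((n + 1 : ℕ) : ℝ) * Real.sqrt ((n + 1 : ℕ) : ℝ)) ≤
          2 / Real.sqrt n - 2 / Real.sqrt ((n + 1 : ℕ) : ℝ) := by
        have hn1 : ((n + 1 : ℕ) : ℝ) =
            Real.sqrt ((n + 1 : ℕ) : ℝ) * Real.sqrt ((n + 1 : ℕ) : ℝ) := by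
          rw [htt]
          push_cast
          ring
        generalize Real.sqrt ((n + 1 : ℕ) : ℝ) = t at ht htt hst hn1 ⊢
        generalize Real.sqrt (n : ℝ) = s at hs hss hst ⊢
        rw [hn1, div_sub_div _ _ hs.ne' ht.ne', div_le_div_iff₀ (by positivity) (by positivity)]
        have h1 : 1 ≤ (t - s) * (2 * t) := by nlinarith
        have h2 : (2 * t - s * 2) * (t * t * t) = ((t - s) * (2 * t)) * (t * t) := by ring
        rw [h2]
        have h3 : s * t ≤ t * t := by nlinarith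
        have h4 : 1 * (t * t) ≤ ((t - s) * (2 * t)) * (t * t) :=
          mul_le_mul_of_nonneg_right h1 (by positivity)
        linarith
      linarith
  rcases Nat.eq_zero_or_pos N with h0 | h0
  · rw [h0]
    norm_num
  · have h1 := h N h0
    have h2 : 0 ≤ 2 / Real.sqrt N := by positivity
    linarith

private theorem nbeta_pt (a M H c h : ℕ) (ha : 1 ≤ a) (hφ : (a : ℝ) ≤ 2 * Nat.totient a)
    (hh : h ∈ HC a M H c) : (h : ℝ) / Nat.totient h ≤
      4 * ∑ d ∈ (Icc 1 (2 * H)).filter (fun d => Nat.Coprime d (a * M)),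
        if d ∣ h then 1 / (d : ℝ) else 0 := by
  unfold HC at hh
  rw [mem_filter, mem_Ioc] at hh
  obtain ⟨⟨h1, h2⟩, h3, -⟩ := hh
  have hh1 : 1 ≤ h := by omega
  obtain ⟨h', hd, hc, hle⟩ := cop_part a h ha hh1
  have hh' : 1 ≤ h' := Nat.pos_of_dvd_of_pos hd hh1
  have h5 := le_sum_inv h' hh'
  have hφa : (0 : ℝ) < Nat.totient a := by exact_mod_cast Nat.totient_pos.2 ha
  have h6 : (a : ℝ) / Nat.totient a ≤ 2 := by
    rw [div_le_iff₀ hφa]
    exact hφ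
  have hM : Nat.Coprime h M := by
    have e1 := Nat.gcd_rec M h
    rw [h3, Nat.gcd_one_left] at e1
    exact (Nat.coprime_comm.1 e1)
  have h7 : ∑ g ∈ h'.divisors, 1 / (g : ℝ) ≤
      ∑ d ∈ (Icc 1 (2 * H)).filter (fun d => Nat.Coprime d (a * M)),
        if d ∣ h then 1 / (d : ℝ) else 0 := by
    rw [← sum_filter]
    refine sum_le_sum_of_subset_of_nonneg ?_ (fun _ _ _ => by positivity)
    intro g hg
    have hg1 := Nat.dvd_of_mem_divisors hg
    have hg2 : g ∣ h := hg1.trans hd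
    have hg3 : 0 < g := Nat.pos_of_dvd_of_pos hg2 hh1
    have hg4 : g ≤ h := Nat.le_of_dvd hh1 hg2
    rw [mem_filter, mem_filter, mem_Icc]
    refine ⟨⟨⟨hg3, by omega⟩, ?_⟩, hg2⟩
    exact Nat.Coprime.mul_right (hc.coprime_dvd_left hg1) (hM.coprime_dvd_left hg2)
  calc (h : ℝ) / Nat.totient h ≤ ((a : ℝ) / Nat.totient a) * ((h' : ℝ) / Nat.totient h') := hle
    _ ≤ 2 * ((h' : ℝ) / Nat.totient h') := by gcongr
    _ ≤ 2 * (2 * ∑ g ∈ h'.divisors, 1 / (g : ℝ)) := by gcongr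
    _ ≤ 2 * (2 * ∑ d ∈ (Icc 1 (2 * H)).filter (fun d => Nat.Coprime d (a * M)),
        if d ∣ h then 1 / (d : ℝ) else 0) := by gcongr
    _ = _ := by ring

private theorem nbeta_de (a M H c d e : ℕ) (ha : 1 ≤ a) (hM : 1 ≤ M) (hcop : Nat.Coprime a M)
    (hd : 1 ≤ d) (he : 1 ≤ e) (hda : Nat.Coprime d (a * M)) (hea : Nat.Coprime e (a * M)) :
    ∑ h ∈ HC a M H c, (if d ∣ h ∧ e ∣ h then 1 / ((d : ℝ) * e) else 0) ≤
      (H : ℝ) / (a * M) * (1 / ((d : ℝ) * Real.sqrt d) * (1 / ((e : ℝ) * Real.sqrt e))) +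
        1 / (d : ℝ) * (1 / (e : ℝ)) := by
  have hd0 : (0 : ℝ) < d := by exact_mod_cast hd
  have he0 : (0 : ℝ) < e := by exact_mod_cast he
  have ha0 : (0 : ℝ) < a := by exact_mod_cast ha
  have hM0 : (0 : ℝ) < M := by exact_mod_cast hM
  have hl : 0 < Nat.lcm d e := Nat.lcm_pos hd he
  have hl0 : (0 : ℝ) < Nat.lcm d e := by exact_mod_cast hl
  have h1 : (#((HC a M H c).filter (fun h => d ∣ h ∧ e ∣ h)) : ℝ) ≤
      (H : ℝ) / ((a * M * Nat.lcm d e : ℕ) : ℝ) + 1 := by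
    refine nbeta_cnt _ H _ (Nat.mul_pos (Nat.mul_pos ha hM) hl) ?_ ?_
    · intro x hx
      unfold HC at hx
      rw [mem_filter, mem_filter] at hx
      exact hx.1.1
    · intro x hx y hy hxy
      unfold HC at hx hy
      rw [mem_filter, mem_filter] at hx hy
      obtain ⟨⟨-, hx1, hx2⟩, hx3, hx4⟩ := hx
      obtain ⟨⟨-, hy1, hy2⟩, hy3, hy4⟩ := hy
      have e1 : a ∣ y - x := (Nat.modEq_iff_dvd' hxy).1 (show x % a = y % a by rw [hx2, hy2])
      have e2 : M ∣ y - x := (Nat.modEq_iff_dvd' hxy).1 (show x % M = y % M by rw [hx1, hy1])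
      have e3 : Nat.lcm d e ∣ y - x :=
        Nat.dvd_sub (Nat.lcm_dvd hy3 hy4) (Nat.lcm_dvd hx3 hx4)
      have e4 : Nat.Coprime (a * M) (Nat.lcm d e) := by
        refine Nat.Coprime.symm ?_
        exact Nat.Coprime.coprime_dvd_left (Nat.lcm_dvd_mul d e) (Nat.Coprime.mul_left hda hea)
      exact Nat.Coprime.mul_dvd_of_dvd_of_dvd e4
        (Nat.Coprime.mul_dvd_of_dvd_of_dvd hcop e1 e2) e3
  have h2 : Real.sqrt d * Real.sqrt e ≤ Nat.lcm d e := by
    have e1 : Real.sqrt d ≤ Real.sqrt (Nat.lcm d e) := by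
      apply Real.sqrt_le_sqrt
      exact_mod_cast Nat.le_of_dvd hl (Nat.dvd_lcm_left d e)
    have e2 : Real.sqrt e ≤ Real.sqrt (Nat.lcm d e) := by
      apply Real.sqrt_le_sqrt
      exact_mod_cast Nat.le_of_dvd hl (Nat.dvd_lcm_right d e)
    calc Real.sqrt d * Real.sqrt e ≤ Real.sqrt (Nat.lcm d e) * Real.sqrt (Nat.lcm d e) := by
          gcongr
      _ = _ := Real.mul_self_sqrt hl0.le
  have hsd : 0 < Real.sqrt d := Real.sqrt_pos.2 hd0
  have hse : 0 < Real.sqrt e := Real.sqrt_pos.2 he0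
  rw [← sum_filter, sum_const, nsmul_eq_mul]
  calc (#((HC a M H c).filter (fun h => d ∣ h ∧ e ∣ h)) : ℝ) * (1 / ((d : ℝ) * e))
      ≤ ((H : ℝ) / ((a * M * Nat.lcm d e : ℕ) : ℝ) + 1) * (1 / ((d : ℝ) * e)) := by gcongr
    _ = (H : ℝ) / (a * M) * (1 / ((d : ℝ) * e) * (1 / (Nat.lcm d e : ℝ))) +
        1 / (d : ℝ) * (1 / (e : ℝ)) := by
        push_cast
        field_simp
    _ ≤ (H : ℝ) / (a * M) * (1 / ((d : ℝ) * e) * (1 / (Real.sqrt d * Real.sqrt e))) +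
        1 / (d : ℝ) * (1 / (e : ℝ)) := by gcongr
    _ = _ := by
        congr 2
        field_simp

theorem beta (a M H c : ℕ) (ha : 1 ≤ a) (hM : 1 ≤ M) (hcop : Nat.Coprime a M) (hH : 1 ≤ H)
    (hφ : (a : ℝ) ≤ 2 * Nat.totient a)
    (hlog : (1 + Real.log (2 * H)) ^ 2 ≤ (H : ℝ) / (a * M)) :
    ∑ h ∈ HC a M H c, ((h : ℝ) / Nat.totient h) ^ 2 ≤ 160 * ((H : ℝ) / (a * M)) := by
  set D := (Icc 1 (2 * H)).filter (fun d => Nat.Coprime d (a * M)) with hD
  set X : ℝ := (H : ℝ) / (a * M) with hX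
  have hX0 : 0 ≤ X := by
    rw [hX]
    positivity
  have h1 : ∀ h ∈ HC a M H c, ((h : ℝ) / Nat.totient h) ^ 2 ≤
      16 * ∑ d ∈ D, ∑ e ∈ D, if d ∣ h ∧ e ∣ h then 1 / ((d : ℝ) * e) else 0 := by
    intro h hh
    have h2 := nbeta_pt a M H c h ha hφ hh
    rw [← hD] at h2
    calc ((h : ℝ) / Nat.totient h) ^ 2 ≤ (4 * ∑ d ∈ D, if d ∣ h then 1 / (d : ℝ) else 0) ^ 2 := by
          gcongr
      _ = 16 * ((∑ d ∈ D, if d ∣ h then 1 / (d : ℝ) else 0) *
          (∑ d ∈ D, if d ∣ h then 1 / (d : ℝ) else 0)) := by ring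
      _ = _ := by
          rw [sum_mul_sum]
          congr 1
          refine sum_congr rfl fun d _ => sum_congr rfl fun e _ => ?_
          by_cases hd : d ∣ h <;> by_cases he : e ∣ h <;> simp [hd, he, mul_comm]
  have h2 : ∀ d ∈ D, ∀ e ∈ D,
      ∑ h ∈ HC a M H c, (if d ∣ h ∧ e ∣ h then 1 / ((d : ℝ) * e) else 0) ≤
      X * (1 / ((d : ℝ) * Real.sqrt d) * (1 / ((e : ℝ) * Real.sqrt e))) +
        1 / (d : ℝ) * (1 / (e : ℝ)) := by
    intro d hd e he
    rw [hD, mem_filter, mem_Icc] at hd he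
    exact nbeta_de a M H c d e ha hM hcop hd.1.1 he.1.1 hd.2 he.2
  have h3 : ∑ d ∈ D, 1 / ((d : ℝ) * Real.sqrt d) ≤ 3 := by
    refine le_trans ?_ (nbeta_sum (2 * H))
    exact sum_le_sum_of_subset_of_nonneg (filter_subset _ _) (fun _ _ _ => by positivity)
  have h3' : 0 ≤ ∑ d ∈ D, 1 / ((d : ℝ) * Real.sqrt d) := sum_nonneg fun _ _ => by positivity
  have h4 : ∑ d ∈ D, 1 / (d : ℝ) ≤ 1 + Real.log (2 * H) := by
    have e1 := harmonic_le_one_add_log (2 * H)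
    rw [harmonic_eq_sum_Icc] at e1
    push_cast at e1
    refine le_trans ?_ e1
    refine le_trans (sum_le_sum_of_subset_of_nonneg (filter_subset _ _)
      (fun _ _ _ => by positivity)) (le_of_eq ?_)
    exact sum_congr rfl fun d _ => by rw [one_div]
  have h4' : 0 ≤ ∑ d ∈ D, 1 / (d : ℝ) := sum_nonneg fun _ _ => by positivity
  have h5 : 0 ≤ 1 + Real.log (2 * H) := h4'.trans h4
  calc ∑ h ∈ HC a M H c, ((h : ℝ) / Nat.totient h) ^ 2
      ≤ ∑ h ∈ HC a M H c, 16 * ∑ d ∈ D, ∑ e ∈ D,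
        (if d ∣ h ∧ e ∣ h then 1 / ((d : ℝ) * e) else 0) := sum_le_sum h1
    _ = 16 * ∑ d ∈ D, ∑ e ∈ D, ∑ h ∈ HC a M H c,
        (if d ∣ h ∧ e ∣ h then 1 / ((d : ℝ) * e) else 0) := by
        rw [← mul_sum, sum_comm]
        congr 1
        refine sum_congr rfl fun d _ => ?_
        rw [sum_comm]
    _ ≤ 16 * ∑ d ∈ D, ∑ e ∈ D,
        (X * (1 / ((d : ℝ) * Real.sqrt d) * (1 / ((e : ℝ) * Real.sqrt e))) +
        1 / (d : ℝ) * (1 / (e : ℝ))) := by
        gcongr with d hd e he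
        exact h2 d hd e he
    _ = 16 * (X * ((∑ d ∈ D, 1 / ((d : ℝ) * Real.sqrt d)) *
        (∑ d ∈ D, 1 / ((d : ℝ) * Real.sqrt d))) +
        (∑ d ∈ D, 1 / (d : ℝ)) * (∑ d ∈ D, 1 / (d : ℝ))) := by
        congr 1
        rw [sum_mul_sum, sum_mul_sum, mul_sum, ← sum_add_distrib]
        refine sum_congr rfl fun d _ => ?_
        rw [mul_sum, ← sum_add_distrib]
    _ ≤ 16 * (X * (3 * 3) + (1 + Real.log (2 * H)) * (1 + Real.log (2 * H))) := by
        gcongr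
    _ ≤ 160 * X := by nlinarith

end Pool.Agent.Work.MP_34d05d_al.DO
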