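import Pool.Agent.Work.MP_34d05d_al.DO.Defs
import Pool.Agent.Work.MP_af11aa_nt.ShiuSieve

set_option autoImplicit false

/-!
# DO/NBtq (size M): Brun-Titchmarsh bound for progressions

PROOF. This is Work/MP_d7567b_nt/BT.lean (`primes_interval`) in the progression n = c + q k. If gcd(c, q) > 1, at most
one value c + q k is prime (it is a multiple of gcd(c,q) > 1): count ≤ 1 ≤ C y / log y. Let gcd(c, q) = 1.
SIEVE: `sieve_mult` (ShiuSieve) requires that N has at most 3 prime factors. COPY its proof with N := q arbitrary,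
b := 1: the only use of the hypothesis hN is ∏_{l | N} (1 - 1/l)⁻¹ ≤ 8; keep the product, it is N/φ(N)
(`prod_inv_factor_eq`). Result: for a summable weight w ≥ 0 with |∑' m, w(l m) - K/l| ≤ R for all squarefree l coprime
to N, l ≤ D², and a finite set G of n without prime factors ≤ D outside N:
  ∑_{n ∈ G} w n ≤ (N/φ(N)) K / log(D+1) + R D^4.
WEIGHT: w(n) = 1 if n = c + q k with K0 < k ≤ K0 + y, else 0. For l coprime to q the k with l | c + q k form a class
modulo l, so |∑' m, w(l m) - y/l| ≤ 1. G := the primes n > D of this form; D := ⌊y^(1/5)⌋, R = 1; the primes ≤ D give at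
most D further k. As in BT.lean: log(D+1) ≥ (log y)/5, D^4 + D ≤ y / log y for y large. Total ≤ C (q/φ(q)) y/log y
(q/φ(q) ≥ 1), e.g. C = 42.
-/

namespace Pool.Agent.Work.MP_34d05d_al.DO

open Finset

/-- Selberg's sieve with an arbitrary excluded modulus `N`. -/
private theorem btq_sieve {w : ℕ → ℝ} (hw0 : ∀ n, 0 ≤ w n) (hws : Summable w) {N : ℕ}
    (hN0 : N ≠ 0) {K R : ℝ} (hK : 0 ≤ K) (hR : 0 ≤ R) {D : ℕ} (hD : 1 ≤ D)
    (hdist : ∀ l : ℕ, Squarefree l → Nat.Coprime l N → l ≤ D ^ 2 →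
      |∑' m, w (l * m) - K / l| ≤ R)
    {G : Finset ℕ} (hG : ∀ n ∈ G, ∀ l : ℕ, l.Prime → l ≤ D → l ∣ n → l ∣ N) :
    ∑ n ∈ G, w n ≤ ((N : ℝ) / Nat.totient N) * K / Real.log (D + 1) + R * D ^ 4 := by
  classical
  set T : Finset ℕ := (Finset.Icc 1 D).filter (fun l => l.Prime ∧ ¬ (l ∣ N)) with hT
  set T' : Finset ℕ := (Finset.Icc 1 D).filter (fun l => l.Prime ∧ (l ∣ N)) with hT'
  have hTp : ∀ l ∈ T, l.Prime := fun l hl => ((Finset.mem_filter.1 hl).2).1
  have hT'p : ∀ l ∈ T', l.Prime := fun l hl => ((Finset.mem_filter.1 hl).2).1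
  set P := ∏ l ∈ T, l with hP
  have hPsq : Squarefree P := Pool.Agent.Work.MP_af11aa_nt.squarefree_prod_primes hTp
  have hcover : ∀ l : ℕ, l.Prime → l ≤ D → l ∈ T ∨ l ∈ T' := by
    intro l hl hlD
    rw [hT, hT', Finset.mem_filter, Finset.mem_filter, Finset.mem_Icc]
    by_cases h1 : l ∣ N
    · right; exact ⟨⟨hl.one_lt.le, hlD⟩, hl, h1⟩
    · left; exact ⟨⟨hl.one_lt.le, hlD⟩, hl, h1⟩
  have hPN : Nat.Coprime P N := by
    rw [hP]
    refine Nat.Coprime.prod_left fun l hl => ?_
    rw [hT, Finset.mem_filter] at hl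
    exact (Nat.Prime.coprime_iff_not_dvd hl.2.1).2 hl.2.2
  have hsel := Pool.Agent.Work.MP_af11aa_nt.selberg_bound (w := w) hw0 hws hPsq hD
    (K := K) hR (by
      intro l hlP hlD
      exact hdist l (hPsq.squarefree_of_dvd hlP) (hPN.coprime_dvd_left hlP) hlD)
  have hsum : ∑ n ∈ G, w n ≤ ∑' m, (if Nat.Coprime m P then w m else 0) := by
    have hs : Summable fun m => if Nat.Coprime m P then w m else 0 := by
      refine Summable.of_nonneg_of_le (fun n => ?_) (fun n => ?_) hws
      · split_ifs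
        · exact hw0 _
        · exact le_rfl
      · split_ifs
        · exact le_rfl
        · exact hw0 _
    have h2 : ∑ n ∈ G, w n = ∑ m ∈ G, (if Nat.Coprime m P then w m else 0) := by
      refine Finset.sum_congr rfl fun n hn => ?_
      rw [if_pos]
      rw [hP]
      refine Nat.Coprime.prod_right fun l hl => ?_
      rw [hT, Finset.mem_filter, Finset.mem_Icc] at hl
      rw [Nat.coprime_comm, Nat.Prime.coprime_iff_not_dvd hl.2.1]
      intro hdvd
      exact hl.2.2 (hG n hn l hl.2.1 hl.1.2 hdvd)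
    rw [h2]
    refine hs.sum_le_tsum _ fun n _ => ?_
    split_ifs
    · exact hw0 _
    · exact le_rfl
  refine hsum.trans (hsel.trans ?_)
  have hGlow := Pool.Agent.Work.MP_af11aa_nt.gSum_lower hTp hT'p hcover
  have hlog := Pool.Agent.Work.MP_af11aa_nt.log_le_harmonic D
  have hG1 := Pool.Agent.Work.MP_af11aa_nt.one_le_gSum hPsq.ne_zero hD
  have hGpos : 0 < Pool.Agent.Work.MP_af11aa_nt.gSum P D := by linarith
  have hD0 : (0 : ℝ) < D := by exact_mod_cast hD
  have hlogpos : 0 < Real.log (D + 1) := Real.log_pos (by linarith)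
  have hT'prod : ∏ l ∈ T', (1 - (l : ℝ)⁻¹)⁻¹ ≤ (N : ℝ) / Nat.totient N := by
    rw [← Pool.Agent.Work.MP_af11aa_nt.prod_inv_factor_eq hN0]
    refine Finset.prod_le_prod_of_subset_of_one_le ?_ (fun l hl => ?_) fun l hl _ => ?_
    · intro l hl
      rw [hT', Finset.mem_filter] at hl
      exact Nat.mem_primeFactors.2 ⟨hl.2.1, hl.2.2, hN0⟩
    · linarith [(Pool.Agent.Work.MP_af11aa_nt.inv_factor_bounds (hT'p l hl)).1]
    · exact (Pool.Agent.Work.MP_af11aa_nt.inv_factor_bounds (Nat.prime_of_mem_primeFactors hl)).1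
  have hkey : K / Pool.Agent.Work.MP_af11aa_nt.gSum P D ≤
      ((N : ℝ) / Nat.totient N) * K / Real.log (D + 1) := by
    have h1 : Real.log (D + 1) ≤
        Pool.Agent.Work.MP_af11aa_nt.gSum P D * ((N : ℝ) / Nat.totient N) := by
      calc Real.log (D + 1) ≤ _ := hlog
        _ ≤ Pool.Agent.Work.MP_af11aa_nt.gSum P D * ∏ l ∈ T', (1 - (l : ℝ)⁻¹)⁻¹ := hGlow
        _ ≤ _ := by gcongr
    rw [div_le_div_iff₀ hGpos hlogpos]
    calc K * Real.log (D + 1) ≤
          K * (Pool.Agent.Work.MP_af11aa_nt.gSum P D * ((N : ℝ) / Nat.totient N)) := by gcongr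
      _ = _ := by ring
  linarith

/-- the number of `k` in the window with `c + q k = n` -/
private noncomputable def btqw (q c K y n : ℕ) : ℝ :=
  ∑ k ∈ Ioc K (K + y), if c + q * k = n then (1 : ℝ) else 0

private lemma btqw_nonneg (q c K y n : ℕ) : 0 ≤ btqw q c K y n := by
  unfold btqw
  exact Finset.sum_nonneg fun k _ => by split_ifs <;> norm_num

private lemma btqw_summable (q c K y : ℕ) : Summable (btqw q c K y) := by
  unfold btqw
  refine summable_sum fun k _ => ?_
  refine summable_of_ne_finset_zero (s := {c + q * k}) fun n hn => ?_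
  rw [Finset.mem_singleton] at hn
  rw [if_neg (fun h => hn h.symm)]

private lemma btqw_tsum (q c K y l : ℕ) (hl : 0 < l) :
    ∑' m, btqw q c K y (l * m) = (#((Ioc K (K + y)).filter (fun k => l ∣ c + q * k)) : ℝ) := by
  unfold btqw
  have hone : ∀ k : ℕ, HasSum (fun m : ℕ => if c + q * k = l * m then (1 : ℝ) else 0)
      (if l ∣ c + q * k then 1 else 0) := by
    intro k
    by_cases hd : l ∣ c + q * k
    · rw [if_pos hd]
      obtain ⟨m₀, hm₀⟩ := hd
      have h := hasSum_single (f := fun m : ℕ => if c + q * k = l * m then (1 : ℝ) else 0) m₀ (by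
        intro m hm
        rw [if_neg]
        intro h
        rw [hm₀] at h
        exact hm (Nat.eq_of_mul_eq_mul_left hl h).symm)
      rw [if_pos hm₀] at h
      exact h
    · rw [if_neg hd]
      have : (fun m : ℕ => if c + q * k = l * m then (1 : ℝ) else 0) = fun _ => 0 := by
        funext m
        rw [if_neg]
        intro h
        exact hd ⟨m, h⟩
      rw [this]
      exact hasSum_zero
  have hs := hasSum_sum (s := Ioc K (K + y)) fun k _ => hone k
  rw [hs.tsum_eq]
  rw [Finset.sum_ite]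
  simp

private lemma btqw_dist (q c K y l : ℕ) (hl : 0 < l) (hlq : Nat.Coprime l q) :
    |∑' m, btqw q c K y (l * m) - (y : ℝ) / l| ≤ 1 := by
  rw [btqw_tsum q c K y l hl]
  have hlR : (0 : ℝ) < l := by exact_mod_cast hl
  -- the class
  obtain ⟨v, hv⟩ : ∃ v : ℕ, l ∣ c + q * v := by
    have : NeZero l := ⟨hl.ne'⟩
    refine ⟨(-(c : ZMod l) * (q : ZMod l)⁻¹).val, ?_⟩
    rw [← ZMod.natCast_eq_zero_iff]
    push_cast
    rw [ZMod.natCast_zmod_val]
    have hu := ZMod.coe_mul_inv_eq_one (n := l) q hlq.symm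
    linear_combination (-(c : ZMod l)) * hu
  have hset : (Ioc K (K + y)).filter (fun k => l ∣ c + q * k) =
      (Ioc K (K + y)).filter (fun k => k ≡ v [MOD l]) := by
    refine Finset.filter_congr fun k _ => ?_
    constructor
    · intro h
      have h1 : c + q * k ≡ c + q * v [MOD l] :=
        ((Nat.modEq_zero_iff_dvd.2 h).trans (Nat.modEq_zero_iff_dvd.2 hv).symm)
      have h2 : q * k ≡ q * v [MOD l] := Nat.ModEq.add_left_cancel' c h1
      exact Nat.ModEq.cancel_left_of_coprime hlq h2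
    · intro h
      have h1 : c + q * k ≡ c + q * v [MOD l] := (h.mul_left q).add_left c
      exact Nat.modEq_zero_iff_dvd.1 (h1.trans (Nat.modEq_zero_iff_dvd.2 hv))
  rw [hset]
  have hc := Nat.Ioc_filter_modEq_card K (K + y) hl v
  have hlQ : (0 : ℚ) < l := by exact_mod_cast hl
  have hle : ⌊((K : ℕ) - v : ℚ) / (l : ℚ)⌋ ≤ ⌊(((K + y : ℕ) : ℚ) - v) / (l : ℚ)⌋ := by
    apply Int.floor_le_floor
    push_cast
    gcongr
    linarith [(Nat.cast_nonneg y : (0 : ℚ) ≤ y)]
  rw [max_eq_left (by linarith)] at hc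
  have hcQ : ((#((Ioc K (K + y)).filter (fun k => k ≡ v [MOD l])) : ℕ) : ℚ) =
      (⌊(((K + y : ℕ) : ℚ) - v) / (l : ℚ)⌋ : ℚ) - (⌊((K : ℕ) - v : ℚ) / (l : ℚ)⌋ : ℚ) := by
    exact_mod_cast hc
  have hQ : |((#((Ioc K (K + y)).filter (fun k => k ≡ v [MOD l])) : ℕ) : ℚ) - (y : ℚ) / l| ≤ 1 := by
    rw [hcQ]
    have f1 := Int.floor_le ((((K + y : ℕ) : ℚ) - v) / (l : ℚ))
    have f2 := Int.lt_floor_add_one ((((K + y : ℕ) : ℚ) - v) / (l : ℚ))
    have f3 := Int.floor_le (((K : ℕ) - v : ℚ) / (l : ℚ))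
    have f4 := Int.lt_floor_add_one (((K : ℕ) - v : ℚ) / (l : ℚ))
    have e : (((K + y : ℕ) : ℚ) - v) / (l : ℚ) = ((K : ℕ) - v : ℚ) / (l : ℚ) + (y : ℚ) / l := by
      push_cast
      ring
    rw [abs_le]
    constructor <;> linarith
  have := (Rat.cast_le (K := ℝ)).2 hQ
  push_cast at this
  exact this

theorem btq : ∃ C : ℝ, 0 < C ∧ ∃ y₀ : ℕ, 2 ≤ y₀ ∧ ∀ q c K y : ℕ, 1 ≤ q → y₀ ≤ y →
    (#((Ioc K (K + y)).filter (fun k => (c + q * k).Prime)) : ℝ) ≤
      C * ((q : ℝ) / Nat.totient q) * (y / Real.log y) := by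
  have hlim : ∀ᶠ y : ℝ in Filter.atTop, Real.log y ≤ (1 / 2) * y ^ (1 / 5 : ℝ) := by
    have := (isLittleO_log_rpow_atTop (r := 1 / 5) (by norm_num)).bound (c := 1 / 2) (by norm_num)
    filter_upwards [this, Filter.eventually_ge_atTop (1 : ℝ)] with y hy hy1
    rw [Real.norm_of_nonneg (Real.log_nonneg hy1), Real.norm_of_nonneg (by positivity)] at hy
    exact hy
  obtain ⟨Y, hY⟩ := Filter.eventually_atTop.1 hlim
  refine ⟨7, by norm_num, max 2 ⌈Y⌉₊, le_max_left _ _, fun q c K y hq hy => ?_⟩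
  have hy2 : 2 ≤ y := le_trans (le_max_left _ _) hy
  have hyY : Y ≤ y := le_trans (Nat.le_ceil _) (by exact_mod_cast le_trans (le_max_right _ _) hy)
  have hyR : (2 : ℝ) ≤ y := by exact_mod_cast hy2
  have hy0 : (0 : ℝ) < y := by linarith
  have hlogpos : 0 < Real.log y := Real.log_pos (by linarith)
  have hlog := hY y hyY
  have hφ : (0 : ℝ) < Nat.totient q := by exact_mod_cast Nat.totient_pos.2 hq
  have hrat : 1 ≤ (q : ℝ) / Nat.totient q := by
    rw [le_div_iff₀ hφ, one_mul]
    exact_mod_cast Nat.totient_le q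
  have hyl : 1 ≤ (y : ℝ) / Real.log y := by
    rw [le_div_iff₀ hlogpos, one_mul]
    linarith [Real.log_le_sub_one_of_pos hy0]
  by_cases hcop : Nat.Coprime c q
  swap
  · -- at most one prime value
    have hcard : #((Ioc K (K + y)).filter (fun k => (c + q * k).Prime)) ≤ 1 := by
      rw [Finset.card_le_one]
      have hval : ∀ k, (c + q * k).Prime → c + q * k = Nat.gcd c q := by
        intro k hk
        have hd : Nat.gcd c q ∣ c + q * k :=
          dvd_add (Nat.gcd_dvd_left c q) ((Nat.gcd_dvd_right c q).mul_right k)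
        rcases (Nat.dvd_prime hk).1 hd with h | h
        · exact absurd h hcop
        · exact h.symm
      intro a ha b hb
      have h1 := hval a (Finset.mem_filter.1 ha).2
      have h2 := hval b (Finset.mem_filter.1 hb).2
      have h3 : q * a = q * b := by omega
      exact Nat.eq_of_mul_eq_mul_left hq h3
    have hcardR : (#((Ioc K (K + y)).filter (fun k => (c + q * k).Prime)) : ℝ) ≤ 1 := by
      exact_mod_cast hcard
    refine hcardR.trans ?_
    have h7 : (1 : ℝ) ≤ 7 * ((q : ℝ) / Nat.totient q) := by linarith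
    calc (1 : ℝ) = 1 * 1 := by norm_num
      _ ≤ 7 * ((q : ℝ) / Nat.totient q) * (y / Real.log y) := by gcongr
  set t : ℝ := (y : ℝ) ^ (1 / 5 : ℝ) with ht
  have ht0 : 0 < t := by positivity
  have ht1 : 1 ≤ t := Real.one_le_rpow (by linarith) (by norm_num)
  have ht5 : t ^ 5 = y := by
    rw [ht, ← Real.rpow_natCast, ← Real.rpow_mul hy0.le]
    norm_num
  set D : ℕ := ⌊t⌋₊ with hD
  have hD1 : 1 ≤ D := by rw [hD, Nat.one_le_floor_iff]; exact ht1
  have hDt : (D : ℝ) ≤ t := Nat.floor_le ht0.le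
  have hDt' : t < D + 1 := Nat.lt_floor_add_one t
  set G := ((Ioc K (K + y)).image (fun k => c + q * k)).filter (fun p => p.Prime ∧ D < p) with hG
  have hs := btq_sieve (w := btqw q c K y) (N := q) (btqw_nonneg q c K y) (btqw_summable q c K y)
    (by omega) (K := y) (R := 1) hy0.le zero_le_one hD1
    (fun l hl hlq _ => btqw_dist q c K y l (Nat.pos_of_ne_zero hl.ne_zero) hlq) (G := G)
    (by
      intro n hn l hl hlD hln
      have hn' := (Finset.mem_filter.1 hn).2
      have := (Nat.prime_dvd_prime_iff_eq hl hn'.1).1 hln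
      omega)
  have hsum : ∑ n ∈ G, btqw q c K y n =
      (#((Ioc K (K + y)).filter (fun k => (c + q * k).Prime ∧ D < c + q * k)) : ℝ) := by
    unfold btqw
    rw [Finset.sum_comm]
    have : ∀ k ∈ Ioc K (K + y), ∑ n ∈ G, (if c + q * k = n then (1 : ℝ) else 0) =
        if ((c + q * k).Prime ∧ D < c + q * k) then 1 else 0 := by
      intro k hk
      rw [Finset.sum_ite_eq]
      have : c + q * k ∈ G ↔ ((c + q * k).Prime ∧ D < c + q * k) := by
        rw [hG, Finset.mem_filter]
        constructor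
        · exact fun h => h.2
        · exact fun h => ⟨Finset.mem_image_of_mem _ hk, h⟩
      simp only [this]
    rw [Finset.sum_congr rfl this, Finset.sum_ite]
    simp
  rw [hsum] at hs
  have hlogD : Real.log y / 5 ≤ Real.log ((D : ℝ) + 1) := by
    have e1 : Real.log y = 5 * Real.log t := by
      rw [← ht5, Real.log_pow]; norm_num
    rw [e1]
    have := Real.log_le_log ht0 hDt'.le
    linarith
  have h1 : ((q : ℝ) / Nat.totient q) * y / Real.log ((D : ℝ) + 1) ≤
      5 * ((q : ℝ) / Nat.totient q) * (y / Real.log y) := by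
    have e : 5 * ((q : ℝ) / Nat.totient q) * (y / Real.log y) =
        ((q : ℝ) / Nat.totient q) * y / (Real.log y / 5) := by
      field_simp
    rw [e]
    gcongr
  have hcard : #((Ioc K (K + y)).filter (fun k => (c + q * k).Prime)) ≤
      #((Ioc K (K + y)).filter (fun k => (c + q * k).Prime ∧ D < c + q * k)) + D := by
    have hsub : (Ioc K (K + y)).filter (fun k => (c + q * k).Prime) ⊆
        (Ioc K (K + y)).filter (fun k => (c + q * k).Prime ∧ D < c + q * k) ∪
        (Ioc K (K + y)).filter (fun k => (c + q * k).Prime ∧ c + q * k ≤ D) := by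
      intro k hk
      have hk' := Finset.mem_filter.1 hk
      rw [Finset.mem_union]
      rcases lt_or_ge D (c + q * k) with h | h
      · left
        rw [Finset.mem_filter]
        exact ⟨hk'.1, hk'.2, h⟩
      · right
        rw [Finset.mem_filter]
        exact ⟨hk'.1, hk'.2, h⟩
    have hsmall : #((Ioc K (K + y)).filter (fun k => (c + q * k).Prime ∧ c + q * k ≤ D)) ≤ D := by
      calc _ ≤ #(Ioc 0 D) := by
            refine Finset.card_le_card_of_injOn (fun k => c + q * k) ?_ ?_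
            · intro k hk
              have hk' := (Finset.mem_filter.1 (Finset.mem_coe.1 hk)).2
              rw [Finset.mem_coe, Finset.mem_Ioc]
              exact ⟨hk'.1.pos, hk'.2⟩
            · intro a _ b _ hab
              have hab' : c + q * a = c + q * b := hab
              have h3 : q * a = q * b := by omega
              exact Nat.eq_of_mul_eq_mul_left hq h3
        _ = D := by simp
    calc _ ≤ #(_ ∪ _) := Finset.card_le_card hsub
      _ ≤ _ := Finset.card_union_le _ _
      _ ≤ _ := Nat.add_le_add_left hsmall _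
  have hcardR : (#((Ioc K (K + y)).filter (fun k => (c + q * k).Prime)) : ℝ) ≤
      #((Ioc K (K + y)).filter (fun k => (c + q * k).Prime ∧ D < c + q * k)) + D := by
    exact_mod_cast hcard
  have h2 : (D : ℝ) ^ 4 ≤ t ^ 4 := by gcongr
  have h3 : t ≤ t ^ 4 := by nlinarith [mul_pos ht0 ht0, mul_pos (mul_pos ht0 ht0) ht0]
  have h4 : 2 * t ^ 4 ≤ y / Real.log y := by
    rw [le_div_iff₀ hlogpos, ← ht5]
    have : 2 * t ^ 4 * Real.log (t ^ 5) ≤ 2 * t ^ 4 * (1 / 2 * t) := by
      rw [ht5]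
      gcongr
    calc _ ≤ 2 * t ^ 4 * (1 / 2 * t) := this
      _ = t ^ 5 := by ring
  have h6 : (y : ℝ) / Real.log y ≤ ((q : ℝ) / Nat.totient q) * (y / Real.log y) :=
    le_mul_of_one_le_left (by linarith) hrat
  have h7 : 7 * ((q : ℝ) / Nat.totient q) * (y / Real.log y) =
      5 * ((q : ℝ) / Nat.totient q) * (y / Real.log y) +
        2 * (((q : ℝ) / Nat.totient q) * (y / Real.log y)) := by ring
  rw [h7]
  linarith

end Pool.Agent.Work.MP_34d05d_al.DO
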