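import Pool.Agent.Work.MP_34d05d_al.DO.NBtq

set_option autoImplicit false

/-!
# DO/NBtw (size S-M): the number of w with g | h + 2w and 2hw+1 prime

PROOF. g odd: the w with g ∣ h + 2w form one class w0 mod g (0 ≤ w0 < g, 2 is invertible mod g). Write w = w0 + g k;
w ∈ (Y, 2Y] means k in an interval contained in some (K, K + y] with y := Y/g + 1 (natural division; K := largest k
with w0 + g k ≤ Y, K = (Y - w0)/g; g ≤ Y as g² ≤ Y; the k with Y < w0 + g k ≤ 2Y satisfy K < k and g (k - K) < Y + g,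
so k ≤ K + Y/g + 1). 2 h w + 1 = (2 h w0 + 1) + (2 h g) k. `btq` with q = 2hg, y ≥ Y/g ≥ √Y ≥ y₀:
count ≤ C (2hg/φ(2hg)) y/log y. φ(2hg) ≥ φ(2) φ(h) φ(g) = φ(h) φ(g) (`Nat.totient_super_multiplicative`), so
2hg/φ(2hg) ≤ 2 (h/φ h)(g/φ g). y ≤ 2 Y/g (real), log y ≥ (log Y)/2 (y ≥ Y/g ≥ √Y). So C₀ = 8 C.
-/

namespace Pool.Agent.Work.MP_34d05d_al.DO

open Finset

private theorem nbtw_frac (h g : ℕ) (hh : 1 ≤ h) (hg : 1 ≤ g) :
    ((2 * h * g : ℕ) : ℝ) / Nat.totient (2 * h * g) ≤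
      2 * (((h : ℝ) / Nat.totient h) * ((g : ℝ) / Nat.totient g)) := by
  have hφh : (0 : ℝ) < Nat.totient h := by exact_mod_cast Nat.totient_pos.2 hh
  have hφg : (0 : ℝ) < Nat.totient g := by exact_mod_cast Nat.totient_pos.2 hg
  have h1 : Nat.totient h * Nat.totient g ≤ Nat.totient (2 * h * g) := by
    calc Nat.totient h * Nat.totient g = Nat.totient 2 * Nat.totient h * Nat.totient g := by
          rw [Nat.totient_two, one_mul]
      _ ≤ Nat.totient (2 * h) * Nat.totient g :=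
          Nat.mul_le_mul_right _ (Nat.totient_super_multiplicative 2 h)
      _ ≤ _ := Nat.totient_super_multiplicative (2 * h) g
  have h2 : ((Nat.totient h : ℝ) * Nat.totient g) ≤ Nat.totient (2 * h * g) := by
    exact_mod_cast h1
  have h3 : (0 : ℝ) < (Nat.totient h : ℝ) * Nat.totient g := by positivity
  calc ((2 * h * g : ℕ) : ℝ) / Nat.totient (2 * h * g)
      ≤ ((2 * h * g : ℕ) : ℝ) / ((Nat.totient h : ℝ) * Nat.totient g) := by gcongr
    _ = _ := by
        push_cast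
        field_simp

private theorem nbtw_inj (h g Y w1 : ℕ) (hg : Odd g) (hgY : g ^ 2 ≤ Y)
    (hw1 : g ∣ h + 2 * w1) :
    #((WW h Y).filter (fun w => g ∣ h + 2 * w)) ≤
      #((Ioc ((Y - w1 % g) / g) ((Y - w1 % g) / g + (Y / g + 1))).filter
        (fun k => (2 * h * (w1 % g) + 1 + 2 * h * g * k).Prime)) := by
  have hg1 : 0 < g := hg.pos
  have hr : w1 % g < g := Nat.mod_lt _ hg1
  have hgY1 : g ≤ Y := by nlinarith
  have hmod : ∀ w ∈ (WW h Y).filter (fun w => g ∣ h + 2 * w), w % g = w1 % g := by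
    intro w hw
    rw [mem_filter] at hw
    have h1 : (h + 2 * w) ≡ (h + 2 * w1) [MOD g] :=
      ((Nat.modEq_zero_iff_dvd).2 hw.2).trans ((Nat.modEq_zero_iff_dvd).2 hw1).symm
    have h2 : 2 * w ≡ 2 * w1 [MOD g] := Nat.ModEq.add_left_cancel' h h1
    have h3 : Nat.gcd g 2 = 1 := (Nat.coprime_two_right.2 hg)
    exact Nat.ModEq.cancel_left_of_coprime h3 h2
  refine card_le_card_of_injOn (fun w => w / g) ?_ ?_
  · intro w hw
    have hw' := hmod w (by simpa using hw)
    have hw2 : w ∈ (WW h Y).filter (fun w => g ∣ h + 2 * w) := by simpa using hw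
    rw [mem_filter] at hw2
    obtain ⟨hw3, hw4⟩ := hw2
    unfold WW at hw3
    rw [mem_filter, mem_Ioc] at hw3
    obtain ⟨⟨h1, h2⟩, h3⟩ := hw3
    have h4 := Nat.div_add_mod w g
    rw [hw'] at h4
    have h5 := Nat.div_add_mod (Y - w1 % g) g
    have h6 : (Y - w1 % g) % g < g := Nat.mod_lt _ hg1
    have h7 := Nat.div_add_mod Y g
    have h8 : Y % g < g := Nat.mod_lt _ hg1
    simp only [coe_filter, mem_Ioc, Set.mem_ofPred_eq]
    refine ⟨⟨?_, ?_⟩, ?_⟩
    · by_contra hc
      push Not at hc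
      have h9 : g * (w / g) ≤ g * ((Y - w1 % g) / g) := Nat.mul_le_mul_left _ hc
      omega
    · by_contra hc
      push Not at hc
      have h9 : g * ((Y - w1 % g) / g + (Y / g + 1) + 1) ≤ g * (w / g) :=
        Nat.mul_le_mul_left _ hc
      have h10 : g * ((Y - w1 % g) / g + (Y / g + 1) + 1) =
          g * ((Y - w1 % g) / g) + g * (Y / g) + g + g := by ring
      omega
    · have h9 : 2 * h * (w1 % g) + 1 + 2 * h * g * (w / g) = 2 * h * w + 1 := by
        conv_rhs => rw [← h4]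
        ring
      rw [h9]
      exact h3
  · intro w hw w' hw' hww
    have e1 := hmod w (by simpa using hw)
    have e2 := hmod w' (by simpa using hw')
    have h4 := Nat.div_add_mod w g
    have h5 := Nat.div_add_mod w' g
    rw [e1] at h4
    rw [e2] at h5
    simp only at hww
    rw [← h4, ← h5, hww]

theorem btw : ∃ C₀ : ℝ, 0 < C₀ ∧ ∃ Y₀ : ℕ, ∀ h g Y : ℕ, Y₀ ≤ Y → 1 ≤ h → Odd g →
    g ^ 2 ≤ Y → (#((WW h Y).filter (fun w => g ∣ h + 2 * w)) : ℝ) ≤
      C₀ * ((h : ℝ) / Nat.totient h) * ((g : ℝ) / Nat.totient g) * (Y / (g * Real.log Y)) := by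
  obtain ⟨C, hC, y₀, hy₀, hb⟩ := btq
  refine ⟨8 * C, by positivity, y₀ ^ 2, fun h g Y hY hh hg hgY => ?_⟩
  have hg1 : 1 ≤ g := hg.pos
  have hY4 : 4 ≤ Y := by nlinarith
  have hY4r : (4 : ℝ) ≤ Y := by exact_mod_cast hY4
  have hlY : 0 < Real.log Y := Real.log_pos (by linarith)
  have hφh : (0 : ℝ) < Nat.totient h := by exact_mod_cast Nat.totient_pos.2 hh
  have hφg : (0 : ℝ) < Nat.totient g := by exact_mod_cast Nat.totient_pos.2 hg1
  have hgr : (1 : ℝ) ≤ g := by exact_mod_cast hg1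
  rcases (Finset.eq_empty_or_nonempty ((WW h Y).filter (fun w => g ∣ h + 2 * w))) with he | ⟨w1, hw1⟩
  · rw [he, card_empty, Nat.cast_zero]
    positivity
  rw [mem_filter] at hw1
  have h1 := nbtw_inj h g Y w1 hg hgY hw1.2
  have hgY1 : g ≤ Y := by nlinarith
  have h7 := Nat.div_add_mod Y g
  have h8 : Y % g < g := Nat.mod_lt _ hg1
  set y := Y / g + 1 with hy
  have hyg : Y < g * y := by
    rw [hy]
    have : g * (Y / g + 1) = g * (Y / g) + g := by ring
    omega
  have hgy : g < y := by nlinarith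
  have hyY : Y < y * y := by nlinarith
  have hyy : y₀ ≤ y := by nlinarith
  have h2 := hb (2 * h * g) (2 * h * (w1 % g) + 1) ((Y - w1 % g) / g) y (by nlinarith) hyy
  have hy1 : (1 : ℝ) < y := by
    have : 1 < y := by omega
    exact_mod_cast this
  have hly : 0 < Real.log y := Real.log_pos hy1
  have h3 : Real.log Y ≤ 2 * Real.log y := by
    have h4 : (Y : ℝ) ≤ (y : ℝ) ^ 2 := by
      have : (Y : ℝ) ≤ (y : ℝ) * y := by exact_mod_cast hyY.le
      nlinarith
    have := Real.log_le_log (by linarith) h4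
    rw [Real.log_pow] at this
    exact_mod_cast this
  have h4 : (y : ℝ) ≤ 2 * (Y / g) := by
    have h5 : g * y ≤ 2 * Y := by
      rw [hy]
      have : g * (Y / g + 1) = g * (Y / g) + g := by ring
      omega
    have h6 : (g : ℝ) * y ≤ 2 * Y := by exact_mod_cast h5
    rw [← mul_div_assoc, le_div_iff₀ (by linarith)]
    linarith
  have h5 : (y : ℝ) / Real.log y ≤ 4 * (Y / (g * Real.log Y)) := by
    calc (y : ℝ) / Real.log y ≤ (2 * (Y / g)) / (Real.log Y / 2) := by
          apply div_le_div₀ (by positivity) h4 (by positivity) (by linarith)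
      _ = _ := by
          field_simp
          try ring
  calc (#((WW h Y).filter (fun w => g ∣ h + 2 * w)) : ℝ)
      ≤ (#((Ioc ((Y - w1 % g) / g) ((Y - w1 % g) / g + y)).filter
        (fun k => (2 * h * (w1 % g) + 1 + 2 * h * g * k).Prime)) : ℝ) := by exact_mod_cast h1
    _ ≤ C * (((2 * h * g : ℕ) : ℝ) / Nat.totient (2 * h * g)) * (y / Real.log y) := h2
    _ ≤ C * (2 * (((h : ℝ) / Nat.totient h) * ((g : ℝ) / Nat.totient g))) *
        (4 * (Y / (g * Real.log Y))) := by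
        have h6 := nbtw_frac h g hh hg1
        gcongr
    _ = _ := by ring

end Pool.Agent.Work.MP_34d05d_al.DO
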