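import Pool.Agent.Work.MP_34d05d_al.DO.Defs
import Pool.Agent.Work.BV.PIV

set_option autoImplicit false

/-!
# DO/NBv (size M): the number of w, on average over h (Bombieri-Vinogradov)

PROOF. For h ∈ (H, 2H] put q = 2h. w ↦ 2hw + 1 is a bijection from WW h Y onto the primes p = 1 mod q with
qY + 1 < p ≤ 2qY + 1, so #WW h Y = pic (2qY+1) q 1 - pic (qY+1) q 1 (`BV.pic`; 1 % q = 1 as q ≥ 2).
Main term: (π(2qY+1) - π(qY+1))/φ(q). By `BV.pnt_all`, π(2x+1) - π(x+1) ≥ x/(2 log x) for x ≥ x₀; x = qY: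
≥ qY/(2 log(qY)); φ(q) ≤ q; q ≤ 4H ≤ 4Y, so log(qY) ≤ 3 log Y: main term ≥ Y/(6 log Y): c₂ = 1/6.
Er h := |pic (2qY+1) q 1 - π(2qY+1)/φ(q)| + |pic (qY+1) q 1 - π(qY+1)/φ(q)|.
Sum over h: `BV.ld_strong` with t := 1/2 - θ/8, A := 3, (its) Y := 8HY + 1 =: Z, c := 1 (coprime to every q), and the
functions y q := min Z (2qY+1), y q := min Z (qY+1) (for q = 2h ≤ 4H: 2qY+1 ≤ 8HY+1 = Z): the sum over the q = 2h,
h ∈ (H,2H], is part of the sum over q ≤ Z^t as 4H ≤ Z^t: Z^t ≥ (HY)^t, and (HY)^t ≥ 4H iff Y^t ≥ 4 H^(1-t); H ≤ Y^(1-θ)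
and (1-θ)(1-t) = 1/2 - 3θ/8 - θ²/8 < t, so this holds for Y ≥ Y₀(θ). Hence ∑ Er ≤ 2 C Z/log³ Z ≤ 18 C H Y/log³ Y.
-/

namespace Pool.Agent.Work.MP_34d05d_al.DO

open Finset

private theorem nbv_log (a b : ℕ) (ha : 1 ≤ a) : Filter.Tendsto (fun x : ℕ =>
    Real.log x / Real.log ((a * x + b : ℕ) : ℝ) * (((a * x + b : ℕ) : ℝ) / x)) Filter.atTop
      (nhds (a : ℝ)) := by
  have ha0 : (0 : ℝ) < a := by exact_mod_cast ha
  have hx : Filter.Tendsto (fun x : ℕ => (x : ℝ)) Filter.atTop Filter.atTop :=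
    tendsto_natCast_atTop_atTop
  have hl : Filter.Tendsto (fun x : ℕ => Real.log (x : ℝ)) Filter.atTop Filter.atTop :=
    Real.tendsto_log_atTop.comp hx
  have h1 : Filter.Tendsto (fun x : ℕ => (a : ℝ) + b / (x : ℝ)) Filter.atTop (nhds ((a : ℝ) + 0)) :=
    tendsto_const_nhds.add (tendsto_const_nhds.div_atTop hx)
  rw [add_zero] at h1
  have h2 : Filter.Tendsto (fun x : ℕ => Real.log ((a : ℝ) + b / (x : ℝ))) Filter.atTop
      (nhds (Real.log a)) := h1.log ha0.ne'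
  have h3 : Filter.Tendsto (fun x : ℕ => 1 + Real.log ((a : ℝ) + b / (x : ℝ)) / Real.log x)
      Filter.atTop (nhds (1 + 0)) := tendsto_const_nhds.add (h2.div_atTop hl)
  rw [add_zero] at h3
  have h4 := (h3.inv₀ one_ne_zero).mul h1
  rw [inv_one, one_mul] at h4
  refine h4.congr' ?_
  filter_upwards [Filter.eventually_ge_atTop 2] with x hx2
  have hx0 : (0 : ℝ) < x := by
    have : (2 : ℝ) ≤ x := by exact_mod_cast hx2
    linarith
  have hlx : 0 < Real.log x := Real.log_pos (by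
    have : (2 : ℝ) ≤ x := by exact_mod_cast hx2
    linarith)
  have e1 : (((a * x + b : ℕ) : ℝ) / x) = (a : ℝ) + b / (x : ℝ) := by
    push_cast
    field_simp
  have hpos : 0 < (a : ℝ) + b / (x : ℝ) := by positivity
  have e2 : Real.log ((a * x + b : ℕ) : ℝ) = Real.log x + Real.log ((a : ℝ) + b / (x : ℝ)) := by
    rw [← Real.log_mul hx0.ne' hpos.ne', ← e1]
    congr 1
    field_simp
  rw [e1, e2]
  congr 1
  have hax : 0 < Real.log x + Real.log ((a : ℝ) + b / (x : ℝ)) := by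
    rw [← e2]
    apply Real.log_pos
    have h5 : 2 ≤ a * x + b := by nlinarith
    have : (2 : ℝ) ≤ ((a * x + b : ℕ) : ℝ) := by exact_mod_cast h5
    linarith
  have e3 : 1 + Real.log ((a : ℝ) + b / (x : ℝ)) / Real.log x =
      (Real.log x + Real.log ((a : ℝ) + b / (x : ℝ))) / Real.log x := by
    field_simp
  rw [e3, inv_div]

private theorem nbv_lim (a b : ℕ) (ha : 1 ≤ a) : Filter.Tendsto (fun x : ℕ =>
    (Nat.primeCounting (a * x + b) : ℝ) * Real.log x / x) Filter.atTop (nhds (a : ℝ)) := by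
  have h0 := BV.pnt_all
  unfold BV.PNT at h0
  have h1 : Filter.Tendsto (fun x : ℕ => a * x + b) Filter.atTop Filter.atTop := by
    refine Filter.tendsto_atTop_mono (fun x => ?_) Filter.tendsto_id
    simp only [id]
    nlinarith
  have h2 := (h0.comp h1).mul (nbv_log a b ha)
  rw [one_mul] at h2
  refine h2.congr' ?_
  filter_upwards [Filter.eventually_ge_atTop 2] with x hx2
  have hx0 : (0 : ℝ) < x := by
    have : (2 : ℝ) ≤ x := by exact_mod_cast hx2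
    linarith
  have h5 : 2 ≤ a * x + b := by nlinarith
  have h6 : (2 : ℝ) ≤ ((a * x + b : ℕ) : ℝ) := by exact_mod_cast h5
  have h7 : 0 < Real.log ((a * x + b : ℕ) : ℝ) := Real.log_pos (by linarith)
  have h8 : (0 : ℝ) < ((a * x + b : ℕ) : ℝ) := by linarith
  simp only [Function.comp_apply]
  field_simp

private theorem nbv_pnt : ∃ x₀ : ℕ, ∀ x : ℕ, x₀ ≤ x → (x : ℝ) / (2 * Real.log x) ≤
    (Nat.primeCounting (2 * x + 1) : ℝ) - Nat.primeCounting (x + 1) := by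
  have h1 := nbv_lim 2 1 (by norm_num)
  have h2 := nbv_lim 1 1 le_rfl
  have h3 := h1.sub h2
  have h4 : (1 / 2 : ℝ) < ((2 : ℕ) : ℝ) - ((1 : ℕ) : ℝ) := by norm_num
  have h5 := h3.eventually (lt_mem_nhds h4)
  obtain ⟨x₀, hx₀⟩ := Filter.eventually_atTop.1 h5
  refine ⟨max x₀ 2, fun x hx => ?_⟩
  have h6 := hx₀ x (le_trans (le_max_left _ _) hx)
  have hx2 : (2 : ℝ) ≤ x := by exact_mod_cast le_trans (le_max_right _ _) hx
  have hx0 : (0 : ℝ) < x := by linarith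
  have hl : 0 < Real.log x := Real.log_pos (by linarith)
  simp only [one_mul] at h6
  rw [← sub_div, ← sub_mul, lt_div_iff₀ hx0] at h6
  rw [div_le_iff₀ (by positivity)]
  nlinarith

private theorem nbv_WW (h Y : ℕ) (hh : 1 ≤ h) :
    BV.pic (2 * (2 * h * Y) + 1) (2 * h) 1 ≤ BV.pic (2 * h * Y + 1) (2 * h) 1 + #(WW h Y) := by
  unfold BV.pic
  have hsub : (Icc 1 (2 * (2 * h * Y) + 1)).filter (fun p => p.Prime ∧ p % (2 * h) = 1 % (2 * h)) ⊆
      (Icc 1 (2 * h * Y + 1)).filter (fun p => p.Prime ∧ p % (2 * h) = 1 % (2 * h)) ∪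
        (WW h Y).image (fun w => 2 * h * w + 1) := by
    intro p hp
    rw [mem_filter, mem_Icc] at hp
    obtain ⟨⟨h1, h2⟩, h3, h4⟩ := hp
    rw [mem_union, mem_filter, mem_Icc]
    by_cases h5 : p ≤ 2 * h * Y + 1
    · left
      exact ⟨⟨h1, h5⟩, h3, h4⟩
    · right
      push Not at h5
      have h6 : 1 % (2 * h) = 1 := Nat.mod_eq_of_lt (by omega)
      rw [h6] at h4
      have h7 := Nat.div_add_mod p (2 * h)
      rw [h4] at h7
      rw [mem_image]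
      refine ⟨p / (2 * h), ?_, h7⟩
      unfold WW
      rw [mem_filter, mem_Ioc]
      refine ⟨⟨?_, ?_⟩, ?_⟩
      · by_contra hc
        push Not at hc
        have : 2 * h * (p / (2 * h)) ≤ 2 * h * Y := Nat.mul_le_mul_left _ hc
        omega
      · by_contra hc
        push Not at hc
        have : 2 * h * (2 * Y + 1) ≤ 2 * h * (p / (2 * h)) := Nat.mul_le_mul_left _ hc
        have h8 : 2 * h * (2 * Y + 1) = 2 * (2 * h * Y) + 2 * h := by ring
        omega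
      · rw [h7]
        exact h3
  refine (card_le_card hsub).trans ((card_union_le _ _).trans ?_)
  exact Nat.add_le_add_left card_image_le _

private theorem nbv_exp {θ : ℝ} (h0 : 0 < θ) (h1 : θ < 1) : ∃ Y₁ : ℕ, ∀ H Y : ℕ, Y₁ ≤ Y → 1 ≤ H →
    (H : ℝ) ≤ (Y : ℝ) ^ (1 - θ) →
    (4 * H : ℝ) ≤ ((8 * H * Y + 1 : ℕ) : ℝ) ^ (1 / 2 - θ / 8) := by
  have h2 : Filter.Tendsto (fun Y : ℕ => (Y : ℝ) ^ (θ / 4)) Filter.atTop Filter.atTop :=
    (tendsto_rpow_atTop (by positivity)).comp tendsto_natCast_atTop_atTop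
  obtain ⟨Y₁, hY₁⟩ := Filter.eventually_atTop.1 (h2.eventually (Filter.eventually_ge_atTop 4))
  refine ⟨max Y₁ 1, fun H Y hY hH hHY => ?_⟩
  have h3 : (4 : ℝ) ≤ (Y : ℝ) ^ (θ / 4) := hY₁ Y (le_trans (le_max_left _ _) hY)
  have hY1 : (1 : ℝ) ≤ Y := by exact_mod_cast le_trans (le_max_right _ _) hY
  have hY0 : (0 : ℝ) < Y := by linarith
  have hH1 : (1 : ℝ) ≤ H := by exact_mod_cast hH
  have hH0 : (0 : ℝ) < H := by linarith
  have ht : 0 ≤ 1 / 2 - θ / 8 := by linarith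
  have h4 : (H : ℝ) = (H : ℝ) ^ (1 - (1 / 2 - θ / 8)) * (H : ℝ) ^ (1 / 2 - θ / 8) := by
    rw [← Real.rpow_add hH0]
    rw [sub_add_cancel, Real.rpow_one]
  have h5 : (H : ℝ) ^ (1 - (1 / 2 - θ / 8)) ≤ (Y : ℝ) ^ ((1 - θ) * (1 - (1 / 2 - θ / 8))) := by
    rw [Real.rpow_mul hY0.le]
    exact Real.rpow_le_rpow hH0.le hHY (by linarith)
  have h6 : 4 * (Y : ℝ) ^ ((1 - θ) * (1 - (1 / 2 - θ / 8))) ≤ (Y : ℝ) ^ (1 / 2 - θ / 8) := by
    calc 4 * (Y : ℝ) ^ ((1 - θ) * (1 - (1 / 2 - θ / 8)))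
        ≤ (Y : ℝ) ^ (θ / 4) * (Y : ℝ) ^ ((1 - θ) * (1 - (1 / 2 - θ / 8))) := by
          gcongr
      _ = (Y : ℝ) ^ (θ / 4 + (1 - θ) * (1 - (1 / 2 - θ / 8))) := by
          rw [← Real.rpow_add hY0]
      _ ≤ _ := by
          apply Real.rpow_le_rpow_of_exponent_le hY1
          nlinarith [sq_nonneg θ]
  calc (4 * H : ℝ) = 4 * ((H : ℝ) ^ (1 - (1 / 2 - θ / 8)) * (H : ℝ) ^ (1 / 2 - θ / 8)) := by
        rw [← h4]
    _ ≤ 4 * ((Y : ℝ) ^ ((1 - θ) * (1 - (1 / 2 - θ / 8))) * (H : ℝ) ^ (1 / 2 - θ / 8)) := by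
        gcongr
    _ = (4 * (Y : ℝ) ^ ((1 - θ) * (1 - (1 / 2 - θ / 8)))) * (H : ℝ) ^ (1 / 2 - θ / 8) := by ring
    _ ≤ (Y : ℝ) ^ (1 / 2 - θ / 8) * (H : ℝ) ^ (1 / 2 - θ / 8) := by gcongr
    _ = ((Y : ℝ) * H) ^ (1 / 2 - θ / 8) := by rw [Real.mul_rpow hY0.le hH0.le]
    _ ≤ _ := by
        apply Real.rpow_le_rpow (by positivity) _ ht
        push_cast
        nlinarith [mul_pos hH0 hY0]

theorem bv_lower : ∃ c₂ : ℝ, 0 < c₂ ∧ ∀ θ : ℝ, 0 < θ → θ < 1 → ∃ C : ℝ, 0 < C ∧ ∃ Y₀ : ℕ,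
    ∀ H Y : ℕ, Y₀ ≤ Y → 1 ≤ H → (H : ℝ) ≤ (Y : ℝ) ^ (1 - θ) → ∃ Er : ℕ → ℝ, (∀ h, 0 ≤ Er h) ∧
      (∀ h ∈ Ioc H (2 * H), c₂ * (Y / Real.log Y) - Er h ≤ #(WW h Y)) ∧
      ∑ h ∈ Ioc H (2 * H), Er h ≤ C * (H * Y / Real.log Y ^ 3) := by
  obtain ⟨x₀, hx₀⟩ := nbv_pnt
  refine ⟨1 / 6, by norm_num, fun θ h0 h1 => ?_⟩
  obtain ⟨C, hC, hld⟩ := BV.ld_strong (t := 1 / 2 - θ / 8) (by linarith) 3
  obtain ⟨Y₁, hY₁⟩ := nbv_exp h0 h1
  refine ⟨18 * C, by positivity, max (max x₀ Y₁) 4, fun H Y hY hH hHY => ?_⟩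
  have hYx : x₀ ≤ Y := le_trans (le_max_left _ _) (le_trans (le_max_left _ _) hY)
  have hYY : Y₁ ≤ Y := le_trans (le_max_right _ _) (le_trans (le_max_left _ _) hY)
  have hY4 : 4 ≤ Y := le_trans (le_max_right _ _) hY
  have hY4r : (4 : ℝ) ≤ Y := by exact_mod_cast hY4
  have hY0 : (0 : ℝ) < Y := by linarith
  have hH1 : (1 : ℝ) ≤ H := by exact_mod_cast hH
  have hH0 : (0 : ℝ) < H := by linarith
  have hlY : 0 < Real.log Y := Real.log_pos (by linarith)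
  have hexp := hY₁ H Y hYY hH hHY
  -- the error terms
  set F : ℕ → ℕ → ℝ := fun y q =>
    |(BV.pic y q 1 : ℝ) - Nat.primeCounting y / Nat.totient q| with hF
  refine ⟨fun h => F (2 * (2 * h * Y) + 1) (2 * h) + F (2 * h * Y + 1) (2 * h), ?_, ?_, ?_⟩
  · intro h
    positivity
  · intro h hh
    rw [mem_Ioc] at hh
    have hh1 : 1 ≤ h := by omega
    have hq : (0 : ℝ) < ((2 * h : ℕ) : ℝ) := by
      have : 0 < 2 * h := by omega
      exact_mod_cast this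
    have h2 : (BV.pic (2 * (2 * h * Y) + 1) (2 * h) 1 : ℝ) ≤
        BV.pic (2 * h * Y + 1) (2 * h) 1 + #(WW h Y) := by exact_mod_cast nbv_WW h Y hh1
    have h3 : x₀ ≤ 2 * h * Y := by nlinarith
    have h4 := hx₀ (2 * h * Y) h3
    have h5 : 0 < Nat.totient (2 * h) := Nat.totient_pos.2 (by omega)
    have h5r : (0 : ℝ) < Nat.totient (2 * h) := by exact_mod_cast h5
    have h6 : (Nat.totient (2 * h) : ℝ) ≤ ((2 * h : ℕ) : ℝ) := by
      exact_mod_cast Nat.totient_le (2 * h)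
    -- logarithm
    have h7 : ((2 * h * Y : ℕ) : ℝ) ≤ (Y : ℝ) ^ 3 := by
      have h8 : (H : ℝ) ≤ Y := by
        calc (H : ℝ) ≤ (Y : ℝ) ^ (1 - θ) := hHY
          _ ≤ (Y : ℝ) ^ (1 : ℝ) := Real.rpow_le_rpow_of_exponent_le (by linarith) (by linarith)
          _ = Y := Real.rpow_one _
      have h9 : (h : ℝ) ≤ 2 * H := by exact_mod_cast hh.2
      have h10 : (h : ℝ) ≤ 2 * Y := by linarith
      push_cast
      calc 2 * (h : ℝ) * Y ≤ 2 * (2 * Y) * Y := by gcongr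
        _ = 4 * (Y : ℝ) ^ 2 := by ring
        _ ≤ Y * (Y : ℝ) ^ 2 := by gcongr
        _ = (Y : ℝ) ^ 3 := by ring
    have h8 : (1 : ℝ) < ((2 * h * Y : ℕ) : ℝ) := by
      have : 1 < 2 * h * Y := by nlinarith
      exact_mod_cast this
    have h9 : 0 < Real.log ((2 * h * Y : ℕ) : ℝ) := Real.log_pos h8
    have h10 : Real.log ((2 * h * Y : ℕ) : ℝ) ≤ 3 * Real.log Y := by
      have := Real.log_le_log (by linarith) h7
      rw [Real.log_pow] at this
      exact_mod_cast this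
    -- main term
    have h11 : 1 / 6 * (Y / Real.log Y) ≤
        ((Nat.primeCounting (2 * (2 * h * Y) + 1) : ℝ) - Nat.primeCounting (2 * h * Y + 1)) /
          Nat.totient (2 * h) := by
      rw [le_div_iff₀ h5r]
      refine le_trans ?_ h4
      calc 1 / 6 * (Y / Real.log Y) * (Nat.totient (2 * h) : ℝ)
          ≤ 1 / 6 * (Y / Real.log Y) * ((2 * h : ℕ) : ℝ) := by gcongr
        _ = ((2 * h * Y : ℕ) : ℝ) / (2 * (3 * Real.log Y)) := by
            push_cast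
            field_simp
            try ring
        _ ≤ _ := by gcongr
    have h12 := abs_le.1 (le_refl (F (2 * (2 * h * Y) + 1) (2 * h)))
    have h13 := abs_le.1 (le_refl (F (2 * h * Y + 1) (2 * h)))
    rw [sub_div] at h11
    simp only [hF] at *
    linarith [h12.1, h13.2]
  · -- the sum
    set Z : ℕ := 8 * H * Y + 1 with hZ
    have hZ2 : 2 ≤ Z := by
      rw [hZ]
      nlinarith
    have hsum : ∀ f : ℕ → ℕ, (∀ h ∈ Ioc H (2 * H), f (2 * h) ≤ Z) →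
        ∑ h ∈ Ioc H (2 * H), F (f (2 * h)) (2 * h) ≤ C * Z / Real.log Z ^ 3 := by
      intro f hf
      have h2 := hld Z hZ2 (fun q => min Z (f q)) (fun _ => 1) (fun q => min_le_left _ _)
        (fun q _ => Nat.coprime_one_left q)
      refine le_trans ?_ h2
      have h3 : ∑ h ∈ Ioc H (2 * H), F (f (2 * h)) (2 * h) =
          ∑ q ∈ (Ioc H (2 * H)).image (fun h => 2 * h), F (min Z (f q)) q := by
        rw [sum_image (fun a _ b _ hab => by simpa using hab)]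
        refine sum_congr rfl fun h hh => ?_
        rw [min_eq_right (hf h hh)]
      rw [h3]
      refine sum_le_sum_of_subset_of_nonneg ?_ (fun q _ _ => abs_nonneg _)
      intro q hq
      rw [mem_image] at hq
      obtain ⟨h, hh, rfl⟩ := hq
      rw [mem_Ioc] at hh
      rw [mem_Icc]
      refine ⟨by omega, Nat.le_floor ?_⟩
      refine le_trans ?_ hexp
      have : (h : ℝ) ≤ 2 * H := by exact_mod_cast hh.2
      push_cast
      linarith
    rw [sum_add_distrib]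
    have e1 := hsum (fun q => 2 * (q * Y) + 1) (by
      intro h hh
      rw [mem_Ioc] at hh
      rw [hZ]
      have : 2 * h * Y ≤ 4 * H * Y := Nat.mul_le_mul_right _ (by omega)
      have h3 : 8 * H * Y = 2 * (4 * H * Y) := by ring
      omega)
    have e2 := hsum (fun q => q * Y + 1) (by
      intro h hh
      rw [mem_Ioc] at hh
      rw [hZ]
      have : 2 * h * Y ≤ 8 * H * Y := Nat.mul_le_mul_right _ (by omega)
      omega)
    have h4 : Real.log Y ≤ Real.log Z := by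
      apply Real.log_le_log hY0
      have : Y ≤ Z := by
        rw [hZ]
        nlinarith
      exact_mod_cast this
    have h5 : (Z : ℝ) ≤ 9 * (H * Y) := by
      rw [hZ]
      push_cast
      nlinarith
    have h6 : C * Z / Real.log Z ^ 3 ≤ 9 * C * (H * Y / Real.log Y ^ 3) := by
      calc C * Z / Real.log Z ^ 3 ≤ C * (9 * (H * Y)) / Real.log Y ^ 3 := by gcongr
        _ = _ := by ring
    calc _ ≤ C * Z / Real.log Z ^ 3 + C * Z / Real.log Z ^ 3 := add_le_add e1 e2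
      _ ≤ _ := by linarith

end Pool.Agent.Work.MP_34d05d_al.DO
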