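import Pool.Agent.Work.MP_34d05d_al.DO.NVar

set_option autoImplicit false

/-!
# DO/NUnc (size S-M): the uncovered numbers of a class

PROOF. X := R/a. Rr := {r ∈ (R,2R] : a ∣ 2r - 3fc}: #Rr ≤ X + 1 (`cnt_one`, u = 3fc). I := IX a M H Y c,
A x := {r ∈ (R,2R] : a DD x ∣ 2r - 3 f x.1}. A x ⊆ Rr: a ∣ 2r - 3f x.1 and a ∣ x.1 - c (x.1 % a = c % a). `cnt_one` with
m = a DD x (odd: DD x = x.1 + 2 x.2 with x.1 odd, since M is even and x.1 % M = 1): |#A x - X ρ x| ≤ 1, ρ x = 1/DD x.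
`cnt_two` with m = a DD x, m' = a DD y: gcd(m,m') = a gcd(DD x, DD y), and R a g/(a D a D') = X g/(D D'): ≤ X rho2 + 1
(A x ∩ A y is the filter of the conjunction; the integers 3 f x.1 as in rho2; the sign of the difference is the same).
A number r ∈ Rr with ¬ Cov is in no A x. `variance`: with S = SS ≤ #I (DD x ≥ 1).
`SS_ge`: DD x ≤ 6Y (x.1 ≤ 2H ≤ 2Y, x.2 ≤ 2Y).
-/

namespace Pool.Agent.Work.MP_34d05d_al.DO

open Finset

private theorem mem_IX' {a M H Y c : ℕ} {x : ℕ × ℕ} (hx : x ∈ IX a M H Y c) :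
    (H < x.1 ∧ x.1 ≤ 2 * H) ∧ x.1 % M = 1 ∧ x.1 % a = c % a ∧ (Y < x.2 ∧ x.2 ≤ 2 * Y) := by
  unfold IX HC at hx
  rw [mem_filter, mem_product, mem_filter, mem_Ioc, mem_Ioc] at hx
  exact ⟨hx.1.1.1, hx.1.1.2.1, hx.1.1.2.2, hx.1.2⟩

private theorem dd_odd {a M H Y c : ℕ} (hM : Even M) {x : ℕ × ℕ} (hx : x ∈ IX a M H Y c) :
    Odd (DD x) := by
  obtain ⟨-, h1, -, -⟩ := mem_IX' hx
  have h2 : x.1 % 2 = 1 := by
    have h3 : x.1 % M % 2 = x.1 % 2 := Nat.mod_mod_of_dvd _ hM.two_dvd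
    omega
  rw [Nat.odd_iff]
  unfold DD
  omega

open Classical in
theorem uncov_le (a f M H Y c R : ℕ) (ha : Odd a) (hM : Even M) :
    (#((Ioc R (2 * R)).filter (fun r : ℕ => (a : ℤ) ∣ 2 * (r : ℤ) - 3 * (f : ℤ) * c ∧
      ¬ Cov a f M H Y c r)) : ℝ) * SS a M H Y c ^ 2 ≤
      ((R : ℝ) / a) * (∑ x ∈ IX a M H Y c, ∑ y ∈ IX a M H Y c, rho2 a f x y -
        SS a M H Y c ^ 2) + (2 * #(IX a M H Y c)) ^ 2 := by
  set I := IX a M H Y c with hI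
  set Rr := (Ioc R (2 * R)).filter (fun r : ℕ => (a : ℤ) ∣ 2 * (r : ℤ) - 3 * (f : ℤ) * c) with hRr
  set A : ℕ × ℕ → Finset ℕ := fun x => (Ioc R (2 * R)).filter
    (fun r : ℕ => ((a * DD x : ℕ) : ℤ) ∣ 2 * (r : ℤ) - 3 * (f : ℤ) * x.1) with hA
  have ha0 : 0 < a := ha.pos
  have haR : (0 : ℝ) < a := by exact_mod_cast ha0
  have hDD : ∀ x ∈ I, (1 : ℝ) ≤ DD x := fun x hx => by exact_mod_cast (dd_odd hM hx).pos
  have hsub : ∀ x ∈ I, A x ⊆ Rr := by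
    intro x hx r hr
    rw [hA, mem_filter] at hr
    rw [hRr, mem_filter]
    refine ⟨hr.1, ?_⟩
    have h1 : (a : ℤ) ∣ 2 * (r : ℤ) - 3 * (f : ℤ) * x.1 :=
      dvd_trans ⟨(DD x : ℤ), by push_cast; ring⟩ hr.2
    have h2 : (a : ℤ) ∣ (x.1 : ℤ) - c := by
      have h3 := (mem_IX' hx).2.2.1
      have h4 : (c : ℤ) ≡ (x.1 : ℤ) [ZMOD a] := by
        unfold Int.ModEq
        exact_mod_cast h3.symm
      exact h4.dvd
    have h5 : 2 * (r : ℤ) - 3 * (f : ℤ) * c =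
        (2 * (r : ℤ) - 3 * (f : ℤ) * x.1) + 3 * (f : ℤ) * ((x.1 : ℤ) - c) := by ring
    rw [h5]
    exact dvd_add h1 (dvd_mul_of_dvd_right h2 _)
  have h1 : ∀ x ∈ I, |(#(A x) : ℝ) - (R : ℝ) / a * (1 / (DD x : ℝ))| ≤ 1 := by
    intro x hx
    have h2 := cnt_one R (a * DD x) (3 * (f : ℤ) * x.1) (ha.mul (dd_odd hM hx))
    have h3 : (R : ℝ) / ((a * DD x : ℕ) : ℝ) = (R : ℝ) / a * (1 / (DD x : ℝ)) := by
      push_cast
      rw [div_mul_div_comm, mul_one]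
    rw [h3] at h2
    exact h2
  have h2 : ∀ x ∈ I, ∀ y ∈ I, (#(A x ∩ A y) : ℝ) ≤ (R : ℝ) / a * rho2 a f x y + 1 := by
    intro x hx y hy
    have h3 := cnt_two R (a * DD x) (a * DD y) (3 * (f : ℤ) * x.1) (3 * (f : ℤ) * y.1)
      (ha.mul (dd_odd hM hx)) (ha.mul (dd_odd hM hy))
    have h4 : A x ∩ A y = (Ioc R (2 * R)).filter (fun r : ℕ =>
        ((a * DD x : ℕ) : ℤ) ∣ 2 * (r : ℤ) - 3 * (f : ℤ) * x.1 ∧
        ((a * DD y : ℕ) : ℤ) ∣ 2 * (r : ℤ) - 3 * (f : ℤ) * y.1) := by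
      ext r
      rw [hA, mem_inter, mem_filter, mem_filter, mem_filter]
      tauto
    rw [h4]
    refine le_trans h3 (add_le_add (le_of_eq ?_) le_rfl)
    rw [Nat.gcd_mul_left]
    unfold rho2
    have hx1 : (DD x : ℝ) ≠ 0 := (lt_of_lt_of_le one_pos (hDD x hx)).ne'
    have hy1 : (DD y : ℝ) ≠ 0 := (lt_of_lt_of_le one_pos (hDD y hy)).ne'
    split_ifs
    · push_cast
      field_simp
    · rw [mul_zero]
  have hR : (#Rr : ℝ) ≤ (R : ℝ) / a + 1 := by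
    have h3 := cnt_one R a (3 * (f : ℤ) * c) ha
    have h4 := (abs_le.1 h3).2
    linarith
  have hvar := variance I Rr A hsub ((R : ℝ) / a) (by positivity) (fun x => 1 / (DD x : ℝ))
    (rho2 a f) h1 h2 hR (fun x _ => by positivity)
  have hSS : ∑ x ∈ I, 1 / (DD x : ℝ) = SS a M H Y c := rfl
  rw [hSS] at hvar
  have hle : (#((Ioc R (2 * R)).filter (fun r : ℕ => (a : ℤ) ∣ 2 * (r : ℤ) - 3 * (f : ℤ) * c ∧
      ¬ Cov a f M H Y c r)) : ℝ) ≤ #(Rr.filter (fun r => ∀ i ∈ I, r ∉ A i)) := by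
    have h3 : (Ioc R (2 * R)).filter (fun r : ℕ => (a : ℤ) ∣ 2 * (r : ℤ) - 3 * (f : ℤ) * c ∧
        ¬ Cov a f M H Y c r) ⊆ Rr.filter (fun r => ∀ i ∈ I, r ∉ A i) := by
      intro r hr
      rw [mem_filter] at hr
      rw [mem_filter, hRr, mem_filter]
      refine ⟨⟨hr.1, hr.2.1⟩, fun i hi hmem => hr.2.2 ⟨i, hi, ?_⟩⟩
      rw [hA, mem_filter] at hmem
      exact hmem.2
    exact_mod_cast card_le_card h3
  have hSS0 : 0 ≤ SS a M H Y c := sum_nonneg fun x _ => by positivity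
  have hSSI : SS a M H Y c ≤ #I := by
    have h3 : ∑ x ∈ I, 1 / (DD x : ℝ) ≤ ∑ x ∈ I, (1 : ℝ) := sum_le_sum fun x hx => by
      rw [div_le_one (lt_of_lt_of_le one_pos (hDD x hx))]
      exact hDD x hx
    rw [sum_const, nsmul_eq_mul, mul_one] at h3
    exact h3
  have h5 : ((#I : ℝ) + SS a M H Y c) ^ 2 ≤ (2 * #I) ^ 2 :=
    pow_le_pow_left₀ (by positivity) (by linarith) 2
  exact le_trans (mul_le_mul_of_nonneg_right hle (by positivity)) (le_trans hvar (by linarith))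

theorem SS_ge (a M H Y c : ℕ) (hY : 1 ≤ Y) (hH : H ≤ Y) :
    (#(IX a M H Y c) : ℝ) / (6 * Y) ≤ SS a M H Y c := by
  have hY0 : (0 : ℝ) < Y := by exact_mod_cast hY
  have h1 : ∑ x ∈ IX a M H Y c, (1 / (6 * Y) : ℝ) ≤ SS a M H Y c := by
    refine sum_le_sum fun x hx => ?_
    obtain ⟨h2, -, -, h3⟩ := mem_IX' hx
    have h4 : DD x ≤ 6 * Y := by unfold DD; omega
    have h5 : 0 < DD x := by unfold DD; omega
    have h6 : (DD x : ℝ) ≤ 6 * Y := by exact_mod_cast h4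
    exact one_div_le_one_div_of_le (by exact_mod_cast h5) h6
  rw [sum_const, nsmul_eq_mul, mul_one_div] at h1
  exact h1

end Pool.Agent.Work.MP_34d05d_al.DO
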