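import Pool.Agent.Work.MP_34d05d_al.DO.NPair
import Pool.Agent.Work.MP_34d05d_al.DO.NUnc
import Pool.Agent.Work.MP_34d05d_al.DO.NBad

set_option autoImplicit false

/-!
# DO/NCov (size M): the uncovered numbers, all classes together

L := log Y, X := H/(aM). PROOF. Let U be the set of the r ∈ (R, 2R] with ¬ Cov a f M H Y c r for all c. For each r there
is c ∈ range a with a ∣ 2r - 3fc (3f is invertible modulo a: hcop). So #U ≤ ∑_{c < a} #U_c, U_c := {r ∈ (R,2R] :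
a ∣ 2r - 3fc, ¬ Cov a f M H Y c r}.
c bad (`bad_le`: at most C_b a M/L² classes): #U_c ≤ R/a + 1 ≤ 2R/a (`cnt_one`, a ≤ R): total 2 C_b M R/L².
c good: #IX = ∑_{h ∈ HC} #WW h Y ≥ c₂ #HC Y/L (`sum_IX` with F = 1), so by `SS_ge` SS ≥ (c₂/6) #HC/L > 0, and
#HC ≥ X/2, #HC ≥ 1 (`card_HC`). `uncov_le` and `pair_sum`, divided by SS²:
#U_c ≤ (R/a) [9 #HC (1 + log(6Y)) + C₁ (τ + 1/√z) X²/L² + 13 #HC² T/√Y]/SS² + 4 #IX²/SS²
 ≤ (R/a)(36/c₂²)[18 (1+log(6Y)) L²/X + 4 C₁ (τ + 1/√z) + 13 T L²/√Y] + 144 Y² (#IX/SS ≤ 6Y).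
Sum over c < a.
-/

namespace Pool.Agent.Work.MP_34d05d_al.DO

open Finset

private theorem nc_core (u s Ra P n X L v1 v2 v3 C₁ c₂ I Y : ℝ)
    (hu : u * s ^ 2 ≤ Ra * (P - s ^ 2) + (2 * I) ^ 2)
    (hP : P ≤ s ^ 2 + 9 * n * v1 + C₁ * v2 * X ^ 2 / L ^ 2 + 13 * n ^ 2 * v3)
    (hs : c₂ * n / (6 * L) ≤ s) (hI : I ≤ 6 * Y * s) (hI0 : 0 ≤ I) (hn : X / 2 ≤ n)
    (hX : 0 < X) (hL : 0 < L) (hc₂ : 0 < c₂) (hC₁ : 0 < C₁) (h1 : 0 ≤ v1) (h2 : 0 ≤ v2)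
    (h3 : 0 ≤ v3) (hRa : 0 ≤ Ra) :
    u ≤ Ra * (36 / c₂ ^ 2 * (31 + 4 * C₁) * (v1 * L ^ 2 / X + v2 + v3 * L ^ 2)) +
      144 * Y ^ 2 := by
  have hn0 : 0 < n := by linarith
  obtain ⟨E, hE⟩ : ∃ E, E = 36 / c₂ ^ 2 * (31 + 4 * C₁) * (v1 * L ^ 2 / X + v2 + v3 * L ^ 2) :=
    ⟨_, rfl⟩
  rw [← hE]
  have hE0 : 0 ≤ E := by
    rw [hE]
    positivity
  have ht0 : 0 < c₂ * n / (6 * L) := by positivity
  have hs0 : 0 < s := lt_of_lt_of_le ht0 hs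
  have hts : (c₂ * n / (6 * L)) ^ 2 ≤ s ^ 2 := pow_le_pow_left₀ ht0.le hs 2
  have hEt : E * (c₂ * n / (6 * L)) ^ 2 =
      (31 + 4 * C₁) * (v1 * (n ^ 2 / X) + v2 * n ^ 2 / L ^ 2 + v3 * n ^ 2) := by
    rw [hE]
    field_simp
    ring
  have q1 : n / 2 ≤ n ^ 2 / X := by
    rw [div_le_div_iff₀ (by norm_num) hX]
    nlinarith
  have q2 : X ^ 2 ≤ 4 * n ^ 2 := by nlinarith
  have k1 : 9 * n * v1 ≤ (31 + 4 * C₁) * (v1 * (n ^ 2 / X)) := by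
    have e1 : v1 * (n / 2) ≤ v1 * (n ^ 2 / X) := mul_le_mul_of_nonneg_left q1 h1
    have e2 : 0 ≤ v1 * (n ^ 2 / X) := by positivity
    have e3 : 0 ≤ C₁ * (v1 * (n ^ 2 / X)) := by positivity
    nlinarith
  have k2 : C₁ * v2 * X ^ 2 / L ^ 2 ≤ (31 + 4 * C₁) * (v2 * n ^ 2 / L ^ 2) := by
    rw [mul_div_assoc']
    refine div_le_div_of_nonneg_right ?_ (sq_nonneg L)
    have e1 : C₁ * v2 * X ^ 2 ≤ C₁ * v2 * (4 * n ^ 2) :=
      mul_le_mul_of_nonneg_left q2 (by positivity)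
    have e2 : 0 ≤ v2 * n ^ 2 := by positivity
    linarith
  have k3 : 13 * n ^ 2 * v3 ≤ (31 + 4 * C₁) * (v3 * n ^ 2) := by
    have e2 : 0 ≤ v3 * n ^ 2 := by positivity
    have e3 : 0 ≤ C₁ * (v3 * n ^ 2) := by positivity
    linarith
  have k4 : P - s ^ 2 ≤ E * s ^ 2 := by
    have e1 := mul_le_mul_of_nonneg_left hts hE0
    rw [hEt] at e1
    linarith
  have k5 : (2 * I) ^ 2 ≤ 144 * Y ^ 2 * s ^ 2 := by
    have e1 : 2 * I ≤ 12 * Y * s := by linarith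
    have e2 : (2 * I) ^ 2 ≤ (12 * Y * s) ^ 2 := pow_le_pow_left₀ (by linarith) e1 2
    nlinarith
  have k6 : Ra * (P - s ^ 2) ≤ Ra * (E * s ^ 2) := mul_le_mul_of_nonneg_left k4 hRa
  have k7 : u * s ^ 2 ≤ (Ra * E + 144 * Y ^ 2) * s ^ 2 := by linarith
  exact le_of_mul_le_mul_right k7 (by positivity)

private theorem nc_res (a f r : ℕ) (ha : 1 ≤ a) (hcop : Nat.Coprime a (3 * f)) :
    ∃ c ∈ range a, (a : ℤ) ∣ 2 * (r : ℤ) - 3 * (f : ℤ) * ((c : ℕ) : ℤ) := by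
  have h1 : IsCoprime (a : ℤ) ((3 * f : ℕ) : ℤ) := Nat.isCoprime_iff_coprime.mpr hcop
  obtain ⟨u, v, huv⟩ := h1
  have ha0 : (0 : ℤ) < a := by exact_mod_cast ha
  obtain ⟨c', hc'⟩ : ∃ c', c' = (v * (2 * (r : ℤ))) % (a : ℤ) := ⟨_, rfl⟩
  have hc0 : 0 ≤ c' := by
    rw [hc']
    exact Int.emod_nonneg _ ha0.ne'
  have hca : c' < a := by
    rw [hc']
    exact Int.emod_lt_of_pos _ ha0
  have hcc : ((c'.toNat : ℕ) : ℤ) = c' := Int.toNat_of_nonneg hc0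
  refine ⟨c'.toNat, ?_, ?_⟩
  · rw [Finset.mem_range]
    omega
  · rw [hcc]
    have h2 : (a : ℤ) * ((v * (2 * (r : ℤ))) / (a : ℤ)) + c' = v * (2 * (r : ℤ)) := by
      rw [hc']
      exact Int.mul_ediv_add_emod _ _
    refine ⟨u * (2 * r) + 3 * f * ((v * (2 * (r : ℤ))) / (a : ℤ)), ?_⟩
    push_cast at huv
    linear_combination (-(2 * (r : ℤ))) * huv - (3 * (f : ℤ)) * h2

open Classical in
private theorem nc_union (a f M H Y R : ℕ) (ha : 1 ≤ a) (hcop : Nat.Coprime a (3 * f)) :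
    (#((Ioc R (2 * R)).filter (fun r : ℕ => ∀ c : ℕ, ¬ Cov a f M H Y c r)) : ℝ) ≤
      ∑ c ∈ range a, (#((Ioc R (2 * R)).filter (fun r : ℕ =>
        (a : ℤ) ∣ 2 * (r : ℤ) - 3 * (f : ℤ) * c ∧ ¬ Cov a f M H Y c r)) : ℝ) := by
  have h1 : (Ioc R (2 * R)).filter (fun r : ℕ => ∀ c : ℕ, ¬ Cov a f M H Y c r) ⊆
      (range a).biUnion (fun c => (Ioc R (2 * R)).filter (fun r : ℕ =>
        (a : ℤ) ∣ 2 * (r : ℤ) - 3 * (f : ℤ) * c ∧ ¬ Cov a f M H Y c r)) := by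
    intro r hr
    rw [Finset.mem_filter] at hr
    obtain ⟨c, hc, hd⟩ := nc_res a f r ha hcop
    rw [Finset.mem_biUnion]
    exact ⟨c, hc, Finset.mem_filter.mpr ⟨hr.1, hd, hr.2 c⟩⟩
  have h2 := (Finset.card_le_card h1).trans Finset.card_biUnion_le
  exact_mod_cast h2

open Classical in
theorem cover_fixed : ∃ C : ℝ, 0 < C ∧ ∀ θ : ℝ, 0 < θ → θ < 1 → ∃ C' : ℝ, 0 < C' ∧ ∃ Y₀ : ℕ,
    ∀ (z a f M H Y R : ℕ) (τ T : ℝ), Y₀ ≤ Y → 16 ≤ z → z ≤ Y → Odd a → 1 ≤ f → 2 ≤ M →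
    Nat.Coprime a M → Nat.Coprime a (3 * f) →
    (∀ l : ℕ, l.Prime → l < z → l ∣ M) → (∀ l : ℕ, l.Prime → l ∣ M → l < z) →
    2 * (a * M) ≤ H → (H : ℝ) ≤ (Y : ℝ) ^ (1 - θ) → a ≤ R →
    0 ≤ τ → τ ≤ 1 → (f : ℝ) / Nat.totient f ≤ 1 + τ → (a : ℝ) ≤ 2 * Nat.totient a →
    (1 + Real.log (2 * H)) ^ 2 ≤ (H : ℝ) / (a * M) →
    (∀ k : ℕ, 1 ≤ k → k ≤ H → (#(f * k).divisors : ℝ) ≤ T) →
    (#((Ioc R (2 * R)).filter (fun r : ℕ => ∀ c : ℕ, ¬ Cov a f M H Y c r)) : ℝ) ≤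
      R * (C * ((1 + Real.log (6 * Y)) * Real.log Y ^ 2 * (a * M / H) + (τ + 1 / Real.sqrt z) +
        T * Real.log Y ^ 2 / Real.sqrt Y) + C' * M / Real.log Y ^ 2) + 144 * a * (Y : ℝ) ^ 2 := by
  obtain ⟨C₁, hC₁, Y₁, hpair⟩ := pair_sum
  obtain ⟨c₂, hc₂, hbad⟩ := bad_le
  refine ⟨36 / c₂ ^ 2 * (31 + 4 * C₁), by positivity, ?_⟩
  intro θ hθ0 hθ1
  obtain ⟨Cb, hCb, Y₂, hbad⟩ := hbad θ hθ0 hθ1
  refine ⟨2 * Cb, by positivity, max (max Y₁ Y₂) 2, ?_⟩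
  intro z a f M H Y R τ T hY hz hzY haodd hf hM2 hcop hcop3 hM hM' hHa hHY haR hτ0 hτ1 hφ haφ
    hlog hT
  have hY1 : Y₁ ≤ Y := le_trans (le_trans (le_max_left _ _) (le_max_left _ _)) hY
  have hY2 : Y₂ ≤ Y := le_trans (le_trans (le_max_right _ _) (le_max_left _ _)) hY
  have hY3 : 2 ≤ Y := le_trans (le_max_right _ _) hY
  have hYR : (2 : ℝ) ≤ Y := by exact_mod_cast hY3
  have hYpos : (0 : ℝ) < Y := by linarith
  have hL : 0 < Real.log Y := Real.log_pos (by linarith)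
  have hsq : 0 < Real.sqrt Y := Real.sqrt_pos.mpr hYpos
  have ha : 1 ≤ a := haodd.pos
  have haM : 1 ≤ a * M := Nat.one_le_iff_ne_zero.mpr (Nat.mul_ne_zero (by omega) (by omega))
  have hH1 : 1 ≤ H := by omega
  have haRr : (0 : ℝ) < a := by exact_mod_cast ha
  have hHR : (0 : ℝ) < H := by exact_mod_cast hH1
  have hMR : (0 : ℝ) < M := by exact_mod_cast (show 0 < M by omega)
  have hHY' : H ≤ Y := by
    have h1 : (Y : ℝ) ^ (1 - θ) ≤ (Y : ℝ) ^ (1 : ℝ) :=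
      Real.rpow_le_rpow_of_exponent_le (by linarith) (by linarith)
    rw [Real.rpow_one] at h1
    exact_mod_cast hHY.trans h1
  have hT0 : 0 ≤ T := le_trans (Nat.cast_nonneg _) (hT 1 le_rfl hH1)
  have hMe : Even M := even_iff_two_dvd.mpr (hM 2 Nat.prime_two (by omega))
  have hlog6 : 0 ≤ Real.log (6 * Y) := Real.log_nonneg (by linarith)
  obtain ⟨X, hX⟩ : ∃ X : ℝ, X = (H : ℝ) / (a * M) := ⟨_, rfl⟩
  have hX0 : 0 < X := by
    rw [hX]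
    positivity
  obtain ⟨E, hE⟩ : ∃ E : ℝ, E = 36 / c₂ ^ 2 * (31 + 4 * C₁) * ((1 + Real.log (6 * Y)) *
    Real.log Y ^ 2 / X + (τ + 1 / Real.sqrt z) + T / Real.sqrt Y * Real.log Y ^ 2) := ⟨_, rfl⟩
  have hE0 : 0 ≤ E := by
    rw [hE]
    positivity
  obtain ⟨B, hB⟩ : ∃ B : Finset ℕ, B = (range a).filter (fun c =>
    (∑ h ∈ HC a M H c, (#(WW h Y) : ℝ)) < c₂ * (#(HC a M H c) * (Y / Real.log Y))) := ⟨_, rfl⟩
  have hBle : (#B : ℝ) ≤ Cb * (a * M) / Real.log Y ^ 2 := by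
    rw [hB]
    exact hbad a M H Y hY2 hH1 hHY ha hM2 hcop hHa
  have hRa : 0 ≤ (R : ℝ) / a := by positivity
  have hcls : ∀ c ∈ range a, (#((Ioc R (2 * R)).filter (fun r : ℕ =>
        (a : ℤ) ∣ 2 * (r : ℤ) - 3 * (f : ℤ) * c ∧ ¬ Cov a f M H Y c r)) : ℝ) ≤
      (if c ∈ B then 2 * ((R : ℝ) / a) else 0) + ((R : ℝ) / a * E + 144 * (Y : ℝ) ^ 2) := by
    intro c hc
    by_cases hcB : c ∈ B
    · rw [if_pos hcB]
      have h1 := cnt_one R a (3 * (f : ℤ) * c) haodd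
      rw [abs_le] at h1
      have h2 : (#((Ioc R (2 * R)).filter (fun r : ℕ =>
          (a : ℤ) ∣ 2 * (r : ℤ) - 3 * (f : ℤ) * c ∧ ¬ Cov a f M H Y c r)) : ℝ) ≤
          (#((Ioc R (2 * R)).filter (fun r : ℕ => (a : ℤ) ∣ 2 * (r : ℤ) - 3 * (f : ℤ) * c)) : ℝ) := by
        have : (Ioc R (2 * R)).filter (fun r : ℕ =>
          (a : ℤ) ∣ 2 * (r : ℤ) - 3 * (f : ℤ) * c ∧ ¬ Cov a f M H Y c r) ⊆
          (Ioc R (2 * R)).filter (fun r : ℕ => (a : ℤ) ∣ 2 * (r : ℤ) - 3 * (f : ℤ) * c) := by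
          intro r hr
          rw [Finset.mem_filter] at hr ⊢
          exact ⟨hr.1, hr.2.1⟩
        exact_mod_cast Finset.card_le_card this
      have h3 : 1 ≤ (R : ℝ) / a := by
        rw [one_le_div haRr]
        exact_mod_cast haR
      have h4 : 0 ≤ (R : ℝ) / a * E + 144 * (Y : ℝ) ^ 2 := by positivity
      linarith [h1.2]
    · rw [if_neg hcB, zero_add, hE]
      have hgood : c₂ * (#(HC a M H c) * (Y / Real.log Y)) ≤
          ∑ h ∈ HC a M H c, (#(WW h Y) : ℝ) := by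
        rw [hB, Finset.mem_filter, not_and] at hcB
        exact not_lt.mp (hcB hc)
      have hIX : (#(IX a M H Y c) : ℝ) = ∑ h ∈ HC a M H c, (#(WW h Y) : ℝ) := by
        have h1 := sum_IX a M H Y c fun _ => (1 : ℝ)
        simpa using h1
      obtain ⟨hn1, hn2⟩ := card_HC a M H c ha hM2 hcop hHa
      have hSS := SS_ge a M H Y c (by omega) hHY'
      have hP := hpair z a f M H Y c τ T hY1 hz hzY ha hf (by omega) hcop hM hM' hH1 hHY' hτ0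
        hτ1 hφ haφ hlog hT
      have hU := uncov_le a f M H Y c R haodd hMe
      have hI : (#(IX a M H Y c) : ℝ) ≤ 6 * Y * SS a M H Y c := by
        rw [div_le_iff₀ (by positivity)] at hSS
        linarith
      refine nc_core _ (SS a M H Y c) ((R : ℝ) / a)
        (∑ x ∈ IX a M H Y c, ∑ y ∈ IX a M H Y c, rho2 a f x y) (#(HC a M H c)) X (Real.log Y)
        (1 + Real.log (6 * Y)) (τ + 1 / Real.sqrt z) (T / Real.sqrt Y) C₁ c₂
        (#(IX a M H Y c)) Y hU ?_ ?_ hI (Nat.cast_nonneg _) ?_ hX0 hL hc₂ hC₁ (by linarith)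
        (by positivity) (by positivity) hRa
      · rw [hX]
        refine hP.trans (le_of_eq ?_)
        ring
      · refine le_trans ?_ hSS
        rw [hIX]
        have h1 : c₂ * (#(HC a M H c) : ℝ) / (6 * Real.log Y) =
            c₂ * (#(HC a M H c) * (Y / Real.log Y)) / (6 * Y) := by
          field_simp
        rw [h1]
        exact div_le_div_of_nonneg_right hgood (by positivity)
      · rw [hX]
        refine le_trans (le_of_eq ?_) hn1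
        field_simp
  refine (nc_union a f M H Y R ha hcop3).trans ?_
  refine (Finset.sum_le_sum hcls).trans ?_
  rw [Finset.sum_add_distrib, Finset.sum_const, Finset.card_range, nsmul_eq_mul,
    ← Finset.sum_filter, Finset.sum_const, nsmul_eq_mul]
  have hBf : (range a).filter (fun c => c ∈ B) = B := by
    ext c
    rw [Finset.mem_filter]
    constructor
    · exact fun h => h.2
    · intro h
      refine ⟨?_, h⟩
      rw [hB] at h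
      exact (Finset.mem_filter.mp h).1
  rw [hBf]
  have h1 : (#B : ℝ) * (2 * ((R : ℝ) / a)) ≤ Cb * (a * M) / Real.log Y ^ 2 * (2 * ((R : ℝ) / a)) :=
    mul_le_mul_of_nonneg_right hBle (by positivity)
  have h2 : Cb * (a * M) / Real.log Y ^ 2 * (2 * ((R : ℝ) / a)) =
      R * (2 * Cb * M / Real.log Y ^ 2) := by
    field_simp
  have h3 : (a : ℝ) * ((R : ℝ) / a * E + 144 * (Y : ℝ) ^ 2) = R * E + 144 * a * (Y : ℝ) ^ 2 := by
    field_simp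
  have h4 : E = 36 / c₂ ^ 2 * (31 + 4 * C₁) * ((1 + Real.log (6 * Y)) * Real.log Y ^ 2 *
      (a * M / H) + (τ + 1 / Real.sqrt z) + T * Real.log Y ^ 2 / Real.sqrt Y) := by
    rw [hE, hX]
    congr 1
    field_simp
  rw [h3, ← h4]
  linarith

end Pool.Agent.Work.MP_34d05d_al.DO
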