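import Pool.Agent.Work.MP_34d05d_al.DO.Defs

set_option autoImplicit false

/-!
# DO/NDiag (size S-M): the diagonal, roughness of h + 2w

PROOFS.
`rough_DD`: let l < z be a prime dividing h + 2w; l ∣ M, so h = 1 mod l. If l = 2, h + 2w is odd: contradiction. If
l is odd: 2w = -h = -1 mod l, so 2hw + 1 = h (2w) + 1 = -1 + 1 = 0 mod l, so the prime 2hw+1 is equal to l < z ≤ Y < w ≤
2hw+1 (h ≥ 1), contradiction. (h ≥ 1 since h % M = 1.)
`sum_gcd`: D = h + 2w runs over different integers in [1, 6Y] and D ≥ 2Y (w > Y), so the left side is at most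
(1/(4Y²)) ∑_{D, D' ≤ 6Y} gcd(D, D') and gcd(D,D') ≤ ∑_{g ≤ 6Y, g | D, g | D'} g: ∑_{g ≤ 6Y} g (6Y/g)² =
36 Y² ∑_{g ≤ 6Y} 1/g ≤ 36 Y² (1 + log(6Y)). Total 9 (1 + log (6Y)). (h ≤ 2Y.)
-/

namespace Pool.Agent.Work.MP_34d05d_al.DO

open Finset

theorem rough_DD (z M h w Y : ℕ) (hM : ∀ l : ℕ, l.Prime → l < z → l ∣ M) (hz : 3 ≤ z)
    (hzY : z ≤ Y) (hh : h % M = 1) (hw : w ∈ WW h Y) : Rough z (h + 2 * w) := by
  intro l hl hld
  by_contra hcon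
  rw [not_le] at hcon
  obtain ⟨e, he⟩ := hM l hl hcon
  unfold WW at hw
  rw [Finset.mem_filter, Finset.mem_Ioc] at hw
  obtain ⟨⟨hw1, hw2⟩, hp⟩ := hw
  have h1 : h = M * (h / M) + 1 := by
    have := Nat.div_add_mod h M
    rw [hh] at this
    exact this.symm
  obtain ⟨f, hf⟩ := hld
  have h2 : (l : ℤ) ∣ ((2 * h * w + 1 : ℕ) : ℤ) := by
    have h3 : (h : ℤ) = l * e * (h / M : ℕ) + 1 := by
      have h4 : (h : ℤ) = (M : ℤ) * (h / M : ℕ) + 1 := by exact_mod_cast h1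
      rw [he] at h4
      rw [he]
      push_cast at h4 ⊢
      exact h4
    have h4 : (h : ℤ) + 2 * w = l * f := by exact_mod_cast hf
    refine ⟨h * f - e * (h / M : ℕ) * (h + 1), ?_⟩
    push_cast
    push_cast at h3
    linear_combination (h : ℤ) * h4 - ((h : ℤ) + 1) * h3
  have h3 : l ∣ 2 * h * w + 1 := by exact_mod_cast h2
  have h4 : l = 2 * h * w + 1 := (Nat.prime_dvd_prime_iff_eq hl hp).1 h3
  have hh1 : 1 ≤ h := by omega
  have h5 : 2 * 1 * w ≤ 2 * h * w := Nat.mul_le_mul_right w (Nat.mul_le_mul_left 2 hh1)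
  omega

private theorem gcd_le_sum (n m N : ℕ) (hn : 1 ≤ n) (hnN : n ≤ N) :
    (Nat.gcd n m : ℝ) ≤ ∑ g ∈ Icc 1 N, (if g ∣ n then (1 : ℝ) else 0) *
      (if g ∣ m then (1 : ℝ) else 0) * g := by
  have h1 : Nat.gcd n m ∈ Icc 1 N := by
    rw [Finset.mem_Icc]
    exact ⟨Nat.gcd_pos_of_pos_left _ hn, (Nat.gcd_le_left m hn).trans hnN⟩
  have h2 := Finset.single_le_sum (f := fun g : ℕ => (if g ∣ n then (1 : ℝ) else 0) *
      (if g ∣ m then (1 : ℝ) else 0) * g) (fun g _ => by positivity) h1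
  refine le_trans (le_of_eq ?_) h2
  rw [if_pos (Nat.gcd_dvd_left n m), if_pos (Nat.gcd_dvd_right n m), one_mul, one_mul]

private theorem card_div (h Y g : ℕ) (hg : 1 ≤ g) (hh : h ≤ 2 * Y) :
    ∑ w ∈ WW h Y, (if g ∣ h + 2 * w then (1 : ℝ) else 0) ≤ (6 * Y : ℝ) / g := by
  rw [Finset.sum_boole]
  have h1 : #((WW h Y).filter (fun w => g ∣ h + 2 * w)) ≤ #(Ioc 0 (6 * Y / g)) := by
    refine Finset.card_le_card_of_injOn (fun w => (h + 2 * w) / g) ?_ ?_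
    · intro w hw
      rw [Finset.mem_coe, Finset.mem_filter] at hw
      obtain ⟨hw1, hw2⟩ := hw
      unfold WW at hw1
      rw [Finset.mem_filter, Finset.mem_Ioc] at hw1
      rw [Finset.mem_coe, Finset.mem_Ioc]
      refine ⟨Nat.div_pos (Nat.le_of_dvd (by omega) hw2) (by omega), ?_⟩
      exact Nat.div_le_div_right (by omega)
    · intro w hw w' hw' he
      rw [Finset.mem_coe, Finset.mem_filter] at hw hw'
      simp only at he
      have e1 := Nat.div_mul_cancel hw.2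
      have e2 := Nat.div_mul_cancel hw'.2
      rw [he, e2] at e1
      omega
  rw [Nat.card_Ioc, Nat.sub_zero] at h1
  have h2 : ((6 * Y / g : ℕ) : ℝ) ≤ (6 * Y : ℝ) / g := by
    have := @Nat.cast_div_le ℝ _ _ _ (6 * Y) g
    push_cast at this
    exact this
  exact le_trans (by exact_mod_cast h1) h2

theorem sum_gcd (h Y : ℕ) (hY : 1 ≤ Y) (hh : h ≤ 2 * Y) :
    ∑ w ∈ WW h Y, ∑ w' ∈ WW h Y, (Nat.gcd (h + 2 * w) (h + 2 * w') : ℝ) /
      (((h + 2 * w : ℕ) : ℝ) * ((h + 2 * w' : ℕ) : ℝ)) ≤ 9 * (1 + Real.log (6 * Y)) := by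
  have hYr : (1 : ℝ) ≤ Y := by exact_mod_cast hY
  have hb : ∀ w ∈ WW h Y, 2 * Y ≤ h + 2 * w ∧ h + 2 * w ≤ 6 * Y := by
    intro w hw
    unfold WW at hw
    rw [Finset.mem_filter, Finset.mem_Ioc] at hw
    omega
  have h1 : ∑ w ∈ WW h Y, ∑ w' ∈ WW h Y, (Nat.gcd (h + 2 * w) (h + 2 * w') : ℝ) /
      (((h + 2 * w : ℕ) : ℝ) * ((h + 2 * w' : ℕ) : ℝ)) ≤
      ∑ w ∈ WW h Y, ∑ w' ∈ WW h Y, ∑ g ∈ Icc 1 (6 * Y), (if g ∣ h + 2 * w then (1 : ℝ) else 0) *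
      (if g ∣ h + 2 * w' then (1 : ℝ) else 0) * g / (4 * (Y : ℝ) ^ 2) := by
    refine Finset.sum_le_sum fun w hw => Finset.sum_le_sum fun w' hw' => ?_
    have a1 := hb w hw
    have a2 := hb w' hw'
    have a3 := gcd_le_sum (h + 2 * w) (h + 2 * w') (6 * Y) (by omega) a1.2
    rw [← Finset.sum_div]
    have c1 : (2 * Y : ℝ) ≤ ((h + 2 * w : ℕ) : ℝ) := by exact_mod_cast a1.1
    have c2 : (2 * Y : ℝ) ≤ ((h + 2 * w' : ℕ) : ℝ) := by exact_mod_cast a2.1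
    have c3 : 4 * (Y : ℝ) ^ 2 ≤ ((h + 2 * w : ℕ) : ℝ) * ((h + 2 * w' : ℕ) : ℝ) := by
      have := mul_le_mul c1 c2 (by positivity) (by positivity)
      calc 4 * (Y : ℝ) ^ 2 = (2 * Y) * (2 * Y) := by ring
        _ ≤ _ := this
    exact div_le_div₀ (Finset.sum_nonneg fun g _ => by positivity) a3 (by positivity) c3
  refine h1.trans ?_
  have h2 : ∑ w ∈ WW h Y, ∑ w' ∈ WW h Y, ∑ g ∈ Icc 1 (6 * Y),
      (if g ∣ h + 2 * w then (1 : ℝ) else 0) *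
      (if g ∣ h + 2 * w' then (1 : ℝ) else 0) * g / (4 * (Y : ℝ) ^ 2) =
      ∑ g ∈ Icc 1 (6 * Y), (∑ w ∈ WW h Y, (if g ∣ h + 2 * w then (1 : ℝ) else 0)) ^ 2 *
        (g / (4 * (Y : ℝ) ^ 2)) := by
    have e1 : ∀ w ∈ WW h Y, ∑ w' ∈ WW h Y, ∑ g ∈ Icc 1 (6 * Y),
        (if g ∣ h + 2 * w then (1 : ℝ) else 0) *
        (if g ∣ h + 2 * w' then (1 : ℝ) else 0) * g / (4 * (Y : ℝ) ^ 2) =
        ∑ g ∈ Icc 1 (6 * Y), (if g ∣ h + 2 * w then (1 : ℝ) else 0) *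
          (∑ w' ∈ WW h Y, (if g ∣ h + 2 * w' then (1 : ℝ) else 0)) * (g / (4 * (Y : ℝ) ^ 2)) := by
      intro w _
      rw [Finset.sum_comm]
      refine Finset.sum_congr rfl fun g _ => ?_
      rw [Finset.mul_sum, Finset.sum_mul]
      refine Finset.sum_congr rfl fun w' _ => ?_
      rw [mul_div_assoc]
    rw [Finset.sum_congr rfl e1, Finset.sum_comm]
    refine Finset.sum_congr rfl fun g _ => ?_
    rw [← Finset.sum_mul, ← Finset.sum_mul]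
    ring
  rw [h2]
  have h3 : ∀ g ∈ Icc 1 (6 * Y), (∑ w ∈ WW h Y, (if g ∣ h + 2 * w then (1 : ℝ) else 0)) ^ 2 *
        (g / (4 * (Y : ℝ) ^ 2)) ≤ 9 * ((g : ℝ)⁻¹) := by
    intro g hg
    rw [Finset.mem_Icc] at hg
    have hg0 : (0 : ℝ) < g := by exact_mod_cast (by omega : 0 < g)
    have h4 := card_div h Y g hg.1 hh
    have h5 : (∑ w ∈ WW h Y, (if g ∣ h + 2 * w then (1 : ℝ) else 0)) ^ 2 ≤
        ((6 * Y : ℝ) / g) ^ 2 :=
      pow_le_pow_left₀ (Finset.sum_nonneg fun w _ => by positivity) h4 2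
    calc _ ≤ ((6 * Y : ℝ) / g) ^ 2 * (g / (4 * (Y : ℝ) ^ 2)) :=
          mul_le_mul_of_nonneg_right h5 (by positivity)
      _ = 9 * ((g : ℝ)⁻¹) := by
          field_simp
          ring
  refine (Finset.sum_le_sum h3).trans ?_
  rw [← Finset.mul_sum]
  have h4 := harmonic_le_one_add_log (6 * Y)
  rw [harmonic_eq_sum_Icc] at h4
  push_cast at h4
  refine mul_le_mul_of_nonneg_left ?_ (by norm_num)
  exact h4

end Pool.Agent.Work.MP_34d05d_al.DO
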