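import Pool.Agent.Work.MP_34d05d_al.DO.NTot

set_option autoImplicit false

/-!
# DO/NKS (size M): the sum of the local factors

κ(g) := (g/φ(g))²/g, X := H/(aM). PROOF.
(1) If g ∣ f k, g ≥ 1, then g = g₁ g₂ with g₁ := gcd(g, f) ∣ f and g₂ := g/g₁ ∣ k (Nat.Coprime.dvd_of_dvd_mul_left);
κ(g) ≤ κ(g₁) κ(g₂) (`mul_tot`). The map g ↦ (g₁, g₂) is injective; if g > 1 the pair is not (1,1); if g is z-rough so are
g₁, g₂. So KK z f k ≤ A B(k) - 1, with A := ∑_{g ∣ f} κ(g) and B(k) := ∑_{g ∣ k, z-rough} κ(g) (g = 1 included,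
κ(1) = 1) [k ≥ 1, f ≥ 1].
(2) A ≤ 1 + 4τ: for g ∣ f, g/φ(g) ≤ f/φ(f) ≤ 1 + τ ≤ 2 (`mono_tot`), so κ(g) ≤ 4/g, and ∑_{g | f, g > 1} 1/g ≤
f/φ(f) - 1 ≤ τ (`sum_inv_le`).
(3) For h ∈ HC fixed and h' ∈ HC different from h: aM divides |h - h'| (coprime moduli; M ≥ 1), k := |h-h'|/(aM) ≥ 1,
k ≤ X, and each k occurs at most twice. So ∑_{h'} (B(k) - 1) ≤ 2 ∑_{1 ≤ k ≤ X} ∑_{g | k, g > 1, rough} κ(g) =
2 ∑_{g > 1 rough} κ(g) ⌊X/g⌋ ≤ 2 X ∑_{g ≥ z} g^(-3/2) ≤ 2 X · 3/√z·(...) : κ(g) ≤ √g/g (`sq_rough`), rough and > 1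
implies g ≥ z, and ∑_{g ≥ z} g^(-3/2) ≤ 4/√z.
(4) The number of h' is ≤ 2X. ∑_{h'} KK ≤ ∑ (A B(k) - 1) = (A - 1) #h' + A ∑ (B(k) - 1) ≤ 4τ·2X + 5·8X/√z.
So ∑ ≤ (8τ + 40/√z) X.
(max h h' - min h h' = |h - h'| in ℕ.)
-/

namespace Pool.Agent.Work.MP_34d05d_al.DO

open Finset

private noncomputable def ka (g : ℕ) : ℝ := ((g : ℝ) / Nat.totient g) ^ 2 / g

open scoped Classical in
private noncomputable def kB (z k : ℕ) : ℝ := ∑ g ∈ k.divisors.filter (fun g => Rough z g), ka g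

private theorem ka_nonneg (g : ℕ) : 0 ≤ ka g := by
  unfold ka
  positivity

private theorem ka_one : ka 1 = 1 := by
  unfold ka
  simp

private theorem ka_mul {g g' : ℕ} (hg : 1 ≤ g) (hg' : 1 ≤ g') : ka (g * g') ≤ ka g * ka g' := by
  unfold ka
  have h1 := mul_tot g g' hg hg'
  have h0 : 0 ≤ ((g * g' : ℕ) : ℝ) / Nat.totient (g * g') := by positivity
  have h2 := pow_le_pow_left₀ h0 h1 2
  have hg0 : (0 : ℝ) < g := by exact_mod_cast hg
  have hg0' : (0 : ℝ) < g' := by exact_mod_cast hg'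
  calc (((g * g' : ℕ) : ℝ) / Nat.totient (g * g')) ^ 2 / ((g * g' : ℕ) : ℝ)
      ≤ (((g : ℝ) / Nat.totient g) * ((g' : ℝ) / Nat.totient g')) ^ 2 / ((g * g' : ℕ) : ℝ) := by
        apply div_le_div_of_nonneg_right h2
        positivity
    _ = _ := by
        push_cast
        rw [mul_pow, mul_div_mul_comm]

private theorem rough_one (z : ℕ) : Rough z 1 := by
  intro l hl h
  exact absurd (Nat.dvd_one.1 h) hl.one_lt.ne'

private theorem rough_dvd {z g g' : ℕ} (h : Rough z g) (hd : g' ∣ g) : Rough z g' :=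
  fun l hl h' => h l hl (h'.trans hd)

private theorem kB_ge {z k : ℕ} (hk : 1 ≤ k) : 1 ≤ kB z k := by
  classical
  unfold kB
  have h1 : (1 : ℕ) ∈ k.divisors.filter (fun g => Rough z g) := by
    rw [Finset.mem_filter, Nat.mem_divisors]
    exact ⟨⟨one_dvd _, by omega⟩, rough_one z⟩
  calc (1 : ℝ) = ka 1 := ka_one.symm
    _ ≤ _ := Finset.single_le_sum (f := ka) (fun g _ => ka_nonneg g) h1

private theorem ks_one {z f k : ℕ} (hf : 1 ≤ f) (hk : 1 ≤ k) :
    KK z f k ≤ (∑ g ∈ f.divisors, ka g) * kB z k - 1 := by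
  classical
  obtain ⟨e, he⟩ : ∃ e : ℕ → ℕ × ℕ, e = fun g => (Nat.gcd g f, g / Nat.gcd g f) := ⟨_, rfl⟩
  obtain ⟨S, hS⟩ : ∃ S : Finset ℕ, S = (f * k).divisors.filter (fun g => 1 < g ∧ Rough z g) :=
    ⟨_, rfl⟩
  have hSm : ∀ g, g ∈ S ↔ g ∣ f * k ∧ 1 < g ∧ Rough z g := by
    intro g
    rw [hS, Finset.mem_filter, Nat.mem_divisors]
    have : f * k ≠ 0 := by positivity
    tauto
  have hKK : KK z f k = ∑ g ∈ S, ka g := by
    unfold KK ka
    rw [hS]
  have heg : ∀ g, (e g).1 * (e g).2 = g := by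
    intro g
    rw [he]
    exact Nat.mul_div_cancel' (Nat.gcd_dvd_left g f)
  have hpos : ∀ g ∈ S, 1 ≤ (e g).1 ∧ 1 ≤ (e g).2 := by
    intro g hg
    have h1 := ((hSm g).1 hg).2.1
    have h2 := heg g
    constructor
    · by_contra h3
      have : (e g).1 = 0 := by omega
      rw [this, zero_mul] at h2
      omega
    · by_contra h3
      have : (e g).2 = 0 := by omega
      rw [this, mul_zero] at h2
      omega
  have hinj : Set.InjOn e (S : Set ℕ) := by
    intro g _ g' _ h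
    rw [← heg g, ← heg g', h]
  obtain ⟨P, hP⟩ : ∃ P : Finset (ℕ × ℕ),
      P = f.divisors ×ˢ (k.divisors.filter fun g => Rough z g) := ⟨_, rfl⟩
  have hsub : S.image e ⊆ P.erase (1, 1) := by
    intro p hp
    obtain ⟨g, hg, rfl⟩ := Finset.mem_image.1 hp
    obtain ⟨h1, h2, h3⟩ := (hSm g).1 hg
    obtain ⟨p1, p2⟩ := hpos g hg
    have h4 := heg g
    rw [Finset.mem_erase, hP, Finset.mem_product, Finset.mem_filter, Nat.mem_divisors,
      Nat.mem_divisors]
    refine ⟨?_, ⟨?_, by omega⟩, ⟨?_, by omega⟩, ?_⟩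
    · intro h5
      rw [h5] at h4
      omega
    · rw [he]
      exact Nat.gcd_dvd_right g f
    · have hd : 0 < Nat.gcd g f := Nat.gcd_pos_of_pos_right _ (by omega)
      have hc : Nat.Coprime (g / Nat.gcd g f) (f / Nat.gcd g f) := Nat.coprime_div_gcd_div_gcd hd
      have h5 : g / Nat.gcd g f ∣ (f / Nat.gcd g f) * k := by
        obtain ⟨g0, hg0⟩ := Nat.gcd_dvd_left g f
        obtain ⟨f0, hf0⟩ := Nat.gcd_dvd_right g f
        have e1 : g / Nat.gcd g f = g0 := by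
          rw [Nat.div_eq_iff_eq_mul_right hd (Nat.gcd_dvd_left g f)]
          exact hg0
        have e2 : f / Nat.gcd g f = f0 := by
          rw [Nat.div_eq_iff_eq_mul_right hd (Nat.gcd_dvd_right g f)]
          exact hf0
        rw [e1, e2]
        have h6 : Nat.gcd g f * g0 ∣ Nat.gcd g f * (f0 * k) := by
          rw [← mul_assoc, ← hf0, ← hg0]
          exact h1
        exact Nat.dvd_of_mul_dvd_mul_left hd h6
      rw [he]
      exact hc.dvd_of_dvd_mul_left h5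
    · apply rough_dvd h3
      exact ⟨(e g).1, by rw [mul_comm]; exact h4.symm⟩
  have h11 : ((1 : ℕ), (1 : ℕ)) ∈ P := by
    rw [hP, Finset.mem_product, Finset.mem_filter, Nat.mem_divisors, Nat.mem_divisors]
    exact ⟨⟨one_dvd _, by omega⟩, ⟨one_dvd _, by omega⟩, rough_one z⟩
  calc KK z f k = ∑ g ∈ S, ka g := hKK
    _ ≤ ∑ g ∈ S, ka (e g).1 * ka (e g).2 := by
        apply Finset.sum_le_sum
        intro g hg
        nth_rewrite 1 [← heg g]
        exact ka_mul (hpos g hg).1 (hpos g hg).2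
    _ = ∑ p ∈ S.image e, ka p.1 * ka p.2 := by
        rw [Finset.sum_image hinj]
    _ ≤ ∑ p ∈ P.erase (1, 1), ka p.1 * ka p.2 :=
        Finset.sum_le_sum_of_subset_of_nonneg hsub
          fun p _ _ => mul_nonneg (ka_nonneg _) (ka_nonneg _)
    _ = ∑ p ∈ P, ka p.1 * ka p.2 - 1 := by
        rw [← Finset.add_sum_erase P _ h11]
        simp only [ka_one]
        ring
    _ = _ := by
        rw [hP, Finset.sum_product, Finset.sum_mul]
        unfold kB
        simp only [Finset.mul_sum]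

private theorem ks_two {f : ℕ} {τ : ℝ} (hf : 1 ≤ f) (hτ1 : τ ≤ 1)
    (hφ : (f : ℝ) / Nat.totient f ≤ 1 + τ) : ∑ g ∈ f.divisors, ka g ≤ 1 + 4 * τ := by
  have h1 : (1 : ℕ) ∈ f.divisors := Nat.mem_divisors.2 ⟨one_dvd _, by omega⟩
  have h2 := sum_inv_le f hf
  rw [← Finset.add_sum_erase _ _ h1] at h2 ⊢
  rw [ka_one]
  have h3 : ∑ g ∈ f.divisors.erase 1, ka g ≤ ∑ g ∈ f.divisors.erase 1, 4 * (1 / (g : ℝ)) := by
    apply Finset.sum_le_sum
    intro g hg
    have hg' := (Nat.mem_divisors.1 (Finset.mem_of_mem_erase hg)).1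
    have hg1 : 1 ≤ g := Nat.pos_of_dvd_of_pos hg' (by omega)
    have h4 := (mono_tot g f hf hg').trans hφ
    have h5 : (g : ℝ) / Nat.totient g ≤ 2 := by linarith
    have h0 : 0 ≤ (g : ℝ) / Nat.totient g := by positivity
    have h6 : ((g : ℝ) / Nat.totient g) ^ 2 ≤ 4 := by nlinarith
    unfold ka
    rw [mul_one_div]
    exact div_le_div_of_nonneg_right h6 (by positivity)
  rw [← Finset.mul_sum] at h3
  have h7 : (1 : ℝ) / ((1 : ℕ) : ℝ) = 1 := by norm_num
  rw [h7] at h2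
  linarith

private theorem ks_tail {z : ℕ} (hz : 2 ≤ z) (n : ℕ) (hn : z ≤ n) :
    ∑ g ∈ Finset.Ico z n, 1 / ((g : ℝ) * Real.sqrt g) ≤
      2 / Real.sqrt ((z : ℝ) - 1) - 2 / Real.sqrt ((n : ℝ) - 1) := by
  induction n, hn using Nat.le_induction with
  | base => simp
  | succ n hn ih =>
    rw [Finset.sum_Ico_succ_top hn]
    have hn2 : (2 : ℝ) ≤ n := by exact_mod_cast hz.trans hn
    have e1 : ((n + 1 : ℕ) : ℝ) - 1 = n := by push_cast; ring
    rw [e1]
    have hs : 0 < Real.sqrt n := Real.sqrt_pos.2 (by linarith)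
    have ht : 0 < Real.sqrt ((n : ℝ) - 1) := Real.sqrt_pos.2 (by linarith)
    have hst : Real.sqrt ((n : ℝ) - 1) ≤ Real.sqrt n := Real.sqrt_le_sqrt (by linarith)
    have q1 : Real.sqrt n ^ 2 = n := Real.sq_sqrt (by linarith)
    have q2 : Real.sqrt ((n : ℝ) - 1) ^ 2 = n - 1 := Real.sq_sqrt (by linarith)
    have key : 1 / ((n : ℝ) * Real.sqrt n) ≤ 2 / Real.sqrt ((n : ℝ) - 1) - 2 / Real.sqrt n := by
      obtain ⟨s, hs'⟩ : ∃ s, s = Real.sqrt n := ⟨_, rfl⟩
      obtain ⟨t, ht'⟩ : ∃ t, t = Real.sqrt ((n : ℝ) - 1) := ⟨_, rfl⟩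
      rw [← hs'] at hs hst q1 ⊢
      rw [← ht'] at ht hst q2 ⊢
      have e2 : 2 / t - 2 / s = 2 * (s - t) / (t * s) := by
        field_simp
      rw [e2, ← q1, div_le_div_iff₀ (by positivity) (by positivity)]
      have e3 : (s - t) * (s + t) = 1 := by nlinarith
      have e4 : 1 ≤ (s - t) * (2 * s) := by nlinarith
      have e5 : t * s ≤ s * s := mul_le_mul_of_nonneg_right hst hs.le
      have e6 := mul_le_mul_of_nonneg_right e4 (by positivity : 0 ≤ s * s)
      nlinarith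
    linarith

private theorem ks_tail' {z : ℕ} (hz : 16 ≤ z) (n : ℕ) :
    ∑ g ∈ Finset.Icc z n, 1 / ((g : ℝ) * Real.sqrt g) ≤ 4 / Real.sqrt z := by
  have hz2 : (16 : ℝ) ≤ z := by exact_mod_cast hz
  have hs : 0 < Real.sqrt z := Real.sqrt_pos.2 (by linarith)
  by_cases h : z ≤ n
  · have e : Finset.Icc z n = Finset.Ico z (n + 1) := by
      ext g
      rw [Finset.mem_Icc, Finset.mem_Ico]
      omega
    rw [e]
    refine (ks_tail (by omega) (n + 1) (by omega)).trans ?_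
    have h1 : 0 ≤ 2 / Real.sqrt (((n + 1 : ℕ) : ℝ) - 1) := by positivity
    have h2 : Real.sqrt z / 2 ≤ Real.sqrt ((z : ℝ) - 1) := by
      apply Real.le_sqrt_of_sq_le
      rw [div_pow, Real.sq_sqrt (by linarith)]
      linarith
    have h3 : 2 / Real.sqrt ((z : ℝ) - 1) ≤ 2 / (Real.sqrt z / 2) :=
      div_le_div_of_nonneg_left (by norm_num) (by positivity) h2
    have h4 : 2 / (Real.sqrt z / 2) = 4 / Real.sqrt z := by
      field_simp
      norm_num
    linarith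
  · rw [Finset.Icc_eq_empty h, Finset.sum_empty]
    positivity

private theorem ks_ka {z g : ℕ} (hz : 16 ≤ z) (hg : 1 ≤ g) (hr : Rough z g) :
    ka g / g ≤ 1 / ((g : ℝ) * Real.sqrt g) := by
  have hg0 : (0 : ℝ) < g := by exact_mod_cast hg
  have hs : 0 < Real.sqrt g := Real.sqrt_pos.2 hg0
  have h1 := sq_rough z g hz hg hr
  unfold ka
  rw [div_div, div_le_div_iff₀ (by positivity) (by positivity)]
  have h2 : Real.sqrt g * Real.sqrt g = g := Real.mul_self_sqrt hg0.le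
  calc ((g : ℝ) / Nat.totient g) ^ 2 * (g * Real.sqrt g)
      ≤ Real.sqrt g * (g * Real.sqrt g) := mul_le_mul_of_nonneg_right h1 (by positivity)
    _ = 1 * ((g : ℝ) * g) := by
        nth_rewrite 4 [← h2]
        ring

private theorem ks_three {z K : ℕ} (hz : 16 ≤ z) :
    ∑ k ∈ Finset.Ioc 0 K, (kB z k - 1) ≤ K * (4 / Real.sqrt z) := by
  classical
  have h1 : ∀ k ∈ Finset.Ioc 0 K, kB z k - 1 =
      ∑ g ∈ (Finset.Icc 2 K).filter (fun g => Rough z g), if g ∣ k then ka g else 0 := by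
    intro k hk
    rw [Finset.mem_Ioc] at hk
    have h2 : (1 : ℕ) ∈ k.divisors.filter (fun g => Rough z g) := by
      rw [Finset.mem_filter, Nat.mem_divisors]
      exact ⟨⟨one_dvd _, by omega⟩, rough_one z⟩
    unfold kB
    rw [← Finset.add_sum_erase _ _ h2, ka_one, add_sub_cancel_left, ← Finset.sum_filter]
    apply Finset.sum_congr _ fun _ _ => rfl
    ext g
    rw [Finset.mem_erase, Finset.mem_filter, Nat.mem_divisors, Finset.mem_filter,
      Finset.mem_filter, Finset.mem_Icc]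
    constructor
    · rintro ⟨h3, ⟨h4, h5⟩, h6⟩
      have h7 : g ≤ k := Nat.le_of_dvd hk.1 h4
      have h8 : g ≠ 0 := by
        rintro rfl
        exact h5 (Nat.eq_zero_of_zero_dvd h4)
      exact ⟨⟨⟨by omega, by omega⟩, h6⟩, h4⟩
    · rintro ⟨⟨⟨h3, h4⟩, h5⟩, h6⟩
      exact ⟨by omega, ⟨h6, by omega⟩, h5⟩
  rw [Finset.sum_congr rfl h1, Finset.sum_comm]
  have h2 : ∀ g ∈ (Finset.Icc 2 K).filter (fun g => Rough z g),
      ∑ k ∈ Finset.Ioc 0 K, (if g ∣ k then ka g else 0) ≤ K * (1 / ((g : ℝ) * Real.sqrt g)) := by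
    intro g hg
    rw [Finset.mem_filter, Finset.mem_Icc] at hg
    have hg0 : (0 : ℝ) < g := by
      have : 0 < g := by omega
      exact_mod_cast this
    rw [← Finset.sum_filter, Finset.sum_const, Nat.Ioc_filter_dvd_card_eq_div, nsmul_eq_mul]
    have h3 : ((K / g : ℕ) : ℝ) ≤ (K : ℝ) / g := Nat.cast_div_le
    calc ((K / g : ℕ) : ℝ) * ka g ≤ (K : ℝ) / g * ka g :=
          mul_le_mul_of_nonneg_right h3 (ka_nonneg g)
      _ = K * (ka g / g) := by ring
      _ ≤ _ := mul_le_mul_of_nonneg_left (ks_ka hz (by omega) hg.2) (by positivity)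
  refine (Finset.sum_le_sum h2).trans ?_
  rw [← Finset.mul_sum]
  apply mul_le_mul_of_nonneg_left _ (by positivity)
  refine le_trans ?_ (ks_tail' hz K)
  apply Finset.sum_le_sum_of_subset_of_nonneg
  · intro g hg
    rw [Finset.mem_filter, Finset.mem_Icc] at hg
    rw [Finset.mem_Icc]
    refine ⟨?_, hg.1.2⟩
    have h3 : g ≠ 1 := by omega
    obtain ⟨l, hl, hlg⟩ := Nat.exists_prime_and_dvd h3
    exact (hg.2 l hl hlg).trans (Nat.le_of_dvd (by omega) hlg)
  · intro g _ _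
    positivity

private theorem ks_inj {S : Finset ℕ} {K : ℕ} (k : ℕ → ℕ) (F : ℕ → ℝ)
    (hF : ∀ i ∈ Finset.Ioc 0 K, 0 ≤ F i) (hk : ∀ h ∈ S, k h ∈ Finset.Ioc 0 K)
    (hinj : Set.InjOn k (S : Set ℕ)) : ∑ h ∈ S, F (k h) ≤ ∑ i ∈ Finset.Ioc 0 K, F i := by
  rw [← Finset.sum_image (f := F) hinj]
  apply Finset.sum_le_sum_of_subset_of_nonneg
  · intro i hi
    obtain ⟨h, hh, rfl⟩ := Finset.mem_image.1 hi
    exact hk h hh
  · intro i hi _
    exact hF i hi

theorem ks (z f a M H c : ℕ) (τ : ℝ) (hz : 16 ≤ z) (hf : 1 ≤ f) (ha : 1 ≤ a) (hM : 1 ≤ M)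
    (hcop : Nat.Coprime a M) (hτ0 : 0 ≤ τ) (hτ1 : τ ≤ 1)
    (hφ : (f : ℝ) / Nat.totient f ≤ 1 + τ) (h : ℕ) (hh : h ∈ HC a M H c) :
    ∑ h' ∈ (HC a M H c).erase h, KK z f ((max h h' - min h h') / (a * M)) ≤
      (8 * τ + 40 / Real.sqrt z) * ((H : ℝ) / (a * M)) := by
  classical
  obtain ⟨K, hK⟩ : ∃ K, K = H / (a * M) := ⟨_, rfl⟩
  have haM : 0 < a * M := by positivity
  have hKX : (K : ℝ) ≤ (H : ℝ) / (a * M) := by
    have := Nat.cast_div_le (α := ℝ) (m := H) (n := a * M)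
    rw [← hK] at this
    push_cast at this
    exact this
  have hA0 : 0 ≤ ∑ g ∈ f.divisors, ka g := Finset.sum_nonneg fun g _ => ka_nonneg g
  have hA := ks_two hf hτ1 hφ
  obtain ⟨k, hkd⟩ : ∃ k : ℕ → ℕ, k = fun h' => (max h h' - min h h') / (a * M) := ⟨_, rfl⟩
  obtain ⟨F, hFd⟩ : ∃ F : ℕ → ℝ, F = fun i => 4 * τ + 5 * (kB z i - 1) := ⟨_, rfl⟩
  have hF : ∀ i ∈ Finset.Ioc 0 K, 0 ≤ F i := by
    intro i hi
    rw [Finset.mem_Ioc] at hi
    have := kB_ge (z := z) (k := i) (by omega)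
    rw [hFd]
    simp only
    linarith
  have hmem : ∀ h' ∈ HC a M H c, H < h' ∧ h' ≤ 2 * H ∧ h' % M = 1 ∧ h' % a = c % a := by
    intro h' hh'
    unfold HC at hh'
    rw [Finset.mem_filter, Finset.mem_Ioc] at hh'
    tauto
  have hdv : ∀ x ∈ HC a M H c, ∀ y ∈ HC a M H c, x ≤ y → a * M ∣ y - x := by
    intro x hx y hy hxy
    obtain ⟨_, _, x3, x4⟩ := hmem x hx
    obtain ⟨_, _, y3, y4⟩ := hmem y hy
    apply hcop.mul_dvd_of_dvd_of_dvd
    · exact (Nat.modEq_iff_dvd' hxy).1 (x4.trans y4.symm)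
    · exact (Nat.modEq_iff_dvd' hxy).1 (x3.trans y3.symm)
  have hdvk : ∀ h' ∈ (HC a M H c).erase h, max h h' - min h h' = a * M * k h' := by
    intro h' hh'
    have hh2 := Finset.mem_of_mem_erase hh'
    have h1 : a * M ∣ max h h' - min h h' := by
      rcases le_total h h' with hle | hle
      · rw [max_eq_right hle, min_eq_left hle]
        exact hdv h hh h' hh2 hle
      · rw [max_eq_left hle, min_eq_right hle]
        exact hdv h' hh2 h hh hle
    rw [hkd]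
    exact (Nat.mul_div_cancel' h1).symm
  have hkm : ∀ h' ∈ (HC a M H c).erase h, k h' ∈ Finset.Ioc 0 K := by
    intro h' hh'
    have hne : h' ≠ h := Finset.ne_of_mem_erase hh'
    have hh2 := Finset.mem_of_mem_erase hh'
    obtain ⟨a1, a2, -, -⟩ := hmem h hh
    obtain ⟨b1, b2, -, -⟩ := hmem h' hh2
    have h1 := hdvk h' hh'
    have h2 : max h h' - min h h' ≤ H := by omega
    have h3 : 0 < max h h' - min h h' := by omega
    rw [Finset.mem_Ioc]
    constructor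
    · rcases Nat.eq_zero_or_pos (k h') with h4 | h4
      · rw [h4, mul_zero] at h1
        omega
      · exact h4
    · rw [hK, Nat.le_div_iff_mul_le haM, mul_comm, ← h1]
      exact h2
  have hterm : ∀ h' ∈ (HC a M H c).erase h,
      KK z f ((max h h' - min h h') / (a * M)) ≤ F (k h') := by
    intro h' hh'
    have h1 := Finset.mem_Ioc.1 (hkm h' hh')
    have h2 := ks_one (z := z) (f := f) (k := k h') hf (by omega)
    have h3 := kB_ge (z := z) (k := k h') (by omega)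
    have h4 : (max h h' - min h h') / (a * M) = k h' := by rw [hkd]
    rw [h4, hFd]
    simp only
    have h5 : (∑ g ∈ f.divisors, ka g) * kB z (k h') ≤ (1 + 4 * τ) * kB z (k h') :=
      mul_le_mul_of_nonneg_right hA (by linarith)
    have h6 : 4 * τ * (kB z (k h') - 1) ≤ 4 * (kB z (k h') - 1) := by
      apply mul_le_mul_of_nonneg_right _ (by linarith)
      linarith
    nlinarith
  refine (Finset.sum_le_sum hterm).trans ?_
  rw [← Finset.sum_filter_add_sum_filter_not _ (fun h' => h < h')]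
  have hU : ∑ h' ∈ ((HC a M H c).erase h).filter (fun h' => h < h'), F (k h') ≤
      ∑ i ∈ Finset.Ioc 0 K, F i := by
    apply ks_inj k F hF
    · intro h' hh'
      exact hkm h' (Finset.mem_filter.1 hh').1
    · intro x hx y hy hxy
      have hx := Finset.mem_filter.1 (Finset.mem_coe.1 hx)
      have hy := Finset.mem_filter.1 (Finset.mem_coe.1 hy)
      have h1 := hdvk x hx.1
      have h2 := hdvk y hy.1
      rw [hxy] at h1
      have h3 := hx.2
      have h4 := hy.2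
      omega
  have hL : ∑ h' ∈ ((HC a M H c).erase h).filter (fun h' => ¬ h < h'), F (k h') ≤
      ∑ i ∈ Finset.Ioc 0 K, F i := by
    apply ks_inj k F hF
    · intro h' hh'
      exact hkm h' (Finset.mem_filter.1 hh').1
    · intro x hx y hy hxy
      have hx := Finset.mem_filter.1 (Finset.mem_coe.1 hx)
      have hy := Finset.mem_filter.1 (Finset.mem_coe.1 hy)
      have h1 := hdvk x hx.1
      have h2 := hdvk y hy.1
      rw [hxy] at h1
      have h3 := hx.2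
      have h4 := hy.2
      omega
  have hsum : ∑ i ∈ Finset.Ioc 0 K, F i = K * (4 * τ) + 5 * ∑ i ∈ Finset.Ioc 0 K, (kB z i - 1) := by
    rw [hFd, Finset.sum_add_distrib, Finset.sum_const, Nat.card_Ioc, nsmul_eq_mul, Nat.sub_zero,
      Finset.mul_sum]
  have h3 := ks_three (z := z) (K := K) hz
  have hs : 0 ≤ 4 / Real.sqrt z := by positivity
  have h4 : (K : ℝ) * (4 / Real.sqrt z) ≤ (H : ℝ) / (a * M) * (4 / Real.sqrt z) :=
    mul_le_mul_of_nonneg_right hKX hs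
  have h5 : (K : ℝ) * (4 * τ) ≤ (H : ℝ) / (a * M) * (4 * τ) :=
    mul_le_mul_of_nonneg_right hKX (by linarith)
  have h6 : (8 * τ + 40 / Real.sqrt z) * ((H : ℝ) / (a * M)) =
      2 * ((H : ℝ) / (a * M) * (4 * τ)) + 10 * ((H : ℝ) / (a * M) * (4 / Real.sqrt z)) := by
    ring
  rw [h6]
  linarith

end Pool.Agent.Work.MP_34d05d_al.DO
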