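import Pool.Agent.Work.MP_34d05d_al.DO.NDiag
import Pool.Agent.Work.MP_34d05d_al.DO.NBtw

set_option autoImplicit false

/-!
# DO/NOff (size M): the pairs (h, w), (h', w') with h ≠ h' and a common divisor

β(h) := h/φ(h). Notation D = h + 2w, D' = h' + 2w', g0 = gcd(D, D'), k = |h - h'|/(aM) ≥ 1.
PROOFS.
`off_div`: a M ∣ h - h' (coprime moduli). If a g0 ∣ 3f(h - h') = ± 3 f a M k then g0 ∣ 3 f M k. g0 is z-rough
(`rough_DD`) and 3 and all prime factors... : every prime factor l of g0 is ≥ z, while M is a product of primes < z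
(hypothesis hM'), and 3 < z: so g0 is coprime to 3M, g0 ∣ f k.
`off_pair`: by `off_div` each nonzero term has g0 in G := {g ∣ f k, g > 1, rough}, and g0 ≤ D ≤ 6Y (h ≤ 2Y); D, D' ≥ 2Y:
the term is ≤ g0/(4Y²) ≤ ∑_{g ∈ G, g ≤ 6Y} [g ∣ D][g ∣ D'] g/(4Y²). Sum over w, w': W_g(h) W_g(h') g/(4Y²), W_g(h) :=
#{w ∈ WW h Y : g ∣ h + 2w}. If g² ≤ Y: `btw` (g is odd, being rough with z ≥ 3): ≤ (C₀²/4) β(h) β(h')
(g/φ g)²/(g log² Y). If g² > Y: W_g ≤ Y/g + 1 ≤ 7Y/g (the w in (Y,2Y] in one class mod g; g ≤ 6Y), the term is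
≤ 49/(4g) ≤ 13/√Y. Sum over g ∈ G: ≤ (C₀²/4) β β' KK z f k / log² Y + 13 #divisors(f k)/√Y.
-/

namespace Pool.Agent.Work.MP_34d05d_al.DO

open Finset

private theorem off_cls (h g Y : ℕ) (hg : Odd g) :
    (#((WW h Y).filter (fun w => g ∣ h + 2 * w)) : ℝ) ≤ (Y : ℝ) / g + 1 := by
  have hg0 : 0 < g := hg.pos
  have hgR : (0 : ℝ) < g := by exact_mod_cast hg0
  rcases Finset.eq_empty_or_nonempty ((WW h Y).filter (fun w => g ∣ h + 2 * w)) with h0 | ⟨w0, h0⟩
  · rw [h0, Finset.card_empty, Nat.cast_zero]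
    positivity
  · have hd0 := (Finset.mem_filter.mp h0).2
    have hsub : (WW h Y).filter (fun w => g ∣ h + 2 * w) ⊆
        (Ioc Y (2 * Y)).filter (fun w => w ≡ w0 [MOD g]) := by
      intro w hw
      rw [Finset.mem_filter] at hw ⊢
      refine ⟨(Finset.mem_filter.mp hw.1).1, ?_⟩
      have h1 : (g : ℤ) ∣ ((h + 2 * w0 : ℕ) : ℤ) - ((h + 2 * w : ℕ) : ℤ) :=
        dvd_sub (Int.natCast_dvd_natCast.mpr hd0) (Int.natCast_dvd_natCast.mpr hw.2)
      have h2 : ((h + 2 * w0 : ℕ) : ℤ) - ((h + 2 * w : ℕ) : ℤ) = 2 * ((w0 : ℤ) - w) := by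
        push_cast
        ring
      rw [h2] at h1
      have h3 : IsCoprime (g : ℤ) 2 := by
        have h4 : Nat.Coprime g 2 := (Nat.coprime_two_right).mpr hg
        exact_mod_cast Nat.isCoprime_iff_coprime.mpr h4
      exact (Nat.modEq_iff_dvd).mpr (h3.dvd_of_dvd_mul_left h1)
    have h1 : (#((WW h Y).filter (fun w => g ∣ h + 2 * w)) : ℤ) ≤
        max (⌊(((2 * Y : ℕ) : ℚ) - w0) / (g : ℚ)⌋ - ⌊((Y : ℚ) - w0) / (g : ℚ)⌋) 0 := by
      rw [← Nat.Ioc_filter_modEq_card Y (2 * Y) hg0 w0]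
      exact_mod_cast Finset.card_le_card hsub
    have h2 : (⌊(((2 * Y : ℕ) : ℚ) - w0) / (g : ℚ)⌋ : ℚ) ≤ (((2 * Y : ℕ) : ℚ) - w0) / (g : ℚ) :=
      Int.floor_le _
    have h3 : ((Y : ℚ) - w0) / (g : ℚ) - 1 < (⌊((Y : ℚ) - w0) / (g : ℚ)⌋ : ℚ) :=
      Int.sub_one_lt_floor _
    have h4 : (((2 * Y : ℕ) : ℚ) - w0) / (g : ℚ) - ((Y : ℚ) - w0) / (g : ℚ) = (Y : ℚ) / g := by
      rw [← sub_div]
      push_cast
      congr 1
      ring
    have h5 : (#((WW h Y).filter (fun w => g ∣ h + 2 * w)) : ℚ) ≤ (Y : ℚ) / g + 1 := by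
      have h6 : ((#((WW h Y).filter (fun w => g ∣ h + 2 * w)) : ℤ) : ℚ) ≤
          ((max (⌊(((2 * Y : ℕ) : ℚ) - w0) / (g : ℚ)⌋ - ⌊((Y : ℚ) - w0) / (g : ℚ)⌋) 0 : ℤ) : ℚ) := by
        exact_mod_cast h1
      have h7 : (0 : ℚ) ≤ (Y : ℚ) / g := by positivity
      rw [Int.cast_max, Int.cast_sub, Int.cast_zero] at h6
      have h8 : ((#((WW h Y).filter (fun w => g ∣ h + 2 * w)) : ℤ) : ℚ) =
          (#((WW h Y).filter (fun w => g ∣ h + 2 * w)) : ℚ) := by norm_cast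
      rw [h8] at h6
      refine h6.trans (max_le ?_ ?_)
      · linarith
      · linarith
    have h9 : (((#((WW h Y).filter (fun w => g ∣ h + 2 * w)) : ℚ) : ℚ) : ℝ) ≤
        (((Y : ℚ) / g + 1 : ℚ) : ℝ) := Rat.cast_le.mpr h5
    push_cast at h9
    exact h9

private theorem off_seven (h g Y : ℕ) (hg : Odd g) (hh : h ≤ 2 * Y) (hY : 1 ≤ Y) :
    (#((WW h Y).filter (fun w => g ∣ h + 2 * w)) : ℝ) ≤ 7 * (Y : ℝ) / g := by
  have hg0 : 0 < g := hg.pos
  have hgR : (0 : ℝ) < g := by exact_mod_cast hg0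
  by_cases h6 : g ≤ 6 * Y
  · refine (off_cls h g Y hg).trans ?_
    have h7 : (g : ℝ) ≤ 6 * Y := by exact_mod_cast h6
    rw [div_add_one hgR.ne', div_le_div_iff_of_pos_right hgR]
    linarith
  · have h0 : (WW h Y).filter (fun w => g ∣ h + 2 * w) = ∅ := by
      rw [Finset.filter_eq_empty_iff]
      intro w hw hd
      have h1 := Finset.mem_Ioc.mp (Finset.mem_filter.mp hw).1
      have h2 := Nat.le_of_dvd (by omega) hd
      omega
    rw [h0, Finset.card_empty, Nat.cast_zero]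
    positivity

private theorem off_k (a M H c h h' : ℕ) (hcop : Nat.Coprime a M) (hh : h ∈ HC a M H c)
    (hh' : h' ∈ HC a M H c) :
    max h h' - min h h' = a * M * ((max h h' - min h h') / (a * M)) := by
  obtain ⟨_, h1, h2⟩ := Finset.mem_filter.mp hh
  obtain ⟨_, h3, h4⟩ := Finset.mem_filter.mp hh'
  have e1 : ((max h h' - min h h' : ℕ) : ℤ) = |(h' : ℤ) - h| := by
    rw [Nat.cast_sub min_le_max, Nat.cast_max, Nat.cast_min, max_sub_min_eq_abs]
  have ea : a ∣ max h h' - min h h' := by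
    rw [← Int.natCast_dvd_natCast, e1, dvd_abs]
    exact (Nat.modEq_iff_dvd).mp (show h % a = h' % a by rw [h2, h4])
  have eM : M ∣ max h h' - min h h' := by
    rw [← Int.natCast_dvd_natCast, e1, dvd_abs]
    exact (Nat.modEq_iff_dvd).mp (show h % M = h' % M by rw [h1, h3])
  exact (Nat.mul_div_cancel' (hcop.mul_dvd_of_dvd_of_dvd ea eM)).symm

open Classical in
private theorem off_mem (z a f M H Y c h h' w w' : ℕ) (hz : 4 ≤ z) (hzY : z ≤ Y) (ha : 1 ≤ a)
    (hf : 1 ≤ f) (hcop : Nat.Coprime a M)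
    (hM : ∀ l : ℕ, l.Prime → l < z → l ∣ M) (hM' : ∀ l : ℕ, l.Prime → l ∣ M → l < z)
    (hh : h ∈ HC a M H c) (hh' : h' ∈ HC a M H c) (hne : h ≠ h') (hw : w ∈ WW h Y)
    (hg : 1 < Nat.gcd (h + 2 * w) (h' + 2 * w'))
    (hdiv : ((a * Nat.gcd (h + 2 * w) (h' + 2 * w') : ℕ) : ℤ) ∣
      3 * (f : ℤ) * h - 3 * (f : ℤ) * h') :
    Nat.gcd (h + 2 * w) (h' + 2 * w') ∈
      (f * ((max h h' - min h h') / (a * M))).divisors.filter (fun g => 1 < g ∧ Rough z g) := by
  have hk := off_k a M H c h h' hcop hh hh'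
  obtain ⟨k, hkd⟩ : ∃ k, k = (max h h' - min h h') / (a * M) := ⟨_, rfl⟩
  rw [← hkd] at hk ⊢
  obtain ⟨g, hgd⟩ : ∃ g, g = Nat.gcd (h + 2 * w) (h' + 2 * w') := ⟨_, rfl⟩
  rw [← hgd] at hg hdiv ⊢
  have hrough : Rough z g := by
    intro l hl hlg
    refine rough_DD z M h w Y hM (by omega) hzY (Finset.mem_filter.mp hh).2.1 hw l hl ?_
    rw [hgd] at hlg
    exact hlg.trans (Nat.gcd_dvd_left _ _)
  have hk0 : k ≠ 0 := by
    rintro rfl
    rw [mul_zero] at hk
    rcases Nat.lt_or_ge h h' with h1 | h1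
    · rw [max_eq_right h1.le, min_eq_left h1.le] at hk
      omega
    · rw [max_eq_left h1, min_eq_right h1] at hk
      omega
  have h3 : Nat.Coprime g 3 := by
    rw [Nat.coprime_comm, Nat.Prime.coprime_iff_not_dvd Nat.prime_three]
    intro h3
    have := hrough 3 Nat.prime_three h3
    omega
  have hgM : Nat.Coprime g M := by
    by_contra hcon
    rw [Nat.Prime.not_coprime_iff_dvd] at hcon
    obtain ⟨l, hl, h4, h5⟩ := hcon
    have h6 := hrough l hl h4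
    have h7 := hM' l hl h5
    omega
  have hd : a * g ∣ 3 * f * (a * M * k) := by
    have e1 : ((max h h' - min h h' : ℕ) : ℤ) = |(h : ℤ) - h'| := by
      rw [Nat.cast_sub min_le_max, Nat.cast_max, Nat.cast_min, max_sub_min_eq_abs']
    rw [← hk, ← Int.natCast_dvd_natCast]
    have e2 : ((3 * f * (max h h' - min h h') : ℕ) : ℤ) = |3 * (f : ℤ) * h - 3 * (f : ℤ) * h'| := by
      rw [← mul_sub, abs_mul, ← e1]
      push_cast
      rw [abs_of_nonneg (by positivity : (0 : ℤ) ≤ 3 * f)]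
    rw [e2, dvd_abs]
    exact hdiv
  have hd2 : g ∣ 3 * M * (f * k) := by
    have e1 : 3 * f * (a * M * k) = a * (3 * M * (f * k)) := by ring
    rw [e1] at hd
    exact Nat.dvd_of_mul_dvd_mul_left (by omega) hd
  have hd3 : g ∣ f * k := (Nat.Coprime.mul_right h3 hgM).dvd_of_dvd_mul_left hd2
  rw [Finset.mem_filter, Nat.mem_divisors]
  exact ⟨⟨hd3, Nat.mul_ne_zero (by omega) hk0⟩, hg, hrough⟩

private theorem off_swap {A B G : Finset ℕ} (u v : ℕ → ℕ → ℝ) (t : ℕ → ℝ) :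
    ∑ w ∈ A, ∑ w' ∈ B, ∑ g ∈ G, u g w * v g w' * t g =
      ∑ g ∈ G, (∑ w ∈ A, u g w) * (∑ w' ∈ B, v g w') * t g := by
  have e1 : ∑ w ∈ A, ∑ w' ∈ B, ∑ g ∈ G, u g w * v g w' * t g =
      ∑ w ∈ A, ∑ g ∈ G, ∑ w' ∈ B, u g w * v g w' * t g :=
    Finset.sum_congr rfl fun w _ => Finset.sum_comm
  rw [e1, Finset.sum_comm]
  refine Finset.sum_congr rfl fun g _ => ?_
  rw [Finset.sum_mul_sum, Finset.sum_mul]
  refine Finset.sum_congr rfl fun w _ => ?_
  rw [Finset.sum_mul]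

open Classical in
theorem off_pair : ∃ C₃ : ℝ, 0 < C₃ ∧ ∃ Y₀ : ℕ, ∀ z a f M H Y c h h' : ℕ, Y₀ ≤ Y → 4 ≤ z →
    z ≤ Y → 1 ≤ a → 1 ≤ f → 1 ≤ M → Nat.Coprime a M →
    (∀ l : ℕ, l.Prime → l < z → l ∣ M) → (∀ l : ℕ, l.Prime → l ∣ M → l < z) → H ≤ Y →
    h ∈ HC a M H c → h' ∈ HC a M H c → h ≠ h' →
    ∑ w ∈ WW h Y, ∑ w' ∈ WW h' Y,
      (if 1 < Nat.gcd (DD (h, w)) (DD (h', w')) then rho2 a f (h, w) (h', w') else 0) ≤
      C₃ * (((h : ℝ) / Nat.totient h) * ((h' : ℝ) / Nat.totient h') / Real.log Y ^ 2) *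
          KK z f ((max h h' - min h h') / (a * M)) +
        13 * (#(f * ((max h h' - min h h') / (a * M))).divisors : ℝ) / Real.sqrt Y := by
  obtain ⟨C₀, hC₀, Y₀, hbtw⟩ := btw
  refine ⟨C₀ ^ 2 / 4, by positivity, max Y₀ 2, ?_⟩
  intro z a f M H Y c h h' hY hz hzY ha hf hM1 hcop hM hM' hHY hh hh' hne
  have hY0 : Y₀ ≤ Y := le_trans (le_max_left _ _) hY
  have hY2 : 2 ≤ Y := le_trans (le_max_right _ _) hY
  have hYR : (2 : ℝ) ≤ Y := by exact_mod_cast hY2
  have hYpos : (0 : ℝ) < Y := by linarith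
  have hlog : 0 < Real.log Y := Real.log_pos (by linarith)
  have hsq : 0 < Real.sqrt Y := Real.sqrt_pos.mpr hYpos
  have hb := Finset.mem_Ioc.mp (Finset.mem_filter.mp hh).1
  have hb' := Finset.mem_Ioc.mp (Finset.mem_filter.mp hh').1
  obtain ⟨k, hkd⟩ : ∃ k, k = (max h h' - min h h') / (a * M) := ⟨_, rfl⟩
  obtain ⟨G, hG⟩ : ∃ G : Finset ℕ, G = (f * k).divisors.filter (fun g => 1 < g ∧ Rough z g) :=
    ⟨_, rfl⟩
  obtain ⟨t, ht⟩ : ∃ t : ℕ → ℝ, ∀ g, t g = (g : ℝ) / (4 * (Y : ℝ) ^ 2) := ⟨_, fun _ => rfl⟩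
  have ht0 : ∀ g, 0 ≤ t g := fun g => by
    rw [ht]
    positivity
  have hstep : ∀ w ∈ WW h Y, ∀ w' ∈ WW h' Y,
      (if 1 < Nat.gcd (DD (h, w)) (DD (h', w')) then rho2 a f (h, w) (h', w') else 0) ≤
        ∑ g ∈ G, (if g ∣ h + 2 * w then (1 : ℝ) else 0) * (if g ∣ h' + 2 * w' then (1 : ℝ) else 0) *
          t g := by
    intro w hw w' hw'
    have hnn : ∀ g ∈ G, 0 ≤ (if g ∣ h + 2 * w then (1 : ℝ) else 0) *
        (if g ∣ h' + 2 * w' then (1 : ℝ) else 0) * t g := by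
      intro g _
      refine mul_nonneg (mul_nonneg ?_ ?_) (ht0 g)
      · split_ifs <;> norm_num
      · split_ifs <;> norm_num
    by_cases hg : 1 < Nat.gcd (DD (h, w)) (DD (h', w'))
    · rw [if_pos hg]
      unfold rho2
      by_cases hdiv : ((a * Nat.gcd (DD (h, w)) (DD (h', w')) : ℕ) : ℤ) ∣
          3 * (f : ℤ) * (h, w).1 - 3 * (f : ℤ) * (h', w').1
      · rw [if_pos hdiv]
        have hmem := off_mem z a f M H Y c h h' w w' hz hzY ha hf hcop hM hM' hh hh' hne hw hg hdiv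
        rw [← hkd, ← hG] at hmem
        have h1 := Finset.single_le_sum hnn hmem
        refine le_trans ?_ h1
        rw [if_pos (Nat.gcd_dvd_left _ _), if_pos (Nat.gcd_dvd_right _ _), one_mul, one_mul, ht]
        have hw1 := Finset.mem_Ioc.mp (Finset.mem_filter.mp hw).1
        have hw1' := Finset.mem_Ioc.mp (Finset.mem_filter.mp hw').1
        have e1 : (2 * (Y : ℝ)) ≤ (DD (h, w) : ℝ) := by
          have : 2 * Y ≤ DD (h, w) := by
            show 2 * Y ≤ h + 2 * w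
            omega
          exact_mod_cast this
        have e2 : (2 * (Y : ℝ)) ≤ (DD (h', w') : ℝ) := by
          have : 2 * Y ≤ DD (h', w') := by
            show 2 * Y ≤ h' + 2 * w'
            omega
          exact_mod_cast this
        have e3 : 4 * (Y : ℝ) ^ 2 ≤ (DD (h, w) : ℝ) * (DD (h', w') : ℝ) := by
          have := mul_le_mul e1 e2 (by positivity) (by positivity)
          nlinarith
        exact div_le_div_of_nonneg_left (by positivity) (by positivity) e3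
      · rw [if_neg hdiv]
        exact Finset.sum_nonneg hnn
    · rw [if_neg hg]
      exact Finset.sum_nonneg hnn
  have h1 : ∑ w ∈ WW h Y, ∑ w' ∈ WW h' Y,
      (if 1 < Nat.gcd (DD (h, w)) (DD (h', w')) then rho2 a f (h, w) (h', w') else 0) ≤
      ∑ g ∈ G, (∑ w ∈ WW h Y, (if g ∣ h + 2 * w then (1 : ℝ) else 0)) *
        (∑ w' ∈ WW h' Y, (if g ∣ h' + 2 * w' then (1 : ℝ) else 0)) * t g := by
    rw [← off_swap]
    exact Finset.sum_le_sum fun w hw => Finset.sum_le_sum fun w' hw' => hstep w hw w' hw'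
  refine h1.trans ?_
  obtain ⟨A, hA⟩ : ∃ A : ℝ, A = C₀ ^ 2 / 4 * (((h : ℝ) / Nat.totient h) *
    ((h' : ℝ) / Nat.totient h') / Real.log Y ^ 2) := ⟨_, rfl⟩
  have hA0 : 0 ≤ A := by
    rw [hA]
    positivity
  have h2 : ∀ g ∈ G, (∑ w ∈ WW h Y, (if g ∣ h + 2 * w then (1 : ℝ) else 0)) *
        (∑ w' ∈ WW h' Y, (if g ∣ h' + 2 * w' then (1 : ℝ) else 0)) * t g ≤
      A * (((g : ℝ) / Nat.totient g) ^ 2 / g) + 13 / Real.sqrt Y := by
    intro g hg
    rw [hG, Finset.mem_filter] at hg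
    obtain ⟨_, hg1, hgr⟩ := hg
    have hgpos : (0 : ℝ) < g := by
      have : 0 < g := by omega
      exact_mod_cast this
    have hodd : Odd g := by
      rw [← Nat.not_even_iff_odd, even_iff_two_dvd]
      intro h2
      have := hgr 2 Nat.prime_two h2
      omega
    rw [Finset.sum_boole, Finset.sum_boole, ht]
    by_cases hgY : g ^ 2 ≤ Y
    · have e1 := hbtw h g Y hY0 (by omega) hodd hgY
      have e2 := hbtw h' g Y hY0 (by omega) hodd hgY
      have e3 : 0 ≤ 13 / Real.sqrt Y := by positivity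
      have e4 := mul_le_mul e1 e2 (by positivity) (by positivity)
      have e5 := mul_le_mul_of_nonneg_right e4 (ht0 g)
      rw [ht] at e5
      refine e5.trans (le_trans (le_of_eq ?_) (le_add_of_nonneg_right e3))
      rw [hA]
      have hφ : (0 : ℝ) < Nat.totient g := by
        exact_mod_cast Nat.totient_pos.mpr (by omega)
      have hφh : (0 : ℝ) < Nat.totient h := by
        exact_mod_cast Nat.totient_pos.mpr (by omega)
      have hφh' : (0 : ℝ) < Nat.totient h' := by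
        exact_mod_cast Nat.totient_pos.mpr (by omega)
      field_simp
    · have e1 := off_seven h g Y hodd (by omega) (by omega)
      have e2 := off_seven h' g Y hodd (by omega) (by omega)
      have e4 := mul_le_mul e1 e2 (by positivity) (by positivity)
      have e5 := mul_le_mul_of_nonneg_right e4 (ht0 g)
      rw [ht] at e5
      refine e5.trans ?_
      have e6 : 0 ≤ A * (((g : ℝ) / Nat.totient g) ^ 2 / g) := by positivity
      refine le_trans ?_ (le_add_of_nonneg_left e6)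
      have e7 : 7 * (Y : ℝ) / g * (7 * (Y : ℝ) / g) * ((g : ℝ) / (4 * (Y : ℝ) ^ 2)) =
          (49 / 4) / g := by
        field_simp
        ring
      rw [e7]
      have e8 : Real.sqrt Y < g := by
        rw [Real.sqrt_lt' hgpos]
        have : Y < g ^ 2 := by omega
        exact_mod_cast this
      rw [div_le_div_iff₀ hgpos hsq]
      nlinarith
  refine (Finset.sum_le_sum h2).trans ?_
  rw [Finset.sum_add_distrib, ← Finset.mul_sum, Finset.sum_const, nsmul_eq_mul]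
  have h3 : KK z f ((max h h' - min h h') / (a * M)) =
      ∑ g ∈ G, ((g : ℝ) / Nat.totient g) ^ 2 / g := by
    rw [hG, hkd]
    rfl
  rw [h3, ← hkd, ← hA]
  refine add_le_add le_rfl ?_
  have h4 : (#G : ℝ) ≤ (#(f * k).divisors : ℝ) := by
    rw [hG]
    exact_mod_cast Finset.card_filter_le _ _
  rw [mul_div_assoc', mul_comm]
  exact div_le_div_of_nonneg_right (by linarith) hsq.le

end Pool.Agent.Work.MP_34d05d_al.DO
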