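import Pool.Agent.Work.MP_34d05d_al.DO.NTot

set_option autoImplicit false

/-!
# DO/NPa (size M): choice of p and ν

PROOF. P := ⌊R^(1/9-δ)⌋, p a prime with P < p ≤ 2P (`Nat.exists_prime_lt_and_le_two_mul`), z' := ⌊(δ/4) log R⌋₊,
M' := primorial z' ≤ 4^z' (`primorial_le_4_pow`) ≤ R^(δ/2) (log 4 ≤ 2), which is ≤ P/16 for R large
(1/9 - δ > δ/2 as δ < 1/100). ν := M' (P / (8M')) (natural division): 4ν ≤ P/2 < p, ν ≥ P/8 - M' ≥ P/16 ≥ 1.
f = 1 + ν(p²-1), a = 1 + 2ν(p²-1) = 2f - 1. Every prime l ≤ z' divides M' ∣ ν, so it does not divide f or a: both are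
Rough z' (for R large z' ≥ z, z' ≥ 2): f, a odd; a coprime to primorial (z-1) (prime factors ≤ z-1 < z'); 3 ∤ a and
gcd(a, f) = 1 (a + 1 = 2f), so a is coprime to 3f. a ≤ 1 + 2(P/8)(4P²) ≤ 2P³ ≤ 2 R^(1/3-3δ), f ≤ a ≤ R.
`tot_rough` with X = R, z := z': f/φ(f), a/φ(a) ≤ exp(2 (log R/log z')/z') ≤ exp(16/(δ log z')) for R large
(z' ≥ (δ/8) log R), → 1: ≤ 1 + τ.
p^(4ν) ≥ 2^(4ν) ≥ exp(4 ν log 2) ≥ exp(P/6) ≥ exp((2R)^(1/9-ε)) for R large (δ < ε).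
-/

namespace Pool.Agent.Work.MP_34d05d_al.DO

open Finset

private theorem pa_nat (P z z' : ℕ) (hz' : z ≤ z') (h4 : 4 ≤ z') (hP : 16 * primorial z' ≤ P) :
    ∃ p ν a f : ℕ, p.Prime ∧ P < p ∧ p ≤ 2 * P ∧ 1 ≤ ν ∧ 4 * ν < p ∧ P < 16 * ν ∧
      f = 1 + ν * (p ^ 2 - 1) ∧ a = 1 + 2 * ν * (p ^ 2 - 1) ∧ Odd f ∧ Odd a ∧
      Nat.Coprime a (primorial (z - 1)) ∧ Nat.Coprime a (3 * f) ∧ Rough z' f ∧ Rough z' a ∧
      1 ≤ f ∧ f ≤ a ∧ a ≤ P ^ 3 := by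
  obtain ⟨M, hM⟩ : ∃ M, M = primorial z' := ⟨_, rfl⟩
  have hM1 : 1 ≤ M := by rw [hM]; exact primorial_pos z'
  rw [← hM] at hP
  obtain ⟨p, hp, hp1, hp2⟩ := Nat.exists_prime_lt_and_le_two_mul P (by omega)
  obtain ⟨q, hq⟩ : ∃ q, q = P / (8 * M) := ⟨_, rfl⟩
  have hq1 : 1 ≤ q := by
    rw [hq, Nat.le_div_iff_mul_le (by omega)]
    omega
  have hq2 : 8 * M * q ≤ P := by
    rw [hq]
    exact Nat.mul_div_le P (8 * M)
  have hq3 : P < 8 * M * q + 8 * M := by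
    rw [hq]
    exact Nat.lt_mul_div_succ P (by omega)
  obtain ⟨ν, hν⟩ : ∃ ν, ν = M * q := ⟨_, rfl⟩
  have hν8 : 8 * ν ≤ P := by rw [hν, ← mul_assoc]; exact hq2
  have hν16 : P < 16 * ν := by
    have e : 8 * M * q = 8 * ν := by rw [hν]; ring
    omega
  have hν1 : 1 ≤ ν := by omega
  obtain ⟨t, ht⟩ : ∃ t, t = p ^ 2 - 1 := ⟨_, rfl⟩
  have hrf : ∀ l : ℕ, l.Prime → l ∣ 1 + ν * t → z' < l := by
    intro l hl h1
    by_contra h2
    have h3 : l ∣ M := by rw [hM]; exact hl.dvd_primorial_iff.2 (not_lt.1 h2)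
    have h4 : l ∣ ν * t := by rw [hν, mul_assoc]; exact Dvd.dvd.mul_right h3 _
    have h5 : l ∣ 1 := (Nat.dvd_add_iff_left h4).2 h1
    exact hl.one_lt.ne' (Nat.dvd_one.1 h5)
  have hra : ∀ l : ℕ, l.Prime → l ∣ 1 + 2 * ν * t → z' < l := by
    intro l hl h1
    by_contra h2
    have h3 : l ∣ M := by rw [hM]; exact hl.dvd_primorial_iff.2 (not_lt.1 h2)
    have h4 : l ∣ 2 * ν * t := by
      have e : 2 * ν * t = M * (q * (2 * t)) := by rw [hν]; ring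
      rw [e]
      exact Dvd.dvd.mul_right h3 _
    have h5 : l ∣ 1 := (Nat.dvd_add_iff_left h4).2 h1
    exact hl.one_lt.ne' (Nat.dvd_one.1 h5)
  have hcop : ∀ n : ℕ, (∀ l : ℕ, l.Prime → l ∣ 1 + 2 * ν * t → ¬ l ∣ n) →
      Nat.Coprime (1 + 2 * ν * t) n := by
    intro n h
    exact Nat.coprime_of_dvd h
  refine ⟨p, ν, 1 + 2 * ν * t, 1 + ν * t, hp, hp1, hp2, hν1, by omega, hν16, by rw [ht],
    by rw [ht], ?_, ?_, ?_, ?_, fun l hl h => (hrf l hl h).le, fun l hl h => (hra l hl h).le,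
    by omega, ?_, ?_⟩
  · by_contra h
    rw [Nat.not_odd_iff_even, even_iff_two_dvd] at h
    have := hrf 2 Nat.prime_two h
    omega
  · exact ⟨ν * t, by ring⟩
  · apply hcop
    intro l hl h1 h2
    have h3 := hra l hl h1
    have h5 := hl.dvd_primorial_iff.1 h2
    omega
  · apply hcop
    intro l hl h1 h2
    have h3 := hra l hl h1
    rcases (Nat.Prime.dvd_mul hl).1 h2 with h5 | h5
    · have := Nat.le_of_dvd (by norm_num) h5
      omega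
    · have h6 : l ∣ 2 * (1 + ν * t) := Dvd.dvd.mul_left h5 _
      have e : 2 * (1 + ν * t) = (1 + 2 * ν * t) + 1 := by ring
      rw [e] at h6
      have h7 : l ∣ 1 := (Nat.dvd_add_iff_right h1).2 h6
      exact hl.one_lt.ne' (Nat.dvd_one.1 h7)
  · have : ν * t ≤ 2 * ν * t := by
      rw [mul_assoc]
      omega
    omega
  · have hp4 : 1 ≤ p ^ 2 := Nat.one_le_pow _ _ hp.pos
    have h1 : 1 + 2 * ν * t ≤ 2 * ν * p ^ 2 := by
      rw [ht, Nat.mul_sub, mul_one]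
      have h2 : 2 * ν ≤ 2 * ν * p ^ 2 := Nat.le_mul_of_pos_right _ hp4
      omega
    have h2 : p ^ 2 ≤ (2 * P) ^ 2 := Nat.pow_le_pow_left hp2 2
    calc 1 + 2 * ν * t ≤ 2 * ν * p ^ 2 := h1
      _ ≤ 2 * ν * (2 * P) ^ 2 := Nat.mul_le_mul_left _ h2
      _ = (8 * ν) * P ^ 2 := by ring
      _ ≤ P * P ^ 2 := Nat.mul_le_mul_right _ hν8
      _ = P ^ 3 := by ring

private theorem pa_ev (ε δ τ : ℝ) (z : ℕ) (hδ : 0 < δ) (hδε : δ < ε) (hε : ε ≤ 1 / 100) :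
    ∃ R₀ : ℕ, ∀ R : ℕ, R₀ ≤ R → (4 / δ) * (z + 7 + Real.exp (16 / (δ * Real.log (1 + τ)))) ≤
      Real.log R ∧ 17 ≤ (R : ℝ) ^ (1 / 9 - δ - δ / 2) ∧ 34 ≤ (R : ℝ) ^ (ε - δ) ∧ 1 ≤ (R : ℝ) := by
  have t0 : Filter.Tendsto (fun R : ℕ => (R : ℝ)) Filter.atTop Filter.atTop :=
    tendsto_natCast_atTop_atTop
  have t1 := (Real.tendsto_log_atTop.comp t0).eventually_ge_atTop
    ((4 / δ) * (z + 7 + Real.exp (16 / (δ * Real.log (1 + τ)))))
  have t2 := ((tendsto_rpow_atTop (show 0 < 1 / 9 - δ - δ / 2 by linarith)).comp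
    t0).eventually_ge_atTop 17
  have t3 := ((tendsto_rpow_atTop (show 0 < ε - δ by linarith)).comp
    t0).eventually_ge_atTop 34
  have t4 := t0.eventually_ge_atTop 1
  obtain ⟨R₀, hR₀⟩ := Filter.eventually_atTop.1 (((t1.and t2).and t3).and t4)
  refine ⟨R₀, fun R hR => ?_⟩
  obtain ⟨⟨⟨h1, h2⟩, h3⟩, h4⟩ := hR₀ R hR
  exact ⟨h1, h2, h3, h4⟩

theorem params (ε δ τ : ℝ) (z : ℕ) (hδ : 0 < δ) (hδε : δ < ε) (hε : ε ≤ 1 / 100) (hτ : 0 < τ)
    (hτ1 : τ ≤ 1) (hz : 4 ≤ z) : ∃ R₀ : ℕ, ∀ R : ℕ, R₀ ≤ R → ∃ p ν a f : ℕ, p.Prime ∧ 1 ≤ ν ∧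
      4 * ν < p ∧ f = 1 + ν * (p ^ 2 - 1) ∧ a = 1 + 2 * ν * (p ^ 2 - 1) ∧ Odd f ∧ Odd a ∧
      Nat.Coprime a (primorial (z - 1)) ∧ Nat.Coprime a (3 * f) ∧
      (f : ℝ) / Nat.totient f ≤ 1 + τ ∧ (a : ℝ) ≤ 2 * Nat.totient a ∧
      (a : ℝ) ≤ 2 * (R : ℝ) ^ (1 / 3 - 3 * δ) ∧ f ≤ a ∧
      Real.exp ((2 * R : ℝ) ^ (1 / 9 - ε)) ≤ (p : ℝ) ^ (4 * ν) := by
  obtain ⟨R₀, hR₀⟩ := pa_ev ε δ τ z hδ hδε hε
  refine ⟨R₀, fun R hR => ?_⟩
  obtain ⟨h1, h2, h3, h4⟩ := hR₀ R hR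
  obtain ⟨L, hL⟩ : ∃ L, L = 16 / (δ * Real.log (1 + τ)) := ⟨_, rfl⟩
  rw [← hL] at h1
  have hlogτ : 0 < Real.log (1 + τ) := Real.log_pos (by linarith)
  have hL0 : 0 < L := by rw [hL]; positivity
  have hR0 : (0 : ℝ) < R := by linarith
  obtain ⟨x, hx⟩ : ∃ x, x = δ / 4 * Real.log R := ⟨_, rfl⟩
  have hx1 : (z : ℝ) + 7 + Real.exp L ≤ x := by
    have h5 : (4 / δ) * (z + 7 + Real.exp L) * (δ / 4) ≤ Real.log R * (δ / 4) :=
      mul_le_mul_of_nonneg_right h1 (by positivity)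
    have e : (4 / δ) * (z + 7 + Real.exp L) * (δ / 4) = z + 7 + Real.exp L := by
      field_simp
    rw [e] at h5
    rw [hx]
    linarith
  have hz0 : (0 : ℝ) ≤ z := Nat.cast_nonneg z
  have hexp0 : 0 < Real.exp L := Real.exp_pos L
  have hx0 : 0 < x := by linarith
  obtain ⟨z', hz'⟩ : ∃ z', z' = ⌊x⌋₊ := ⟨_, rfl⟩
  have hz'x : (z' : ℝ) ≤ x := by rw [hz']; exact Nat.floor_le hx0.le
  have hz'x1 : x < z' + 1 := by rw [hz']; exact Nat.lt_floor_add_one x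
  have hzz : z ≤ z' := by
    rw [hz']
    apply Nat.le_floor
    linarith
  have hz4 : 4 ≤ z' := by
    rw [hz']
    apply Nat.le_floor
    push_cast
    linarith
  obtain ⟨Q, hQ⟩ : ∃ Q, Q = (R : ℝ) ^ (1 / 9 - δ) := ⟨_, rfl⟩
  have hprim : (primorial z' : ℝ) ≤ (R : ℝ) ^ (δ / 2) := by
    have a1 : ((primorial z' : ℕ) : ℝ) ≤ ((4 ^ z' : ℕ) : ℝ) := by
      exact_mod_cast primorial_le_four_pow z'
    refine a1.trans ?_
    push_cast
    have a2 : (4 : ℝ) ^ z' = Real.exp (z' * Real.log 4) := by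
      rw [Real.exp_nat_mul, Real.exp_log (by norm_num)]
    rw [a2, Real.rpow_def_of_pos hR0]
    apply Real.exp_le_exp.2
    have a3 : Real.log 4 ≤ 2 := by
      have e : (4 : ℝ) = 2 ^ 2 := by norm_num
      rw [e, Real.log_pow]
      have := Real.log_two_lt_d9
      push_cast
      linarith
    have a4 : 0 ≤ Real.log 4 := Real.log_nonneg (by norm_num)
    calc (z' : ℝ) * Real.log 4 ≤ x * 2 := mul_le_mul hz'x a3 a4 hx0.le
      _ = Real.log R * (δ / 2) := by rw [hx]; ring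
  have hRδ : 1 ≤ (R : ℝ) ^ (δ / 2) := Real.one_le_rpow h4 (by positivity)
  have hQ17 : 17 * (R : ℝ) ^ (δ / 2) ≤ Q := by
    have e : Q = (R : ℝ) ^ (1 / 9 - δ - δ / 2) * (R : ℝ) ^ (δ / 2) := by
      rw [hQ, ← Real.rpow_add hR0]
      congr 1
      ring
    rw [e]
    exact mul_le_mul_of_nonneg_right h2 (by positivity)
  obtain ⟨P, hPd⟩ : ∃ P, P = ⌊Q⌋₊ := ⟨_, rfl⟩
  have hQ0 : 0 < Q := by linarith
  have hPQ : (P : ℝ) ≤ Q := by rw [hPd]; exact Nat.floor_le hQ0.le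
  have hPQ1 : Q < P + 1 := by rw [hPd]; exact Nat.lt_floor_add_one Q
  have hP16 : 16 * primorial z' ≤ P := by
    rw [hPd]
    apply Nat.le_floor
    push_cast
    linarith
  obtain ⟨p, ν, a, f, hp, hp1, hp2, hν1, hν4, hν16, hf, ha, hfo, hao, hc1, hc2, hrf, hra, hf1,
    hfa, haP⟩ := pa_nat P z z' hzz hz4 hP16
  have haR : (a : ℝ) ≤ (R : ℝ) ^ (1 / 3 - 3 * δ) := by
    have a1 : (a : ℝ) ≤ (P : ℝ) ^ 3 := by exact_mod_cast haP
    have a2 : (P : ℝ) ^ 3 ≤ Q ^ 3 := pow_le_pow_left₀ (by positivity) hPQ 3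
    have a3 : Q ^ 3 = (R : ℝ) ^ (1 / 3 - 3 * δ) := by
      rw [hQ, ← Real.rpow_natCast, ← Real.rpow_mul hR0.le]
      congr 1
      push_cast
      ring
    rw [a3] at a2
    exact a1.trans a2
  have haR' : (a : ℝ) ≤ R := by
    refine haR.trans ?_
    calc (R : ℝ) ^ (1 / 3 - 3 * δ) ≤ (R : ℝ) ^ (1 : ℝ) :=
          Real.rpow_le_rpow_of_exponent_le h4 (by linarith)
      _ = R := Real.rpow_one _
  have hfR : (f : ℝ) ≤ R := by
    have : (f : ℝ) ≤ a := by exact_mod_cast hfa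
    linarith
  have hbound : Real.exp (2 * (Real.log R / Real.log z') / z') ≤ 1 + τ := by
    have b0 : Real.exp L ≤ z' := by linarith
    have b1 : L ≤ Real.log z' := by
      rw [Real.le_log_iff_exp_le (by linarith)]
      exact b0
    have b2 : Real.log R ≤ 8 / δ * z' := by
      have b3 : x ≤ 2 * z' := by linarith
      have b4 : Real.log R = 4 / δ * x := by
        rw [hx]
        field_simp
      rw [b4]
      calc 4 / δ * x ≤ 4 / δ * (2 * z') := mul_le_mul_of_nonneg_left b3 (by positivity)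
        _ = _ := by ring
    have hz'0 : (0 : ℝ) < z' := by linarith
    have b5 : 0 < Real.log z' := by linarith
    have b6 : 2 * (Real.log R / Real.log z') / z' ≤ Real.log (1 + τ) := by
      rw [div_le_iff₀ hz'0, mul_div_assoc', div_le_iff₀ b5]
      calc 2 * Real.log R ≤ 2 * (8 / δ * z') := by linarith
        _ = Real.log (1 + τ) * z' * L := by
          rw [hL]
          field_simp
          ring
        _ ≤ Real.log (1 + τ) * z' * Real.log z' :=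
          mul_le_mul_of_nonneg_left b1 (by positivity)
    calc Real.exp (2 * (Real.log R / Real.log z') / z') ≤ Real.exp (Real.log (1 + τ)) :=
          Real.exp_le_exp.2 b6
      _ = 1 + τ := Real.exp_log (by linarith)
  have hfφ : (f : ℝ) / Nat.totient f ≤ 1 + τ :=
    (tot_rough z' f R (by omega) hf1 hrf hfR).trans hbound
  have haφ : (a : ℝ) / Nat.totient a ≤ 1 + τ :=
    (tot_rough z' a R (by omega) (by omega) hra haR').trans hbound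
  refine ⟨p, ν, a, f, hp, hν1, hν4, hf, ha, hfo, hao, hc1, hc2, hfφ, ?_, ?_, hfa, ?_⟩
  · have hφ0 : (0 : ℝ) < Nat.totient a := by
      have := Nat.totient_pos.2 (show 0 < a by omega)
      exact_mod_cast this
    rw [div_le_iff₀ hφ0] at haφ
    calc (a : ℝ) ≤ (1 + τ) * Nat.totient a := haφ
      _ ≤ 2 * Nat.totient a := mul_le_mul_of_nonneg_right (by linarith) hφ0.le
  · have : 0 ≤ (R : ℝ) ^ (1 / 3 - 3 * δ) := by positivity
    linarith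
  · have c1 : (2 * R : ℝ) ^ (1 / 9 - ε) ≤ 2 * (R : ℝ) ^ (1 / 9 - ε) := by
      rw [Real.mul_rpow (by norm_num) hR0.le]
      apply mul_le_mul_of_nonneg_right _ (by positivity)
      calc (2 : ℝ) ^ (1 / 9 - ε) ≤ (2 : ℝ) ^ (1 : ℝ) :=
            Real.rpow_le_rpow_of_exponent_le (by norm_num) (by linarith)
        _ = 2 := Real.rpow_one _
    have c2 : 1 ≤ (R : ℝ) ^ (1 / 9 - ε) := Real.one_le_rpow h4 (by linarith)
    have c3 : 34 * (R : ℝ) ^ (1 / 9 - ε) ≤ Q := by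
      have e : Q = (R : ℝ) ^ (ε - δ) * (R : ℝ) ^ (1 / 9 - ε) := by
        rw [hQ, ← Real.rpow_add hR0]
        congr 1
        ring
      rw [e]
      exact mul_le_mul_of_nonneg_right h3 (by positivity)
    have c4 : 16 * (2 * R : ℝ) ^ (1 / 9 - ε) ≤ P := by linarith
    have c5 : (P : ℝ) ≤ 16 * ν := by
      have : P ≤ 16 * ν := by omega
      exact_mod_cast this
    have hp0 : (0 : ℝ) < p := by exact_mod_cast hp.pos
    have hp2' : (2 : ℝ) ≤ p := by exact_mod_cast hp.two_le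
    have c6 : 1 / 2 ≤ Real.log p := by
      have d1 := Real.log_two_gt_d9
      have d2 := Real.log_le_log (by norm_num) hp2'
      linarith
    have c7 : (p : ℝ) ^ (4 * ν) = Real.exp ((4 * ν : ℕ) * Real.log p) := by
      rw [Real.exp_nat_mul, Real.exp_log hp0]
    rw [c7]
    apply Real.exp_le_exp.2
    have hν0 : (0 : ℝ) ≤ ν := Nat.cast_nonneg ν
    calc (2 * R : ℝ) ^ (1 / 9 - ε) ≤ ν := by linarith
      _ ≤ (4 * ν) * (1 / 2) := by linarith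
      _ ≤ (4 * ν) * Real.log p := mul_le_mul_of_nonneg_left c6 (by positivity)
      _ = _ := by push_cast; ring

end Pool.Agent.Work.MP_34d05d_al.DO
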