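import Pool.Agent.Work.MP_34d05d_al.DO.NOff
import Pool.Agent.Work.MP_34d05d_al.DO.NBeta
import Pool.Agent.Work.MP_34d05d_al.DO.NKS

set_option autoImplicit false

/-!
# DO/NPair (size M): the second moment

X := H/(aM). PROOF. Every sum over x ∈ IX a M H Y c is the sum over h ∈ HC and w ∈ WW h Y (`sum_IX`).
∑_x ∑_y rho2 = (terms with gcd = 1) + (terms with gcd > 1) (the gcd is ≥ 1). Terms with gcd = 1: rho2 ≤ 1/(D D'), sum
≤ SS². Terms with gcd > 1 and equal first coordinates: rho2 ≤ gcd/(D D'), `sum_gcd` for each h (h ≤ 2H ≤ 2Y):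
≤ #HC · 9 (1 + log(6Y)). Different first coordinates h ≠ h': `off_pair`; sum over (h, h'):
∑ β(h) β(h') K(h,h') ≤ ∑ (β(h)² + β(h')²)/2 K = ∑_h β(h)² ∑_{h' ≠ h} K(h,h') (K is symmetric) ≤
160 X (8τ + 40/√z) X (`beta`, `ks`); the divisor term ≤ 13 #HC² T/√Y (1 ≤ |h-h'|/(aM) ≤ H).
C₁ := 160 · 40 · C₃: 8τ + 40/√z ≤ 40 (τ + 1/√z).
-/

namespace Pool.Agent.Work.MP_34d05d_al.DO

open Finset

theorem sum_IX (a M H Y c : ℕ) (F : ℕ × ℕ → ℝ) :
    ∑ x ∈ IX a M H Y c, F x = ∑ h ∈ HC a M H c, ∑ w ∈ WW h Y, F (h, w) := by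
  have e1 : ∀ h, WW h Y = (Ioc Y (2 * Y)).filter (fun w => (2 * h * w + 1).Prime) := fun _ => rfl
  unfold IX
  rw [Finset.sum_filter, Finset.sum_product]
  refine Finset.sum_congr rfl fun h _ => ?_
  rw [e1, Finset.sum_filter]

private theorem np_rho_le (a f : ℕ) (x y : ℕ × ℕ) :
    rho2 a f x y ≤ (Nat.gcd (DD x) (DD y) : ℝ) / ((DD x : ℝ) * (DD y : ℝ)) := by
  unfold rho2
  split_ifs
  · exact le_rfl
  · positivity

private theorem np_rho_nonneg (a f : ℕ) (x y : ℕ × ℕ) : 0 ≤ rho2 a f x y := by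
  unfold rho2
  split_ifs
  · positivity
  · exact le_rfl

private theorem np_k (a M H c h h' : ℕ) (hcop : Nat.Coprime a M) (hh : h ∈ HC a M H c)
    (hh' : h' ∈ HC a M H c) :
    max h h' - min h h' = a * M * ((max h h' - min h h') / (a * M)) := by
  obtain ⟨_, h1, h2⟩ := Finset.mem_filter.mp hh
  obtain ⟨_, h3, h4⟩ := Finset.mem_filter.mp hh'
  have e1 : ((max h h' - min h h' : ℕ) : ℤ) = |(h' : ℤ) - h| := by
    rw [Nat.cast_sub min_le_max, Nat.cast_max, Nat.cast_min, max_sub_min_eq_abs]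
  have ea : a ∣ max h h' - min h h' := by
    rw [← Int.natCast_dvd_natCast, e1, dvd_abs]
    exact (Nat.modEq_iff_dvd).mp (show h % a = h' % a by rw [h2, h4])
  have eM : M ∣ max h h' - min h h' := by
    rw [← Int.natCast_dvd_natCast, e1, dvd_abs]
    exact (Nat.modEq_iff_dvd).mp (show h % M = h' % M by rw [h1, h3])
  exact (Nat.mul_div_cancel' (hcop.mul_dvd_of_dvd_of_dvd ea eM)).symm

private theorem np_sym {A : Finset ℕ} (β : ℕ → ℝ) (K : ℕ → ℕ → ℝ)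
    (hK : ∀ h h', K h h' = K h' h) (hK0 : ∀ h h', 0 ≤ K h h') :
    ∑ h ∈ A, ∑ h' ∈ A, β h * β h' * K h h' ≤ ∑ h ∈ A, β h ^ 2 * ∑ h' ∈ A, K h h' := by
  have e1 : ∑ h ∈ A, ∑ h' ∈ A, β h' ^ 2 * K h h' = ∑ h ∈ A, ∑ h' ∈ A, β h ^ 2 * K h h' := by
    rw [Finset.sum_comm]
    refine Finset.sum_congr rfl fun h _ => Finset.sum_congr rfl fun h' _ => ?_
    rw [hK]
  have e2 : ∑ h ∈ A, ∑ h' ∈ A, β h * β h' * K h h' ≤
      ∑ h ∈ A, ∑ h' ∈ A, (1 / 2 * (β h ^ 2 * K h h') + 1 / 2 * (β h' ^ 2 * K h h')) := by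
    refine Finset.sum_le_sum fun h _ => Finset.sum_le_sum fun h' _ => ?_
    nlinarith [mul_nonneg (sq_nonneg (β h - β h')) (hK0 h h')]
  refine e2.trans (le_of_eq ?_)
  simp_rw [Finset.sum_add_distrib, ← Finset.mul_sum]
  simp_rw [Finset.mul_sum] at e1 ⊢
  rw [← Finset.sum_add_distrib]
  have e3 : ∑ i ∈ A, ∑ j ∈ A, 1 / 2 * (β i ^ 2 * K i j) = 1 / 2 * ∑ h ∈ A, ∑ h' ∈ A, β h ^ 2 * K h h' := by
    rw [Finset.mul_sum]
    refine Finset.sum_congr rfl fun h _ => ?_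
    rw [Finset.mul_sum]
  have e4 : ∑ i ∈ A, ∑ j ∈ A, 1 / 2 * (β j ^ 2 * K i j) = 1 / 2 * ∑ h ∈ A, ∑ h' ∈ A, β h' ^ 2 * K h h' := by
    rw [Finset.mul_sum]
    refine Finset.sum_congr rfl fun h _ => ?_
    rw [Finset.mul_sum]
  rw [Finset.sum_add_distrib, e3, e4, e1]
  ring

theorem pair_sum : ∃ C₁ : ℝ, 0 < C₁ ∧ ∃ Y₀ : ℕ, ∀ (z a f M H Y c : ℕ) (τ T : ℝ), Y₀ ≤ Y →
    16 ≤ z → z ≤ Y → 1 ≤ a → 1 ≤ f → 1 ≤ M → Nat.Coprime a M →
    (∀ l : ℕ, l.Prime → l < z → l ∣ M) → (∀ l : ℕ, l.Prime → l ∣ M → l < z) → 1 ≤ H → H ≤ Y →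
    0 ≤ τ → τ ≤ 1 → (f : ℝ) / Nat.totient f ≤ 1 + τ → (a : ℝ) ≤ 2 * Nat.totient a →
    (1 + Real.log (2 * H)) ^ 2 ≤ (H : ℝ) / (a * M) →
    (∀ k : ℕ, 1 ≤ k → k ≤ H → (#(f * k).divisors : ℝ) ≤ T) →
    ∑ x ∈ IX a M H Y c, ∑ y ∈ IX a M H Y c, rho2 a f x y ≤
      SS a M H Y c ^ 2 + 9 * #(HC a M H c) * (1 + Real.log (6 * Y)) +
        C₁ * (τ + 1 / Real.sqrt z) * ((H : ℝ) / (a * M)) ^ 2 / Real.log Y ^ 2 +
        13 * (#(HC a M H c) : ℝ) ^ 2 * T / Real.sqrt Y := by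
  obtain ⟨C₃, hC₃, Y₀, hoff⟩ := off_pair
  refine ⟨6400 * C₃, by positivity, max Y₀ 2, ?_⟩
  intro z a f M H Y c τ T hY hz hzY ha hf hM1 hcop hM hM' hH1 hHY hτ0 hτ1 hφ haφ hlog hT
  have hY0 : Y₀ ≤ Y := le_trans (le_max_left _ _) hY
  have hY2 : 2 ≤ Y := le_trans (le_max_right _ _) hY
  have hYR : (2 : ℝ) ≤ Y := by exact_mod_cast hY2
  have hYpos : (0 : ℝ) < Y := by linarith
  have hL : 0 < Real.log Y := Real.log_pos (by linarith)
  have hsq : 0 < Real.sqrt Y := Real.sqrt_pos.mpr hYpos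
  have hT0 : 0 ≤ T := le_trans (Nat.cast_nonneg _) (hT 1 le_rfl hH1)
  obtain ⟨β, hβ⟩ : ∃ β : ℕ → ℝ, ∀ h : ℕ, β h = (h : ℝ) / Nat.totient h := ⟨_, fun _ => rfl⟩
  obtain ⟨K, hK⟩ : ∃ K : ℕ → ℕ → ℝ, ∀ h h' : ℕ, K h h' =
      if h' = h then 0 else KK z f ((max h h' - min h h') / (a * M)) := ⟨_, fun _ _ => rfl⟩
  have hKK0 : ∀ k, 0 ≤ KK z f k := by
    intro k
    unfold KK
    exact Finset.sum_nonneg fun g _ => by positivity
  have hK0 : ∀ h h', 0 ≤ K h h' := by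
    intro h h'
    rw [hK]
    split_ifs
    · exact le_rfl
    · exact hKK0 _
  have hKs : ∀ h h', K h h' = K h' h := by
    intro h h'
    rw [hK, hK, max_comm h h', min_comm h h']
    by_cases e : h' = h
    · rw [if_pos e, if_pos e.symm]
    · rw [if_neg e, if_neg (Ne.symm e)]
  obtain ⟨S, hS⟩ : ∃ S : ℕ → ℝ, ∀ h : ℕ, S h = ∑ w ∈ WW h Y, 1 / (DD (h, w) : ℝ) :=
    ⟨_, fun _ => rfl⟩
  have hS0 : ∀ h, 0 ≤ S h := by
    intro h
    rw [hS]
    exact Finset.sum_nonneg fun w _ => by positivity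
  have hlog6 : 0 ≤ Real.log (6 * Y) := Real.log_nonneg (by linarith)
  have hkey : ∀ h ∈ HC a M H c, ∀ h' ∈ HC a M H c,
      ∑ w ∈ WW h Y, ∑ w' ∈ WW h' Y, rho2 a f (h, w) (h', w') ≤
        S h * S h' + (if h' = h then 9 * (1 + Real.log (6 * Y)) else 0) +
          C₃ / Real.log Y ^ 2 * (β h * β h' * K h h') + 13 * T / Real.sqrt Y := by
    intro h hh h' hh'
    have hb := Finset.mem_Ioc.mp (Finset.mem_filter.mp hh).1
    have hb' := Finset.mem_Ioc.mp (Finset.mem_filter.mp hh').1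
    have hSS : 0 ≤ S h * S h' := mul_nonneg (hS0 h) (hS0 h')
    have hββ : 0 ≤ β h * β h' := by
      rw [hβ, hβ]
      positivity
    have h3 : 0 ≤ C₃ / Real.log Y ^ 2 * (β h * β h' * K h h') :=
      mul_nonneg (by positivity) (mul_nonneg hββ (hK0 h h'))
    have h4 : 0 ≤ 13 * T / Real.sqrt Y := by positivity
    by_cases e : h' = h
    · subst e
      rw [if_pos rfl]
      have h1 : ∑ w ∈ WW h' Y, ∑ w' ∈ WW h' Y, rho2 a f (h', w) (h', w') ≤
          9 * (1 + Real.log (6 * Y)) := by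
        refine le_trans ?_ (sum_gcd h' Y (by omega) (by omega))
        exact Finset.sum_le_sum fun w _ => Finset.sum_le_sum fun w' _ => np_rho_le a f _ _
      linarith
    · rw [if_neg e]
      have hne : h ≠ h' := fun h0 => e h0.symm
      have h1 : ∑ w ∈ WW h Y, ∑ w' ∈ WW h' Y, rho2 a f (h, w) (h', w') ≤
          ∑ w ∈ WW h Y, ∑ w' ∈ WW h' Y, (1 / (DD (h, w) : ℝ) * (1 / (DD (h', w') : ℝ)) +
            (if 1 < Nat.gcd (DD (h, w)) (DD (h', w')) then rho2 a f (h, w) (h', w') else 0)) := by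
        refine Finset.sum_le_sum fun w _ => Finset.sum_le_sum fun w' _ => ?_
        have hn : 0 ≤ 1 / (DD (h, w) : ℝ) * (1 / (DD (h', w') : ℝ)) := by positivity
        by_cases hg : 1 < Nat.gcd (DD (h, w)) (DD (h', w'))
        · rw [if_pos hg]
          linarith
        · rw [if_neg hg, add_zero, one_div_mul_one_div]
          refine (np_rho_le a f _ _).trans ?_
          refine div_le_div_of_nonneg_right ?_ (by positivity)
          have : Nat.gcd (DD (h, w)) (DD (h', w')) ≤ 1 := by omega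
          exact_mod_cast this
      have h2 : ∑ w ∈ WW h Y, ∑ w' ∈ WW h' Y, (1 / (DD (h, w) : ℝ) * (1 / (DD (h', w') : ℝ)) +
            (if 1 < Nat.gcd (DD (h, w)) (DD (h', w')) then rho2 a f (h, w) (h', w') else 0)) =
          S h * S h' + ∑ w ∈ WW h Y, ∑ w' ∈ WW h' Y,
            (if 1 < Nat.gcd (DD (h, w)) (DD (h', w')) then rho2 a f (h, w) (h', w') else 0) := by
        rw [hS, hS, Finset.sum_mul_sum, ← Finset.sum_add_distrib]
        refine Finset.sum_congr rfl fun w _ => ?_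
        rw [← Finset.sum_add_distrib]
      have h5 := hoff z a f M H Y c h h' hY0 (by omega) hzY ha hf hM1 hcop hM hM' hHY hh hh' hne
      have hkd := np_k a M H c h h' hcop hh hh'
      obtain ⟨k, hk⟩ : ∃ k, k = (max h h' - min h h') / (a * M) := ⟨_, rfl⟩
      rw [← hk] at h5 hkd
      have hmm : max h h' - min h h' ≤ H ∧ 1 ≤ max h h' - min h h' := by
        rcases Nat.lt_or_ge h h' with h1 | h1
        · rw [max_eq_right h1.le, min_eq_left h1.le]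
          omega
        · rw [max_eq_left h1, min_eq_right h1]
          omega
      have hk1 : 1 ≤ k := by
        rcases Nat.eq_zero_or_pos k with h0 | h0
        · rw [h0, mul_zero] at hkd
          omega
        · exact h0
      have hkH : k ≤ H := by
        have haM : 1 ≤ a * M := Nat.one_le_iff_ne_zero.mpr (Nat.mul_ne_zero (by omega) (by omega))
        have : 1 * k ≤ a * M * k := Nat.mul_le_mul_right k haM
        omega
      have h6 := hT k hk1 hkH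
      have h7 : 13 * (#(f * k).divisors : ℝ) / Real.sqrt Y ≤ 13 * T / Real.sqrt Y :=
        div_le_div_of_nonneg_right (by linarith) hsq.le
      have h8 : C₃ * (((h : ℝ) / Nat.totient h) * ((h' : ℝ) / Nat.totient h') /
          Real.log Y ^ 2) * KK z f k = C₃ / Real.log Y ^ 2 * (β h * β h' * K h h') := by
        rw [hK, if_neg e, ← hk, hβ, hβ]
        ring
      rw [h8] at h5
      rw [h2] at h1
      linarith
  have hsum : ∑ x ∈ IX a M H Y c, ∑ y ∈ IX a M H Y c, rho2 a f x y =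
      ∑ h ∈ HC a M H c, ∑ h' ∈ HC a M H c,
        ∑ w ∈ WW h Y, ∑ w' ∈ WW h' Y, rho2 a f (h, w) (h', w') := by
    rw [sum_IX a M H Y c fun x => ∑ y ∈ IX a M H Y c, rho2 a f x y]
    refine Finset.sum_congr rfl fun h _ => ?_
    have e1 : ∀ w ∈ WW h Y, ∑ y ∈ IX a M H Y c, rho2 a f (h, w) y =
        ∑ h' ∈ HC a M H c, ∑ w' ∈ WW h' Y, rho2 a f (h, w) (h', w') := fun w _ =>
      sum_IX a M H Y c fun y => rho2 a f (h, w) y
    exact (Finset.sum_congr rfl e1).trans Finset.sum_comm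
  have hSS : SS a M H Y c = ∑ h ∈ HC a M H c, S h := by
    unfold SS
    rw [sum_IX a M H Y c fun x => 1 / (DD x : ℝ)]
    exact Finset.sum_congr rfl fun h _ => (hS h).symm
  rw [hsum]
  refine (Finset.sum_le_sum fun h hh => Finset.sum_le_sum fun h' hh' => hkey h hh h' hh').trans ?_
  have hX0 : 0 ≤ (H : ℝ) / (a * M) := by positivity
  have t1 : ∑ h ∈ HC a M H c, ∑ h' ∈ HC a M H c, S h * S h' = SS a M H Y c ^ 2 := by
    rw [hSS, sq, Finset.sum_mul_sum]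
  have t2 : ∑ h ∈ HC a M H c, ∑ h' ∈ HC a M H c,
      (if h' = h then 9 * (1 + Real.log (6 * Y)) else 0) =
      9 * #(HC a M H c) * (1 + Real.log (6 * Y)) := by
    have : ∀ h ∈ HC a M H c, ∑ h' ∈ HC a M H c,
        (if h' = h then 9 * (1 + Real.log (6 * Y)) else 0) = 9 * (1 + Real.log (6 * Y)) := by
      intro h hh
      rw [Finset.sum_ite_eq', if_pos hh]
    rw [Finset.sum_congr rfl this, Finset.sum_const, nsmul_eq_mul]
    ring
  have t3 : ∑ h ∈ HC a M H c, ∑ h' ∈ HC a M H c, β h * β h' * K h h' ≤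
      6400 * (τ + 1 / Real.sqrt z) * ((H : ℝ) / (a * M)) ^ 2 := by
    refine (np_sym β K hKs hK0).trans ?_
    have u1 : ∀ h ∈ HC a M H c, ∑ h' ∈ HC a M H c, K h h' ≤
        (8 * τ + 40 / Real.sqrt z) * ((H : ℝ) / (a * M)) := by
      intro h hh
      refine le_trans (le_of_eq ?_) (ks z f a M H c τ hz hf ha hM1 hcop hτ0 hτ1 hφ h hh)
      rw [← Finset.add_sum_erase _ _ hh, hK, if_pos rfl, zero_add]
      refine Finset.sum_congr rfl fun h' hh' => ?_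
      rw [hK, if_neg (Finset.ne_of_mem_erase hh')]
    have u2 : ∑ h ∈ HC a M H c, β h ^ 2 * ∑ h' ∈ HC a M H c, K h h' ≤
        ∑ h ∈ HC a M H c, β h ^ 2 * ((8 * τ + 40 / Real.sqrt z) * ((H : ℝ) / (a * M))) :=
      Finset.sum_le_sum fun h hh => mul_le_mul_of_nonneg_left (u1 h hh) (sq_nonneg _)
    refine u2.trans ?_
    rw [← Finset.sum_mul]
    have u3 : ∑ h ∈ HC a M H c, β h ^ 2 ≤ 160 * ((H : ℝ) / (a * M)) := by
      have := beta a M H c ha hM1 hcop hH1 haφ hlog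
      simp_rw [hβ]
      exact this
    have u4 : 0 ≤ (8 * τ + 40 / Real.sqrt z) * ((H : ℝ) / (a * M)) := by positivity
    refine (mul_le_mul_of_nonneg_right u3 u4).trans ?_
    have u5 : 40 / Real.sqrt z = 40 * (1 / Real.sqrt z) := by ring
    have u6 : 0 ≤ 1 / Real.sqrt (z : ℝ) := by positivity
    have u7 : 160 * ((H : ℝ) / (a * M)) * ((8 * τ + 40 / Real.sqrt z) * ((H : ℝ) / (a * M))) =
        160 * (8 * τ + 40 * (1 / Real.sqrt z)) * ((H : ℝ) / (a * M)) ^ 2 := by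
      rw [u5]
      ring
    rw [u7]
    refine mul_le_mul_of_nonneg_right ?_ (sq_nonneg _)
    linarith
  have t4 : ∑ h ∈ HC a M H c, ∑ h' ∈ HC a M H c, 13 * T / Real.sqrt Y =
      13 * (#(HC a M H c) : ℝ) ^ 2 * T / Real.sqrt Y := by
    rw [Finset.sum_const, Finset.sum_const, nsmul_eq_mul, nsmul_eq_mul]
    ring
  simp only [Finset.sum_add_distrib]
  rw [t1, t2, t4]
  have t5 : ∑ h ∈ HC a M H c, ∑ h' ∈ HC a M H c,
      C₃ / Real.log Y ^ 2 * (β h * β h' * K h h') ≤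
      6400 * C₃ * (τ + 1 / Real.sqrt z) * ((H : ℝ) / (a * M)) ^ 2 / Real.log Y ^ 2 := by
    have v1 : ∑ h ∈ HC a M H c, ∑ h' ∈ HC a M H c,
        C₃ / Real.log Y ^ 2 * (β h * β h' * K h h') = C₃ / Real.log Y ^ 2 *
          ∑ h ∈ HC a M H c, ∑ h' ∈ HC a M H c, β h * β h' * K h h' := by
      rw [Finset.mul_sum]
      refine Finset.sum_congr rfl fun h _ => ?_
      rw [Finset.mul_sum]
    rw [v1]
    refine (mul_le_mul_of_nonneg_left t3 (by positivity)).trans (le_of_eq ?_)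
    ring
  linarith

end Pool.Agent.Work.MP_34d05d_al.DO
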