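import Pool.Agent.Work.MP_34d05d_al.DO.NPa
import Pool.Agent.Work.MP_34d05d_al.DO.NCov
import Pool.Agent.Work.MP_f2148a_nt.DivisorBound

set_option autoImplicit false

/-!
# DO/NPb (size M): the covering theorem

PROOF. Take C from `cover_fixed`. Choose z ≥ 16 and τ ∈ (0,1] with C (τ + 1/√z) ≤ η/8; M := primorial (z-1) (its prime
divisors are exactly the primes < z; M ≥ 2, even). δ := ε/2, θ := δ; C', Y₀ from `cover_fixed`; p, ν, a, f from `params`.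
H := ⌊R^(1/3-2δ)⌋, Y := ⌊R^(1/3-δ)⌋, T := A R^(1/100), A from `exists_card_divisors_le (1/100)`
(MP_f2148a_nt/DivisorBound; f k ≤ 2R^(1/3) R^(1/3) ≤ R). For R large: 2aM ≤ H (a ≤ 2R^(1/3-3δ)); H ≤ Y^(1-θ)
((1/3-δ)(1-δ) > 1/3-2δ); (1+log(2H))² ≤ H/(aM) (≥ R^δ/(4M)); and the five error terms are each ≤ (η/8) R:
(1+log 6Y) log² Y · aM/H ≤ C log³R R^(-δ) 8M; T log²Y/√Y ≤ A R^(1/100) log²R · 2 R^(-1/7); C' M/log²Y → 0;
144 a Y² ≤ 288 R^(1-5δ).
Each covered r ∈ (R,2R] is represented: (h,w) ∈ IX with a(h+2w) ∣ 2r - 3fh. 3fh ≤ 3·2R^(1/3)·2R^(1/3) < 2R, so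
2r - 3fh = a(h+2w)N with N ≥ 1; h is odd (h % M = 1, M even), f odd, so 2r - 3fh is odd and N is odd.
-/

namespace Pool.Agent.Work.MP_34d05d_al.DO

open Finset

private theorem pb_ev (δ B B' B3 : ℝ) (hδ : 0 < δ) :
    ∃ R₀ : ℕ, ∀ R : ℕ, R₀ ≤ R → (1 : ℝ) ≤ R ∧ Real.log R ≤ (R : ℝ) ^ (δ / 8) ∧
      B ≤ (R : ℝ) ^ (δ / 8) ∧ B' ≤ (R : ℝ) ^ (1 / 20 : ℝ) ∧ B3 ≤ Real.log R := by
  have t0 : Filter.Tendsto (fun R : ℕ => (R : ℝ)) Filter.atTop Filter.atTop :=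
    tendsto_natCast_atTop_atTop
  have t1 := t0.eventually_ge_atTop 1
  have t2 : ∀ᶠ R : ℕ in Filter.atTop, Real.log R ≤ (R : ℝ) ^ (δ / 8) := by
    have h := (isLittleO_log_rpow_atTop (show 0 < δ / 8 by positivity)).bound
      (show (0 : ℝ) < 1 by norm_num)
    have h2 := t0.eventually h
    filter_upwards [h2, t1] with R h3 h4
    rw [one_mul, Real.norm_of_nonneg (Real.log_nonneg h4),
      Real.norm_of_nonneg (by positivity)] at h3
    exact h3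
  have t3 := ((tendsto_rpow_atTop (show 0 < δ / 8 by positivity)).comp
    t0).eventually_ge_atTop B
  have t4 := ((tendsto_rpow_atTop (show (0 : ℝ) < 1 / 20 by norm_num)).comp
    t0).eventually_ge_atTop B'
  have t5 := (Real.tendsto_log_atTop.comp t0).eventually_ge_atTop B3
  obtain ⟨R₀, hR₀⟩ := Filter.eventually_atTop.1 ((((t1.and t2).and t3).and t4).and t5)
  refine ⟨R₀, fun R hR => ?_⟩
  obtain ⟨⟨⟨⟨h1, h2⟩, h3⟩, h4⟩, h5⟩ := hR₀ R hR
  exact ⟨h1, h2, h3, h4, h5⟩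

private theorem pb_rep {a f M H Y c r R p ν : ℕ} (hM2 : 2 ∣ M) (hfo : Odd f)
    (hf : f = 1 + ν * (p ^ 2 - 1)) (ha : a = 1 + 2 * ν * (p ^ 2 - 1)) (hr : R < r)
    (hfh : 3 * f * (2 * H) < 2 * R) (h : Cov a f M H Y c r) :
    ∃ h w N : ℕ, Odd h ∧ (2 * h * w + 1).Prime ∧ Odd N ∧
      2 * r = 3 * (1 + ν * (p ^ 2 - 1)) * h + (1 + 2 * ν * (p ^ 2 - 1)) * (h + 2 * w) * N := by
  obtain ⟨x, hx, hd⟩ := h
  unfold IX at hx
  rw [Finset.mem_filter, Finset.mem_product] at hx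
  obtain ⟨⟨hx1, hx2⟩, hx3⟩ := hx
  unfold HC at hx1
  rw [Finset.mem_filter, Finset.mem_Ioc] at hx1
  obtain ⟨⟨hx4, hx5⟩, hx6, -⟩ := hx1
  have hho : Odd x.1 := by
    obtain ⟨M', rfl⟩ := hM2
    rw [Nat.odd_iff]
    have h1 := Nat.div_add_mod x.1 (2 * M')
    rw [hx6] at h1
    have h2 : 2 * M' * (x.1 / (2 * M')) = 2 * (M' * (x.1 / (2 * M'))) := by ring
    omega
  obtain ⟨N, hN⟩ := hd
  have h3 : 3 * f * x.1 < 2 * r := by
    have h4 : 3 * f * x.1 ≤ 3 * f * (2 * H) := Nat.mul_le_mul_left _ hx5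
    omega
  have h3' : (0 : ℤ) < 2 * (r : ℤ) - 3 * (f : ℤ) * x.1 := by
    have : ((3 * f * x.1 : ℕ) : ℤ) < ((2 * r : ℕ) : ℤ) := by exact_mod_cast h3
    push_cast at this
    linarith
  rw [hN] at h3'
  have hN0 : 0 < N := by
    by_contra hneg
    push Not at hneg
    have : ((a * DD x : ℕ) : ℤ) * N ≤ 0 := mul_nonpos_of_nonneg_of_nonpos (by positivity) hneg
    linarith
  obtain ⟨n, rfl⟩ := Int.eq_ofNat_of_zero_le hN0.le
  have hN2 : 2 * r = 3 * f * x.1 + a * DD x * n := by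
    have : ((2 * r : ℕ) : ℤ) = ((3 * f * x.1 + a * DD x * n : ℕ) : ℤ) := by
      push_cast
      push_cast at hN
      linarith
    exact_mod_cast this
  have hno : Odd n := by
    by_contra hne
    rw [Nat.not_odd_iff_even] at hne
    have h5 : Odd (3 * f * x.1) := ((by decide : Odd 3).mul hfo).mul hho
    have h6 : Even (a * DD x * n) := hne.mul_left _
    have h7 : Odd (3 * f * x.1 + a * DD x * n) := h5.add_even h6
    rw [← hN2] at h7
    exact (Nat.not_odd_iff_even.2 (even_two_mul r)) h7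
  refine ⟨x.1, x.2, n, hho, hx3, hno, ?_⟩
  rw [← hf, ← ha]
  exact hN2

private theorem pb_est (C C' A η δ : ℝ) (Y₀ z M R a f : ℕ) (hC : 0 < C) (hC' : 0 < C')
    (hA1 : 1 ≤ A) (hη : 0 < η) (hδ : 0 < δ) (hδ2 : δ ≤ 1 / 200) (hzR : (16 : ℝ) ≤ z)
    (hMpos : 0 < M) (haN : 0 < a) (hfa : f ≤ a)
    (haR : (a : ℝ) ≤ 2 * (R : ℝ) ^ (1 / 3 - 3 * δ)) (hR1 : (1 : ℝ) ≤ R)
    (hlogu : Real.log R ≤ (R : ℝ) ^ (δ / 8))
    (hB : 16 * M + 64 * C * M / η + 2304 / η + 3 ≤ (R : ℝ) ^ (δ / 8))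
    (hB' : 8 * C * A / η + Y₀ + z + 8 ≤ (R : ℝ) ^ (1 / 20 : ℝ))
    (hB3 : 128 * C' * M / η + 1 ≤ Real.log R) :
    ∃ H Y : ℕ, Y₀ ≤ Y ∧ z ≤ Y ∧ 2 * (a * M) ≤ H ∧ (H : ℝ) ≤ (Y : ℝ) ^ (1 - δ) ∧ a ≤ R ∧
      (1 + Real.log (2 * H)) ^ 2 ≤ (H : ℝ) / (a * M) ∧ (∀ k : ℕ, k ≤ H → (f : ℝ) * k ≤ R) ∧
      C * ((1 + Real.log (6 * Y)) * Real.log Y ^ 2 * (a * M / H)) ≤ η / 8 ∧
      C * (A * (R : ℝ) ^ (1 / 100 : ℝ) * Real.log Y ^ 2 / Real.sqrt Y) ≤ η / 8 ∧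
      C' * M / Real.log Y ^ 2 ≤ η / 8 ∧ 144 * (a : ℝ) * (Y : ℝ) ^ 2 ≤ η / 8 * R ∧
      3 * f * (2 * H) < 2 * R := by
  have hR0 : (0 : ℝ) < R := by linarith
  obtain ⟨u, hu⟩ : ∃ u, u = (R : ℝ) ^ (δ / 8) := ⟨_, rfl⟩
  obtain ⟨v, hv⟩ : ∃ v, v = (R : ℝ) ^ (1 / 20 : ℝ) := ⟨_, rfl⟩
  rw [← hu] at hlogu hB
  rw [← hv] at hB'
  have p1 : 0 < 64 * C * M / η := by positivity
  have p2 : 0 < 2304 / η := by positivity
  have p3 : 0 < 8 * C * A / η := by positivity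
  have p4 : (0 : ℝ) ≤ Y₀ := Nat.cast_nonneg _
  have p5 : 0 < 128 * C' * M / η := by positivity
  have hu3 : 3 ≤ u := by linarith
  have hv8 : 8 ≤ v := by linarith
  have hlog0 : 0 ≤ Real.log R := Real.log_nonneg hR1
  -- powers
  have hpow : ∀ {s t : ℝ}, s ≤ t → (R : ℝ) ^ s ≤ (R : ℝ) ^ t :=
    fun h => Real.rpow_le_rpow_of_exponent_le hR1 h
  have hu8 : (R : ℝ) ^ δ = u ^ 8 := by
    rw [hu, ← Real.rpow_natCast, ← Real.rpow_mul hR0.le]
    congr 1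
    push_cast
    ring
  obtain ⟨a0, ha0⟩ : ∃ a0, a0 = (R : ℝ) ^ (1 / 3 - 3 * δ) := ⟨_, rfl⟩
  obtain ⟨h0, hh0⟩ : ∃ h0, h0 = (R : ℝ) ^ (1 / 3 - 2 * δ) := ⟨_, rfl⟩
  obtain ⟨y0, hy0⟩ : ∃ y0, y0 = (R : ℝ) ^ (1 / 3 - δ) := ⟨_, rfl⟩
  rw [← ha0] at haR
  have ha0p : 0 < a0 := by rw [ha0]; positivity
  have hh0a : h0 = a0 * u ^ 8 := by
    rw [← hu8, hh0, ha0, ← Real.rpow_add hR0]
    congr 1
    ring
  have hah0 : 0 < a0 * h0 := by rw [hh0a]; positivity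
  have hh0p : 0 < h0 := by rw [hh0a]; positivity
  have hy0p : 0 < y0 := by rw [hy0]; positivity
  have hh0v : v ≤ h0 := by rw [hv, hh0]; exact hpow (by linarith)
  have hy0v : v ≤ y0 := by rw [hv, hy0]; exact hpow (by linarith)
  obtain ⟨H, hH⟩ : ∃ H, H = ⌊h0⌋₊ := ⟨_, rfl⟩
  obtain ⟨Y, hY⟩ : ∃ Y, Y = ⌊y0⌋₊ := ⟨_, rfl⟩
  have hH1 : (H : ℝ) ≤ h0 := by rw [hH]; exact Nat.floor_le (by linarith)
  have hH2 : h0 / 2 ≤ H := by
    have : h0 < H + 1 := by rw [hH]; exact Nat.lt_floor_add_one h0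
    linarith
  have hY1 : (Y : ℝ) ≤ y0 := by rw [hY]; exact Nat.floor_le (by linarith)
  have hY2 : y0 / 2 ≤ Y := by
    have : y0 < Y + 1 := by rw [hY]; exact Nat.lt_floor_add_one y0
    linarith
  have hH0 : (0 : ℝ) < H := by linarith
  have hY0 : (0 : ℝ) < Y := by linarith
  -- small powers compared with R
  have hRv : ∀ s : ℝ, s ≤ 19 / 20 → (R : ℝ) ^ s * v ≤ R := by
    intro s hs
    calc (R : ℝ) ^ s * v = (R : ℝ) ^ (s + 1 / 20) := by rw [hv, Real.rpow_add hR0]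
      _ ≤ (R : ℝ) ^ (1 : ℝ) := hpow (by linarith)
      _ = R := Real.rpow_one _
  have hyR : y0 ≤ R := by
    have h1 := hRv (1 / 3 - δ) (by linarith)
    rw [← hy0] at h1
    exact (le_mul_of_one_le_right (by linarith) (by linarith)).trans h1
  have hhR : h0 ≤ R := by
    have h1 := hRv (1 / 3 - 2 * δ) (by linarith)
    rw [← hh0] at h1
    exact (le_mul_of_one_le_right (by linarith) (by linarith)).trans h1
  have haR' : 8 * a0 ≤ R := by
    have h1 := hRv (1 / 3 - 3 * δ) (by linarith)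
    rw [← ha0] at h1
    have h2 := mul_le_mul_of_nonneg_left hv8 ha0p.le
    linarith
  have hahR : 8 * (a0 * h0) ≤ R := by
    have h1 := hRv (1 / 3 - 3 * δ + (1 / 3 - 2 * δ)) (by linarith)
    rw [Real.rpow_add hR0, ← ha0, ← hh0] at h1
    have h2 := mul_le_mul_of_nonneg_left hv8 hah0.le
    linarith
  have hy4 : (R : ℝ) ^ (1 / 4 : ℝ) ≤ Y := by
    have h1 : (R : ℝ) ^ (1 / 4 : ℝ) * v ≤ y0 := by
      rw [hv, hy0, ← Real.rpow_add hR0]
      exact hpow (by linarith)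
    have h2 : 0 < (R : ℝ) ^ (1 / 4 : ℝ) := by positivity
    have h3 := mul_le_mul_of_nonneg_left hv8 h2.le
    linarith
  have hv4 : v ≤ (R : ℝ) ^ (1 / 4 : ℝ) := by rw [hv]; exact hpow (by norm_num)
  have hYv : v ≤ Y := hv4.trans hy4
  have hlogY0 : 0 ≤ Real.log Y := Real.log_nonneg (by linarith)
  have hlogY1 : Real.log Y ≤ Real.log R := Real.log_le_log hY0 (hY1.trans hyR)
  have hlogY2 : Real.log R / 4 ≤ Real.log Y := by
    have h1 := Real.log_le_log (by positivity) hy4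
    rw [Real.log_rpow hR0] at h1
    linarith
  have ha1 : (1 : ℝ) ≤ a := by exact_mod_cast haN
  have ham : (a : ℝ) * M ≤ 2 * a0 * M := mul_le_mul_of_nonneg_right haR (by linarith)
  have hu1 : ∀ n : ℕ, 1 ≤ n → u ≤ u ^ n := fun n hn => le_self_pow₀ (by linarith) (by omega)
  have hfaR : (f : ℝ) ≤ 2 * a0 := by
    have : (f : ℝ) ≤ a := by exact_mod_cast hfa
    linarith
  -- condition 2 a M ≤ H
  have c1 : 2 * (a * M) ≤ H := by
    have h1 : (2 * (a * M) : ℝ) ≤ H := by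
      have h2 : 8 * (M : ℝ) ≤ u ^ 8 := by
        have := hu1 8 (by norm_num)
        linarith
      have h3 : a0 * (8 * M) ≤ a0 * u ^ 8 := mul_le_mul_of_nonneg_left h2 ha0p.le
      rw [← hh0a] at h3
      linarith
    exact_mod_cast h1
  -- condition H ≤ Y ^ (1 - δ)
  have c2 : (H : ℝ) ≤ (Y : ℝ) ^ (1 - δ) := by
    have h1 : (y0 / 2) ^ (1 - δ) ≤ (Y : ℝ) ^ (1 - δ) :=
      Real.rpow_le_rpow (by linarith) hY2 (by linarith)
    have h2 : y0 ^ (1 - δ) / 2 ≤ (y0 / 2) ^ (1 - δ) := by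
      rw [Real.div_rpow (by linarith) (by norm_num)]
      apply div_le_div_of_nonneg_left (by positivity) (by positivity)
      calc (2 : ℝ) ^ (1 - δ) ≤ (2 : ℝ) ^ (1 : ℝ) :=
            Real.rpow_le_rpow_of_exponent_le (by norm_num) (by linarith)
        _ = 2 := Real.rpow_one _
    have h3 : h0 * u ≤ y0 ^ (1 - δ) := by
      rw [hh0, hu, hy0, ← Real.rpow_add hR0, ← Real.rpow_mul hR0.le]
      apply hpow
      have e : (1 / 3 - δ) * (1 - δ) = 1 / 3 - 4 / 3 * δ + δ * δ := by ring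
      have e' := mul_nonneg hδ.le hδ.le
      rw [e]
      linarith
    have h4 : h0 * 2 ≤ h0 * u := mul_le_mul_of_nonneg_left (by linarith) (by linarith)
    linarith
  have hHaM : u ^ 8 / (4 * M) ≤ (H : ℝ) / (a * M) := by
    rw [div_le_div_iff₀ (by positivity) (by positivity)]
    calc u ^ 8 * (a * M) ≤ u ^ 8 * (2 * a0 * M) := mul_le_mul_of_nonneg_left ham (by positivity)
      _ = h0 / 2 * (4 * M) := by rw [hh0a]; ring
      _ ≤ H * (4 * M) := mul_le_mul_of_nonneg_right hH2 (by positivity)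
  have haMH : (a : ℝ) * M / H ≤ 4 * M / u ^ 8 := by
    rw [div_le_div_iff₀ (by positivity) (by positivity)]
    calc (a : ℝ) * M * u ^ 8 ≤ 2 * a0 * M * u ^ 8 :=
          mul_le_mul_of_nonneg_right ham (by positivity)
      _ = 4 * M * (h0 / 2) := by rw [hh0a]; ring
      _ ≤ 4 * M * H := mul_le_mul_of_nonneg_left hH2 (by positivity)
  have c3 : (1 + Real.log (2 * H)) ^ 2 ≤ (H : ℝ) / (a * M) := by
    refine le_trans ?_ hHaM
    have h1 : Real.log (2 * H) ≤ 1 + Real.log R := by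
      rw [Real.log_mul (by norm_num) hH0.ne']
      have h2 := Real.log_le_log hH0 (hH1.trans hhR)
      have h3 := Real.log_two_lt_d9
      linarith
    have h0' : 0 ≤ Real.log (2 * H) := Real.log_nonneg (by linarith)
    have h2 : 1 + Real.log (2 * H) ≤ 2 * u := by linarith
    have h3 : (1 + Real.log (2 * H)) ^ 2 ≤ (2 * u) ^ 2 := pow_le_pow_left₀ (by linarith) h2 2
    refine h3.trans ?_
    rw [le_div_iff₀ (by positivity)]
    have h4 : 16 * (M : ℝ) ≤ u ^ 6 := by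
      have := hu1 6 (by norm_num)
      linarith
    calc (2 * u) ^ 2 * (4 * M) = u ^ 2 * (16 * M) := by ring
      _ ≤ u ^ 2 * u ^ 6 := mul_le_mul_of_nonneg_left h4 (by positivity)
      _ = u ^ 8 := by ring
  have c4 : ∀ k : ℕ, k ≤ H → (f : ℝ) * k ≤ R := by
    intro k hk2
    have h1 : (k : ℝ) ≤ h0 := by
      have : (k : ℝ) ≤ H := by exact_mod_cast hk2
      linarith
    have h2 : (f : ℝ) * k ≤ 2 * a0 * h0 := mul_le_mul hfaR h1 (by positivity) (by positivity)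
    linarith
  have c5 : a ≤ R := by
    have : (a : ℝ) ≤ R := by linarith
    exact_mod_cast this
  have c6 : Y₀ ≤ Y := by
    have : (Y₀ : ℝ) ≤ Y := by linarith
    exact_mod_cast this
  have c7 : z ≤ Y := by
    have : (z : ℝ) ≤ Y := by linarith
    exact_mod_cast this
  -- the error terms
  have e1 : C * ((1 + Real.log (6 * Y)) * Real.log Y ^ 2 * (a * M / H)) ≤ η / 8 := by
    have h1 : Real.log (6 * Y) ≤ 2 + Real.log R := by
      rw [Real.log_mul (by norm_num) hY0.ne']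
      have h3 : Real.log 6 ≤ 2 := by
        have h4 : Real.log 6 ≤ Real.log 8 := Real.log_le_log (by norm_num) (by norm_num)
        have h5 : (8 : ℝ) = 2 ^ 3 := by norm_num
        rw [h5, Real.log_pow] at h4
        have h6 := Real.log_two_lt_d9
        push_cast at h4
        by_contra hcon
        push Not at hcon
        have h7 : Real.log 6 = Real.log 2 + Real.log 3 := by
          rw [← Real.log_mul (by norm_num) (by norm_num)]
          norm_num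
        have h8 : Real.log 3 ≤ 1.2 := by
          rw [Real.log_le_iff_le_exp (by norm_num)]
          have h9 := Real.add_one_le_exp (0.2 : ℝ)
          have h10 := Real.exp_one_gt_d9
          have h11 : Real.exp 1.2 = Real.exp 1 * Real.exp 0.2 := by
            rw [← Real.exp_add]
            norm_num
          rw [h11]
          have h12 : Real.exp 1 * (0.2 + 1) ≤ Real.exp 1 * Real.exp 0.2 :=
            mul_le_mul_of_nonneg_left h9 (Real.exp_pos 1).le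
          linarith
        linarith
      linarith
    have h0' : 0 ≤ Real.log (6 * Y) := Real.log_nonneg (by linarith)
    have h2 : 1 + Real.log (6 * Y) ≤ 2 * u := by linarith
    have h3 : Real.log Y ^ 2 ≤ u ^ 2 := pow_le_pow_left₀ hlogY0 (by linarith) 2
    have h4 : (1 + Real.log (6 * Y)) * Real.log Y ^ 2 ≤ 2 * u * u ^ 2 :=
      mul_le_mul h2 h3 (by positivity) (by positivity)
    have h5 : (1 + Real.log (6 * Y)) * Real.log Y ^ 2 * (a * M / H) ≤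
        2 * u * u ^ 2 * (4 * M / u ^ 8) := mul_le_mul h4 haMH (by positivity) (by positivity)
    have h6 : C * ((1 + Real.log (6 * Y)) * Real.log Y ^ 2 * (a * M / H)) ≤
        C * (2 * u * u ^ 2 * (4 * M / u ^ 8)) := mul_le_mul_of_nonneg_left h5 hC.le
    refine h6.trans ?_
    have h7 : C * (2 * u * u ^ 2 * (4 * M / u ^ 8)) = 8 * C * M / u ^ 5 := by
      field_simp
      norm_num
    rw [h7, div_le_iff₀ (by positivity)]
    have h8 : 64 * C * M / η ≤ u ^ 5 := by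
      have := hu1 5 (by norm_num)
      linarith
    rw [div_le_iff₀ hη] at h8
    linarith
  have e3 : C * (A * (R : ℝ) ^ (1 / 100 : ℝ) * Real.log Y ^ 2 / Real.sqrt Y) ≤ η / 8 := by
    have h1 : Real.log Y ^ 2 ≤ u ^ 2 := pow_le_pow_left₀ hlogY0 (by linarith) 2
    have h2 : (R : ℝ) ^ (1 / 8 : ℝ) ≤ Real.sqrt Y := by
      apply Real.le_sqrt_of_sq_le
      rw [← Real.rpow_natCast, ← Real.rpow_mul hR0.le]
      have e : (1 / 8 : ℝ) * ((2 : ℕ) : ℝ) = 1 / 4 := by norm_num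
      rw [e]
      exact hy4
    have h3 : A * (R : ℝ) ^ (1 / 100 : ℝ) * Real.log Y ^ 2 / Real.sqrt Y ≤
        A * (R : ℝ) ^ (1 / 100 : ℝ) * u ^ 2 / (R : ℝ) ^ (1 / 8 : ℝ) := by
      apply div_le_div₀ (by positivity) _ (by positivity) h2
      exact mul_le_mul_of_nonneg_left h1 (by positivity)
    have h4 : A * (R : ℝ) ^ (1 / 100 : ℝ) * u ^ 2 / (R : ℝ) ^ (1 / 8 : ℝ) ≤ A / v := by
      rw [div_le_div_iff₀ (by positivity) (by positivity)]
      have h5 : (R : ℝ) ^ (1 / 100 : ℝ) * u ^ 2 * v ≤ (R : ℝ) ^ (1 / 8 : ℝ) := by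
        rw [hu, hv, ← Real.rpow_natCast, ← Real.rpow_mul hR0.le, ← Real.rpow_add hR0,
          ← Real.rpow_add hR0]
        apply hpow
        push_cast
        linarith
      calc A * (R : ℝ) ^ (1 / 100 : ℝ) * u ^ 2 * v =
            A * ((R : ℝ) ^ (1 / 100 : ℝ) * u ^ 2 * v) := by ring
        _ ≤ A * (R : ℝ) ^ (1 / 8 : ℝ) := mul_le_mul_of_nonneg_left h5 (by linarith)
    have h6 := mul_le_mul_of_nonneg_left (h3.trans h4) hC.le
    refine h6.trans ?_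
    have h7 : 8 * C * A / η ≤ v := by linarith
    rw [div_le_iff₀ hη] at h7
    rw [← mul_div_assoc, div_le_iff₀ (by linarith)]
    linarith
  have e4 : C' * M / Real.log Y ^ 2 ≤ η / 8 := by
    have h1 : 128 * C' * M / η + 1 ≤ Real.log R := hB3
    have h2 : Real.log R ≤ Real.log R ^ 2 := le_self_pow₀ (by linarith) (by norm_num)
    have h3 : Real.log R ^ 2 / 16 ≤ Real.log Y ^ 2 := by
      have := pow_le_pow_left₀ (by positivity) hlogY2 2
      rw [div_pow] at this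
      linarith
    have h4 : 8 * (C' * M) / η ≤ Real.log Y ^ 2 := by
      have e : 128 * C' * M / η = 16 * (8 * (C' * M) / η) := by ring
      rw [e] at h1
      linarith
    have h5 : 0 < Real.log Y ^ 2 := by
      have : 0 < 8 * (C' * M) / η := by positivity
      linarith
    rw [div_le_iff₀ h5]
    rw [div_le_iff₀ hη] at h4
    linarith
  have e5 : 144 * (a : ℝ) * (Y : ℝ) ^ 2 ≤ η / 8 * R := by
    have h1 : (Y : ℝ) ^ 2 ≤ y0 ^ 2 := pow_le_pow_left₀ hY0.le hY1 2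
    have h2 : 144 * (a : ℝ) * (Y : ℝ) ^ 2 ≤ 144 * (2 * a0) * y0 ^ 2 :=
      mul_le_mul (by linarith) h1 (by positivity) (by positivity)
    have h3 : a0 * y0 ^ 2 * u ≤ R := by
      rw [ha0, hy0, hu, ← Real.rpow_natCast, ← Real.rpow_mul hR0.le, ← Real.rpow_add hR0,
        ← Real.rpow_add hR0]
      calc (R : ℝ) ^ (1 / 3 - 3 * δ + (1 / 3 - δ) * ((2 : ℕ) : ℝ) + δ / 8) ≤
            (R : ℝ) ^ (1 : ℝ) := hpow (by push_cast; linarith)
        _ = R := Real.rpow_one _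
    have h4 : 2304 / η ≤ u := by linarith
    rw [div_le_iff₀ hη] at h4
    have h5 : 0 < a0 * y0 ^ 2 := by positivity
    calc 144 * (a : ℝ) * (Y : ℝ) ^ 2 ≤ 144 * (2 * a0) * y0 ^ 2 := h2
      _ = (a0 * y0 ^ 2) * 2304 / 8 := by ring
      _ ≤ (a0 * y0 ^ 2) * (u * η) / 8 := by
          apply div_le_div_of_nonneg_right _ (by norm_num)
          exact mul_le_mul_of_nonneg_left h4 h5.le
      _ = η / 8 * (a0 * y0 ^ 2 * u) := by ring
      _ ≤ η / 8 * R := mul_le_mul_of_nonneg_left h3 (by positivity)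
  have hfh : 3 * f * (2 * H) < 2 * R := by
    have h1 : (f : ℝ) * H ≤ 2 * a0 * h0 := mul_le_mul hfaR hH1 (by positivity) (by positivity)
    have h2 : (3 * f * (2 * H) : ℝ) < 2 * R := by
      linarith
    exact_mod_cast h2
  exact ⟨H, Y, c6, c7, c1, c2, c5, c3, c4, e1, e3, e4, e5, hfh⟩

open Classical in
theorem cover (ε η : ℝ) (hε : 0 < ε) (hε1 : ε ≤ 1 / 100) (hη : 0 < η) : ∃ R₀ : ℕ, ∀ R : ℕ,
    R₀ ≤ R → (#((Ioc R (2 * R)).filter (fun r : ℕ => ¬ ∃ p ν h w N : ℕ, p.Prime ∧ 1 ≤ ν ∧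
      4 * ν < p ∧ Odd h ∧ (2 * h * w + 1).Prime ∧ Odd N ∧
      2 * r = 3 * (1 + ν * (p ^ 2 - 1)) * h + (1 + 2 * ν * (p ^ 2 - 1)) * (h + 2 * w) * N ∧
      Real.exp ((2 * R : ℝ) ^ (1 / 9 - ε)) ≤ (p : ℝ) ^ (4 * ν))) : ℝ) ≤ η * R := by
  obtain ⟨C, hC, hcov⟩ := cover_fixed
  obtain ⟨A, hA1, hA⟩ := Pool.Agent.Work.MP_f2148a_nt.exists_card_divisors_le (1 / 100) (by norm_num)
  obtain ⟨z, hz⟩ := exists_nat_ge ((16 * C / η) ^ 2 + 16)
  have hzR : (16 : ℝ) ≤ z := by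
    have : 0 ≤ (16 * C / η) ^ 2 := by positivity
    linarith
  have hz16 : 16 ≤ z := by exact_mod_cast hzR
  obtain ⟨τ, hτ⟩ : ∃ τ, τ = min 1 (η / (16 * C)) := ⟨_, rfl⟩
  have hτ0 : 0 < τ := by rw [hτ]; exact lt_min one_pos (by positivity)
  have hτ1 : τ ≤ 1 := by rw [hτ]; exact min_le_left _ _
  have hτη : τ ≤ η / (16 * C) := by rw [hτ]; exact min_le_right _ _
  have hsz : 16 * C / η ≤ Real.sqrt z := by
    apply Real.le_sqrt_of_sq_le
    linarith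
  have hsz0 : 0 < Real.sqrt z := Real.sqrt_pos.2 (by linarith)
  have ht2 : C * (τ + 1 / Real.sqrt z) ≤ η / 8 := by
    have h1 : 1 / Real.sqrt z ≤ η / (16 * C) := by
      rw [div_le_div_iff₀ hsz0 (by positivity), one_mul]
      rw [div_le_iff₀ hη] at hsz
      linarith
    calc C * (τ + 1 / Real.sqrt z) ≤ C * (η / (16 * C) + η / (16 * C)) :=
          mul_le_mul_of_nonneg_left (by linarith) hC.le
      _ = η / 8 := by field_simp; norm_num
  obtain ⟨M, hM⟩ : ∃ M, M = primorial (z - 1) := ⟨_, rfl⟩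
  have hM1 : ∀ l : ℕ, l.Prime → l < z → l ∣ M := by
    intro l hl h
    rw [hM]
    exact hl.dvd_primorial_iff.2 (by omega)
  have hM2 : ∀ l : ℕ, l.Prime → l ∣ M → l < z := by
    intro l hl h
    rw [hM] at h
    have := hl.dvd_primorial_iff.1 h
    omega
  have hMpos : 0 < M := by rw [hM]; exact primorial_pos _
  have hMd : 2 ∣ M := hM1 2 Nat.prime_two (by omega)
  have hM3 : 2 ≤ M := Nat.le_of_dvd hMpos hMd
  have hMr : (2 : ℝ) ≤ M := by exact_mod_cast hM3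
  obtain ⟨δ, hδd⟩ : ∃ δ, δ = ε / 2 := ⟨_, rfl⟩
  have hδ : 0 < δ := by rw [hδd]; positivity
  have hδ2 : δ ≤ 1 / 200 := by rw [hδd]; linarith
  obtain ⟨C', hC', Y₀, hcov2⟩ := hcov δ hδ (by linarith)
  obtain ⟨R₁, hR₁⟩ := params ε δ τ z hδ (by rw [hδd]; linarith) hε1 hτ0 hτ1 (by omega)
  obtain ⟨R₂, hR₂⟩ := pb_ev δ (16 * M + 64 * C * M / η + 2304 / η + 3)
    (8 * C * A / η + Y₀ + z + 8) (128 * C' * M / η + 1) hδ
  refine ⟨max R₁ R₂, fun R hR => ?_⟩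
  obtain ⟨p, ν, a, f, hp, hν1, hν4, hf, ha, hfo, hao, hc1, hc2, hfφ, haφ, haR, hfa, hexp⟩ :=
    hR₁ R (le_of_max_le_left hR)
  obtain ⟨hR1, hlogu, hB, hB', hB3⟩ := hR₂ R (le_of_max_le_right hR)
  have hR0 : (0 : ℝ) < R := by linarith
  have haN : 0 < a := by omega
  have hf1 : 1 ≤ f := by omega
  obtain ⟨H, Y, c6, c7, c1, c2, c5, c3, c4, e1, e3, e4, e5, hfh⟩ := pb_est C C' A η δ Y₀ z M R a f
    hC hC' hA1 hη hδ hδ2 hzR hMpos haN hfa haR hR1 hlogu hB hB' hB3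
  have c4' : ∀ k : ℕ, 1 ≤ k → k ≤ H →
      (#(f * k).divisors : ℝ) ≤ A * (R : ℝ) ^ (1 / 100 : ℝ) := by
    intro k hk1 hk2
    refine (hA (f * k) (Nat.mul_pos (by omega) (by omega))).trans ?_
    apply mul_le_mul_of_nonneg_left _ (by linarith)
    apply Real.rpow_le_rpow (by positivity) _ (by norm_num)
    push_cast
    exact c4 k hk2
  have hmain := hcov2 z a f M H Y R τ (A * (R : ℝ) ^ (1 / 100 : ℝ)) c6 hz16 c7 hao hf1 hM3
    (by rw [hM]; exact hc1) hc2 hM1 hM2 c1 c2 c5 hτ0.le hτ1 hfφ haφ c3 c4'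
  have hsub : (Ioc R (2 * R)).filter (fun r : ℕ => ¬ ∃ p ν h w N : ℕ, p.Prime ∧ 1 ≤ ν ∧
      4 * ν < p ∧ Odd h ∧ (2 * h * w + 1).Prime ∧ Odd N ∧
      2 * r = 3 * (1 + ν * (p ^ 2 - 1)) * h + (1 + 2 * ν * (p ^ 2 - 1)) * (h + 2 * w) * N ∧
      Real.exp ((2 * R : ℝ) ^ (1 / 9 - ε)) ≤ (p : ℝ) ^ (4 * ν)) ⊆
      (Ioc R (2 * R)).filter (fun r : ℕ => ∀ c : ℕ, ¬ Cov a f M H Y c r) := by
    intro r hr
    rw [Finset.mem_filter] at hr ⊢
    refine ⟨hr.1, fun c hc => hr.2 ?_⟩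
    obtain ⟨h, w, N, k1, k2, k3, k4⟩ := pb_rep hMd hfo hf ha (Finset.mem_Ioc.1 hr.1).1 hfh hc
    exact ⟨p, ν, h, w, N, hp, hν1, hν4, k1, k2, k3, k4, hexp⟩
  have hle : (#((Ioc R (2 * R)).filter (fun r : ℕ => ¬ ∃ p ν h w N : ℕ, p.Prime ∧ 1 ≤ ν ∧
      4 * ν < p ∧ Odd h ∧ (2 * h * w + 1).Prime ∧ Odd N ∧
      2 * r = 3 * (1 + ν * (p ^ 2 - 1)) * h + (1 + 2 * ν * (p ^ 2 - 1)) * (h + 2 * w) * N ∧
      Real.exp ((2 * R : ℝ) ^ (1 / 9 - ε)) ≤ (p : ℝ) ^ (4 * ν))) : ℝ) ≤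
      #((Ioc R (2 * R)).filter (fun r : ℕ => ∀ c : ℕ, ¬ Cov a f M H Y c r)) := by
    exact_mod_cast Finset.card_le_card hsub
  refine hle.trans (hmain.trans ?_)
  have hsum : C * ((1 + Real.log (6 * Y)) * Real.log Y ^ 2 * (a * M / H) +
      (τ + 1 / Real.sqrt z) + A * (R : ℝ) ^ (1 / 100 : ℝ) * Real.log Y ^ 2 / Real.sqrt Y) +
      C' * M / Real.log Y ^ 2 ≤ η / 2 := by
    rw [mul_add, mul_add]
    linarith
  have h9 := mul_le_mul_of_nonneg_left hsum hR0.le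
  have h10 : 0 < η * R := by positivity
  linarith

end Pool.Agent.Work.MP_34d05d_al.DO
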