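import Pool.Agent.Work.MP_34d05d_al.DO.Defs

set_option autoImplicit false

/-!
# DO/NTot (size S-M, seven small lemmas): inequalities for n/φ(n)

All from n/φ(n) = ∏ over the prime factors l of n of (1 - 1/l)⁻¹ (`prod_inv_factor_eq` in
Work/MP_af11aa_nt/ShiuSieve.lean, or `Nat.totient_eq_mul_prod_factors`).
`tot_rough`: (1 - 1/l)⁻¹ ≤ exp(2/l) ≤ exp(2/z) for l ≥ z ≥ 2; the number k of prime factors satisfies z^k ≤ ∏ l ≤ n ≤ X,
so k ≤ log X / log z.
`sum_inv_le`: ∑_{g | n} 1/g = ∏ (1 + 1/l + ... + 1/l^v) ≤ ∏ (1 - 1/l)⁻¹ (multiplicativity: e.g. induction on coprime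
factors `Nat.recOnPosPrimePosCoprime`, or ∑_{g|n} 1/g = σ(n)/n and σ(n) φ(n) ≤ n²).
`le_sum_inv`: ∑_{g | n} 1/g ≥ ∏_{l | n} (1 + 1/l) (squarefree divisors = products of subsets of the prime factors,
`Finset.prod_one_add`), and (1 - 1/l)⁻¹ = (1 + 1/l) l²/(l² - 1), ∏ over l ≥ 2 of k²/(k² - 1) ≤ 2 (telescoping over all
integers k = 2..K: = 2K/(K+1)).
`sq_rough`: each prime factor l ≥ 16 has (1 - 1/l)⁻² ≤ 2 ≤ √l, and ∏ √l ≤ √g.
`mono_tot`: the prime factors of g are among those of n, each factor is ≥ 1.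
`mul_tot`: the prime factors of g g' are the union of the two sets; factors ≥ 1.
`cop_part`: h' := the product of l^(v_l(h)) over the prime factors l of h not dividing a (h' = h.factorization filtered;
or strong induction dividing by gcd); the other prime factors of h divide a.
-/

namespace Pool.Agent.Work.MP_34d05d_al.DO

open Finset

private theorem F_eq (n : ℕ) (hn : 1 ≤ n) :
    (n : ℝ) / Nat.totient n = ∏ p ∈ n.primeFactors, (1 - (p : ℝ)⁻¹)⁻¹ := by
  have h1 := Nat.totient_eq_mul_prod_factors n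
  have h2 : (Nat.totient n : ℝ) = n * ∏ p ∈ n.primeFactors, (1 - (p : ℝ)⁻¹) := by
    have h3 := congrArg (Rat.cast : ℚ → ℝ) h1
    push_cast at h3
    exact h3
  have hn0 : (n : ℝ) ≠ 0 := by positivity
  rw [h2, Finset.prod_inv_distrib, div_mul_eq_div_div, div_self hn0, one_div]

private theorem pf_two {n p : ℕ} (hp : p ∈ n.primeFactors) : (2 : ℝ) ≤ p := by
  exact_mod_cast (Nat.prime_of_mem_primeFactors hp).two_le

private theorem fac_one_le {n p : ℕ} (hp : p ∈ n.primeFactors) : 1 ≤ (1 - (p : ℝ)⁻¹)⁻¹ := by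
  have h1 := pf_two hp
  have h2 : (p : ℝ)⁻¹ ≤ 2⁻¹ := inv_anti₀ (by norm_num) h1
  have h3 : 0 < (p : ℝ)⁻¹ := by positivity
  exact (one_le_inv₀ (by linarith)).2 (by linarith)

private theorem one_le_prod_real {ι : Type} (S : Finset ι) (f : ι → ℝ) (h : ∀ i ∈ S, 1 ≤ f i) :
    1 ≤ ∏ i ∈ S, f i := by
  classical
  induction S using Finset.induction_on with
  | empty => rw [Finset.prod_empty]
  | insert a S ha ih =>
    rw [Finset.prod_insert ha]
    have h1 := h a (Finset.mem_insert_self _ _)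
    have h2 := ih fun i hi => h i (Finset.mem_insert_of_mem hi)
    nlinarith

private theorem prod_mono_set {ι : Type} [DecidableEq ι] {S T : Finset ι} (f : ι → ℝ) (hST : S ⊆ T)
    (h : ∀ i ∈ T, 1 ≤ f i) : ∏ i ∈ S, f i ≤ ∏ i ∈ T, f i := by
  rw [← Finset.prod_sdiff hST]
  have h1 : 1 ≤ ∏ i ∈ T \ S, f i := one_le_prod_real _ _ fun i hi => h i (Finset.mem_sdiff.1 hi).1
  have h2 : 0 ≤ ∏ i ∈ S, f i := Finset.prod_nonneg fun i hi => le_trans zero_le_one (h i (hST hi))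
  nlinarith

private theorem fac_exp {x : ℝ} (hx0 : 0 ≤ x) (hx : x ≤ 2⁻¹) : (1 - x)⁻¹ ≤ Real.exp (2 * x) := by
  have h1 : 0 < 1 - x := by
    have : (2 : ℝ)⁻¹ < 1 := by norm_num
    linarith
  rw [inv_le_iff_one_le_mul₀ h1]
  have h2 : 2 * x + 1 ≤ Real.exp (2 * x) := Real.add_one_le_exp _
  have h3 : 1 ≤ (2 * x + 1) * (1 - x) := by
    have : x * (1 - 2 * x) ≥ 0 := mul_nonneg hx0 (by
      have : (2 : ℝ)⁻¹ = 1 / 2 := by norm_num
      linarith)
    nlinarith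
  exact h3.trans (mul_le_mul_of_nonneg_right h2 h1.le)

theorem tot_rough (z n : ℕ) (X : ℝ) (hz : 2 ≤ z) (hn : 1 ≤ n) (hr : Rough z n) (hX : (n : ℝ) ≤ X) :
    (n : ℝ) / Nat.totient n ≤ Real.exp (2 * (Real.log X / Real.log z) / z) := by
  rw [F_eq n hn]
  have hz0 : (0 : ℝ) < z := by exact_mod_cast (by omega : 0 < z)
  have hz1 : (1 : ℝ) < z := by exact_mod_cast (by omega : 1 < z)
  have hlog : 0 < Real.log z := Real.log_pos hz1
  have hn0 : (0 : ℝ) < n := by exact_mod_cast hn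
  have hzp : ∀ p ∈ n.primeFactors, z ≤ p := fun p hp =>
    hr p (Nat.prime_of_mem_primeFactors hp) (Nat.dvd_of_mem_primeFactors hp)
  have h1 : ∏ p ∈ n.primeFactors, (1 - (p : ℝ)⁻¹)⁻¹ ≤ ∏ _p ∈ n.primeFactors, Real.exp (2 / z) := by
    refine Finset.prod_le_prod (fun p hp => le_trans zero_le_one (fac_one_le hp)) fun p hp => ?_
    have h2 := pf_two hp
    refine (fac_exp (by positivity) (inv_anti₀ (by norm_num) h2)).trans (Real.exp_le_exp.2 ?_)
    have h3 : (z : ℝ) ≤ p := by exact_mod_cast hzp p hp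
    rw [← div_eq_mul_inv]
    exact div_le_div_of_nonneg_left (by norm_num) hz0 h3
  rw [Finset.prod_const, ← Real.exp_nat_mul] at h1
  refine h1.trans (Real.exp_le_exp.2 ?_)
  have h2 : z ^ n.primeFactors.card ≤ n := by
    have h3 : z ^ n.primeFactors.card ≤ ∏ p ∈ n.primeFactors, p := by
      rw [← Finset.prod_const]
      exact Finset.prod_le_prod' hzp
    exact h3.trans (Nat.le_of_dvd hn (Nat.prod_primeFactors_dvd n))
  have h3 : (n.primeFactors.card : ℝ) * Real.log z ≤ Real.log X := by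
    rw [← Real.log_pow]
    refine Real.log_le_log (by positivity) (le_trans ?_ hX)
    exact_mod_cast h2
  have h4 : (n.primeFactors.card : ℝ) ≤ Real.log X / Real.log z := by
    rw [le_div_iff₀ hlog]
    exact h3
  calc (n.primeFactors.card : ℝ) * (2 / z) ≤ Real.log X / Real.log z * (2 / z) :=
        mul_le_mul_of_nonneg_right h4 (by positivity)
    _ = 2 * (Real.log X / Real.log z) / z := by ring

private theorem S_eq (n : ℕ) (hn : 1 ≤ n) : ∑ g ∈ n.divisors, 1 / (g : ℝ) =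
    ∏ p ∈ n.primeFactors, ∑ k ∈ range (n.factorization p + 1), ((p : ℝ)⁻¹) ^ k := by
  have hn0 : (n : ℝ) ≠ 0 := by
    have : (0 : ℝ) < n := by exact_mod_cast hn
    exact this.ne'
  have h1 : ∑ g ∈ n.divisors, 1 / (g : ℝ) = (∑ g ∈ n.divisors, (g : ℝ)) / n := by
    rw [Finset.sum_div]
    rw [← Nat.sum_div_divisors n (fun g => 1 / (g : ℝ))]
    refine Finset.sum_congr rfl fun g hg => ?_
    have hgd := Nat.dvd_of_mem_divisors hg
    have hg0 : (0 : ℝ) < g := by exact_mod_cast Nat.pos_of_mem_divisors hg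
    rw [Nat.cast_div hgd hg0.ne', one_div_div]
  have h2 : (∑ g ∈ n.divisors, (g : ℝ)) =
      ∏ p ∈ n.primeFactors, ∑ k ∈ range (n.factorization p + 1), (p : ℝ) ^ k := by
    have h3 := congrArg (Nat.cast : ℕ → ℝ) (Nat.sum_divisors (by omega : n ≠ 0))
    push_cast at h3
    exact h3
  have h3 : (n : ℝ) = ∏ p ∈ n.primeFactors, (p : ℝ) ^ n.factorization p := by
    have h4 := Nat.prod_factorization_pow_eq_self (by omega : n ≠ 0)
    have h5 := congrArg (Nat.cast : ℕ → ℝ) h4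
    rw [Finsupp.prod, Nat.support_factorization] at h5
    push_cast at h5
    exact h5.symm
  rw [h1, h2]
  conv_lhs => rw [h3]
  rw [← Finset.prod_div_distrib]
  refine Finset.prod_congr rfl fun p hp => ?_
  have hp0 : (p : ℝ) ≠ 0 := by
    have := pf_two hp
    linarith
  rw [Finset.sum_div, ← Finset.sum_range_reflect]
  refine Finset.sum_congr rfl fun k hk => ?_
  have hk' : k ≤ n.factorization p := by
    have := Finset.mem_range.1 hk
    omega
  have e : n.factorization p + 1 - 1 - k = n.factorization p - k := by omega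
  rw [e, inv_pow, div_eq_iff (pow_ne_zero _ hp0)]
  rw [pow_sub₀ _ hp0 hk']
  ring

theorem sum_inv_le (n : ℕ) (hn : 1 ≤ n) :
    ∑ g ∈ n.divisors, 1 / (g : ℝ) ≤ (n : ℝ) / Nat.totient n := by
  rw [S_eq n hn, F_eq n hn]
  refine Finset.prod_le_prod (fun p hp => Finset.sum_nonneg fun k _ => by positivity) fun p hp => ?_
  have h1 := pf_two hp
  have h2 : (p : ℝ)⁻¹ ≤ 2⁻¹ := inv_anti₀ (by norm_num) h1
  have h3 : 0 < 1 - (p : ℝ)⁻¹ := by
    have : (2 : ℝ)⁻¹ < 1 := by norm_num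
    linarith
  have h4 := mul_neg_geom_sum ((p : ℝ)⁻¹) (n.factorization p + 1)
  have h5 : 0 ≤ ((p : ℝ)⁻¹) ^ (n.factorization p + 1) := by positivity
  calc ∑ k ∈ range (n.factorization p + 1), ((p : ℝ)⁻¹) ^ k
      = ((1 - (p : ℝ)⁻¹) * ∑ k ∈ range (n.factorization p + 1), ((p : ℝ)⁻¹) ^ k) *
        (1 - (p : ℝ)⁻¹)⁻¹ := by
        rw [mul_comm (1 - (p : ℝ)⁻¹), mul_assoc, mul_inv_cancel₀ h3.ne', mul_one]
    _ ≤ 1 * (1 - (p : ℝ)⁻¹)⁻¹ :=
        mul_le_mul_of_nonneg_right (by rw [h4]; linarith) (inv_nonneg.2 h3.le)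
    _ = (1 - (p : ℝ)⁻¹)⁻¹ := one_mul _

private theorem tele (K : ℕ) (hK : 1 ≤ K) :
    ∏ k ∈ Icc 2 K, (1 - ((k : ℝ)⁻¹) ^ 2) = ((K : ℝ) + 1) / (2 * K) := by
  induction K, hK using Nat.le_induction with
  | base => norm_num
  | succ K hK ih =>
    rw [Finset.prod_Icc_succ_top (by omega), ih]
    have hK0 : (0 : ℝ) < K := by exact_mod_cast hK
    push_cast
    field_simp
    ring

private theorem prod_two (S : Finset ℕ) (hS : ∀ p ∈ S, 2 ≤ p) :
    ∏ p ∈ S, (1 - ((p : ℝ)⁻¹) ^ 2)⁻¹ ≤ 2 := by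
  obtain ⟨K, hK1, hK⟩ : ∃ K : ℕ, 1 ≤ K ∧ S ⊆ Icc 2 K := by
    refine ⟨S.sup id + 1, by omega, fun p hp => ?_⟩
    rw [Finset.mem_Icc]
    have h9 : p ≤ S.sup id := Finset.le_sup (f := id) hp
    exact ⟨hS p hp, by omega⟩
  have hf : ∀ p ∈ Icc 2 K, 1 ≤ (1 - ((p : ℝ)⁻¹) ^ 2)⁻¹ := by
    intro p hp
    rw [Finset.mem_Icc] at hp
    have h2 : (2 : ℝ) ≤ p := by exact_mod_cast hp.1
    have h3 : (p : ℝ)⁻¹ ≤ 2⁻¹ := inv_anti₀ (by norm_num) h2
    have h4 : 0 < (p : ℝ)⁻¹ := by positivity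
    have h5 : ((p : ℝ)⁻¹) ^ 2 ≤ (2⁻¹ : ℝ) ^ 2 := pow_le_pow_left₀ h4.le h3 2
    have h6 : (2⁻¹ : ℝ) ^ 2 < 1 := by norm_num
    have h7 : 0 < ((p : ℝ)⁻¹) ^ 2 := by positivity
    exact (one_le_inv₀ (by linarith)).2 (by linarith)
  refine (prod_mono_set _ hK hf).trans ?_
  rw [Finset.prod_inv_distrib, tele K hK1, inv_div]
  have hK0 : (1 : ℝ) ≤ K := by exact_mod_cast hK1
  rw [div_le_iff₀ (by linarith)]
  linarith

theorem le_sum_inv (n : ℕ) (hn : 1 ≤ n) :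
    (n : ℝ) / Nat.totient n ≤ 2 * ∑ g ∈ n.divisors, 1 / (g : ℝ) := by
  rw [S_eq n hn, F_eq n hn]
  have h1 : ∏ p ∈ n.primeFactors, (1 - (p : ℝ)⁻¹)⁻¹ =
      (∏ p ∈ n.primeFactors, (1 - ((p : ℝ)⁻¹) ^ 2)⁻¹) * ∏ p ∈ n.primeFactors, (1 + (p : ℝ)⁻¹) := by
    rw [← Finset.prod_mul_distrib]
    refine Finset.prod_congr rfl fun p hp => ?_
    have h1 := pf_two hp
    have h2 : (p : ℝ)⁻¹ ≤ 2⁻¹ := inv_anti₀ (by norm_num) h1
    have h3 : 0 < (p : ℝ)⁻¹ := by positivity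
    have h4 : 0 < 1 - (p : ℝ)⁻¹ := by
      have : (2 : ℝ)⁻¹ < 1 := by norm_num
      linarith
    have h5 : 1 - ((p : ℝ)⁻¹) ^ 2 = (1 - (p : ℝ)⁻¹) * (1 + (p : ℝ)⁻¹) := by ring
    rw [h5, mul_inv, mul_assoc, inv_mul_cancel₀ (by linarith), mul_one]
  rw [h1]
  have h2 : ∏ p ∈ n.primeFactors, (1 + (p : ℝ)⁻¹) ≤
      ∏ p ∈ n.primeFactors, ∑ k ∈ range (n.factorization p + 1), ((p : ℝ)⁻¹) ^ k := by
    refine Finset.prod_le_prod (fun p _ => by positivity) fun p hp => ?_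
    have h3 : 1 ≤ n.factorization p := by
      have := (Nat.prime_of_mem_primeFactors hp).factorization_pos_of_dvd (by omega : n ≠ 0)
        (Nat.dvd_of_mem_primeFactors hp)
      omega
    have h4 : range 2 ⊆ range (n.factorization p + 1) := Finset.range_subset_range.2 (by omega)
    have h5 := Finset.sum_le_sum_of_subset_of_nonneg (f := fun k => ((p : ℝ)⁻¹) ^ k) h4
      fun k _ _ => by positivity
    rw [Finset.sum_range_succ, Finset.sum_range_one, pow_zero, pow_one] at h5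
    exact h5
  refine mul_le_mul (prod_two _ fun p hp => (Nat.prime_of_mem_primeFactors hp).two_le) h2
    (Finset.prod_nonneg fun p _ => by positivity) (by norm_num)

theorem sq_rough (z g : ℕ) (hz : 16 ≤ z) (hg : 1 ≤ g) (hr : Rough z g) :
    ((g : ℝ) / Nat.totient g) ^ 2 ≤ Real.sqrt g := by
  rw [F_eq g hg, ← Finset.prod_pow]
  have h1 : ∏ p ∈ g.primeFactors, ((1 - (p : ℝ)⁻¹)⁻¹) ^ 2 ≤ ∏ p ∈ g.primeFactors, Real.sqrt p := by
    refine Finset.prod_le_prod (fun p _ => by positivity) fun p hp => ?_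
    have h2 : 16 ≤ p := hz.trans (hr p (Nat.prime_of_mem_primeFactors hp)
      (Nat.dvd_of_mem_primeFactors hp))
    have h3 : (16 : ℝ) ≤ p := by exact_mod_cast h2
    have h4 : (4 : ℝ) ≤ Real.sqrt p := by
      refine Real.le_sqrt_of_sq_le ?_
      have h9 : (4 : ℝ) ^ 2 = 16 := by norm_num
      rw [h9]
      exact h3
    have h5 : (p : ℝ)⁻¹ ≤ 2⁻¹ := inv_anti₀ (by norm_num) (by linarith)
    have h6 : (1 - (p : ℝ)⁻¹)⁻¹ ≤ 2 := by
      have h7 : (2 : ℝ)⁻¹ ≤ 1 - (p : ℝ)⁻¹ := by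
        have : (2 : ℝ)⁻¹ = 1 / 2 := by norm_num
        linarith
      have h8 := inv_anti₀ (by norm_num) h7
      rw [inv_inv] at h8
      exact h8
    have h7 : 0 ≤ (1 - (p : ℝ)⁻¹)⁻¹ := le_trans zero_le_one (fac_one_le hp)
    nlinarith
  refine h1.trans ?_
  have h2 : ∏ p ∈ g.primeFactors, Real.sqrt p = Real.sqrt (∏ p ∈ g.primeFactors, (p : ℝ)) := by
    have h3 : ∀ S : Finset ℕ, ∏ p ∈ S, Real.sqrt p = Real.sqrt (∏ p ∈ S, (p : ℝ)) := by
      intro S
      induction S using Finset.induction_on with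
      | empty => simp
      | insert a S ha ih =>
        rw [Finset.prod_insert ha, Finset.prod_insert ha, ih, Real.sqrt_mul (Nat.cast_nonneg a)]
    exact h3 _
  rw [h2]
  refine Real.sqrt_le_sqrt ?_
  have h3 : ∏ p ∈ g.primeFactors, p ≤ g := Nat.le_of_dvd hg (Nat.prod_primeFactors_dvd g)
  have h4 : ((∏ p ∈ g.primeFactors, p : ℕ) : ℝ) ≤ g := by exact_mod_cast h3
  rw [Nat.cast_prod] at h4
  exact h4

theorem mono_tot (g n : ℕ) (hn : 1 ≤ n) (h : g ∣ n) :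
    (g : ℝ) / Nat.totient g ≤ (n : ℝ) / Nat.totient n := by
  have hg : 1 ≤ g := Nat.pos_of_dvd_of_pos h hn
  rw [F_eq g hg, F_eq n hn]
  exact prod_mono_set _ (Nat.primeFactors_mono h (by omega)) fun p hp => fac_one_le hp

theorem mul_tot (g g' : ℕ) (hg : 1 ≤ g) (hg' : 1 ≤ g') :
    ((g * g' : ℕ) : ℝ) / Nat.totient (g * g') ≤
      ((g : ℝ) / Nat.totient g) * ((g' : ℝ) / Nat.totient g') := by
  have h1 : ((Nat.totient g : ℕ) : ℝ) * (Nat.totient g' : ℕ) ≤ (Nat.totient (g * g') : ℕ) := by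
    exact_mod_cast Nat.totient_super_multiplicative g g'
  have h2 : (0 : ℝ) < Nat.totient g := by exact_mod_cast Nat.totient_pos.2 hg
  have h3 : (0 : ℝ) < Nat.totient g' := by exact_mod_cast Nat.totient_pos.2 hg'
  rw [div_mul_div_comm]
  push_cast
  exact div_le_div_of_nonneg_left (by positivity) (by positivity) h1

theorem cop_part (a h : ℕ) (ha : 1 ≤ a) (hh : 1 ≤ h) : ∃ h' : ℕ, h' ∣ h ∧ Nat.Coprime h' a ∧
    (h : ℝ) / Nat.totient h ≤ ((a : ℝ) / Nat.totient a) * ((h' : ℝ) / Nat.totient h') := by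
  have hpr : ∀ p ∈ h.primeFactors.filter (fun p => ¬ p ∣ a), p.Prime := fun p hp =>
    Nat.prime_of_mem_primeFactors (Finset.mem_filter.1 hp).1
  refine ⟨∏ p ∈ h.primeFactors.filter (fun p => ¬ p ∣ a), p, ?_, ?_, ?_⟩
  · exact (Finset.prod_dvd_prod_of_subset _ _ _ (Finset.filter_subset _ _)).trans
      (Nat.prod_primeFactors_dvd h)
  · refine Nat.Coprime.prod_left fun p hp => ?_
    exact (Nat.Prime.coprime_iff_not_dvd (hpr p hp)).2 (Finset.mem_filter.1 hp).2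
  · have hpos : 1 ≤ ∏ p ∈ h.primeFactors.filter (fun p => ¬ p ∣ a), p :=
      Finset.prod_pos fun p hp => (hpr p hp).pos
    rw [F_eq h hh, F_eq a ha, F_eq _ hpos, Nat.primeFactors_prod hpr]
    rw [← Finset.prod_filter_mul_prod_filter_not h.primeFactors (fun p => p ∣ a)]
    refine mul_le_mul_of_nonneg_right ?_ (Finset.prod_nonneg fun p hp =>
      le_trans zero_le_one (fac_one_le (Finset.mem_filter.1 hp).1))
    refine prod_mono_set _ (fun p hp => ?_) fun p hp => fac_one_le hp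
    rw [Finset.mem_filter] at hp
    exact Nat.mem_primeFactors.2 ⟨Nat.prime_of_mem_primeFactors hp.1, hp.2, by omega⟩

end Pool.Agent.Work.MP_34d05d_al.DO
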