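import Pool.Agent.Work.MP_34d05d_al.DO.Defs

set_option autoImplicit false

/-!
# DO/NVar (size S-M): the variance inequality and counting in progressions

PROOFS.
`variance`: T(r) := number of i ∈ I with r ∈ A i. If r is in no A i then T(r) = 0, so #U S² ≤ ∑_{r ∈ Rr} (T(r) - S)² =
∑ T² - 2 S ∑ T + #Rr S². ∑_r T² = ∑_{i,j} #(A i ∩ A j) ≤ X ∑∑ ρ2 + (#I)²; ∑_r T = ∑_i #(A i) ≥ X S - #I; #Rr ≤ X + 1.
Total ≤ X(∑∑ρ2 - S²) + (#I)² + 2 S #I + S².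
`cnt_one`: m odd. The r with m ∣ 2 r - u form one class modulo m (2 is invertible modulo m), the interval (R, 2R] has R
elements, so their number is ⌊R/m⌋ or ⌊R/m⌋ + 1 (`Int.Ioc_filter_modEq_card`, `Nat.count_modEq_card` or by hand: map
r ↦ (r - r0)/m).
`cnt_two`: if two solutions r, r' exist, m and m' divide 2(r - r'), so lcm(m,m') ∣ r - r' (odd): the solutions are in one
class modulo lcm(m,m') = m m'/gcd: number ≤ R/lcm + 1. If there is a solution, gcd(m,m') ∣ u - u'.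
-/

namespace Pool.Agent.Work.MP_34d05d_al.DO

open Finset

private theorem boole_sum (Rr B : Finset ℕ) (hB : B ⊆ Rr) :
    ∑ r ∈ Rr, (if r ∈ B then (1 : ℝ) else 0) = #B := by
  rw [Finset.sum_boole, Finset.filter_mem_eq_inter, Finset.inter_eq_right.2 hB]

theorem variance {ι : Type} [DecidableEq ι] (I : Finset ι) (Rr : Finset ℕ) (A : ι → Finset ℕ)
    (hA : ∀ i ∈ I, A i ⊆ Rr) (X : ℝ) (hX : 0 ≤ X) (ρ : ι → ℝ) (ρ2 : ι → ι → ℝ)
    (h1 : ∀ i ∈ I, |(#(A i) : ℝ) - X * ρ i| ≤ 1)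
    (h2 : ∀ i ∈ I, ∀ j ∈ I, (#(A i ∩ A j) : ℝ) ≤ X * ρ2 i j + 1)
    (hR : (#Rr : ℝ) ≤ X + 1) (hρ : ∀ i ∈ I, 0 ≤ ρ i) :
    (#(Rr.filter (fun r => ∀ i ∈ I, r ∉ A i)) : ℝ) * (∑ i ∈ I, ρ i) ^ 2 ≤
      X * (∑ i ∈ I, ∑ j ∈ I, ρ2 i j - (∑ i ∈ I, ρ i) ^ 2) + (#I + ∑ i ∈ I, ρ i) ^ 2 := by
  obtain ⟨S, hS⟩ : ∃ S : ℝ, S = ∑ i ∈ I, ρ i := ⟨_, rfl⟩
  have hS0 : 0 ≤ S := by
    rw [hS]
    exact Finset.sum_nonneg hρ
  obtain ⟨T, hT⟩ : ∃ T : ℕ → ℝ, ∀ r, T r = ∑ i ∈ I, if r ∈ A i then (1 : ℝ) else 0 :=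
    ⟨_, fun _ => rfl⟩
  have e1 : ∑ r ∈ Rr, T r = ∑ i ∈ I, (#(A i) : ℝ) := by
    simp only [hT]
    rw [Finset.sum_comm]
    exact Finset.sum_congr rfl fun i hi => boole_sum Rr (A i) (hA i hi)
  have e2 : ∑ r ∈ Rr, T r ^ 2 = ∑ i ∈ I, ∑ j ∈ I, (#(A i ∩ A j) : ℝ) := by
    have e3 : ∀ r, T r ^ 2 = ∑ i ∈ I, ∑ j ∈ I, if r ∈ A i ∩ A j then (1 : ℝ) else 0 := by
      intro r
      rw [pow_two, hT, Finset.sum_mul_sum]
      refine Finset.sum_congr rfl fun i _ => Finset.sum_congr rfl fun j _ => ?_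
      by_cases hi : r ∈ A i
      · by_cases hj : r ∈ A j
        · rw [if_pos hi, if_pos hj, if_pos (Finset.mem_inter.2 ⟨hi, hj⟩), mul_one]
        · rw [if_neg hj, mul_zero, if_neg]
          exact fun h => hj (Finset.mem_inter.1 h).2
      · rw [if_neg hi, zero_mul, if_neg]
        exact fun h => hi (Finset.mem_inter.1 h).1
    simp only [e3]
    rw [Finset.sum_comm]
    refine Finset.sum_congr rfl fun i hi => ?_
    rw [Finset.sum_comm]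
    exact Finset.sum_congr rfl fun j _ => boole_sum Rr (A i ∩ A j)
      (fun x hx => hA i hi (Finset.mem_inter.1 hx).1)
  have b1 : X * S - #I ≤ ∑ i ∈ I, (#(A i) : ℝ) := by
    have : ∑ i ∈ I, (X * ρ i - 1) ≤ ∑ i ∈ I, (#(A i) : ℝ) := by
      refine Finset.sum_le_sum fun i hi => ?_
      have := (abs_le.1 (h1 i hi)).1
      linarith
    rw [Finset.sum_sub_distrib, ← Finset.mul_sum, ← hS, Finset.sum_const, nsmul_eq_mul,
      mul_one] at this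
    exact this
  have b2 : ∑ i ∈ I, ∑ j ∈ I, (#(A i ∩ A j) : ℝ) ≤
      X * (∑ i ∈ I, ∑ j ∈ I, ρ2 i j) + (#I : ℝ) ^ 2 := by
    have h3 : ∑ i ∈ I, ∑ j ∈ I, (#(A i ∩ A j) : ℝ) ≤ ∑ i ∈ I, ∑ j ∈ I, (X * ρ2 i j + 1) :=
      Finset.sum_le_sum fun i hi => Finset.sum_le_sum fun j hj => h2 i hi j hj
    have h4 : ∑ i ∈ I, ∑ j ∈ I, (X * ρ2 i j + 1) =
        X * (∑ i ∈ I, ∑ j ∈ I, ρ2 i j) + (#I : ℝ) ^ 2 := by
      have h5 : ∀ i ∈ I, ∑ j ∈ I, (X * ρ2 i j + 1) = X * (∑ j ∈ I, ρ2 i j) + #I := by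
        intro i _
        rw [Finset.sum_add_distrib, ← Finset.mul_sum, Finset.sum_const, nsmul_eq_mul, mul_one]
      rw [Finset.sum_congr rfl h5, Finset.sum_add_distrib, ← Finset.mul_sum, Finset.sum_const,
        nsmul_eq_mul, pow_two]
    linarith
  have b3 : (#(Rr.filter (fun r => ∀ i ∈ I, r ∉ A i)) : ℝ) * S ^ 2 ≤ ∑ r ∈ Rr, (T r - S) ^ 2 := by
    have h3 : ∑ r ∈ Rr.filter (fun r => ∀ i ∈ I, r ∉ A i), (T r - S) ^ 2 ≤
        ∑ r ∈ Rr, (T r - S) ^ 2 :=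
      Finset.sum_le_sum_of_subset_of_nonneg (Finset.filter_subset _ _) fun _ _ _ => sq_nonneg _
    refine le_trans (le_of_eq ?_) h3
    have h4 : ∀ r ∈ Rr.filter (fun r => ∀ i ∈ I, r ∉ A i), (T r - S) ^ 2 = S ^ 2 := by
      intro r hr
      have h5 : T r = 0 := by
        rw [hT]
        exact Finset.sum_eq_zero fun i hi => if_neg ((Finset.mem_filter.1 hr).2 i hi)
      rw [h5]
      ring
    rw [Finset.sum_congr rfl h4, Finset.sum_const, nsmul_eq_mul]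
  have b4 : ∑ r ∈ Rr, (T r - S) ^ 2 =
      ∑ r ∈ Rr, T r ^ 2 - 2 * S * (∑ r ∈ Rr, T r) + #Rr * S ^ 2 := by
    have h3 : ∀ r ∈ Rr, (T r - S) ^ 2 = T r ^ 2 - 2 * S * T r + S ^ 2 := fun r _ => by ring
    rw [Finset.sum_congr rfl h3, Finset.sum_add_distrib, Finset.sum_sub_distrib,
      ← Finset.mul_sum, Finset.sum_const, nsmul_eq_mul]
  rw [← hS]
  rw [b4, e1, e2] at b3
  have b5 : (#Rr : ℝ) * S ^ 2 ≤ (X + 1) * S ^ 2 := mul_le_mul_of_nonneg_right hR (sq_nonneg _)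
  have b6 : 2 * S * (X * S - #I) ≤ 2 * S * ∑ i ∈ I, (#(A i) : ℝ) :=
    mul_le_mul_of_nonneg_left b1 (by linarith)
  nlinarith

private theorem floor_close (x y : ℚ) (hxy : x ≤ y) :
    |((max (⌊y⌋ - ⌊x⌋) 0 : ℤ) : ℚ) - (y - x)| ≤ 1 := by
  have h0 : ⌊x⌋ ≤ ⌊y⌋ := Int.floor_le_floor hxy
  rw [max_eq_left (by linarith)]
  have h1 := Int.floor_le x
  have h2 := Int.lt_floor_add_one x
  have h3 := Int.floor_le y
  have h4 := Int.lt_floor_add_one y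
  push_cast
  rw [abs_le]
  constructor
  · linarith
  · linarith

theorem cnt_one (R m : ℕ) (u : ℤ) (hm : Odd m) :
    |(#((Ioc R (2 * R)).filter (fun r : ℕ => (m : ℤ) ∣ 2 * (r : ℤ) - u)) : ℝ) - (R : ℝ) / m| ≤
      1 := by
  obtain ⟨k, hk⟩ := hm
  have hm0 : 0 < m := by omega
  have hmz : (0 : ℤ) < m := by exact_mod_cast hm0
  have hcop : IsCoprime (m : ℤ) 2 := ⟨1, -k, by rw [hk]; push_cast; ring⟩
  obtain ⟨c, hc⟩ := Int.eq_ofNat_of_zero_le (Int.emod_nonneg (u * (k + 1)) hmz.ne')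
  have hcu : (m : ℤ) ∣ 2 * (c : ℤ) - u := by
    have h1 : (c : ℤ) = u * (k + 1) - m * (u * (k + 1) / m) := by
      have h2 : (c : ℤ) = u * (k + 1) % m := hc.symm
      rw [h2, Int.emod_def]
    refine ⟨u - 2 * (u * (k + 1) / m), ?_⟩
    have h2 : (m : ℤ) = 2 * k + 1 := by rw [hk]; push_cast; ring
    linear_combination 2 * h1 - u * h2
  have hiff : ∀ r : ℕ, (m : ℤ) ∣ 2 * (r : ℤ) - u ↔ r ≡ c [MOD m] := by
    intro r
    rw [Nat.ModEq.comm, Nat.modEq_iff_dvd]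
    constructor
    · intro h
      refine hcop.dvd_of_dvd_mul_left ?_
      have e : 2 * ((r : ℤ) - c) = (2 * (r : ℤ) - u) - (2 * (c : ℤ) - u) := by ring
      rw [e]
      exact dvd_sub h hcu
    · intro h
      have e : 2 * (r : ℤ) - u = 2 * ((r : ℤ) - c) + (2 * (c : ℤ) - u) := by ring
      rw [e]
      exact dvd_add (Dvd.dvd.mul_left h 2) hcu
  have hset : (Ioc R (2 * R)).filter (fun r : ℕ => (m : ℤ) ∣ 2 * (r : ℤ) - u) =
      (Ioc R (2 * R)).filter (fun r => r ≡ c [MOD m]) :=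
    Finset.filter_congr fun r _ => hiff r
  rw [hset]
  have h1 := Nat.Ioc_filter_modEq_card R (2 * R) hm0 c
  have hmq : (0 : ℚ) < m := by exact_mod_cast hm0
  have h2 := floor_close (((R : ℕ) - c : ℚ) / m) ((((2 * R : ℕ) : ℚ) - c) / m) (by
    refine div_le_div_of_nonneg_right ?_ hmq.le
    push_cast
    have : (0 : ℚ) ≤ R := Nat.cast_nonneg _
    linarith)
  have h3 : ((((2 * R : ℕ) : ℚ) - c) / m) - (((R : ℕ) - c : ℚ) / m) = (R : ℚ) / m := by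
    push_cast
    ring
  rw [h3, ← h1] at h2
  have h4 : |((#((Ioc R (2 * R)).filter (fun r => r ≡ c [MOD m])) : ℚ)) - (R : ℚ) / m| ≤ 1 := by
    rw [Int.cast_natCast] at h2
    exact h2
  have h5 := (Rat.cast_le (K := ℝ)).2 h4
  push_cast at h5
  exact h5

theorem cnt_two (R m m' : ℕ) (u u' : ℤ) (hm : Odd m) (hm' : Odd m') :
    (#((Ioc R (2 * R)).filter (fun r : ℕ => (m : ℤ) ∣ 2 * (r : ℤ) - u ∧
      (m' : ℤ) ∣ 2 * (r : ℤ) - u')) : ℝ) ≤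
      (if ((Nat.gcd m m' : ℕ) : ℤ) ∣ u - u' then (R : ℝ) * (Nat.gcd m m') / ((m : ℝ) * m')
        else 0) + 1 := by
  rcases ((Ioc R (2 * R)).filter (fun r : ℕ => (m : ℤ) ∣ 2 * (r : ℤ) - u ∧
      (m' : ℤ) ∣ 2 * (r : ℤ) - u')).eq_empty_or_nonempty with h0 | ⟨r₀, hr₀⟩
  · rw [h0, Finset.card_empty, Nat.cast_zero]
    split_ifs
    · positivity
    · norm_num
  · rw [Finset.mem_filter] at hr₀
    obtain ⟨_, h1, h2⟩ := hr₀
    have hg : ((Nat.gcd m m' : ℕ) : ℤ) ∣ u - u' := by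
      have g1 : ((Nat.gcd m m' : ℕ) : ℤ) ∣ (m : ℤ) := Int.natCast_dvd_natCast.2 (Nat.gcd_dvd_left _ _)
      have g2 : ((Nat.gcd m m' : ℕ) : ℤ) ∣ (m' : ℤ) :=
        Int.natCast_dvd_natCast.2 (Nat.gcd_dvd_right _ _)
      have e : u - u' = (2 * (r₀ : ℤ) - u') - (2 * (r₀ : ℤ) - u) := by ring
      rw [e]
      exact dvd_sub (g2.trans h2) (g1.trans h1)
    rw [if_pos hg]
    have hl : Odd (Nat.lcm m m') := by
      have h3 : Odd (m * m') := hm.mul hm'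
      rw [← Nat.gcd_mul_lcm m m'] at h3
      exact Nat.Odd.of_mul_right h3
    have h3 := cnt_one R (Nat.lcm m m') (2 * (r₀ : ℤ)) hl
    have h4 : (Ioc R (2 * R)).filter (fun r : ℕ => (m : ℤ) ∣ 2 * (r : ℤ) - u ∧
        (m' : ℤ) ∣ 2 * (r : ℤ) - u') ⊆
        (Ioc R (2 * R)).filter (fun r : ℕ => ((Nat.lcm m m' : ℕ) : ℤ) ∣ 2 * (r : ℤ) - 2 * (r₀ : ℤ)) := by
      intro r hr
      rw [Finset.mem_filter] at hr ⊢
      refine ⟨hr.1, ?_⟩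
      have e1 : 2 * (r : ℤ) - 2 * (r₀ : ℤ) = (2 * (r : ℤ) - u) - (2 * (r₀ : ℤ) - u) := by ring
      have e2 : 2 * (r : ℤ) - 2 * (r₀ : ℤ) = (2 * (r : ℤ) - u') - (2 * (r₀ : ℤ) - u') := by ring
      have d1 : (m : ℤ) ∣ 2 * (r : ℤ) - 2 * (r₀ : ℤ) := by
        rw [e1]
        exact dvd_sub hr.2.1 h1
      have d2 : (m' : ℤ) ∣ 2 * (r : ℤ) - 2 * (r₀ : ℤ) := by
        rw [e2]
        exact dvd_sub hr.2.2 h2
      rw [Int.natCast_dvd] at d1 d2 ⊢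
      exact Nat.lcm_dvd d1 d2
    have h5 : (#((Ioc R (2 * R)).filter (fun r : ℕ => (m : ℤ) ∣ 2 * (r : ℤ) - u ∧
        (m' : ℤ) ∣ 2 * (r : ℤ) - u')) : ℝ) ≤
        #((Ioc R (2 * R)).filter (fun r : ℕ =>
          ((Nat.lcm m m' : ℕ) : ℤ) ∣ 2 * (r : ℤ) - 2 * (r₀ : ℤ))) := by
      exact_mod_cast Finset.card_le_card h4
    have h6 : (R : ℝ) / (Nat.lcm m m' : ℕ) = (R : ℝ) * (Nat.gcd m m') / ((m : ℝ) * m') := by
      have hm0 : (0 : ℝ) < m := by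
        obtain ⟨k, hk⟩ := hm
        exact_mod_cast (by omega : 0 < m)
      have hm0' : (0 : ℝ) < m' := by
        obtain ⟨k, hk⟩ := hm'
        exact_mod_cast (by omega : 0 < m')
      have hl0 : (0 : ℝ) < (Nat.lcm m m' : ℕ) := by
        obtain ⟨k, hk⟩ := hl
        exact_mod_cast (by omega : 0 < Nat.lcm m m')
      have h7 : ((Nat.gcd m m' : ℕ) : ℝ) * (Nat.lcm m m' : ℕ) = (m : ℝ) * m' := by
        exact_mod_cast Nat.gcd_mul_lcm m m'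
      rw [div_eq_div_iff hl0.ne' (by positivity), ← h7]
      ring
    have h7 := (abs_le.1 h3).2
    linarith

end Pool.Agent.Work.MP_34d05d_al.DO
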