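import Pool.Agent.Work.MP_34d05d_al.A4
import Pool.Agent.Work.MP_34d05d_al.DO.Defs

set_option autoImplicit false

/-!
# Definitions for the truncated automorphism groups (FIXED, proved)
-/

namespace Pool.Agent.Work.MP_34d05d_al.DO

open Pool.Agent.Work.MP_34d05d_al Polynomial

variable {K : Type} [Field K] {n : ℕ}

/-- depth at least `d` -/
def Dp (d : ℕ) (σ : TP K n ≃ₐ[K] TP K n) : Prop := (rt K n) ^ (d + 1) ∣ σ (rt K n) - rt K n

/-- depth exactly `d` -/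
def Ex (d : ℕ) (σ : TP K n ≃ₐ[K] TP K n) : Prop := Dp d σ ∧ ¬ Dp (d + 1) σ

/-- the leading coefficient is `ε` -/
def Ld (ε : ℤˣ) (σ : TP K n ≃ₐ[K] TP K n) : Prop :=
  (rt K n) ^ 2 ∣ σ (rt K n) - ((ε : ℤ) : TP K n) * rt K n

theorem ld_one_iff (σ : TP K n ≃ₐ[K] TP K n) : Ld 1 σ ↔ Dp 1 σ := by
  unfold Ld Dp
  simp

theorem ld_mul {ε δ : ℤˣ} {σ τ : TP K n ≃ₐ[K] TP K n} (h1 : Ld ε σ) (h2 : Ld δ τ) :
    Ld (ε * δ) (σ * τ) := by
  obtain ⟨s, hs⟩ := h1
  obtain ⟨t, ht⟩ := h2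
  have e1 : σ (rt K n) = ((ε : ℤ) : TP K n) * rt K n + (rt K n) ^ 2 * s := by rw [← hs]; ring
  have e2 : τ (rt K n) = ((δ : ℤ) : TP K n) * rt K n + (rt K n) ^ 2 * t := by rw [← ht]; ring
  refine ⟨((δ : ℤ) : TP K n) * s + (((ε : ℤ) : TP K n) + rt K n * s) ^ 2 * σ t, ?_⟩
  rw [AlgEquiv.mul_apply, e2, map_add, map_mul, map_mul, map_pow, map_intCast, e1]
  push_cast
  ring

theorem ld_inv {ε : ℤˣ} {σ : TP K n ≃ₐ[K] TP K n} (h1 : Ld ε σ) : Ld ε⁻¹ σ⁻¹ := by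
  obtain ⟨s, hs⟩ := h1
  have e1 : σ (rt K n) = ((ε : ℤ) : TP K n) * rt K n + (rt K n) ^ 2 * s := by rw [← hs]; ring
  obtain ⟨t, u, ht, hu⟩ := aut_form σ⁻¹
  have e2 : rt K n = σ (σ⁻¹ (rt K n)) := by
    have : σ (σ⁻¹ (rt K n)) = (σ * σ⁻¹) (rt K n) := rfl
    rw [this, mul_inv_cancel, AlgEquiv.one_apply]
  rw [hu, map_mul, map_add, map_mul, AlgEquiv.commutes, e1] at e2
  -- rt (1 - ε t) is divisible by rt^2
  have hε : ((ε : ℤ) : TP K n) * ((ε : ℤ) : TP K n) = 1 := by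
    have : ((ε : ℤ) * (ε : ℤ)) = 1 := by
      rw [← Units.val_mul, Int.units_mul_self]; rfl
    exact_mod_cast congrArg (Int.cast : ℤ → TP K n) this
  have hinv : ((ε⁻¹ : ℤˣ) : ℤ) = (ε : ℤ) := by rw [Int.units_inv_eq_self]
  have hc : t = ((ε : ℤ) : K) := by
    by_contra hne
    have hne' : t - ((ε : ℤ) : K) ≠ 0 := sub_ne_zero.mpr hne
    obtain ⟨v, hv⟩ := ((IsUnit.mk0 _ hne').map (algebraMap K (TP K n))).exists_left_inv
    rw [map_sub, map_intCast] at hv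
    have h3 : rt K n = (rt K n) ^ 2 * (v * (-(((ε : ℤ) : TP K n) * (s * (algebraMap K (TP K n) t +
        (((ε : ℤ) : TP K n) * rt K n + (rt K n) ^ 2 * s) * σ u) + ((ε : ℤ) : TP K n) *
          (((ε : ℤ) : TP K n) + rt K n * s) * σ u)))) := by
      have h4 : rt K n * (algebraMap K (TP K n) t - ((ε : ℤ) : TP K n)) =
          (rt K n) ^ 2 * (-(((ε : ℤ) : TP K n) * (s * (algebraMap K (TP K n) t +
        (((ε : ℤ) : TP K n) * rt K n + (rt K n) ^ 2 * s) * σ u) + ((ε : ℤ) : TP K n) *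
          (((ε : ℤ) : TP K n) + rt K n * s) * σ u))) := by
        linear_combination (-((ε : ℤ) : TP K n)) * e2 - (rt K n * algebraMap K (TP K n) t +
          rt K n ^ 2 * σ u * (((ε : ℤ) : TP K n) + rt K n * s)) * hε +
          (rt K n ^ 2 * σ u * (((ε : ℤ) : TP K n) + rt K n * s)) * hε
      calc rt K n = (v * (algebraMap K (TP K n) t - ((ε : ℤ) : TP K n))) * rt K n := by
            rw [hv, one_mul]
        _ = v * (rt K n * (algebraMap K (TP K n) t - ((ε : ℤ) : TP K n))) := by ring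
        _ = _ := by rw [h4]; ring
    apply rt_pow_ne (K := K) (n := n)
    generalize (v * (-(((ε : ℤ) : TP K n) * (s * (algebraMap K (TP K n) t +
        (((ε : ℤ) : TP K n) * rt K n + (rt K n) ^ 2 * s) * σ u) + ((ε : ℤ) : TP K n) *
          (((ε : ℤ) : TP K n) + rt K n * s) * σ u)))) = W at h3
    calc (rt K n) ^ (n + 1) = (rt K n) ^ n * rt K n := pow_succ _ _
      _ = (rt K n) ^ n * ((rt K n) ^ 2 * W) := by rw [← h3]
      _ = (rt K n) ^ (n + 2) * W := by ring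
      _ = 0 := by rw [rt_pow, zero_mul]
  refine ⟨u, ?_⟩
  rw [hu, hc, hinv, map_intCast]
  ring

/-- the group `X` of the automorphisms with leading coefficient `1` or `-1` -/
noncomputable def XX (K : Type) [Field K] (n : ℕ) : Subgroup ((TP K n ≃ₐ[K] TP K n) × ℤˣ) where
  carrier := {x | Ld x.2 x.1}
  mul_mem' {a b} ha hb := ld_mul ha hb
  one_mem' := by
    change Ld 1 1
    rw [ld_one_iff]
    unfold Dp
    simp
  inv_mem' {a} ha := ld_inv ha

/-- its sign homomorphism -/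
noncomputable def sX (K : Type) [Field K] (n : ℕ) : XX K n →* ℤˣ :=
  (MonoidHom.snd (TP K n ≃ₐ[K] TP K n) ℤˣ).comp (XX K n).subtype

end Pool.Agent.Work.MP_34d05d_al.DO
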