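import Pool.Agent.Work.MP_34d05d_al.DO.TDefs

set_option autoImplicit false

/-!
# DO/TLie (size M): commutators of automorphisms of given depth

x := rt K n. PROOFS (see A2: `el_dvd`, `case2` for the technique; `Polynomial.powAddExpansion`).
`shift`: if σ x = x + x^(d+1) s, d ≥ 1, then σ (x^k r) - x^k r ∈ x^(k+d) R: `el_dvd` with ε := σ, j := d, c := s.
`lie`: σ (τ x) = σ x + c (σ x)^(i+1) + σ (x^(i+2) s'); (σ x)^(i+1) = x^(i+1) (1 + a x^d + x^(d+1) s)^(i+1) =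
x^(i+1) + (i+1) a x^(i+1+d) mod x^(i+d+2) (powAddExpansion); σ (x^(i+2) s') = x^(i+2) s' mod x^(i+2+d) (shift). So
σ τ x = σ x + (τ x - x) + (i+1) a c x^(i+d+1) mod x^(i+d+2). By symmetry τ σ x = τ x + (σ x - x) + (d+1) a c
x^(i+d+1). Subtract: (i - d) a c x^(i+d+1).
`comm_of`: σ (τ x - x) - (τ x - x) ∈ x^(i+1+d) R = 0 as i+1+d ≥ n+2 (shift, rt_pow_zero), so σ τ x = σ x + τ x - x;
by symmetry = τ σ x; `aut_ext`.
`comm_depth`: write σ x = x + a x^(d+1) + x^(d+2) s with a ≠ 0 (σ x - x = x^(d+1) r, `dec r`; a ≠ 0 as not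
Dp (d+1)), τ likewise with c ≠ 0. If i ≠ d and i + d ≤ n: `lie` and commutation give a c (i - d) x^(i+d+1) ∈ x^(i+d+2) R;
a c (i-d) ≠ 0 in K (|i - d| ≤ n, hchar), a unit; multiply by x^(n-i-d): x^(n+1) ∈ x^(n+2) R = 0, contradiction with
`rt_pow_ne`.
`odd_no`: σ x = x + a x^(d+1) + x^(d+2) s, a ≠ 0, d odd; τ x = -x + x² t. τ σ x = τ x + a (τ x)^(d+1) + (τ x)^(d+2) τ s
= τ x + a x^(d+1) mod x^(d+2) (d+1 even). σ τ x = -σ x + σ (x² t) = -x - a x^(d+1) + x² t mod x^(d+2)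
(shift: σ (x² t) - x² t ∈ x^(d+2) R) = τ x - a x^(d+1). So 2 a x^(d+1) ∈ x^(d+2) R, contradiction for d ≤ n
(2 a ≠ 0 unit, multiply by x^(n-d)).
-/

namespace Pool.Agent.Work.MP_34d05d_al.DO

open Pool.Agent.Work.MP_34d05d_al Polynomial

variable {K : Type} [Field K] {n : ℕ}

theorem shift (σ : TP K n ≃ₐ[K] TP K n) (d : ℕ) (hσ : Dp d σ) (k : ℕ) (r : TP K n) :
    (rt K n) ^ (k + d) ∣ σ ((rt K n) ^ k * r) - (rt K n) ^ k * r := by
  obtain ⟨s, hs⟩ := hσ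
  obtain ⟨r', hr'⟩ := el_dvd σ d s (by linear_combination hs) k r
  exact ⟨r', by rw [hr']; ring⟩

private theorem dp_of (σ : TP K n ≃ₐ[K] TP K n) (d : ℕ) (a : K) (s : TP K n)
    (hσ : σ (rt K n) = rt K n + algebraMap K (TP K n) a * (rt K n) ^ (d + 1) +
      (rt K n) ^ (d + 2) * s) : Dp d σ :=
  ⟨algebraMap K (TP K n) a + rt K n * s, by rw [hσ]; ring⟩

private theorem lie1 (σ τ : TP K n ≃ₐ[K] TP K n) (i d : ℕ) (hd : 1 ≤ d) (a c : K)
    (s s' : TP K n)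
    (hσ : σ (rt K n) = rt K n + algebraMap K (TP K n) a * (rt K n) ^ (d + 1) +
      (rt K n) ^ (d + 2) * s)
    (hτ : τ (rt K n) = rt K n + algebraMap K (TP K n) c * (rt K n) ^ (i + 1) +
      (rt K n) ^ (i + 2) * s') :
    ∃ R : TP K n, σ (τ (rt K n)) = σ (rt K n) + algebraMap K (TP K n) c * (rt K n) ^ (i + 1) +
      (rt K n) ^ (i + 2) * s' + algebraMap K (TP K n) a * algebraMap K (TP K n) c *
        ((i : TP K n) + 1) * (rt K n) ^ (i + d + 1) + (rt K n) ^ (i + d + 2) * R := by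
  obtain ⟨d', rfl⟩ := Nat.exists_eq_add_of_le' hd
  obtain ⟨r, hr⟩ := shift σ (d' + 1) (dp_of σ (d' + 1) a s hσ) (i + 2) s'
  have hr2 : σ ((rt K n) ^ (i + 2) * s') = (rt K n) ^ (i + 2) * s' +
      (rt K n) ^ (i + 2 + (d' + 1)) * r := by linear_combination hr
  obtain ⟨q, hq⟩ := Polynomial.powAddExpansion (1 : TP K n)
    ((rt K n) ^ (d' + 1) * (algebraMap K (TP K n) a + rt K n * s)) (i + 1)
  have e1 : (σ (rt K n)) ^ (i + 1) = (rt K n) ^ (i + 1) * (1 + ((i + 1 : ℕ) : TP K n) *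
      ((rt K n) ^ (d' + 1) * (algebraMap K (TP K n) a + rt K n * s)) +
      q * ((rt K n) ^ (d' + 1) * (algebraMap K (TP K n) a + rt K n * s)) ^ 2) := by
    have e2 : σ (rt K n) = rt K n * (1 + (rt K n) ^ (d' + 1) *
        (algebraMap K (TP K n) a + rt K n * s)) := by rw [hσ]; ring
    rw [e2, mul_pow, hq, one_pow, one_pow]
    ring
  refine ⟨algebraMap K (TP K n) c * (((i : TP K n) + 1) * s +
    q * (rt K n) ^ d' * (algebraMap K (TP K n) a + rt K n * s) ^ 2) + r, ?_⟩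
  conv_lhs => rw [hτ, map_add, map_add, map_mul, map_pow, AlgEquiv.commutes, hr2, e1]
  push_cast
  ring

theorem lie (σ τ : TP K n ≃ₐ[K] TP K n) (i d : ℕ) (hi : 1 ≤ i) (hd : 1 ≤ d) (a c : K)
    (s s' : TP K n)
    (hσ : σ (rt K n) = rt K n + algebraMap K (TP K n) a * (rt K n) ^ (d + 1) +
      (rt K n) ^ (d + 2) * s)
    (hτ : τ (rt K n) = rt K n + algebraMap K (TP K n) c * (rt K n) ^ (i + 1) +
      (rt K n) ^ (i + 2) * s') :
    ∃ r : TP K n, σ (τ (rt K n)) = τ (σ (rt K n)) +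
      algebraMap K (TP K n) (a * c * ((i : K) - d)) * (rt K n) ^ (i + d + 1) +
        (rt K n) ^ (i + d + 2) * r := by
  obtain ⟨R1, h1⟩ := lie1 σ τ i d hd a c s s' hσ hτ
  obtain ⟨R2, h2⟩ := lie1 τ σ d i hi c a s' s hτ hσ
  have e1 : (rt K n) ^ (d + i + 1) = (rt K n) ^ (i + d + 1) := by rw [add_comm d i]
  have e2 : (rt K n) ^ (d + i + 2) = (rt K n) ^ (i + d + 2) := by rw [add_comm d i]
  rw [e1, e2] at h2
  refine ⟨R1 - R2, ?_⟩
  rw [map_mul, map_mul, map_sub, map_natCast, map_natCast]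
  linear_combination h1 - h2 + hσ - hτ

theorem comm_of (σ τ : TP K n ≃ₐ[K] TP K n) (i d : ℕ) (hi : 1 ≤ i) (hd : 1 ≤ d)
    (h : n + 1 ≤ i + d) (hσ : Dp d σ) (hτ : Dp i τ) : Commute σ τ := by
  obtain ⟨s, hs⟩ := id hσ
  obtain ⟨t, ht⟩ := id hτ
  obtain ⟨r1, h1⟩ := shift σ d hσ (i + 1) t
  obtain ⟨r2, h2⟩ := shift τ i hτ (d + 1) s
  rw [rt_pow_zero (show n + 2 ≤ i + 1 + d by omega), zero_mul, ← ht, map_sub] at h1
  rw [rt_pow_zero (show n + 2 ≤ d + 1 + i by omega), zero_mul, ← hs, map_sub] at h2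
  refine aut_ext _ _ ?_
  rw [AlgEquiv.mul_apply, AlgEquiv.mul_apply]
  linear_combination h1 - h2

/-- no relation between consecutive powers -/
private theorem no_rel (b : K) (hb : b ≠ 0) (m : ℕ) (hm : m ≤ n + 1) (r : TP K n)
    (h : algebraMap K (TP K n) b * (rt K n) ^ m = (rt K n) ^ (m + 1) * r) : False := by
  obtain ⟨k, hk⟩ := Nat.exists_eq_add_of_le hm
  have h1 : algebraMap K (TP K n) b * (rt K n) ^ (n + 1) = 0 := by
    calc algebraMap K (TP K n) b * (rt K n) ^ (n + 1)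
        = (algebraMap K (TP K n) b * (rt K n) ^ m) * (rt K n) ^ k := by
          rw [hk, mul_assoc]
          exact congrArg _ (pow_add (rt K n) m k)
      _ = (rt K n) ^ (m + k + 1) * r := by rw [h]; ring
      _ = 0 := by rw [← hk, rt_pow, zero_mul]
  have h2 : algebraMap K (TP K n) b⁻¹ * algebraMap K (TP K n) b = 1 := by
    rw [← map_mul, inv_mul_cancel₀ hb, map_one]
  apply rt_pow_ne (K := K) (n := n)
  calc (rt K n) ^ (n + 1) = algebraMap K (TP K n) b⁻¹ *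
        (algebraMap K (TP K n) b * (rt K n) ^ (n + 1)) := by rw [← mul_assoc, h2, one_mul]
    _ = 0 := by rw [h1, mul_zero]

private theorem ex_form (σ : TP K n ≃ₐ[K] TP K n) (d : ℕ) (hσ : Ex d σ) :
    ∃ (a : K) (s : TP K n), a ≠ 0 ∧ σ (rt K n) = rt K n +
      algebraMap K (TP K n) a * (rt K n) ^ (d + 1) + (rt K n) ^ (d + 2) * s := by
  obtain ⟨⟨r, hr⟩, h2⟩ := hσ
  obtain ⟨a, s, hs⟩ := dec r
  have h3 : σ (rt K n) = rt K n +
      algebraMap K (TP K n) a * (rt K n) ^ (d + 1) + (rt K n) ^ (d + 2) * s := by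
    rw [hs] at hr
    linear_combination hr
  refine ⟨a, s, fun ha => h2 ⟨s, ?_⟩, h3⟩
  rw [h3, ha, map_zero]
  ring

theorem comm_depth (hchar : ∀ m : ℕ, 0 < m → m ≤ n → (m : K) ≠ 0) (σ τ : TP K n ≃ₐ[K] TP K n)
    (i d : ℕ) (hi : 1 ≤ i) (hd : 1 ≤ d) (hσ : Ex d σ) (hτ : Ex i τ) (h : Commute σ τ) :
    i = d ∨ n + 1 ≤ i + d := by
  by_contra hcon
  push Not at hcon
  obtain ⟨hne, hlt⟩ := hcon
  obtain ⟨a, s, ha, hs⟩ := ex_form σ d hσ
  obtain ⟨c, t, hc, ht⟩ := ex_form τ i hτ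
  obtain ⟨r, hr⟩ := lie σ τ i d hi hd a c s t hs ht
  have h1 : σ (τ (rt K n)) = τ (σ (rt K n)) := by
    have := congrArg (fun f : TP K n ≃ₐ[K] TP K n => f (rt K n)) h.eq
    exact this
  have h2 : (i : K) - d ≠ 0 := by
    rcases Nat.lt_or_gt_of_ne hne with h3 | h3
    · have h4 := hchar (d - i) (by omega) (by omega)
      rw [Nat.cast_sub h3.le] at h4
      intro h5
      apply h4
      linear_combination -h5
    · have h4 := hchar (i - d) (by omega) (by omega)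
      rw [Nat.cast_sub h3.le] at h4
      exact h4
  refine no_rel (a * c * ((i : K) - d)) (mul_ne_zero (mul_ne_zero ha hc) h2) (i + d + 1)
    (by omega) (-r) ?_
  linear_combination h1 - hr

theorem odd_no (h2 : (2 : K) ≠ 0) (σ τ : TP K n ≃ₐ[K] TP K n) (d : ℕ) (hd : 1 ≤ d) (hdn : d ≤ n)
    (ho : Odd d) (hσ : Ex d σ) (hτ : Ld (-1) τ) : ¬ Commute σ τ := by
  intro h
  obtain ⟨a, s, ha, hs⟩ := ex_form σ d hσ
  obtain ⟨t, ht0⟩ := hτ
  have ht : τ (rt K n) = -rt K n + (rt K n) ^ 2 * t := by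
    have e : (((-1 : ℤˣ) : ℤ) : TP K n) = -1 := by simp
    rw [e] at ht0
    linear_combination ht0
  have h1 : σ (τ (rt K n)) = τ (σ (rt K n)) := by
    have := congrArg (fun f : TP K n ≃ₐ[K] TP K n => f (rt K n)) h.eq
    exact this
  obtain ⟨r, hr⟩ := shift σ d hσ.1 2 t
  have h3 : σ (τ (rt K n)) = -σ (rt K n) + ((rt K n) ^ 2 * t + (rt K n) ^ (2 + d) * r) := by
    rw [ht, map_add, map_neg]
    linear_combination hr
  obtain ⟨u, hu⟩ := sub_dvd_pow_sub_pow (-1 + rt K n * t) (-1) (d + 1)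
  have hev : (-1 : TP K n) ^ (d + 1) = 1 := Even.neg_one_pow (Odd.add_one ho)
  have h4 : (τ (rt K n)) ^ (d + 1) = (rt K n) ^ (d + 1) * (1 + rt K n * t * u) := by
    have e1 : τ (rt K n) = rt K n * (-1 + rt K n * t) := by rw [ht]; ring
    rw [e1, mul_pow]
    rw [hev] at hu
    linear_combination (rt K n) ^ (d + 1) * hu
  have h5 : τ ((rt K n) ^ (d + 2) * s) = (rt K n) ^ (d + 2) * ((-1 + rt K n * t) ^ (d + 2) *
      τ s) := by
    have e1 : τ (rt K n) = rt K n * (-1 + rt K n * t) := by rw [ht]; ring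
    rw [map_mul, map_pow, e1, mul_pow]
    ring
  have h6 : τ (σ (rt K n)) = τ (rt K n) + algebraMap K (TP K n) a *
      ((rt K n) ^ (d + 1) * (1 + rt K n * t * u)) +
      (rt K n) ^ (d + 2) * ((-1 + rt K n * t) ^ (d + 2) * τ s) := by
    rw [hs, map_add, map_add, map_mul, map_pow, AlgEquiv.commutes, h4, h5]
  refine no_rel (2 * a) (mul_ne_zero h2 ha) (d + 1) (by omega)
    (r - s - algebraMap K (TP K n) a * t * u - (-1 + rt K n * t) ^ (d + 2) * τ s) ?_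
  rw [map_mul, map_ofNat]
  rw [h3, h6, ht, hs] at h1
  linear_combination -h1

end Pool.Agent.Work.MP_34d05d_al.DO
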