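import Pool.Agent.Work.MP_34d05d_al.DO.TDefs

set_option autoImplicit false

/-!
# DO/TNf (size M): the normal form x + a x^(d+1) + b x^(2d+1)

x := rt K n. PROOF. Adapt A3.normal (same induction, with t = 1 and recording that the conjugating element has depth
≥ 1). Claim for k with d < k ≤ n+1: there are ε with Dp 1 ε and b ∈ K such that σ' := ε σ ε⁻¹ satisfies
x^(k+1) ∣ σ' x - (x + a x^(d+1) + b x^(2d+1)), a ≠ 0 fixed (if 2d ≥ k, b is irrelevant modulo x^(k+1)). Base k = d+1: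
σ x = x + x^(d+1)(a + x s) (`dec`), a ≠ 0 as not Dp (d+1), b = 0, ε = 1 (if 2d+1 = d+1... d ≥ 1 so 2d+1 ≥ d+2).
Step k → k+1 (k ≤ n): σ' x = x + a x^(d+1) + b x^(2d+1) + x^(k+1)(c + x s). Put j := k - d ≥ 1. If j = d (k = 2d):
replace b by b + c. If j ≠ d: A2.case2 with t = 1, lam := -c gives ε' with ε' σ' ε'⁻¹ x = σ' x - c x^(k+1) mod x^(k+2)
((d : K) ≠ (j : K) by hchar, both ≤ n and different). case2 is stated as an existence; its ε' comes from `exists_el j`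
(ε' x = x + C x^(j+1)), which has depth ≥ 1: since the statement does not record it, COPY the proof of case2 with the
extra conclusion Dp 1 ε' (refine ⟨ε, ?_, ?_⟩; Dp 1 from hε : ε x = x + C x^(j+1), j ≥ 1). At the end k = n+1:
x^(n+2) = 0. Products of elements of depth ≥ 1 have depth ≥ 1 (`ld_mul`, `ld_one_iff`).
-/

namespace Pool.Agent.Work.MP_34d05d_al.DO

open Pool.Agent.Work.MP_34d05d_al Polynomial

variable {K : Type} [Field K] {n : ℕ}

private theorem case2' (σ : TP K n ≃ₐ[K] TP K n) (d j : ℕ) (hd : 1 ≤ d) (hj : 1 ≤ j) (t a : K)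
    (s : TP K n)
    (hσ : σ (rt K n) = algebraMap K (TP K n) t * rt K n +
      algebraMap K (TP K n) a * (rt K n) ^ (d + 1) + (rt K n) ^ (d + 2) * s)
    (ha : a ≠ 0) (htj : t ^ j = 1) (hdj : (d : K) ≠ (j : K)) (lam : K) :
    ∃ ε : TP K n ≃ₐ[K] TP K n, Dp 1 ε ∧
      (rt K n) ^ (d + j + 2) ∣ (ε * σ * ε⁻¹) (rt K n) -
        (σ (rt K n) + algebraMap K (TP K n) lam * (rt K n) ^ (d + j + 1)) := by
  have h1 : (d - j : K) ≠ 0 := sub_ne_zero.mpr hdj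
  obtain ⟨c, hc⟩ : ∃ c : K, lam = a * c * (d - j) := by
    refine ⟨lam / (a * (d - j)), ?_⟩
    field_simp
  obtain ⟨ε, hε⟩ := exists_el (n := n) j hj c
  refine ⟨ε, ?_, ?_⟩
  · unfold Dp
    rw [hε, add_sub_cancel_left]
    exact dvd_mul_of_dvd_right (pow_dvd_pow _ (by omega)) _
  set x := rt K n with hx
  set T := algebraMap K (TP K n) t with hT
  set A := algebraMap K (TP K n) a with hA
  set C := algebraMap K (TP K n) c with hC
  set Λ := algebraMap K (TP K n) lam with hΛ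
  have hΛ2 : Λ = A * C * ((d : TP K n) - (j : TP K n)) := by
    rw [hΛ, hc, hC, hA]
    simp only [map_mul, map_sub, map_natCast]
  have hTj : T ^ j = 1 := by rw [hT, ← map_pow, htj, map_one]
  obtain ⟨j', rfl⟩ := Nat.exists_eq_add_of_le' hj
  obtain ⟨d', rfl⟩ := Nat.exists_eq_add_of_le' hd
  obtain ⟨V, hV⟩ : ∃ V, V = A + x * s + Λ * x ^ (j' + 1) := ⟨_, rfl⟩
  have hzx : σ x + Λ * x ^ (d' + 1 + (j' + 1) + 1) = x * (T + x ^ (d' + 1) * V) := by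
    rw [hσ, hV]; ring
  have hz : (σ x + Λ * x ^ (d' + 1 + (j' + 1) + 1)) ^ (n + 2) = 0 := by
    rw [hzx]; exact pow_rt_mul_zero _
  apply conj_mod σ ε _ _ hz
  have e1 : hm (σ x + Λ * x ^ (d' + 1 + (j' + 1) + 1)) hz (ε x) =
      (σ x + Λ * x ^ (d' + 1 + (j' + 1) + 1)) +
        C * (σ x + Λ * x ^ (d' + 1 + (j' + 1) + 1)) ^ (j' + 1 + 1) := by
    rw [hε, map_add, map_mul, map_pow, hm_rt, hC, AlgHom.commutes]
  rw [e1]
  obtain ⟨q, hq⟩ := Polynomial.powAddExpansion T (x ^ (d' + 1) * V) (j' + 1 + 1)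
  have e2 : (σ x + Λ * x ^ (d' + 1 + (j' + 1) + 1)) ^ (j' + 1 + 1) =
      x ^ (j' + 1 + 1) * (T +
      ((j' + 1 + 1 : ℕ) : TP K n) * (x ^ (d' + 1) * V) +
        q * (x ^ (d' + 1) * V) ^ 2) := by
    rw [hzx, mul_pow, hq, Nat.add_sub_cancel, hTj, pow_succ T (j' + 1), hTj]
    ring
  rw [e2]
  obtain ⟨r, hr⟩ := el_dvd ε (j' + 1) C hε (d' + 1 + 2) s
  obtain ⟨q', hq'⟩ := Polynomial.powAddExpansion (1 : TP K n) (C * x ^ (j' + 1)) (d' + 1 + 1)
  have e5 : (x + C * x ^ (j' + 1 + 1)) ^ (d' + 1 + 1) = x ^ (d' + 1 + 1) * (1 +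
      ((d' + 1 + 1 : ℕ) : TP K n) * (C * x ^ (j' + 1)) + q' * (C * x ^ (j' + 1)) ^ 2) := by
    have : x + C * x ^ (j' + 1 + 1) = x * (1 + C * x ^ (j' + 1)) := by ring
    rw [this, mul_pow, hq', one_pow, one_pow]
    ring
  have e4 : ε (σ x) = T * (x + C * x ^ (j' + 1 + 1)) + A * (x ^ (d' + 1 + 1) * (1 +
      ((d' + 1 + 1 : ℕ) : TP K n) * (C * x ^ (j' + 1)) + q' * (C * x ^ (j' + 1)) ^ 2)) +
      (x ^ (d' + 1 + 2) * s + x ^ (d' + 1 + 2 + (j' + 1)) * r) := by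
    rw [hσ, map_add, map_add, hr, map_mul, map_mul, map_pow, hε, e5, hT, hA, AlgEquiv.commutes,
      AlgEquiv.commutes]
  rw [e4, hσ]
  refine ⟨C * ((j' + 1 + 1 : ℕ) : TP K n) * (s + Λ * x ^ j') + C * q * x ^ d' * V ^ 2 -
    A * q' * C ^ 2 * x ^ j' - r, ?_⟩
  rw [hV, hΛ2]
  push_cast
  ring

private theorem dp_mul' {σ τ : TP K n ≃ₐ[K] TP K n} (h1 : Dp 1 σ) (h2 : Dp 1 τ) : Dp 1 (σ * τ) := by
  rw [← ld_one_iff] at h1 h2 ⊢
  have := ld_mul h1 h2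
  rwa [one_mul] at this

private theorem nf_aux (hchar : ∀ m : ℕ, 0 < m → m ≤ n → (m : K) ≠ 0) (d : ℕ) (h1 : 1 ≤ d)
    (h2 : d ≤ n) (σ : TP K n ≃ₐ[K] TP K n) (hσ : Ex d σ) :
    ∀ k : ℕ, d + 1 ≤ k → k ≤ n + 1 → ∃ (ε : TP K n ≃ₐ[K] TP K n) (a b : K), Dp 1 ε ∧ a ≠ 0 ∧
      (rt K n) ^ (k + 1) ∣ (ε * σ * ε⁻¹) (rt K n) - (rt K n +
        algebraMap K (TP K n) a * (rt K n) ^ (d + 1) +
        algebraMap K (TP K n) b * (rt K n) ^ (2 * d + 1)) := by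
  intro k hk
  induction k, hk using Nat.le_induction with
  | base =>
    intro _
    obtain ⟨⟨r, hr⟩, hnd⟩ := hσ
    obtain ⟨a, s, rfl⟩ := dec r
    refine ⟨1, a, 0, ?_, ?_, ?_⟩
    · unfold Dp
      simp
    · rintro rfl
      apply hnd
      refine ⟨s, ?_⟩
      rw [hr, map_zero]
      ring
    · refine ⟨s, ?_⟩
      have e : (1 * σ * 1⁻¹ : TP K n ≃ₐ[K] TP K n) = σ := by
        rw [one_mul, inv_one, mul_one]
      have e2 : σ (rt K n) = rt K n + (rt K n) ^ (d + 1) *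
          (algebraMap K (TP K n) a + rt K n * s) := by rw [← hr]; ring
      rw [e, e2, map_zero]
      ring
  | succ k hk ih =>
    intro hkn
    obtain ⟨ε, a, b, hε, ha, r, hr⟩ := ih (by omega)
    obtain ⟨c, s, rfl⟩ := dec r
    obtain ⟨d', rfl⟩ := Nat.exists_eq_add_of_le' h1
    obtain ⟨j, rfl⟩ : ∃ j, k = d' + 1 + (j + 1) := ⟨k - (d' + 1) - 1, by omega⟩
    have hσ' : (ε * σ * ε⁻¹) (rt K n) = rt K n +
          algebraMap K (TP K n) a * (rt K n) ^ (d' + 1 + 1) +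
          algebraMap K (TP K n) b * (rt K n) ^ (2 * (d' + 1) + 1) +
          (rt K n) ^ (d' + 1 + (j + 1) + 1) * (algebraMap K (TP K n) c + rt K n * s) := by
        rw [← hr]; ring
    by_cases hjd : d' = j
    · subst hjd
      refine ⟨ε, a, b + c, hε, ha, s, ?_⟩
      rw [hσ', map_add]
      ring
    · have hdj : ((d' + 1 : ℕ) : K) ≠ ((j + 1 : ℕ) : K) := by
        intro h
        rcases lt_or_gt_of_ne hjd with h1 | h1
        · apply hchar (j + 1 - (d' + 1)) (by omega) (by omega)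
          rw [Nat.cast_sub (by omega), h, sub_self]
        · apply hchar (d' + 1 - (j + 1)) (by omega) (by omega)
          rw [Nat.cast_sub (by omega), h, sub_self]
      have hσ2 : (ε * σ * ε⁻¹) (rt K n) = algebraMap K (TP K n) 1 * rt K n +
          algebraMap K (TP K n) a * (rt K n) ^ (d' + 1 + 1) +
          (rt K n) ^ (d' + 1 + 2) * (algebraMap K (TP K n) b * (rt K n) ^ d' +
            (rt K n) ^ j * (algebraMap K (TP K n) c + rt K n * s)) := by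
        rw [hσ', map_one]; ring
      obtain ⟨ε', hd', w, hw⟩ := case2' (ε * σ * ε⁻¹) (d' + 1) (j + 1) (by omega) (by omega) 1 a _
        hσ2 ha (one_pow _) hdj (-c)
      refine ⟨ε' * ε, a, b, dp_mul' hd' hε, ha, w + s, ?_⟩
      have e0 : ε' * ε * σ * (ε' * ε)⁻¹ = ε' * (ε * σ * ε⁻¹) * ε'⁻¹ := by group
      have e : (ε' * (ε * σ * ε⁻¹) * ε'⁻¹) (rt K n) = (ε * σ * ε⁻¹) (rt K n) +
          algebraMap K (TP K n) (-c) * (rt K n) ^ (d' + 1 + (j + 1) + 1) +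
            (rt K n) ^ (d' + 1 + (j + 1) + 2) * w := by rw [← hw]; ring
      rw [e0, e, hσ', map_neg]
      ring

theorem normal_form (hchar : ∀ m : ℕ, 0 < m → m ≤ n → (m : K) ≠ 0) (d : ℕ) (h1 : 1 ≤ d)
    (h2 : d ≤ n) (σ : TP K n ≃ₐ[K] TP K n) (hσ : Ex d σ) :
    ∃ (ε : TP K n ≃ₐ[K] TP K n) (a b : K), Dp 1 ε ∧
      (ε * σ * ε⁻¹) (rt K n) = rt K n + algebraMap K (TP K n) a * (rt K n) ^ (d + 1) +
        algebraMap K (TP K n) b * (rt K n) ^ (2 * d + 1) := by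
  obtain ⟨ε, a, b, h3, -, h4⟩ := nf_aux hchar d h1 h2 σ hσ (n + 1) (by omega) le_rfl
  refine ⟨ε, a, b, h3, ?_⟩
  rwa [show (rt K n) ^ (n + 1 + 1) = 0 from rt_pow, zero_dvd_iff, sub_eq_zero] at h4

end Pool.Agent.Work.MP_34d05d_al.DO
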