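import Pool.Agent.Work.MP_34d05d_al.DO.TCard

set_option autoImplicit false

/-!
# DO/TSum (size S-M): summation over the depth, and the closed forms

PROOFS.
`sum_depth`: the set {σ : Dp 1 σ} is the disjoint union of {1} (= {Dp (n+1)}: Dp (n+1) σ gives σ x = x as x^(n+2) = 0,
so σ = 1 by `aut_ext`) and the sets {Ex d} for 1 ≤ d ≤ n; |{Ex d}| = |{Dp d}| - |{Dp (d+1)}| = p^(n+1-d) - p^(n-d)
(`card_dp`; Dp (d+1) implies Dp d; Nat.card (ZMod p) = p). The set of pairs is the disjoint union over σ of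
{τ : Q σ τ} (Nat.card_sigma).
`close1`: for d ≤ 2ν the term is (p^(4ν+1-d) - p^(4ν-d)) p^(d+1) = p^(4ν) (p-1) p, for 2ν < d ≤ 4ν it is p^(4ν)(p-1);
the sum is p^(4ν) (p-1)(2ν p + 2ν) = 2ν (p²-1) p^(4ν). `close2`: half of the d in each range are even.
(Induction on ν is awkward; better: split Icc 1 (4ν) at 2ν, `Finset.sum_congr` to constants, and count the even
numbers; or write even d = 2e.)
-/

namespace Pool.Agent.Work.MP_34d05d_al.DO

open Pool.Agent.Work.MP_34d05d_al Polynomial Finset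

private theorem dp_succ {K : Type} [Field K] {n d : ℕ} {σ : TP K n ≃ₐ[K] TP K n}
    (h : Dp (d + 1) σ) : Dp d σ := (pow_dvd_pow _ (by omega)).trans h

private theorem dp_top {K : Type} [Field K] {n : ℕ} (σ : TP K n ≃ₐ[K] TP K n) :
    Dp (n + 1) σ ↔ σ = 1 := by
  constructor
  · intro h
    unfold Dp at h
    rw [rt_pow, zero_dvd_iff, sub_eq_zero] at h
    exact aut_ext _ _ h
  · rintro rfl
    unfold Dp
    rw [AlgEquiv.one_apply, sub_self]
    exact dvd_zero _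

private theorem tel (A f : ℕ → ℕ) (n : ℕ) (h : ∀ k, 1 ≤ k → k ≤ n → A k = A (k + 1) + f k) :
    ∀ m, m ≤ n → A 1 = A (m + 1) + ∑ k ∈ Icc 1 m, f k := by
  intro m
  induction m with
  | zero =>
    intro _
    simp
  | succ m ih =>
    intro hm
    rw [ih (by omega), Finset.sum_Icc_succ_top (by omega), h (m + 1) (by omega) hm]
    ring

private theorem ncard_filter {α : Type} [Fintype α] (P : α → Prop) [DecidablePred P] :
    Nat.card {x : α // P x} = (univ.filter P).card := by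
  rw [Nat.card_eq_fintype_card, Fintype.card_subtype]

theorem sum_depth (p : ℕ) [Fact p.Prime] (n : ℕ)
    (Q : (TP (ZMod p) n ≃ₐ[ZMod p] TP (ZMod p) n) → (TP (ZMod p) n ≃ₐ[ZMod p] TP (ZMod p) n) → Prop)
    (c : ℕ → ℕ) (c0 : ℕ)
    (hc : ∀ d : ℕ, 1 ≤ d → d ≤ n → ∀ σ, Ex d σ → Nat.card {τ // Q σ τ} = c d)
    (h0 : Nat.card {τ // Q 1 τ} = c0) :
    Nat.card {q : (TP (ZMod p) n ≃ₐ[ZMod p] TP (ZMod p) n) ×
        (TP (ZMod p) n ≃ₐ[ZMod p] TP (ZMod p) n) // Dp 1 q.1 ∧ Q q.1 q.2} =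
      c0 + ∑ d ∈ Icc 1 n, (p ^ (n + 1 - d) - p ^ (n - d)) * c d := by
  classical
  haveI hfin : Finite (TP (ZMod p) n ≃ₐ[ZMod p] TP (ZMod p) n) := finiteAut
  haveI : Fintype (TP (ZMod p) n ≃ₐ[ZMod p] TP (ZMod p) n) := Fintype.ofFinite _
  obtain ⟨A, hA⟩ : ∃ A : ℕ → ℕ, ∀ k, A k = ∑ σ ∈ univ.filter (fun σ : TP (ZMod p) n ≃ₐ[ZMod p]
      TP (ZMod p) n => Dp k σ), Nat.card {τ // Q σ τ} := ⟨_, fun _ => rfl⟩
  have e1 : Nat.card {q : (TP (ZMod p) n ≃ₐ[ZMod p] TP (ZMod p) n) ×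
        (TP (ZMod p) n ≃ₐ[ZMod p] TP (ZMod p) n) // Dp 1 q.1 ∧ Q q.1 q.2} = A 1 := by
    rw [hA, Finset.sum_subtype (p := fun σ : TP (ZMod p) n ≃ₐ[ZMod p] TP (ZMod p) n => Dp 1 σ)
      (univ.filter (fun σ : TP (ZMod p) n ≃ₐ[ZMod p] TP (ZMod p) n => Dp 1 σ))
      (fun x => by rw [Finset.mem_filter]; exact ⟨fun h => h.2, fun h => ⟨Finset.mem_univ _, h⟩⟩)
      (fun σ => Nat.card {τ // Q σ τ})]
    rw [← Nat.card_sigma (β := fun σ : {σ : TP (ZMod p) n ≃ₐ[ZMod p] TP (ZMod p) n // Dp 1 σ} =>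
      {τ // Q σ.1 τ})]
    exact Nat.card_congr ⟨fun q => ⟨⟨q.1.1, q.2.1⟩, ⟨q.1.2, q.2.2⟩⟩,
      fun s => ⟨(s.1.1, s.2.1), s.1.2, s.2.2⟩, fun _ => rfl, fun _ => rfl⟩
  have hex : ∀ d, 1 ≤ d → d ≤ n → (univ.filter (fun σ : TP (ZMod p) n ≃ₐ[ZMod p]
      TP (ZMod p) n => Ex d σ)).card = p ^ (n + 1 - d) - p ^ (n - d) := by
    intro d hd1 hdn
    have c1 : (univ.filter (fun σ : TP (ZMod p) n ≃ₐ[ZMod p] TP (ZMod p) n => Dp d σ)).card =
        p ^ (n + 1 - d) := by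
      rw [← ncard_filter, card_dp (K := ZMod p) (n := n) d hd1 (by omega), Nat.card_zmod]
    have c2 : (univ.filter (fun σ : TP (ZMod p) n ≃ₐ[ZMod p] TP (ZMod p) n =>
        Dp (d + 1) σ)).card = p ^ (n - d) := by
      rw [← ncard_filter, card_dp (K := ZMod p) (n := n) (d + 1) (by omega) (by omega),
        Nat.card_zmod]
      congr 1
      omega
    have e3 : (univ.filter (fun σ : TP (ZMod p) n ≃ₐ[ZMod p] TP (ZMod p) n => Dp d σ)).card =
        (univ.filter (fun σ : TP (ZMod p) n ≃ₐ[ZMod p] TP (ZMod p) n => Dp (d + 1) σ)).card +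
        (univ.filter (fun σ : TP (ZMod p) n ≃ₐ[ZMod p] TP (ZMod p) n => Ex d σ)).card := by
      rw [← Finset.card_union_of_disjoint]
      · congr 1
        ext σ
        simp only [Finset.mem_filter, Finset.mem_univ, true_and, Finset.mem_union]
        constructor
        · intro h
          by_cases h' : Dp (d + 1) σ
          · exact Or.inl h'
          · exact Or.inr ⟨h, h'⟩
        · rintro (h | h)
          · exact dp_succ h
          · exact h.1
      · rw [Finset.disjoint_filter]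
        intro σ _ h1 h2
        exact h2.2 h1
    omega
  have hstep : ∀ k, 1 ≤ k → k ≤ n →
      A k = A (k + 1) + (p ^ (n + 1 - k) - p ^ (n - k)) * c k := by
    intro k hk1 hkn
    rw [hA, hA, ← hex k hk1 hkn]
    have e2 : ∑ σ ∈ univ.filter (fun σ : TP (ZMod p) n ≃ₐ[ZMod p] TP (ZMod p) n => Ex k σ),
        Nat.card {τ // Q σ τ} = (univ.filter (fun σ : TP (ZMod p) n ≃ₐ[ZMod p]
        TP (ZMod p) n => Ex k σ)).card * c k := by
      rw [Finset.sum_congr rfl fun σ hσ => hc k hk1 hkn σ (Finset.mem_filter.1 hσ).2,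
        Finset.sum_const, smul_eq_mul]
    rw [← e2, ← Finset.sum_union]
    · refine Finset.sum_congr ?_ fun _ _ => rfl
      ext σ
      simp only [Finset.mem_filter, Finset.mem_univ, true_and, Finset.mem_union]
      constructor
      · intro h
        by_cases h' : Dp (k + 1) σ
        · exact Or.inl h'
        · exact Or.inr ⟨h, h'⟩
      · rintro (h | h)
        · exact dp_succ h
        · exact h.1
    · rw [Finset.disjoint_filter]
      intro σ _ h1 h2
      exact h2.2 h1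
  have htop : A (n + 1) = c0 := by
    rw [hA]
    have e2 : univ.filter (fun σ : TP (ZMod p) n ≃ₐ[ZMod p] TP (ZMod p) n => Dp (n + 1) σ) =
        {1} := by
      ext σ
      rw [Finset.mem_filter, Finset.mem_singleton, dp_top]
      exact ⟨fun h => h.2, fun h => ⟨Finset.mem_univ _, h⟩⟩
    rw [e2, Finset.sum_singleton, h0]
  rw [e1, tel A (fun d => (p ^ (n + 1 - d) - p ^ (n - d)) * c d) n hstep n le_rfl, htop]

private theorem sum_two (x y a b : ℕ) :
    ∑ d ∈ Icc 1 (a + b), (if d ≤ a then x else y) = a * x + b * y := by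
  induction b with
  | zero =>
    rw [add_zero, zero_mul, add_zero]
    have h : ∀ d ∈ Icc 1 a, (if d ≤ a then x else y) = x := fun d hd =>
      if_pos (Finset.mem_Icc.1 hd).2
    rw [Finset.sum_congr rfl h, Finset.sum_const, Nat.card_Icc, smul_eq_mul, Nat.add_sub_cancel]
  | succ b ih =>
    rw [← add_assoc, Finset.sum_Icc_succ_top (by omega), ih, if_neg (by omega)]
    ring

private theorem sum_even_one (x a : ℕ) :
    ∑ d ∈ Icc 1 (2 * a), (if Even d then x else 0) = a * x := by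
  induction a with
  | zero => simp
  | succ a ih =>
    have e : 2 * (a + 1) = 2 * a + 1 + 1 := by ring
    rw [e, Finset.sum_Icc_succ_top (by omega), Finset.sum_Icc_succ_top (by omega), ih,
      if_neg (by rw [Nat.not_even_iff_odd]; exact ⟨a, rfl⟩), if_pos ⟨a + 1, by ring⟩]
    ring

private theorem sum_even_two (x y a b : ℕ) :
    ∑ d ∈ Icc 1 (2 * a + 2 * b), (if Even d then (if d ≤ 2 * a then x else y) else 0) =
      a * x + b * y := by
  induction b with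
  | zero =>
    rw [mul_zero, add_zero, zero_mul, add_zero, ← sum_even_one x a]
    refine Finset.sum_congr rfl fun d hd => ?_
    rw [if_pos (Finset.mem_Icc.1 hd).2]
  | succ b ih =>
    have e : 2 * a + 2 * (b + 1) = 2 * a + 2 * b + 1 + 1 := by ring
    rw [e, Finset.sum_Icc_succ_top (by omega), Finset.sum_Icc_succ_top (by omega), ih,
      if_neg (by rw [Nat.not_even_iff_odd]; exact ⟨a + b, by ring⟩),
      if_pos ⟨a + b + 1, by ring⟩, if_neg (by omega)]
    ring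

private theorem term_eq (p ν d : ℕ) (hd : d ∈ Icc 1 (4 * ν)) :
    (p ^ (4 * ν + 1 - d) - p ^ (4 * ν - d)) * (if 2 * d ≤ 4 * ν then p ^ (d + 1) else p ^ d) =
      p ^ (4 * ν) * (p - 1) * (if d ≤ 2 * ν then p else 1) := by
  rw [Finset.mem_Icc] at hd
  have e1 : p ^ (4 * ν + 1 - d) - p ^ (4 * ν - d) = p ^ (4 * ν - d) * (p - 1) := by
    have e2 : 4 * ν + 1 - d = (4 * ν - d) + 1 := by omega
    rw [e2, pow_succ, Nat.mul_sub, mul_one]
  have e3 : p ^ (4 * ν) = p ^ (4 * ν - d) * p ^ d := by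
    rw [← pow_add]
    congr 1
    omega
  rw [e1]
  by_cases h : d ≤ 2 * ν
  · rw [if_pos h, if_pos (by omega), e3, pow_succ]
    ring
  · rw [if_neg h, if_neg (by omega), e3]
    ring

theorem close1 (p ν : ℕ) (hp : 2 ≤ p) :
    p ^ (4 * ν) + ∑ d ∈ Icc 1 (4 * ν), (p ^ (4 * ν + 1 - d) - p ^ (4 * ν - d)) *
        (if 2 * d ≤ 4 * ν then p ^ (d + 1) else p ^ d) =
      (1 + 2 * ν * (p ^ 2 - 1)) * p ^ (4 * ν) := by
  rw [Finset.sum_congr rfl (term_eq p ν), ← Finset.mul_sum]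
  have e1 : 4 * ν = 2 * ν + 2 * ν := by ring
  have e2 : ∑ d ∈ Icc 1 (4 * ν), (if d ≤ 2 * ν then p else 1) = 2 * ν * p + 2 * ν * 1 := by
    rw [e1]
    exact sum_two p 1 (2 * ν) (2 * ν)
  rw [e2]
  obtain ⟨r, rfl⟩ : ∃ r, p = r + 1 := ⟨p - 1, by omega⟩
  have e3 : (r + 1) ^ 2 - 1 = r * (r + 2) := by
    have : (r + 1) ^ 2 = r * (r + 2) + 1 := by ring
    omega
  rw [e3, Nat.add_sub_cancel]
  ring

theorem close2 (p ν : ℕ) (hp : 2 ≤ p) :
    p ^ (4 * ν) + ∑ d ∈ Icc 1 (4 * ν), (p ^ (4 * ν + 1 - d) - p ^ (4 * ν - d)) *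
        (if Even d then (if 2 * d ≤ 4 * ν then p ^ (d + 1) else p ^ d) else 0) =
      (1 + ν * (p ^ 2 - 1)) * p ^ (4 * ν) := by
  have e0 : ∀ d ∈ Icc 1 (4 * ν), (p ^ (4 * ν + 1 - d) - p ^ (4 * ν - d)) *
        (if Even d then (if 2 * d ≤ 4 * ν then p ^ (d + 1) else p ^ d) else 0) =
        p ^ (4 * ν) * (p - 1) * (if Even d then (if d ≤ 2 * ν then p else 1) else 0) := by
    intro d hd
    by_cases h : Even d
    · rw [if_pos h, if_pos h]
      exact term_eq p ν d hd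
    · rw [if_neg h, if_neg h, mul_zero, mul_zero]
  rw [Finset.sum_congr rfl e0, ← Finset.mul_sum]
  have e1 : 4 * ν = 2 * ν + 2 * ν := by ring
  have e2 : ∑ d ∈ Icc 1 (4 * ν), (if Even d then (if d ≤ 2 * ν then p else 1) else 0) =
      ν * p + ν * 1 := by
    rw [e1]
    exact sum_even_two p 1 ν ν
  rw [e2]
  obtain ⟨r, rfl⟩ : ∃ r, p = r + 1 := ⟨p - 1, by omega⟩
  have e3 : (r + 1) ^ 2 - 1 = r * (r + 2) := by
    have : (r + 1) ^ 2 = r * (r + 2) + 1 := by ring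
    omega
  rw [e3, Nat.add_sub_cancel]
  ring

end Pool.Agent.Work.MP_34d05d_al.DO
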